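import Mathlib

/-!
Completely additive size functions and a Newton-type recursion for multiplicative weights.
-/

open Finset Filter Topology

namespace Pool.Agent.P.MP_7eacff_nt

/-- The completely additive function with value `j p` at the prime `p`. -/
def sz (j : ℕ → ℕ) (n : ℕ) : ℕ := n.factorization.sum fun p k => k * j p

/-- The completely multiplicative function with value `x p` at the prime `p`. -/
def cm (x : ℕ → ℝ) (n : ℕ) : ℝ := n.factorization.prod fun p k => x p ^ k

theorem sz_mul (j : ℕ → ℕ) {m n : ℕ} (hm : m ≠ 0) (hn : n ≠ 0) :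
    sz j (m * n) = sz j m + sz j n := by
  rw [sz, Nat.factorization_mul hm hn, Finsupp.sum_add_index' (by simp) (by simp [add_mul])]
  rfl

@[simp] theorem sz_one (j : ℕ → ℕ) : sz j 1 = 0 := by simp [sz]

theorem sz_prime_pow (j : ℕ → ℕ) {p : ℕ} (hp : p.Prime) (k : ℕ) : sz j (p ^ k) = k * j p := by
  rw [sz, hp.factorization_pow, Finsupp.sum_single_index (by simp)]

theorem sz_prime (j : ℕ → ℕ) {p : ℕ} (hp : p.Prime) : sz j p = j p := by
  simpa using sz_prime_pow j hp 1

theorem cm_mul (x : ℕ → ℝ) {m n : ℕ} (hm : m ≠ 0) (hn : n ≠ 0) :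
    cm x (m * n) = cm x m * cm x n := by
  rw [cm, Nat.factorization_mul hm hn, Finsupp.prod_add_index' (by simp) (by simp [pow_add])]
  rfl

@[simp] theorem cm_one (x : ℕ → ℝ) : cm x 1 = 1 := by simp [cm]

theorem cm_prime_pow (x : ℕ → ℝ) {p : ℕ} (hp : p.Prime) (k : ℕ) : cm x (p ^ k) = x p ^ k := by
  rw [cm, hp.factorization_pow, Finsupp.prod_single_index (by simp)]

theorem cm_prime (x : ℕ → ℝ) {p : ℕ} (hp : p.Prime) : cm x p = x p := by
  simpa using cm_prime_pow x hp 1

theorem abs_cm_le_one {x : ℕ → ℝ} (h : ∀ p, p.Prime → |x p| ≤ 1) (n : ℕ) : |cm x n| ≤ 1 := by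
  rw [cm, Finsupp.prod, Finset.abs_prod]
  refine Finset.prod_le_one (fun _ _ => abs_nonneg _) fun p hp => ?_
  rw [abs_pow]
  exact pow_le_one₀ (abs_nonneg _) (h p (Nat.prime_of_mem_primeFactors hp))

theorem sz_eq_sum (j : ℕ → ℕ) (n : ℕ) :
    ∑ k ∈ n.divisors with IsPrimePow k, j k.minFac = sz j n := by
  refine Nat.recOnPrimeCoprime ?_ ?_ ?_ n
  · simp [sz]
  · intro p k hp
    rw [sum_filter, Nat.sum_divisors_prime_pow hp, Finset.sum_range_succ', sz_prime_pow j hp]
    have : ∀ i, (if IsPrimePow (p ^ (i + 1)) then j (p ^ (i + 1)).minFac else 0) = j p := by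
      intro i
      rw [if_pos (hp.isPrimePow.pow (Nat.succ_ne_zero i)), hp.pow_minFac (Nat.succ_ne_zero i)]
    simp [this, not_isPrimePow_one]
  intro a b ha' hb' hab ha hb
  rw [Nat.mul_divisors_filter_prime_pow hab, filter_union,
    sum_union (Nat.disjoint_divisors_filter_isPrimePow hab), ha, hb,
    sz_mul j (by omega) (by omega)]

theorem log_le_sz {j : ℕ → ℕ} {c : ℝ} (h : ∀ p : ℕ, p.Prime → Real.log p ≤ c * j p) (n : ℕ) :
    Real.log n ≤ c * sz j n := by
  rw [Real.log_nat_eq_sum_factorization, sz, Finsupp.sum, Finsupp.sum, Nat.cast_sum,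
    Finset.mul_sum]
  refine Finset.sum_le_sum fun p hp => ?_
  have := h p (Nat.prime_of_mem_primeFactors hp)
  push_cast
  calc _ ≤ (n.factorization p : ℝ) * (c * j p) := by gcongr
    _ = _ := by ring

theorem one_le_sz {j : ℕ → ℕ} (h : ∀ p : ℕ, p.Prime → 1 ≤ j p) {n : ℕ} (hn : 2 ≤ n) :
    1 ≤ sz j n := by
  have hp := Nat.minFac_prime (show n ≠ 1 by omega)
  obtain ⟨m, hm⟩ := Nat.minFac_dvd n
  have hm0 : m ≠ 0 := by rintro rfl; omega
  rw [hm, sz_mul j hp.ne_zero hm0, sz_prime j hp]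
  have := h _ hp
  omega

variable {R : Type*} [CommRing R]

/-- Sum of `f` over the integers of size `s`. -/
def Es (j : ℕ → ℕ) (N : ℕ) (f : ℕ → R) (s : ℕ) : R := ∑ n ∈ Icc 1 N with sz j n = s, f n

/-- Weighted sum of `f` over the prime powers of size `i`. -/
def qs (j : ℕ → ℕ) (N : ℕ) (f : ℕ → R) (i : ℕ) : R :=
  Es j N (fun k => if IsPrimePow k then j k.minFac * f k else 0) i

theorem Es_zero {j : ℕ → ℕ} (h : ∀ p : ℕ, p.Prime → 1 ≤ j p) {N : ℕ} (hN : 1 ≤ N) (f : ℕ → R) :
    Es j N f 0 = f 1 := by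
  rw [Es, Finset.sum_eq_single_of_mem 1 (by simp [hN])]
  intro n hn hn1
  rw [mem_filter, mem_Icc] at hn
  have := one_le_sz h (show 2 ≤ n by omega)
  omega

theorem qs_zero {j : ℕ → ℕ} (h : ∀ p : ℕ, p.Prime → 1 ≤ j p) {N : ℕ} (hN : 1 ≤ N) (f : ℕ → R) :
    qs j N f 0 = 0 := by
  rw [qs, Es_zero h hN, if_neg not_isPrimePow_one]

theorem sum_sum_eq_sum_Es (j : ℕ → ℕ) (N : ℕ) (f g : ℕ → R) (F : ℕ → ℕ → R) (J : ℕ) :
    ∑ k ∈ Icc 1 N, ∑ m ∈ Icc 1 N,
        (if sz j k + sz j m ≤ J then F (sz j k) (sz j m) * (f k * g m) else 0) =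
      ∑ i ∈ range (J + 1), ∑ s ∈ range (J + 1),
        if i + s ≤ J then F i s * (Es j N f i * Es j N g s) else 0 := by
  have e : ∀ i s, (if i + s ≤ J then F i s * (Es j N f i * Es j N g s) else 0) =
      ∑ k ∈ Icc 1 N, ∑ m ∈ Icc 1 N, if i = sz j k then if s = sz j m then
        (if sz j k + sz j m ≤ J then F (sz j k) (sz j m) * (f k * g m) else 0) else 0 else 0 := by
    intro i s
    split_ifs with h
    · rw [Es, Es, sum_filter, sum_filter, sum_mul_sum, mul_sum]
      refine sum_congr rfl fun k _ => ?_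
      rw [mul_sum]
      refine sum_congr rfl fun m _ => ?_
      by_cases h1 : i = sz j k
      · by_cases h2 : s = sz j m
        · simp [← h1, ← h2, h]
        · simp [h2, Ne.symm h2]
      · simp [h1, Ne.symm h1]
    · symm
      refine sum_eq_zero fun k _ => sum_eq_zero fun m _ => ?_
      split_ifs with h1 h2 h3
      · exact absurd (by omega) h
      all_goals rfl
  simp_rw [e]
  symm
  rw [sum_congr rfl fun i _ => sum_comm, sum_comm]
  refine sum_congr rfl fun k _ => ?_
  rw [sum_congr rfl fun i _ => sum_comm, sum_comm]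
  refine sum_congr rfl fun m _ => ?_
  simp only [sum_ite_irrel, sum_const_zero, sum_ite_eq', mem_range]
  split_ifs <;> first | rfl | omega

theorem sum_mul_eq {j : ℕ → ℕ} {N J : ℕ} (hN : ∀ n, n ≠ 0 → sz j n ≤ J → n ≤ N)
    (F : ℕ → ℕ → R) (G : ℕ → R) :
    ∑ k ∈ Icc 1 N, ∑ m ∈ Icc 1 N, ∑ n ∈ Icc 1 N with sz j n ≤ J,
        (if k * m = n then F k m * G n else 0) =
      ∑ k ∈ Icc 1 N, ∑ m ∈ Icc 1 N,
        if sz j k + sz j m ≤ J then F k m * G (k * m) else 0 := by
  refine sum_congr rfl fun k hk => sum_congr rfl fun m hm => ?_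
  rw [mem_Icc] at hk hm
  have h0 : k * m ≠ 0 := Nat.mul_ne_zero (by omega) (by omega)
  rw [sum_ite_eq, ← sz_mul j (by omega) (by omega)]
  refine if_congr ?_ rfl rfl
  rw [mem_filter, mem_Icc]
  exact ⟨fun h => h.2, fun h => ⟨⟨by omega, hN _ h0 h⟩, h⟩⟩

theorem Es_rec {j : ℕ → ℕ} {N J : ℕ} (hN : ∀ n, n ≠ 0 → sz j n ≤ J → n ≤ N) {f : ℕ → R}
    (hf : ∀ m n, m ≠ 0 → n ≠ 0 → f (m * n) = f m * f n) {s : ℕ} (hs : s ≤ J) :
    s * Es j N f s = ∑ i ∈ range (s + 1), qs j N f i * Es j N f (s - i) := by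
  have hN' : ∀ n, n ≠ 0 → sz j n ≤ s → n ≤ N := fun n h0 h => hN n h0 (h.trans hs)
  have h1 := sum_sum_eq_sum_Es j N (fun k => if IsPrimePow k then j k.minFac * f k else 0) f
    (fun i r => if i + r = s then 1 else 0) s
  have h2 := sum_mul_eq hN' (fun k _ => if IsPrimePow k then (j k.minFac : R) else 0)
    (fun n => if sz j n = s then f n else 0)
  calc (s : R) * Es j N f s = ∑ n ∈ Icc 1 N with sz j n ≤ s, ∑ k ∈ Icc 1 N, ∑ m ∈ Icc 1 N,
        (if k * m = n then (if IsPrimePow k then (j k.minFac : R) else 0) *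
          (if sz j n = s then f n else 0) else 0) := by
        rw [Es, mul_sum, sum_filter, sum_filter]
        refine sum_congr rfl fun n hn => ?_
        rw [mem_Icc] at hn
        by_cases h : sz j n = s
        · rw [if_pos h, if_pos h.le, if_pos h, ← h, ← sz_eq_sum, Nat.cast_sum, sum_filter,
            ← Nat.sum_divisorsAntidiagonal fun k _ => if IsPrimePow k then (j k.minFac : R) else 0,
            Nat.divisorsAntidiagonal_eq_prod_filter_of_le (by omega) hn.2, sum_filter,
            sum_product, sum_mul]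
          refine sum_congr rfl fun k _ => ?_
          rw [sum_mul]
          refine sum_congr rfl fun m _ => ?_
          split_ifs <;> simp
        · simp [h]
    _ = _ := by
        rw [sum_comm, sum_congr rfl fun k _ => sum_comm, h2]
        refine Eq.trans (sum_congr rfl fun k hk => sum_congr rfl fun m hm => ?_) (h1.trans ?_)
        · rw [mem_Icc] at hk hm
          rw [sz_mul j (by omega) (by omega), hf k m (by omega) (by omega)]
          beta_reduce
          by_cases c1 : sz j k + sz j m ≤ s <;> by_cases c2 : sz j k + sz j m = s <;>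
            by_cases c3 : IsPrimePow k <;> simp [c1, c2, c3, mul_assoc]
        · refine sum_congr rfl fun i hi => ?_
          rw [mem_range] at hi
          rw [sum_eq_single_of_mem (s - i) (by rw [mem_range]; omega)]
          · rw [if_pos (by omega), if_pos (by omega), one_mul, qs]
          · intro r _ hr
            rw [if_neg (show ¬ i + r = s by omega)]
            simp

theorem norm_le_pow_of_rec {E q : ℕ → ℂ} {J : ℕ} {Y : ℝ} (hY : 1 ≤ Y) (h0 : E 0 = 1)
    (hq0 : q 0 = 0) (hq : ∀ i ≤ J, ‖q i‖ ≤ Y)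
    (hrec : ∀ s ≤ J, s * E s = ∑ i ∈ range (s + 1), q i * E (s - i)) :
    ∀ s ≤ J, ‖E s‖ ≤ Y ^ s := by
  intro s
  induction s using Nat.strong_induction_on with
  | _ s ih =>
    intro hs
    rcases Nat.eq_zero_or_pos s with rfl | hs0
    · simp [h0]
    have h1 := congrArg norm (hrec s hs)
    rw [norm_mul, Complex.norm_natCast, sum_range_succ', hq0, zero_mul, add_zero] at h1
    have h2 : ‖∑ i ∈ range s, q (i + 1) * E (s - (i + 1))‖ ≤ s * Y ^ s := by
      refine (norm_sum_le _ _).trans ((sum_le_card_nsmul _ _ (Y ^ s) fun i hi => ?_).trans_eq ?_)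
      · rw [mem_range] at hi
        rw [norm_mul]
        calc _ ≤ Y * Y ^ (s - (i + 1)) :=
              mul_le_mul (hq _ (by omega)) (ih _ (by omega) (by omega)) (norm_nonneg _)
                (by linarith)
          _ = Y ^ (s - (i + 1) + 1) := by ring
          _ ≤ _ := pow_le_pow_right₀ hY (by omega)
      · simp
    rw [← h1] at h2
    exact le_of_mul_le_mul_left h2 (by exact_mod_cast hs0)

/-- The coefficients of `(1 - z) ^ (-r)`. -/
noncomputable def Zc (r : ℝ) : ℕ → ℝ
  | 0 => 1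
  | s + 1 => Zc r s * (s + r) / (s + 1)

theorem Zc_sum (r : ℝ) (s : ℕ) : r * ∑ i ∈ range s, Zc r i = s * Zc r s := by
  induction s with
  | zero => simp
  | succ s ih =>
    rw [sum_range_succ, mul_add, ih, Zc]
    push_cast
    field_simp

theorem tendsto_Zc {ι : Type*} {l : Filter ι} {E q : ι → ℕ → ℝ} {J : ℕ} {r : ℝ}
    (h0 : ∀ᶠ T in l, E T 0 = 1 ∧ q T 0 = 0 ∧
      ∀ s ≤ J, s * E T s = ∑ i ∈ range (s + 1), q T i * E T (s - i))
    (hq : ∀ i, 1 ≤ i → i ≤ J → Tendsto (fun T => q T i) l (𝓝 r)) :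
    ∀ s ≤ J, Tendsto (fun T => E T s) l (𝓝 (Zc r s)) := by
  intro s
  induction s using Nat.strong_induction_on with
  | _ s ih =>
    intro hs
    rcases Nat.eq_zero_or_pos s with rfl | hs0
    · exact tendsto_const_nhds.congr' (h0.mono fun T hT => hT.1.symm)
    have hs' : (s : ℝ) ≠ 0 := by exact_mod_cast hs0.ne'
    have h1 : Tendsto (fun T => (∑ i ∈ range s, q T (i + 1) * E T (s - (i + 1))) / s) l
        (𝓝 ((∑ i ∈ range s, r * Zc r (s - (i + 1))) / s)) := by
      refine (tendsto_finsetSum _ fun i hi => ?_).div_const _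
      rw [mem_range] at hi
      exact (hq _ (by omega) (by omega)).mul (ih _ (by omega) (by omega))
    have h2 : (∑ i ∈ range s, r * Zc r (s - (i + 1))) / s = Zc r s := by
      rw [← mul_sum, div_eq_iff hs', mul_comm (Zc r s), ← Zc_sum,
        ← sum_range_reflect (fun i => Zc r i) s]
      congr 1
      exact sum_congr rfl fun i _ => by congr 1; omega
    rw [h2] at h1
    refine h1.congr' (h0.mono fun T hT => ?_)
    have := hT.2.2 s hs
    rw [sum_range_succ', hT.2.1, zero_mul, add_zero] at this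
    simp only
    rw [← this, mul_div_cancel_left₀ _ hs']

theorem sum_nonprime_le {F w : ℕ → ℝ} (hF0 : ∀ p, p.Prime → 0 ≤ F p)
    (hF1 : ∀ p, p.Prime → F p ≤ 3 / 4) (hF : ∀ p a, p.Prime → F (p ^ a) = F p ^ a)
    (hw : ∀ p, p.Prime → 0 ≤ w p) (N : ℕ) :
    ∑ k ∈ Icc 1 N with IsPrimePow k ∧ ¬ k.Prime, w k.minFac * F k ≤
      ∑ p ∈ Icc 1 N with p.Prime, 4 * (w p * F p ^ 2) := by
  rw [← sum_fiberwise_of_maps_to (g := Nat.minFac) (t := (Icc 1 N).filter Nat.Prime)]
  · refine sum_le_sum fun p hp => ?_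
    have hp' := (mem_filter.1 hp).2
    have hinj : Function.Injective fun a => p ^ (a + 2) := fun a b h => by
      have := Nat.pow_right_injective hp'.two_le h
      omega
    calc _ ≤ ∑ k ∈ (range N).image fun a => p ^ (a + 2), w k.minFac * F k := by
          refine sum_le_sum_of_subset_of_nonneg (fun k hk => ?_) fun k hk _ => ?_
          · simp only [mem_filter, mem_Icc] at hk
            obtain ⟨⟨⟨_, hkN⟩, hk1, hk2⟩, hk3⟩ := hk
            obtain ⟨q, a, hq, ha, rfl⟩ := (isPrimePow_nat_iff _).1 hk1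
            rw [hq.pow_minFac ha.ne'] at hk3
            subst hk3
            have ha1 : a ≠ 1 := by rintro rfl; exact hk2 (by simpa using hq)
            have := Nat.lt_pow_self (n := a) hq.one_lt
            exact mem_image.2 ⟨a - 2, mem_range.2 (by omega), by congr 1; omega⟩
          · obtain ⟨a, _, rfl⟩ := mem_image.1 hk
            rw [hp'.pow_minFac (by omega), hF p _ hp']
            exact mul_nonneg (hw p hp') (pow_nonneg (hF0 p hp') _)
      _ = ∑ a ∈ range N, w p * F p ^ 2 * F p ^ a := by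
          rw [sum_image fun a _ b _ h => hinj h]
          refine sum_congr rfl fun a _ => ?_
          rw [hp'.pow_minFac (by omega), hF p _ hp']; ring
      _ ≤ ∑ a ∈ range N, w p * F p ^ 2 * (3 / 4) ^ a := by
          have := hw p hp'
          have := hF0 p hp'
          have := hF1 p hp'
          gcongr
      _ ≤ _ := by
          rw [← mul_sum, mul_comm 4]
          have h1 := hw p hp'
          gcongr
          have := (summable_geometric_of_lt_one (r := 3 / 4) (by norm_num) (by norm_num)).sum_le_tsum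
            (range N) fun a _ => by positivity
          rw [tsum_geometric_of_lt_one (by norm_num) (by norm_num)] at this
          linarith
  · intro k hk
    simp only [mem_filter, mem_Icc] at hk ⊢
    have h1 : k ≠ 1 := hk.2.1.ne_one
    exact ⟨⟨(Nat.minFac_pos k), (Nat.minFac_le (by omega)).trans hk.1.2⟩, Nat.minFac_prime h1⟩

end Pool.Agent.P.MP_7eacff_nt
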