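import Pool.Agent.P.MP_7eacff_nt.Reso2

/-!
Asymptotics of the diagonal sums as the number of cells grows.
-/

open Filter Topology Finset
open scoped Real

namespace Pool.Agent.P.MP_7eacff_nt

theorem Zc_pos {r : ℝ} (hr : 0 < r) (n : ℕ) : 0 < Zc r n := by
  induction n with
  | zero => simp [Zc]
  | succ n ih => rw [Zc]; positivity

theorem Zc_add_one {r : ℝ} (hr : 0 < r) (n : ℕ) : Zc (r + 1) n = Zc r n * (n + r) / r := by
  induction n with
  | zero => simp [Zc, hr.ne']
  | succ n ih => rw [Zc, Zc, ih]; push_cast; field_simp; ring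

theorem sum_Zc {r : ℝ} (hr : 0 < r) (n : ℕ) : ∑ i ∈ range (n + 1), Zc r i = Zc (r + 1) n := by
  have := Zc_sum r (n + 1)
  rw [Zc] at this
  rw [Zc_add_one hr, eq_div_iff hr.ne', mul_comm, this]
  push_cast; field_simp

theorem Zc_one (n : ℕ) : Zc 1 n = 1 := by
  induction n with
  | zero => rfl
  | succ n ih => rw [Zc, ih]; field_simp

theorem mk_Zc_add_one {r : ℝ} (hr : 0 < r) :
    PowerSeries.mk (Zc (r + 1)) = PowerSeries.mk (Zc r) * PowerSeries.mk (Zc 1) := by
  ext n
  rw [PowerSeries.coeff_mul, Nat.sum_antidiagonal_eq_sum_range_succ_mk]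
  simp [Zc_one, sum_Zc hr]

theorem conv_Zc {r : ℝ} (hr : 0 < r) (k n : ℕ) :
    ∑ i ∈ range (n + 1), Zc r i * Zc (k + 1) (n - i) = Zc (r + 1 + k) n := by
  have h : PowerSeries.mk (Zc r) * PowerSeries.mk (Zc (k + 1)) = PowerSeries.mk (Zc (r + 1 + k)) := by
    induction k with
    | zero => simpa using (mk_Zc_add_one hr).symm
    | succ k ih =>
      push_cast
      rw [mk_Zc_add_one (by positivity), ← mul_assoc, ih, ← add_assoc,
        mk_Zc_add_one (by positivity)]
  have := congrArg (PowerSeries.coeff n) h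
  rw [PowerSeries.coeff_mul, Nat.sum_antidiagonal_eq_sum_range_succ_mk] at this
  simpa using this

theorem Zc_add_nat {r : ℝ} (hr : 0 < r) (k n : ℕ) :
    Zc (r + k) n = Zc r n * ∏ j ∈ range k, (n + r + j) / (r + j) := by
  induction k with
  | zero => simp
  | succ k ih =>
    push_cast
    rw [← add_assoc, Zc_add_one (by positivity), ih, prod_range_succ]
    ring

/-- Normalised rising factorial. -/
noncomputable def Pk (J k n : ℕ) : ℝ := k.factorial * Zc (k + 1) n / J ^ k

theorem Pk_eq (J k n : ℕ) : Pk J k n = ∏ j ∈ range k, ((n : ℝ) + 1 + j) / J := by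
  rw [Pk, add_comm (k : ℝ), Zc_add_nat one_pos, Zc_one, one_mul, prod_div_distrib, prod_div_distrib,
    prod_const, card_range, ← prod_range_add_one_eq_factorial]
  push_cast
  simp_rw [add_comm (1 : ℝ)]
  rw [mul_div_cancel₀]
  exact prod_ne_zero_iff.2 fun j _ => by positivity

theorem pow_sub_pow_le {x e : ℝ} (hx : 0 ≤ x) (hx1 : x ≤ 1) (he : 0 ≤ e) (k : ℕ) :
    (x + e) ^ k - x ^ k ≤ (1 + e) ^ k - 1 := by
  induction k with
  | zero => simp
  | succ k ih =>
    have h1 : x ^ k ≤ 1 := pow_le_one₀ hx hx1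
    have h2 : 0 ≤ (x + e) ^ k - x ^ k := sub_nonneg.2 (by gcongr; linarith)
    have h3 : (x + e) * ((x + e) ^ k - x ^ k) ≤ (1 + e) * ((1 + e) ^ k - 1) := by gcongr
    rw [pow_succ, pow_succ, pow_succ]
    nlinarith only [h3, he, h1]

/-- The error in replacing a rising factorial by a power. -/
noncomputable def dk (J k : ℕ) : ℝ := (1 + (k : ℝ) / J) ^ k - 1

theorem tendsto_dk (k : ℕ) : Tendsto (fun J => dk J k) atTop (𝓝 0) := by
  simpa [dk] using
    (((tendsto_const_div_atTop_nhds_zero_nat (k : ℝ)).const_add 1).pow k).sub_const 1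

theorem dk_nonneg (J k : ℕ) : 0 ≤ dk J k :=
  sub_nonneg.2 (one_le_pow₀ (le_add_of_nonneg_right (by positivity)))

theorem abs_Pk_sub {J n : ℕ} (hJ : 0 < J) (hn : n ≤ J) (k : ℕ) :
    |Pk J k n - ((n : ℝ) / J) ^ k| ≤ dk J k := by
  have hJ' : (0 : ℝ) < J := by exact_mod_cast hJ
  have h1 : ((n : ℝ) / J) ^ k ≤ Pk J k n := by
    rw [Pk_eq, ← card_range k, ← prod_const, card_range]
    refine prod_le_prod (fun _ _ => by positivity) fun j _ => ?_
    gcongr; linarith only [(Nat.cast_nonneg j : (0 : ℝ) ≤ j)]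
  have h2 : Pk J k n ≤ ((n : ℝ) / J + k / J) ^ k := by
    rw [Pk_eq]
    refine (prod_le_prod (g := fun _ => (n : ℝ) / J + k / J) (fun _ _ => by positivity)
      fun j hj => ?_).trans (by simp)
    have : (j : ℝ) + 1 ≤ k := by exact_mod_cast mem_range.1 hj
    rw [← add_div]; gcongr ?_ / _; linarith only [this]
  rw [abs_of_nonneg (by linarith only [h1])]
  refine le_trans (by linarith only [h2]) (pow_sub_pow_le (x := (n : ℝ) / J) (by positivity) ?_
    (by positivity) k)
  rw [div_le_one hJ']; exact_mod_cast hn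

theorem tendsto_avg {r L : ℝ} (hr : 0 < r) {f g : ℕ → ℕ → ℝ} {e : ℕ → ℝ}
    (he : Tendsto e atTop (𝓝 0)) (h : ∀ J, 0 < J → ∀ s ≤ J, |f J s - g J s| ≤ e J)
    (hg : Tendsto (fun J => (∑ s ∈ range (J + 1), g J s * Zc r s) / Zc (r + 1) J) atTop (𝓝 L)) :
    Tendsto (fun J => (∑ s ∈ range (J + 1), f J s * Zc r s) / Zc (r + 1) J) atTop (𝓝 L) := by
  refine hg.congr_dist (squeeze_zero' (Eventually.of_forall fun _ => dist_nonneg) ?_ he)
  filter_upwards [eventually_gt_atTop 0] with J hJ
  have hZ := Zc_pos (show 0 < r + 1 by linarith only [hr]) J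
  rw [dist_comm, Real.dist_eq, ← sub_div, abs_div, abs_of_pos hZ, div_le_iff₀ hZ, ← sum_sub_distrib,
    ← sum_Zc hr, mul_sum]
  refine (abs_sum_le_sum_abs _ _).trans (sum_le_sum fun s hs => ?_)
  have := Zc_pos hr s
  rw [← sub_mul, abs_mul, abs_of_pos this]
  gcongr
  exact h J hJ s (Nat.le_of_lt_succ (mem_range.1 hs))

/-- Moments of the limiting beta distribution. -/
noncomputable def bet (r : ℝ) (k : ℕ) : ℝ := ∏ j ∈ range k, ((j : ℝ) + 1) / (r + 1 + j)

theorem cast_sub_div {J s : ℕ} (hJ : 0 < J) (hs : s ≤ J) : ((J - s : ℕ) : ℝ) / J = 1 - s / J := by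
  have hJ' : (J : ℝ) ≠ 0 := by exact_mod_cast hJ.ne'
  rw [Nat.cast_sub hs]; field_simp

theorem tendsto_mom {r : ℝ} (hr : 0 < r) (k : ℕ) :
    Tendsto (fun J : ℕ => (∑ s ∈ range (J + 1), (1 - (s : ℝ) / J) ^ k * Zc r s) / Zc (r + 1) J)
      atTop (𝓝 (bet r k)) := by
  refine tendsto_avg hr (g := fun J s => Pk J k (J - s)) (tendsto_dk k) (fun J hJ s hs => ?_) ?_
  · rw [abs_sub_comm, ← cast_sub_div hJ hs]; exact abs_Pk_sub hJ (Nat.sub_le _ _) k
  have h1 : Tendsto (fun J : ℕ => ∏ j ∈ range k, ((j : ℝ) + 1) / (r + 1 + j) *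
      (1 + (r + 1 + j) / J)) atTop (𝓝 (bet r k)) := by
    refine tendsto_finsetProd _ fun j _ => ?_
    simpa using ((tendsto_const_div_atTop_nhds_zero_nat (r + 1 + j)).const_add 1).const_mul
      (((j : ℝ) + 1) / (r + 1 + j))
  refine h1.congr' ?_
  filter_upwards [eventually_gt_atTop 0] with J hJ
  have hJ' : (J : ℝ) ≠ 0 := by exact_mod_cast hJ.ne'
  have hZ := Zc_pos (show 0 < r + 1 by linarith only [hr]) J
  have e : ∑ s ∈ range (J + 1), Pk J k (J - s) * Zc r s =
      k.factorial / J ^ k * ∑ s ∈ range (J + 1), Zc r s * Zc (k + 1) (J - s) := by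
    rw [mul_sum]; exact sum_congr rfl fun s _ => by rw [Pk]; ring
  rw [e, conv_Zc hr, Zc_add_nat (by linarith only [hr]), mul_left_comm, mul_div_cancel_left₀ _ hZ.ne',
    ← prod_range_add_one_eq_factorial, ← card_range k, ← prod_const, card_range]
  push_cast
  rw [← prod_div_distrib, ← prod_mul_distrib]
  refine prod_congr rfl fun j _ => ?_
  have : 0 < r + 1 + j := by positivity
  field_simp
  ring

theorem inner_close {J n : ℕ} (hJ : 0 < J) (hn : n ≤ J) (b k : ℕ) :
    |(∑ i ∈ range (n + 1), ((i : ℝ) / J) ^ k * (((n - i : ℕ) : ℝ) / J) ^ b) / J -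
      b.factorial * k.factorial / (b + k + 1).factorial * ((n : ℝ) / J) ^ (b + k + 1)| ≤
      2 * (dk J k * (1 + dk J b) + dk J b) + dk J (b + k + 1) := by
  have hJ' : (0 : ℝ) < J := by exact_mod_cast hJ
  have hf : (0 : ℝ) < (b + k + 1).factorial := by positivity
  have hb := dk_nonneg J b
  have hk := dk_nonneg J k
  have e : (∑ i ∈ range (n + 1), Pk J k i * Pk J b (n - i)) / J =
      b.factorial * k.factorial / (b + k + 1).factorial * Pk J (b + k + 1) n := by
    have e1 : ∑ i ∈ range (n + 1), Pk J k i * Pk J b (n - i) = k.factorial * b.factorial /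
        (J ^ k * J ^ b) * ∑ i ∈ range (n + 1), Zc (k + 1) i * Zc (b + 1) (n - i) := by
      rw [mul_sum]; exact sum_congr rfl fun s _ => by rw [Pk, Pk]; ring
    rw [e1, conv_Zc (by positivity), Pk]
    push_cast
    rw [show (k : ℝ) + 1 + 1 + b = b + k + 1 + 1 by ring]
    field_simp
    ring
  have h1 : (b.factorial * k.factorial : ℝ) / (b + k + 1).factorial ≤ 1 := by
    rw [div_le_one hf]
    exact_mod_cast (Nat.le_of_dvd (Nat.factorial_pos _)
      (Nat.factorial_mul_factorial_dvd_factorial_add b k)).trans (Nat.factorial_le (Nat.le_succ _))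
  have h2 : |b.factorial * k.factorial / (b + k + 1).factorial * Pk J (b + k + 1) n -
      b.factorial * k.factorial / (b + k + 1).factorial * ((n : ℝ) / J) ^ (b + k + 1)| ≤
      dk J (b + k + 1) := by
    rw [← mul_sub, abs_mul, abs_of_nonneg (by positivity)]
    exact (mul_le_mul h1 (abs_Pk_sub hJ hn _) (abs_nonneg _) zero_le_one).trans_eq (one_mul _)
  refine (abs_sub_le _ _ _).trans (add_le_add ?_ h2)
  rw [← e, ← sub_div, abs_div, abs_of_pos hJ', div_le_iff₀ hJ', ← sum_sub_distrib]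
  refine (abs_sum_le_sum_abs _ _).trans ((sum_le_card_nsmul _ _
    (dk J k * (1 + dk J b) + dk J b) fun i hi => ?_).trans ?_)
  · have hi' : i ≤ J := by have := mem_range.1 hi; omega
    have h3 := abs_Pk_sub hJ hi' k
    have h4 := abs_Pk_sub hJ ((Nat.sub_le n i).trans hn) b
    have h5 : ∀ m ≤ J, ∀ a : ℕ, |((m : ℝ) / J) ^ a| ≤ 1 := fun m hm a => by
      rw [abs_of_nonneg (by positivity)]
      exact pow_le_one₀ (by positivity) (by rw [div_le_one hJ']; exact_mod_cast hm)
    have h6 := h5 i hi' k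
    have h7 := h5 _ ((Nat.sub_le n i).trans hn) b
    generalize ((i : ℝ) / J) ^ k = x at *
    generalize (((n - i : ℕ) : ℝ) / J) ^ b = y at *
    generalize Pk J k i = p at *
    generalize Pk J b (n - i) = q at *
    have h8 : |q| ≤ 1 + dk J b := by linarith only [h7, h4, abs_sub_abs_le_abs_sub q y]
    rw [show x * y - p * q = -((p - x) * q + x * (q - y)) by ring, abs_neg]
    refine (abs_add_le _ _).trans (add_le_add ?_ ?_)
    · rw [abs_mul]; gcongr
    · rw [abs_mul]; exact (mul_le_mul h6 h4 (abs_nonneg _) zero_le_one).trans_eq (one_mul _)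
  · rw [card_range, nsmul_eq_mul]
    have h3 : ((n + 1 : ℕ) : ℝ) ≤ 2 * J := by exact_mod_cast (by omega : n + 1 ≤ 2 * J)
    calc _ ≤ 2 * J * (dk J k * (1 + dk J b) + dk J b) := by gcongr
      _ = _ := by ring

theorem tendsto_dbl {r : ℝ} (hr : 0 < r) (a b k : ℕ) :
    Tendsto (fun J : ℕ => (∑ i ∈ range (J + 1), ∑ s ∈ range (J + 1), if i + s ≤ J then
      (1 - (s : ℝ) / J) ^ a * (1 - ((i + s : ℕ) : ℝ) / J) ^ b * (((i : ℝ) / J) ^ k / J * Zc r s)
      else 0) / Zc (r + 1) J) atTop
      (𝓝 (b.factorial * k.factorial / (b + k + 1).factorial * bet r (a + (b + k + 1)))) := by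
  have he : Tendsto (fun J => 2 * (dk J k * (1 + dk J b) + dk J b) + dk J (b + k + 1)) atTop
      (𝓝 0) := by
    simpa using ((((tendsto_dk k).mul ((tendsto_dk b).const_add 1)).add (tendsto_dk b)).const_mul
      2).add (tendsto_dk (b + k + 1))
  have h1 := tendsto_avg hr (f := fun J s => (1 - (s : ℝ) / J) ^ a *
      ((∑ i ∈ range (J - s + 1), ((i : ℝ) / J) ^ k * (((J - s - i : ℕ) : ℝ) / J) ^ b) / J))
    (g := fun J s => b.factorial * k.factorial / (b + k + 1).factorial *
      (1 - (s : ℝ) / J) ^ (a + (b + k + 1))) he (fun J hJ s hs => ?_)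
    (((tendsto_mom hr (a + (b + k + 1))).const_mul
      ((b.factorial * k.factorial : ℝ) / (b + k + 1).factorial)).congr fun J => by
        rw [← mul_div_assoc, mul_sum]; simp only [mul_assoc])
  · refine h1.congr' ?_
    filter_upwards [eventually_gt_atTop 0] with J hJ
    congr 1
    rw [sum_comm]
    refine sum_congr rfl fun s hs => ?_
    have hs' := mem_range.1 hs
    rw [← sum_filter, show (range (J + 1)).filter (fun i => i + s ≤ J) = range (J - s + 1) by
      ext i; simp only [mem_filter, mem_range]; omega, sum_div, mul_sum, sum_mul]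
    refine sum_congr rfl fun i hi => ?_
    have hi' := mem_range.1 hi
    rw [← cast_sub_div hJ (show i + s ≤ J by omega), show J - (i + s) = J - s - i by omega]
    ring
  · have h2 := inner_close hJ (Nat.sub_le J s) b k
    rw [cast_sub_div hJ hs] at h2
    have h3 : (s : ℝ) / J ≤ 1 := by
      rw [div_le_one (by exact_mod_cast hJ)]; exact_mod_cast hs
    have h4 : |(1 - (s : ℝ) / J) ^ a| ≤ 1 := by
      rw [abs_of_nonneg (pow_nonneg (by linarith only [h3]) _)]
      exact pow_le_one₀ (by linarith only [h3]) (sub_le_self _ (by positivity))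
    rw [pow_add, mul_left_comm, ← mul_sub, abs_mul]
    exact (mul_le_mul h4 h2 (abs_nonneg _) zero_le_one).trans_eq (one_mul _)

/-- The polynomial smoothing of the resonator. -/
noncomputable def psi (cf : ℕ → ℝ) (d J s : ℕ) : ℝ := ∑ a ∈ range d, cf a * (1 - (s : ℝ) / J) ^ a

theorem tendsto_NN {r : ℝ} (hr : 0 < r) (cf : ℕ → ℝ) (d : ℕ) :
    Tendsto (fun J => NN J (psi cf d J) (Zc r) / Zc (r + 1) J) atTop
      (𝓝 (∑ a ∈ range d, ∑ b ∈ range d, cf a * cf b * bet r (a + b))) := by
  refine (tendsto_finsetSum _ fun a _ => tendsto_finsetSum _ fun b _ =>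
    (tendsto_mom hr (a + b)).const_mul (cf a * cf b)).congr fun J => ?_
  simp only [NN, psi, sq, sum_mul, ← mul_div_assoc, mul_sum, ← sum_div]
  congr 1
  rw [sum_comm (s := range (J + 1))]
  refine sum_congr rfl fun a _ => ?_
  rw [sum_comm (s := range (J + 1))]
  exact sum_congr rfl fun b _ => sum_congr rfl fun s _ => by ring

theorem tendsto_MM {r : ℝ} (hr : 0 < r) (cf : ℕ → ℝ) (d : ℕ) (t : ℕ → ℝ) (m : ℕ) :
    Tendsto (fun J => MM J (psi cf d J) (Zc r)
      (fun i => (∑ k ∈ range m, t k * ((i : ℝ) / J) ^ (2 * k)) / J) / Zc (r + 1) J) atTop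
      (𝓝 (∑ a ∈ range d, ∑ b ∈ range d, ∑ k ∈ range m, cf a * cf b * t k *
        (b.factorial * (2 * k).factorial / (b + 2 * k + 1).factorial *
          bet r (a + (b + 2 * k + 1))))) := by
  refine (tendsto_finsetSum _ fun a _ => tendsto_finsetSum _ fun b _ => tendsto_finsetSum _
    fun k _ => (tendsto_dbl hr a b (2 * k)).const_mul (cf a * cf b * t k)).congr fun J => ?_
  simp only [← mul_div_assoc, ← sum_div]
  congr 1
  simp only [mul_sum]
  rw [MM]
  simp only [sum_comm (s := range d) (t := range (J + 1)),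
    sum_comm (s := range m) (t := range (J + 1))]
  refine sum_congr rfl fun s _ => sum_congr rfl fun i _ => ?_
  split_ifs
  · rw [psi, psi, sum_mul_sum]
    simp only [sum_mul]
    refine sum_congr rfl fun a _ => sum_congr rfl fun b _ => ?_
    rw [sum_div, sum_mul, mul_sum]
    exact sum_congr rfl fun k _ => by ring
  · simp

end Pool.Agent.P.MP_7eacff_nt
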