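import Pool.Agent.P.MP_7eacff_nt.Reso

/-!
Construction of the cell weights.
-/

open Filter Topology MeasureTheory Set
open scoped Real

namespace Pool.Agent.P.MP_7eacff_nt

theorem cell_integral {E : Type*} [NormedAddCommGroup E] [NormedSpace ℝ E] {g : ℝ → E}
    (hg : ∀ x, g x ≠ 0 → -1 < x ∧ x ≤ 0) {h i : ℝ} (hh : 0 < h)
    (hi : 1 ≤ i) (hi' : h * i < 1) : ∫ u in (0 : ℝ)..1, g (u / h - i) = h • ∫ x, g x := by
  rw [intervalIntegral.integral_eq_integral_of_support_subset (fun u hu => ?_),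
    Measure.integral_comp_div (fun x => g (x - i)), integral_sub_right_eq_self, abs_of_pos hh]
  obtain ⟨h1, h2⟩ := hg _ hu
  rw [lt_sub_iff_add_lt, lt_div_iff₀ hh] at h1
  rw [sub_nonpos, div_le_iff₀ hh] at h2
  constructor <;> nlinarith only [h1, hh, hi, hi', h2]

theorem exists_cells {r κ : ℝ} (hr : 0 < r) (hκ : 0 < κ) (hκ1 : κ < 1 / 2) :
    ∃ (ρ : ℝ) (e : ℕ → ℝ), 1 - 2 * κ ≤ ρ ∧ (1 - 2 * κ) * ρ ≤ 1 ∧ Tendsto e atTop (𝓝 0) ∧
      ∀ (J : ℕ) (h ε : ℝ), 0 < h → h * J < 1 → |ε| = 1 → ∃ φ δ B, Cells J h δ B φ ∧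
        (∀ i : ℕ, 1 ≤ i → i ≤ J → i * ∫ u in (0 : ℝ)..1, φ i u ^ 2 * u = r ^ 2) ∧ φ 0 = 0 ∧
        ∀ (f : ℝ → ℂ) (c : ℝ), Continuous f → f 0 = 0 → (∀ x y, ‖f x - f y‖ ≤ c * |x - y|) →
          ∀ i : ℕ, 1 ≤ i → i ≤ J → ‖ε * (∫ u in (0 : ℝ)..1, φ i u * f u) -
            ρ * r * (f (h * i) / i)‖ ≤ c * h * e i := by
  let b : ContDiffBump (-(1 / 2) : ℝ) := ⟨1 / 2 - κ, 1 / 2 - κ / 2, by linarith only [hκ1], by linarith only [hκ]⟩
  have hb : ∀ x, b x ≠ 0 → -1 + κ / 2 < x ∧ x < -(κ / 2) := fun x hx => by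
    have : x ∈ Metric.ball (-(1 / 2) : ℝ) (1 / 2 - κ / 2) := b.support_eq ▸ hx
    rw [Metric.mem_ball, Real.dist_eq, abs_lt] at this
    constructor <;> linarith only [this, this.1, this.2]
  have hbc : Continuous b := b.continuous
  have hbi : ∀ {f : ℝ → ℝ}, Continuous f → Integrable fun x => b x * f x := fun hf =>
    (hbc.mul hf).integrable_of_hasCompactSupport b.hasCompactSupport.mul_right
  have hbi1 : Integrable b := b.integrable
  have hb2 : Integrable fun x => b x * b x := hbi hbc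
  set β1 := ∫ x, b x with hβ1
  set β2 := ∫ x, b x * b x with hβ2
  set γ2 := ∫ x, b x * (b x * x) with hγ2
  have hbc0 : b (-(1 / 2)) = 1 := b.one_of_mem_closedBall (Metric.mem_closedBall_self b.rIn_pos.le)
  have h1 : 1 - 2 * κ ≤ β1 := by
    have := b.measure_closedBall_le_integral volume
    rw [Real.volume_real_closedBall b.rIn_pos.le] at this
    change 2 * (1 / 2 - κ) ≤ _ at this
    linarith only [this]
  have h2 : β1 ≤ 1 := by
    have := b.integral_le_measure_closedBall volume
    rw [Real.volume_real_closedBall b.rOut_pos.le] at this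
    change _ ≤ 2 * (1 / 2 - κ / 2) at this
    linarith only [hκ, this]
  have h3 : β2 ≤ β1 := integral_mono hb2 hbi1 fun x => mul_le_of_le_one_left b.nonneg b.le_one
  have h4 : 0 < β2 := integral_pos_of_integrable_nonneg_nonzero (x := -(1 / 2)) (hbc.mul hbc) hb2
    (fun x => mul_self_nonneg _) (by simp only [hbc0]; norm_num)
  have h4' : 1 - 2 * κ ≤ β2 := by
    have h5 := setIntegral_le_integral (s := Metric.closedBall (-(1 / 2) : ℝ) (1 / 2 - κ)) hb2
      (ae_of_all _ fun x => mul_self_nonneg _)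
    rw [setIntegral_congr_fun (g := fun _ => 1) measurableSet_closedBall
      (fun x hx => by simp only [b.one_of_mem_closedBall hx, mul_one]), setIntegral_const,
      Real.volume_real_closedBall (by linarith only [hκ1])] at h5
    simp only [smul_eq_mul] at h5
    linarith only [h5]
  have hA : ∀ i : ℝ, ∫ x, b x * (b x * (x + i)) = γ2 + i * β2 := fun i => by
    rw [hγ2, hβ2, ← integral_const_mul, ← integral_add (hbi (by fun_prop)) (hb2.const_mul i)]
    congr 1; funext x; ring
  have hApos : ∀ i : ℝ, 1 ≤ i → 0 < γ2 + i * β2 := fun i hi => by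
    rw [← hA]
    refine integral_pos_of_integrable_nonneg_nonzero (x := -(1 / 2)) (by fun_prop)
      (hbi (by fun_prop)) (fun x => ?_) (by simp only [hbc0]; linarith only [hκ, hκ1, hi])
    by_cases hx : b x = 0
    · simp [hx]
    · exact mul_nonneg b.nonneg (mul_nonneg b.nonneg (by linarith only [hκ, hi, hx, (hb x hx).1]))
  set α : ℕ → ℝ := fun i => r / √(i * (γ2 + i * β2)) with hα
  have hα0 : ∀ i, 0 ≤ α i := fun i => by positivity
  have hlim : Tendsto (fun i : ℕ => i * α i) atTop (𝓝 (r / √β2)) := by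
    have h5 : Tendsto (fun i : ℕ => r / √(γ2 / i + β2)) atTop (𝓝 (r / √β2)) := by
      refine tendsto_const_nhds.div ?_ (Real.sqrt_pos.2 h4).ne'
      simpa using ((tendsto_const_div_atTop_nhds_zero_nat γ2).add_const β2).sqrt
    refine h5.congr' ?_
    filter_upwards [eventually_ge_atTop 1] with i hi
    have hi' : (0 : ℝ) < i := by exact_mod_cast hi
    simp only [hα]
    rw [show i * (γ2 + i * β2) = i ^ 2 * (γ2 / i + β2) by field_simp,
      Real.sqrt_mul (by positivity), Real.sqrt_sq hi'.le, ← mul_div_assoc,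
      mul_div_mul_left _ _ hi'.ne']
  have hlim0 : Tendsto α atTop (𝓝 0) := by
    refine (hlim.div_atTop tendsto_natCast_atTop_atTop).congr' ?_
    filter_upwards [eventually_ge_atTop 1] with i hi
    exact mul_div_cancel_left₀ _ (by exact_mod_cast (by omega : i ≠ 0))
  refine ⟨β1 / √β2, fun i => α i * β1 + |i * α i * β1 - β1 / √β2 * r|, ?_, ?_, ?_,
    fun J h ε hh hJ hε => ?_⟩
  · refine h1.trans (le_div_self (by linarith) (Real.sqrt_pos.2 h4) ?_)
    exact Real.sqrt_le_one.2 (by linarith)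
  · rw [← mul_div_assoc, div_le_one (Real.sqrt_pos.2 h4)]
    refine Real.le_sqrt_of_sq_le ?_
    have : 0 ≤ (1 - 2 * κ) * β1 := mul_nonneg (by linarith) (by linarith)
    have : (1 - 2 * κ) * β1 ≤ 1 - 2 * κ := mul_le_of_le_one_right (by linarith) h2
    nlinarith
  · have := (hlim0.mul_const β1).add ((hlim.mul_const β1).sub_const (β1 / √β2 * r)).abs
    rwa [show r / √β2 * β1 - β1 / √β2 * r = 0 by ring, zero_mul, abs_zero, add_zero] at this
  have hε2 : ε * ε = 1 := by rw [← abs_mul_abs_self, hε, one_mul]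
  have hiJ : ∀ i : ℕ, i ≤ J → h * i < 1 := fun i hi =>
    lt_of_le_of_lt (by gcongr) hJ
  refine ⟨fun i u => if 1 ≤ i ∧ i ≤ J then ε * (α i / h) * b (u / h - i) else 0, h * (κ / 2),
    ∑ i ∈ Finset.range (J + 1), α i / h, ⟨hh, hJ, by positivity, fun i => ?_, fun i u hu => ?_,
      fun i u => ?_⟩, fun i hi hi' => ?_, by funext u; simp, fun f c hf hf0 hc i hi hi' => ?_⟩
  · split_ifs
    · exact contDiff_const.mul (b.contDiff.comp (by fun_prop))
    · exact contDiff_const
  · split_ifs at hu with hi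
    · obtain ⟨h5, h6⟩ := hb _ (right_ne_zero_of_mul hu)
      have hi' : (1 : ℝ) ≤ i := by exact_mod_cast hi.1
      rw [lt_sub_iff_add_lt, lt_div_iff₀ hh] at h5
      rw [sub_lt_iff_lt_add, div_lt_iff₀ hh] at h6
      exact ⟨by nlinarith only [h5, hκ, hh], by nlinarith only [h6, hκ, hh], by nlinarith only [hκ, h5, hκ1, hh, hi'], hi.2⟩
    · exact absurd rfl hu
  · have h5 : ∀ i, 0 ≤ α i / h := fun i => div_nonneg (hα0 i) hh.le
    split_ifs with hi
    · rw [abs_mul, abs_mul, hε, one_mul, abs_of_nonneg (h5 i), abs_of_nonneg b.nonneg]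
      exact (mul_le_of_le_one_right (h5 i) b.le_one).trans
        (Finset.single_le_sum (fun i _ => h5 i) (Finset.mem_range.2 (by omega)))
    · rw [abs_zero]; exact Finset.sum_nonneg fun i _ => h5 i
  · have hi1 : (1 : ℝ) ≤ i := by exact_mod_cast hi
    have h5 := cell_integral (g := fun x => α i ^ 2 / h * (b x * (b x * (x + i))))
      (fun x hx => by
        have := hb x (left_ne_zero_of_mul (right_ne_zero_of_mul hx))
        constructor <;> linarith only [hκ, this, this.1, this.2]) hh hi1 (hiJ i hi')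
    have e : ∀ u : ℝ, (ε * (α i / h) * b (u / h - i)) ^ 2 * u =
        α i ^ 2 / h * (b (u / h - i) * (b (u / h - i) * (u / h - i + i))) := fun u => by
      rw [mul_pow, mul_pow, sq ε, hε2]; field_simp; ring
    simp only [hi, hi', and_self, if_true, e]
    have h6 := hApos i hi1
    rw [h5, smul_eq_mul, integral_const_mul, hA, hα]
    simp only
    rw [div_pow, Real.sq_sqrt (by positivity)]
    field_simp
  · have hi1 : (1 : ℝ) ≤ i := by exact_mod_cast hi
    have hc0 : 0 ≤ c := by simpa using (norm_nonneg _).trans (hc 1 0)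
    have h5 := cell_integral
      (g := fun x => ((ε * (α i / h) : ℝ) : ℂ) * (b x * f (h * (x + i))))
      (fun x hx => by
        have := hb x (by simpa using left_ne_zero_of_mul (right_ne_zero_of_mul hx))
        constructor <;> linarith only [hκ, this, this.1, this.2]) hh hi1 (hiJ i hi')
    have e : ∀ u : ℝ, ((ε * (α i / h) * b (u / h - i) : ℝ) : ℂ) * f u =
        ((ε * (α i / h) : ℝ) : ℂ) * (b (u / h - i) * f (h * (u / h - i + i))) := fun u => by
      rw [show h * (u / h - i + i) = u by field_simp; ring]; push_cast; ring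
    simp only [hi, hi', and_self, if_true, e]
    rw [h5, integral_const_mul]
    have hbi' : Integrable fun x => (b x : ℂ) * f (h * (x + i)) :=
      Continuous.integrable_of_hasCompactSupport (by fun_prop)
        (b.hasCompactSupport.comp_left (g := fun x : ℝ => (x : ℂ)) (by simp)).mul_right
    have h6 : ‖(∫ x, b x * f (h * (x + i))) - β1 * f (h * i)‖ ≤ c * h * β1 := by
      have hb'' : Integrable fun x => (b x : ℂ) * f (h * i) := hbi1.ofReal.mul_const _
      rw [hβ1, ← integral_complex_ofReal, ← integral_mul_const,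
        ← integral_sub hbi' hb'', ← integral_const_mul]
      refine norm_integral_le_of_norm_le (hbi1.const_mul _) (ae_of_all _ fun x => ?_)
      by_cases hx : b x = 0
      · simp [hx]
      rw [← mul_sub, norm_mul, Complex.norm_real, Real.norm_of_nonneg b.nonneg, mul_comm]
      refine mul_le_mul_of_nonneg_right ((hc _ _).trans ?_) b.nonneg
      rw [show h * (x + i) - h * i = h * x by ring, abs_mul, abs_of_pos hh, ← mul_assoc]
      refine mul_le_of_le_one_right (by positivity) (abs_le.2 ?_)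
      constructor <;> linarith only [hκ, hx, hκ1, (hb x hx).1, (hb x hx).2]
    have h7 : ‖f (h * i) / i‖ ≤ c * h := by
      have := hc (h * i) 0
      rw [hf0, sub_zero, sub_zero, abs_of_pos (by positivity)] at this
      rw [norm_div, Complex.norm_natCast, div_le_iff₀ (by positivity)]
      linarith only [this]
    generalize (∫ x, b x * f (h * (x + i))) = w at *
    have hh' : (h : ℂ) ≠ 0 := by exact_mod_cast hh.ne'
    have hi0 : (i : ℂ) ≠ 0 := by exact_mod_cast (by omega : i ≠ 0)
    have hε3 : (ε : ℂ) * ε = 1 := by exact_mod_cast hε2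
    have e2 : ε * (h • (((ε * (α i / h) : ℝ) : ℂ) * w)) - (β1 / √β2 : ℝ) * r * (f (h * i) / i) =
        α i * (w - β1 * f (h * i)) +
          ((i * α i * β1 - β1 / √β2 * r : ℝ) : ℂ) * (f (h * i) / i) := by
      rw [Complex.real_smul]
      push_cast
      rw [show ε * (h * (ε * (α i / h) * w)) = ε * ε * (α i * w) by field_simp, hε3]
      field_simp
      ring
    rw [e2, mul_add]
    refine (norm_add_le _ _).trans (add_le_add ?_ ?_)
    · rw [norm_mul, Complex.norm_real, Real.norm_of_nonneg (hα0 i)]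
      exact (mul_le_mul_of_nonneg_left h6 (hα0 i)).trans_eq (by ring)
    · rw [norm_mul, Complex.norm_real, Real.norm_eq_abs, mul_comm]; gcongr

/-- Alternating bounds for the Taylor polynomials of the sine and the cosine. -/
theorem taylor_sin (n : ℕ) : (∀ x, 0 ≤ x → 0 ≤ (-1) ^ (n + 1) * (Real.cos x -
      ∑ k ∈ Finset.range (n + 1), (-1) ^ k * x ^ (2 * k) / (2 * k).factorial)) ∧
    ∀ x, 0 ≤ x → 0 ≤ (-1) ^ (n + 1) * (Real.sin x -
      ∑ k ∈ Finset.range (n + 1), (-1) ^ k * x ^ (2 * k + 1) / (2 * k + 1).factorial) := by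
  have key : ∀ {f f' : ℝ → ℝ}, (∀ x, HasDerivAt f (f' x) x) → f 0 = 0 → (∀ x, 0 ≤ x → 0 ≤ f' x) →
      ∀ x, 0 ≤ x → 0 ≤ f x := by
    intro f f' hf h0 h x hx
    have := monotoneOn_of_deriv_nonneg (convex_Ici 0)
      (fun y _ => (hf y).continuousAt.continuousWithinAt)
      (fun y _ => (hf y).differentiableAt.differentiableWithinAt)
      (fun y hy => by rw [(hf y).deriv]; exact h y (interior_subset hy)) self_mem_Ici hx hx
    rwa [h0] at this
  have hd : ∀ (m : ℕ) (a x : ℝ), HasDerivAt (fun x => a * x ^ (m + 1) / (m + 1).factorial)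
      (a * x ^ m / m.factorial) x := fun m a x => by
    refine (((hasDerivAt_pow (m + 1) x).const_mul a).div_const _).congr_deriv ?_
    rw [Nat.factorial_succ]; push_cast; field_simp
  have step : ∀ n : ℕ, (∀ x, 0 ≤ x → 0 ≤ (-1) ^ (n + 1) * (Real.cos x -
      ∑ k ∈ Finset.range (n + 1), (-1) ^ k * x ^ (2 * k) / (2 * k).factorial)) →
      ∀ x, 0 ≤ x → 0 ≤ (-1) ^ (n + 1) * (Real.sin x -
        ∑ k ∈ Finset.range (n + 1), (-1) ^ k * x ^ (2 * k + 1) / (2 * k + 1).factorial) :=
    fun n h => key (fun x => ((Real.hasDerivAt_sin x).sub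
      (HasDerivAt.fun_sum fun k _ => hd (2 * k) _ x)).const_mul _) (by simp) h
  induction n with
  | zero =>
    have : ∀ x, 0 ≤ x → 0 ≤ (-1) ^ (0 + 1) * (Real.cos x -
        ∑ k ∈ Finset.range (0 + 1), (-1) ^ k * x ^ (2 * k) / (2 * k).factorial) := fun x _ => by
      simpa using Real.cos_le_one x
    exact ⟨this, step 0 this⟩
  | succ n ih =>
    have : ∀ x, 0 ≤ x → 0 ≤ (-1) ^ (n + 1 + 1) * (Real.cos x -
        ∑ k ∈ Finset.range (n + 1 + 1), (-1) ^ k * x ^ (2 * k) / (2 * k).factorial) := by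
      simp_rw [Finset.sum_range_succ' _ (n + 1)]
      refine key (fun x => ?_) (by simp) ih.2
      have h1 := ((Real.hasDerivAt_cos x).sub ((HasDerivAt.fun_sum (u := Finset.range (n + 1))
        fun k _ => hd (2 * k + 1) ((-1) ^ (k + 1)) x).add_const 1)).const_mul ((-1) ^ (n + 1 + 1))
      refine (h1.congr_deriv ?_).congr_of_eventuallyEq (Eventually.of_forall fun y => ?_)
      · simp only [pow_succ (-1 : ℝ), mul_neg, mul_one, neg_mul, neg_div, Finset.sum_neg_distrib]
        ring
      · simp [mul_add]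
    exact ⟨this, step _ this⟩

theorem taylor_le_sin (m : ℕ) {x : ℝ} (hx : 0 ≤ x) :
    ∑ k ∈ Finset.range (2 * m + 2), (-1) ^ k * x ^ (2 * k + 1) / (2 * k + 1).factorial ≤
      Real.sin x := by
  have := (taylor_sin (2 * m + 1)).2 x hx
  rw [show 2 * m + 1 + 1 = 2 * (m + 1) by ring, pow_mul] at this
  rw [show 2 * m + 2 = 2 * (m + 1) by ring]
  simpa using this

end Pool.Agent.P.MP_7eacff_nt
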