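import Pool.Agent.P.MP_7eacff_nt.Fourier

/-!
The characters `n ^ (-i t)` and the prime sums.
-/

open Complex Filter Topology MeasureTheory Set ArithmeticFunction
open scoped Real

namespace Pool.Agent.P.MP_7eacff_nt

/-- `n ^ (-i t)`. -/
noncomputable def ch (n : ℕ) (t : ℝ) : ℂ := ee (-(Real.log n / (2 * π) * t))

@[simp] theorem norm_ch (n : ℕ) (t : ℝ) : ‖ch n t‖ = 1 := norm_ee _

theorem ch_mul {m n : ℕ} (hm : m ≠ 0) (hn : n ≠ 0) (t : ℝ) : ch (m * n) t = ch m t * ch n t := by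
  simp only [ch, ← ee_add]
  congr 1
  rw [Nat.cast_mul, Real.log_mul (by exact_mod_cast hm) (by exact_mod_cast hn)]
  ring

@[simp] theorem ch_one (t : ℝ) : ch 1 t = 1 := by simp [ch]

theorem conj_ch (n : ℕ) (t : ℝ) : (starRingEnd ℂ) (ch n t) = ch n (-t) := by
  simp only [ch, conj_ee]; congr 1; ring

@[fun_prop] theorem continuous_ch (n : ℕ) : Continuous (ch n) := by unfold ch; fun_prop

/-- One half of the prime side of the explicit formula. -/
noncomputable def Psum (φ : ℝ → ℂ) (T t : ℝ) : ℂ :=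
  ∑ n ∈ Finset.Icc 1 ⌊T⌋₊, ((vonMangoldt n / (√n * Real.log T) : ℝ) : ℂ) *
    φ (Real.log n / Real.log T) * ch n t

end Pool.Agent.P.MP_7eacff_nt
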