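import Pool.Agent.P.MP_7eacff_nt.Arith

/-!
Diagonal sums over coprime pairs.
-/

open Finset

namespace Pool.Agent.P.MP_7eacff_nt

/-- Integers of size at most `J`. -/
def SS (j : ℕ → ℕ) (N J : ℕ) : Finset ℕ := (Icc 1 N).filter fun n => sz j n ≤ J

/-- Coprime pairs of integers of size at most `J`. -/
def S2 (j : ℕ → ℕ) (N J : ℕ) : Finset (ℕ × ℕ) :=
  (SS j N J ×ˢ SS j N J).filter fun p => p.1.Coprime p.2

/-- The coefficients of the resonator. -/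
def bb (j : ℕ → ℕ) (x ψ : ℕ → ℝ) (n : ℕ) : ℝ := ψ (sz j n) * cm x n

/-- The total mass of the squared multiplicative weights. -/
def ZZ (j : ℕ → ℕ) (x : ℕ → ℝ) (N J : ℕ) : ℝ := ∑ n ∈ SS j N J, cm x n ^ 2

/-- The diagonal sum twisted by `n`. -/
def Tn (j : ℕ → ℕ) (x ψ : ℕ → ℝ) (N J n : ℕ) : ℝ := ∑ p ∈ S2 j N J, ∑ q ∈ S2 j N J,
  if n * p.1 * q.2 = p.2 * q.1 then bb j x ψ p.1 * bb j x ψ p.2 * (bb j x ψ q.1 * bb j x ψ q.2)
  else 0

/-- The part of `Tn` attached to the factorisation `n = e d`. -/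
def Vn (j : ℕ → ℕ) (x ψ : ℕ → ℝ) (N J e d : ℕ) : ℝ :=
  ∑ k ∈ SS j N J, ∑ l ∈ SS j N J,
    if e * k ∈ SS j N J ∧ d * l ∈ SS j N J ∧ k.Coprime (d * l) ∧ (e * k).Coprime l then
      bb j x ψ k * bb j x ψ (d * l) * (bb j x ψ (e * k) * bb j x ψ l) else 0

/-- Hypotheses on the arithmetic data. -/
structure Ar (j : ℕ → ℕ) (x ψ : ℕ → ℝ) (N J : ℕ) (ε Ψ : ℝ) : Prop where
  hj : ∀ p, p.Prime → 1 ≤ j p
  hN : ∀ n, n ≠ 0 → sz j n ≤ J → n ≤ N
  hx : ∀ p, p.Prime → |x p| ≤ ε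
  hψ : ∀ s ≤ J, |ψ s| ≤ Ψ

theorem ZZ_nonneg (j : ℕ → ℕ) (x : ℕ → ℝ) (N J : ℕ) : 0 ≤ ZZ j x N J :=
  sum_nonneg fun _ _ => sq_nonneg _

theorem Vn_comm (j : ℕ → ℕ) (x ψ : ℕ → ℝ) (N J e d : ℕ) : Vn j x ψ N J e d = Vn j x ψ N J d e := by
  rw [Vn, Vn, sum_comm]
  refine sum_congr rfl fun k _ => sum_congr rfl fun l _ => if_congr ?_ (by ring) rfl
  simp only [Nat.coprime_comm]
  tauto

theorem card_primeFactors_le {j : ℕ → ℕ} (hj : ∀ p, p.Prime → 1 ≤ j p) (m : ℕ) :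
    m.primeFactors.card ≤ sz j m := by
  rw [sz, Finsupp.sum, card_eq_sum_ones]
  refine sum_le_sum fun p hp => Nat.mul_pos ?_ (hj p (Nat.prime_of_mem_primeFactors hp))
  exact Nat.pos_of_ne_zero (Finsupp.mem_support_iff.1 hp)

namespace Ar

variable {j : ℕ → ℕ} {x ψ : ℕ → ℝ} {N J : ℕ} {ε Ψ : ℝ} (h : Ar j x ψ N J ε Ψ)
include h

theorem mem_SS {n : ℕ} : n ∈ SS j N J ↔ n ≠ 0 ∧ sz j n ≤ J := by
  rw [SS, mem_filter, mem_Icc]
  exact ⟨fun a => ⟨by omega, a.2⟩, fun a => ⟨⟨by omega, h.hN n a.1 a.2⟩, a.2⟩⟩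

theorem mem_of_dvd {d n : ℕ} (hn : n ∈ SS j N J) (hd : d ∣ n) : d ∈ SS j N J := by
  obtain ⟨m, rfl⟩ := hd
  rw [h.mem_SS] at hn ⊢
  obtain ⟨h1, h2⟩ := mul_ne_zero_iff.1 hn.1
  rw [sz_mul j h1 h2] at hn
  exact ⟨h1, by omega⟩

theorem Ψ_nonneg : 0 ≤ Ψ := (abs_nonneg _).trans (h.hψ 0 (Nat.zero_le _))

theorem abs_bb_le {n : ℕ} (hn : n ∈ SS j N J) : |bb j x ψ n| ≤ Ψ * |cm x n| := by
  rw [bb, abs_mul]; gcongr; exact h.hψ _ (h.mem_SS.1 hn).2

theorem sum_dvd {R : Type*} [AddCommMonoid R] {d : ℕ} (hd : d ≠ 0) (f : ℕ → R) :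
    ∑ l ∈ SS j N J with d ∣ l, f l = ∑ l ∈ SS j N J with d * l ∈ SS j N J, f (d * l) := by
  symm
  refine sum_nbij (fun l => d * l) (fun l hl => ?_) (fun a _ b _ hab => ?_) (fun l hl => ?_)
    fun _ _ => rfl
  · exact mem_filter.2 ⟨(mem_filter.1 hl).2, dvd_mul_right _ _⟩
  · exact Nat.eq_of_mul_eq_mul_left (Nat.pos_of_ne_zero hd) hab
  · obtain ⟨h1, m, rfl⟩ := mem_filter.1 (mem_coe.1 hl)
    exact ⟨m, mem_coe.2 (mem_filter.2 ⟨h.mem_of_dvd h1 (dvd_mul_left _ _), h1⟩), rfl⟩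

theorem noncop {m : ℕ} (hm : m ∈ SS j N J) :
    ∑ l ∈ SS j N J with ¬ m.Coprime l, cm x l ^ 2 ≤ J * ε ^ 2 * ZZ j x N J := by
  have hZ := ZZ_nonneg j x N J
  calc _ ≤ ∑ l ∈ SS j N J, ∑ q ∈ m.primeFactors, if q ∣ l then cm x l ^ 2 else 0 := by
        rw [sum_filter]
        refine sum_le_sum fun l _ => ?_
        have h0 : ∀ q ∈ m.primeFactors, 0 ≤ if q ∣ l then cm x l ^ 2 else 0 := fun q _ => by
          split_ifs <;> positivity
        split_ifs with hl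
        · exact sum_nonneg h0
        · obtain ⟨q, hq, h1, h2⟩ := Nat.Prime.not_coprime_iff_dvd.1 hl
          refine le_trans ?_ (single_le_sum h0
            (Nat.mem_primeFactors.2 ⟨hq, h1, (h.mem_SS.1 hm).1⟩))
          rw [if_pos h2]
    _ ≤ ∑ q ∈ m.primeFactors, ε ^ 2 * ZZ j x N J := by
        rw [sum_comm]
        refine sum_le_sum fun q hq => ?_
        have hq' := Nat.prime_of_mem_primeFactors hq
        rw [← sum_filter, h.sum_dvd hq'.ne_zero, ZZ, mul_sum]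
        refine (sum_le_sum fun l hl => ?_).trans
          (sum_le_sum_of_subset_of_nonneg (filter_subset _ _) fun _ _ _ => by positivity)
        rw [cm_mul _ hq'.ne_zero (h.mem_SS.1 (mem_filter.1 hl).1).1, mul_pow, cm_prime _ hq']
        gcongr ?_ * _
        exact sq_le_sq' (abs_le.1 (h.hx q hq')).1 (abs_le.1 (h.hx q hq')).2
    _ ≤ _ := by
        rw [sum_const, nsmul_eq_mul, mul_assoc]
        gcongr
        exact (card_primeFactors_le h.hj m).trans (h.mem_SS.1 hm).2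

theorem bb_sq_le {n : ℕ} (hn : n ∈ SS j N J) : bb j x ψ n ^ 2 ≤ Ψ ^ 2 * cm x n ^ 2 := by
  rw [← sq_abs (cm x n), ← mul_pow, ← sq_abs]
  gcongr; exact h.abs_bb_le hn

theorem cop_sum {m : ℕ} (hm : m ∈ SS j N J) :
    |(∑ l ∈ SS j N J, if m.Coprime l then bb j x ψ l ^ 2 else 0) - ∑ l ∈ SS j N J, bb j x ψ l ^ 2| ≤
      Ψ ^ 2 * (J * ε ^ 2 * ZZ j x N J) := by
  rw [← sum_filter, ← sum_filter_add_sum_filter_not (SS j N J) (fun l => m.Coprime l)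
    fun l => bb j x ψ l ^ 2, sub_add_cancel_left, abs_neg,
    abs_of_nonneg (sum_nonneg fun _ _ => sq_nonneg _)]
  refine le_trans ?_ (mul_le_mul_of_nonneg_left (h.noncop hm) (sq_nonneg Ψ))
  rw [mul_sum]
  exact sum_le_sum fun l hl => h.bb_sq_le (mem_filter.1 hl).1

theorem abs_bb_mul_le {e k : ℕ} (hk : k ∈ SS j N J) (hek : e * k ∈ SS j N J) :
    |bb j x ψ k * bb j x ψ (e * k)| ≤ Ψ ^ 2 * |cm x e| * cm x k ^ 2 := by
  obtain ⟨h1, h2⟩ := mul_ne_zero_iff.1 (h.mem_SS.1 hek).1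
  have := h.Ψ_nonneg
  rw [abs_mul]
  refine (mul_le_mul (h.abs_bb_le hk) (h.abs_bb_le hek) (abs_nonneg _) (by positivity)).trans_eq ?_
  rw [cm_mul _ h1 h2, abs_mul, ← sq_abs (cm x k)]; ring

theorem abs_Vn_le {e d : ℕ} (he : e ≠ 0) (hd : d ≠ 0) :
    |Vn j x ψ N J e d| ≤ Ψ ^ 4 * ZZ j x N J ^ 2 * |cm x (e * d)| := by
  have := h.Ψ_nonneg
  calc _ ≤ ∑ k ∈ SS j N J, ∑ l ∈ SS j N J,
        (Ψ ^ 2 * |cm x e| * cm x k ^ 2) * (Ψ ^ 2 * |cm x d| * cm x l ^ 2) := by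
        refine (abs_sum_le_sum_abs _ _).trans (sum_le_sum fun k hk =>
          (abs_sum_le_sum_abs _ _).trans (sum_le_sum fun l hl => ?_))
        split_ifs with hc
        · rw [show ∀ a b c d : ℝ, a * b * (c * d) = (a * c) * (d * b) by intros; ring, abs_mul]
          exact mul_le_mul (h.abs_bb_mul_le hk hc.1) (h.abs_bb_mul_le hl hc.2.1) (abs_nonneg _)
            (by positivity)
        · rw [abs_zero]; positivity
    _ = _ := by rw [← sum_mul_sum, ← mul_sum, ← mul_sum, cm_mul _ he hd, abs_mul, ZZ]; ring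

theorem abs_Vn_one_sub (n : ℕ) :
    |Vn j x ψ N J n 1 - (∑ k ∈ SS j N J, if n * k ∈ SS j N J then bb j x ψ k * bb j x ψ (n * k)
      else 0) * ∑ l ∈ SS j N J, bb j x ψ l ^ 2| ≤
      Ψ ^ 4 * ZZ j x N J ^ 2 * |cm x n| * (J * ε ^ 2) := by
  have := h.Ψ_nonneg
  have hZ := ZZ_nonneg j x N J
  rw [Vn, sum_mul, ← sum_sub_distrib]
  calc _ ≤ ∑ k ∈ SS j N J, (Ψ ^ 2 * |cm x n| * cm x k ^ 2) * (Ψ ^ 2 * (J * ε ^ 2 * ZZ j x N J)) := by
        refine (abs_sum_le_sum_abs _ _).trans (sum_le_sum fun k hk => ?_)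
        by_cases hc : n * k ∈ SS j N J
        · have e : ∑ l ∈ SS j N J, (if n * k ∈ SS j N J ∧ 1 * l ∈ SS j N J ∧ k.Coprime (1 * l) ∧
              (n * k).Coprime l then bb j x ψ k * bb j x ψ (1 * l) * (bb j x ψ (n * k) * bb j x ψ l)
              else 0) = bb j x ψ k * bb j x ψ (n * k) *
                ∑ l ∈ SS j N J, if (n * k).Coprime l then bb j x ψ l ^ 2 else 0 := by
            rw [mul_sum]
            refine sum_congr rfl fun l hl => ?_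
            rw [one_mul, mul_ite, mul_zero]
            refine if_congr ⟨fun a => a.2.2.2, fun a => ⟨hc, hl, a.coprime_mul_left, a⟩⟩
              (by ring) rfl
          rw [e, if_pos hc, ← mul_sub, abs_mul]
          exact mul_le_mul (h.abs_bb_mul_le hk hc) (h.cop_sum hc) (abs_nonneg _) (by positivity)
        · simp only [hc, false_and, if_false, sum_const_zero, zero_mul, sub_zero, abs_zero]
          positivity
    _ = _ := by rw [← sum_mul, ← mul_sum, ZZ]; ring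

theorem Tn_eq {n : ℕ} (hn : n ≠ 0) :
    Tn j x ψ N J n = ∑ d ∈ n.divisors, Vn j x ψ N J (n / d) d := by
  have e2 : ∑ d ∈ n.divisors, Vn j x ψ N J (n / d) d =
      ∑ w ∈ n.divisors ×ˢ (SS j N J ×ˢ SS j N J) with n / w.1 * w.2.1 ∈ SS j N J ∧
        w.1 * w.2.2 ∈ SS j N J ∧ w.2.1.Coprime (w.1 * w.2.2) ∧ (n / w.1 * w.2.1).Coprime w.2.2,
        bb j x ψ w.2.1 * bb j x ψ (w.1 * w.2.2) * (bb j x ψ (n / w.1 * w.2.1) * bb j x ψ w.2.2) := by
    rw [sum_filter, sum_product]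
    exact sum_congr rfl fun d _ => by rw [Vn, sum_product]
  rw [e2, Tn, ← sum_product', ← sum_filter]
  symm
  refine sum_nbij (fun w => ((w.2.1, w.1 * w.2.2), (n / w.1 * w.2.1, w.2.2))) ?_ ?_ ?_
    fun _ _ => rfl
  · rintro ⟨d, k, l⟩ hw
    simp only [mem_filter, mem_product, S2, Nat.mem_divisors] at hw ⊢
    obtain ⟨⟨⟨⟨e, rfl⟩, -⟩, hk, hl⟩, h1, h2, h3, h4⟩ := hw
    refine ⟨⟨⟨⟨hk, h2⟩, h3⟩, ⟨h1, hl⟩, h4⟩, ?_⟩
    rw [Nat.mul_div_cancel_left _ (Nat.pos_of_ne_zero (left_ne_zero_of_mul hn))]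
    ring
  · rintro ⟨d, k, l⟩ hw ⟨d', k', l'⟩ - he
    simp only [Prod.mk.injEq] at he
    obtain ⟨⟨rfl, h1⟩, -, rfl⟩ := he
    simp only [coe_filter, mem_product, Set.mem_ofPred_eq] at hw
    rw [Nat.eq_of_mul_eq_mul_right (Nat.pos_of_ne_zero (h.mem_SS.1 hw.1.2.2).1) h1]
  · rintro ⟨⟨k, l⟩, k', l'⟩ hz
    simp only [coe_filter, mem_filter, mem_product, S2, Set.mem_ofPred_eq] at hz
    obtain ⟨⟨⟨⟨hk, hl⟩, h1⟩, ⟨hk', hl'⟩, h2⟩, h3⟩ := hz
    obtain ⟨d, rfl⟩ : l' ∣ l := h2.symm.dvd_of_dvd_mul_right ⟨n * k, by rw [← h3]; ring⟩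
    have h4 : n * k = d * k' := Nat.eq_of_mul_eq_mul_right
      (Nat.pos_of_ne_zero (h.mem_SS.1 hl').1) (by rw [h3]; ring)
    obtain ⟨e, rfl⟩ : d ∣ n := h1.symm.coprime_mul_left.dvd_of_dvd_mul_right ⟨k', h4⟩
    have hd := Nat.pos_of_ne_zero (left_ne_zero_of_mul hn)
    obtain rfl : e * k = k' := Nat.eq_of_mul_eq_mul_left hd (by rw [← h4]; ring)
    refine ⟨(d, k, l'), ?_, ?_⟩
    · simp only [coe_filter, mem_product, Set.mem_ofPred_eq, Nat.mem_divisors,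
        Nat.mul_div_cancel_left _ hd, mul_comm d l']
      exact ⟨⟨⟨dvd_mul_right _ _, hn⟩, hk, hl'⟩, hk', hl, h1, h2⟩
    · simp only [Nat.mul_div_cancel_left _ hd, mul_comm d l']

theorem abs_Tn_sub {n : ℕ} (hn : 2 ≤ n) :
    |Tn j x ψ N J n - 2 * ((∑ k ∈ SS j N J, if n * k ∈ SS j N J then
      bb j x ψ k * bb j x ψ (n * k) else 0) * ∑ l ∈ SS j N J, bb j x ψ l ^ 2)| ≤
      Ψ ^ 4 * ZZ j x N J ^ 2 * |cm x n| *
        (2 * (J * ε ^ 2) + if n.Prime then 0 else n.divisors.card) := by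
  have hsub : ({1, n} : Finset ℕ) ⊆ n.divisors := by
    intro d hd
    simp only [mem_insert, mem_singleton] at hd
    rcases hd with rfl | rfl <;> simp <;> omega
  rw [h.Tn_eq (by omega), ← sum_sdiff hsub, sum_pair (by omega), Nat.div_one,
    Nat.div_self (by omega), Vn_comm j x ψ N J 1 n]
  have h1 := h.abs_Vn_one_sub n
  have h2 : |∑ d ∈ n.divisors \ {1, n}, Vn j x ψ N J (n / d) d| ≤
      Ψ ^ 4 * ZZ j x N J ^ 2 * |cm x n| * if n.Prime then 0 else n.divisors.card := by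
    split_ifs with hp
    · simp [hp.divisors]
    refine (abs_sum_le_sum_abs _ _).trans ((sum_le_card_nsmul _ _
      (Ψ ^ 4 * ZZ j x N J ^ 2 * |cm x n|) fun d hd => ?_).trans ?_)
    · have hd' := Nat.dvd_of_mem_divisors (mem_sdiff.1 hd).1
      have := h.abs_Vn_le (Nat.div_pos (Nat.le_of_dvd (by omega) hd')
        (Nat.pos_of_dvd_of_pos hd' (by omega))).ne' (Nat.pos_of_dvd_of_pos hd' (by omega)).ne'
      rwa [Nat.div_mul_cancel hd'] at this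
    · rw [nsmul_eq_mul, mul_comm]
      have := h.Ψ_nonneg
      gcongr
      exact sdiff_subset
  have h3 := abs_le.1 h1
  have h4 := abs_le.1 h2
  rw [abs_le]
  constructor <;> linarith [h3.1, h3.2, h4.1, h4.2]

theorem abs_sq_sub : |Tn j x ψ N J 1 - (∑ l ∈ SS j N J, bb j x ψ l ^ 2) ^ 2| ≤
    Ψ ^ 4 * ZZ j x N J ^ 2 * (J * ε ^ 2) := by
  have h1 := h.abs_Vn_one_sub 1
  have e2 : ∑ k ∈ SS j N J, (if 1 * k ∈ SS j N J then bb j x ψ k * bb j x ψ (1 * k) else 0) =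
      ∑ l ∈ SS j N J, bb j x ψ l ^ 2 := sum_congr rfl fun k hk => by simp [hk, sq]
  rw [e2, ← sq, cm_one, abs_one, mul_one] at h1
  simpa [h.Tn_eq one_ne_zero] using h1

theorem sum_S2_eq (f g : ℕ → ℂ) : ∑ p ∈ S2 j N J, f p.1 * g p.2 =
    ∑ d ∈ SS j N J, (ArithmeticFunction.moebius d : ℂ) *
      ((∑ k ∈ SS j N J with d ∣ k, f k) * ∑ l ∈ SS j N J with d ∣ l, g l) := by
  simp only [sum_filter, sum_mul_sum]
  simp only [mul_sum]
  rw [S2, sum_filter, sum_product, sum_comm (s := SS j N J) (f := fun d k => ∑ l ∈ SS j N J,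
    (ArithmeticFunction.moebius d : ℂ) * ((if d ∣ k then f k else 0) * if d ∣ l then g l else 0))]
  refine sum_congr rfl fun k hk => ?_
  rw [sum_comm]
  refine sum_congr rfl fun l hl => ?_
  have h0 : k.gcd l ≠ 0 := Nat.gcd_ne_zero_left (h.mem_SS.1 hk).1
  have h1 := congrArg (fun F : ArithmeticFunction ℂ => F (k.gcd l))
    ArithmeticFunction.coe_moebius_mul_coe_zeta
  simp only [ArithmeticFunction.coe_mul_zeta_apply, ArithmeticFunction.one_apply,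
    ArithmeticFunction.intCoe_apply] at h1
  have e : (k.gcd l).divisors = (SS j N J).filter fun d => d ∣ k ∧ d ∣ l := by
    ext d
    simp only [Nat.mem_divisors, mem_filter, Nat.dvd_gcd_iff]
    exact ⟨fun a => ⟨h.mem_of_dvd hk a.1.1, a.1⟩, fun a => ⟨a.2, h0⟩⟩
  calc _ = (∑ d ∈ (k.gcd l).divisors, (ArithmeticFunction.moebius d : ℂ)) * (f k * g l) := by
        rw [h1]; simp [Nat.Coprime]
    _ = _ := by
        rw [e, sum_filter, sum_mul]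
        refine sum_congr rfl fun d _ => ?_
        by_cases a : d ∣ k <;> by_cases b : d ∣ l <;> simp [a, b]

end Ar

end Pool.Agent.P.MP_7eacff_nt
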