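import Pool.Agent.P.MP_7eacff_nt.Stat

/-!
From the measure of a set of heights to the density of a set of indices.
-/

open Complex Filter Topology MeasureTheory Set
open scoped Real ENNReal

namespace Pool.Agent.P.MP_7eacff_nt

/-- The sequence `γ` lists the positive points of `μ` in increasing order. -/
structure Enum (μ : Measure ℝ) (γ : ℕ → ℝ) : Prop where
  mono : Monotone γ
  pos : ∀ n, 0 < γ n
  meas : ∀ A, A ⊆ Ioi 0 → MeasurableSet A → μ A = (γ ⁻¹' A).encard

theorem order_ne_top (y : ℝ) : analyticOrderAt riemannZeta (1 / 2 + y * I) ≠ ⊤ := by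
  rw [← order_xi (by simp) (fun h => by have := congrArg re h; norm_num at this)]
  intro h
  have ha : AnalyticOnNhd ℂ xi univ := fun z _ => differentiable_xi.analyticAt z
  exact xi_ne_zero (s := 2) (by simp) (ha.eqOn_zero_of_preconnected_of_eventuallyEq_zero
    isPreconnected_univ (mem_univ _) (analyticOrderAt_eq_top.1 h) (mem_univ _))

theorem enum_zmeas {γ : ℕ → ℝ} (hmono : Monotone γ) (hpos : ∀ n, 0 < γ n)
    (hmult : ∀ y : ℝ, 0 < y → {n | γ n = y}.encard = analyticOrderAt riemannZeta (1 / 2 + y * I)) :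
    Enum zmeas γ := by
  refine ⟨hmono, hpos, fun A hA hAm => ?_⟩
  have e : γ ⁻¹' A = ⋃ y : Ord, {n | γ n = y ∧ (y : ℝ) ∈ A} := by
    ext n
    simp only [mem_preimage, mem_iUnion, mem_ofPred_eq]
    refine ⟨fun h => ⟨⟨γ n, apply_eq_zero_of_analyticOrderAt_ne_zero ?_⟩, rfl, h⟩,
      fun ⟨y, h1, h2⟩ => h1 ▸ h2⟩
    rw [← hmult _ (hpos n)]
    exact encard_ne_zero.2 ⟨n, rfl⟩
  rw [← Measure.count_apply (MeasurableSet.of_discrete), e, measure_iUnion (fun a b hab =>
    disjoint_left.2 fun n h1 h2 => hab (Subtype.ext (h1.1.symm.trans h2.1)))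
    fun _ => MeasurableSet.of_discrete, zmeas, Measure.sum_apply _ hAm]
  refine tsum_congr fun y => ?_
  rw [Measure.smul_apply, Measure.dirac_apply' _ hAm, Measure.count_apply MeasurableSet.of_discrete]
  by_cases hy : (y : ℝ) ∈ A
  · simp only [hy, and_true, indicator_of_mem, Pi.one_apply, smul_eq_mul, mul_one]
    rw [hmult _ (hA hy), ← Nat.cast_analyticOrderNatAt (order_ne_top y), mult]
    simp
  · simp [hy]

theorem ZData.window_ne_top {μ : Measure ℝ} (hμ : ZData μ) (c : ℝ) {T : ℝ}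
    (hL : 2 * π ≤ Real.log T) (t : ℝ) :
    μ {y | |Real.log T / (2 * π) * (y - t)| ≤ c / 2} ≠ ⊤ := by
  have j3 := hμ.integrable_stat (measurable_ind c) (norm_ind_le _) hL t
  have hms : MeasurableSet {y | |Real.log T / (2 * π) * (y - t)| ≤ c / 2} :=
    measurableSet_le (by fun_prop) (by fun_prop)
  have e : (fun y => ind c (Real.log T / (2 * π) * (y - t))) =
      {y | |Real.log T / (2 * π) * (y - t)| ≤ c / 2}.indicator fun _ => (1 : ℂ) := by
    funext y
    simp only [ind, indicator, mem_Icc, mem_ofPred_eq, abs_le]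
  rw [e, integrable_indicator_iff hms, integrableOn_const_iff] at j3
  exact (j3.resolve_left (by simp)).ne

theorem ZData.meas_Ioc_le {μ : Measure ℝ} (hμ : ZData μ) : ∃ C, 0 < C ∧ ∀ k : ℕ,
    μ (Ioc 0 k) ≤ ENNReal.ofReal (C * k * Real.log (2 + k)) := by
  obtain ⟨C, hC, hG⟩ := hμ.G_le
  refine ⟨2 * C, by positivity, fun k => ?_⟩
  induction k with
  | zero => simp
  | succ k ih =>
    have hk : (0 : ℝ) ≤ k := Nat.cast_nonneg k
    have h1 := mul_meas_ge_le_integral_of_nonneg (ae_of_all _ fun y => by positivity) (hμ.int k)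
      (1 / 2)
    have h2 := (hμ.int k).measure_ge_lt_top (ε := 1 / 2) (by norm_num)
    have h3 : Ioc (0 : ℝ) (k + 1 : ℕ) ⊆ Ioc (0 : ℝ) k ∪ {y | 1 / 2 ≤ 1 / (1 + (k - y) ^ 2)} := by
      intro y hy
      by_cases h : y ≤ k
      · exact Or.inl ⟨hy.1, h⟩
      · right
        rw [mem_ofPred_eq]
        refine one_div_le_one_div_of_le (by positivity) ?_
        have := hy.2
        push_cast at this
        nlinarith only [this, h, not_le.1 h]
    have h4 := hG k
    rw [abs_of_nonneg hk] at h4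
    have h5 : 0 ≤ Real.log (2 + k) := Real.log_nonneg (by linarith only [])
    have h6 : Real.log (2 + k) ≤ Real.log (2 + (k + 1 : ℕ)) := by
      push_cast; gcongr; linarith only []
    refine (measure_mono h3).trans ((measure_union_le _ _).trans ?_)
    rw [← ENNReal.ofReal_toReal h2.ne]
    refine (add_le_add ih le_rfl).trans ?_
    rw [← ENNReal.ofReal_add (by positivity) ENNReal.toReal_nonneg]
    refine ENNReal.ofReal_le_ofReal ?_
    change _ + μ.real _ ≤ _
    have h7 : 2 * C * (k + 1) * Real.log (2 + k) ≤ 2 * C * (k + 1) * Real.log (2 + (k + 1 : ℕ)) := by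
      gcongr
    unfold G at h4
    push_cast at h7 ⊢
    linarith only [h1, h4, h7]

namespace Enum

variable {μ : Measure ℝ} {γ : ℕ → ℝ} (hγ : Enum μ γ) (hμ : ZData μ)
include hγ hμ

theorem index_le : ∃ C, 0 < C ∧ ∀ N : ℕ, (N : ℝ) ≤ C * (γ N + 1) * Real.log (3 + γ N) := by
  obtain ⟨C, hC, h⟩ := hμ.meas_Ioc_le
  refine ⟨C, hC, fun N => ?_⟩
  have h0 := hγ.pos N
  have h1 := h ⌈γ N⌉₊
  have h2 := (Nat.ceil_lt_add_one h0.le).le
  have h3 : ((Finset.range N : Finset ℕ) : Set ℕ) ⊆ γ ⁻¹' Ioc 0 ⌈γ N⌉₊ := fun n hn =>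
    ⟨hγ.pos n, (hγ.mono (by simpa using (Finset.mem_range.1 hn).le)).trans (Nat.le_ceil _)⟩
  have h4 := encard_le_encard h3
  rw [encard_coe_eq_coe_finsetCard, Finset.card_range] at h4
  rw [hγ.meas _ Ioc_subset_Ioi_self measurableSet_Ioc] at h1
  have h5 : (N : ℝ≥0∞) ≤ ENNReal.ofReal (C * ⌈γ N⌉₊ * Real.log (2 + ⌈γ N⌉₊)) :=
    le_trans (by simpa using ENat.toENNReal_le.2 h4) h1
  have h6 : 0 ≤ Real.log (2 + ⌈γ N⌉₊) :=
    Real.log_nonneg (by linarith only [(Nat.cast_nonneg ⌈γ N⌉₊ : (0 : ℝ) ≤ _)])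
  rw [← ENNReal.ofReal_natCast, ENNReal.ofReal_le_ofReal_iff (by positivity)] at h5
  exact h5.trans (mul_le_mul (by gcongr) (Real.log_le_log (by positivity) (by linarith only [h2])) h6
    (by positivity))

theorem tendsto : Tendsto γ atTop atTop := by
  obtain ⟨C, hC, h⟩ := hγ.index_le hμ
  refine tendsto_atTop_atTop_of_monotone hγ.mono fun b => ?_
  by_contra hb
  push Not at hb
  obtain ⟨N, hN⟩ := exists_nat_gt (C * (b + 1) * Real.log (3 + b))
  have h0 := hγ.pos N
  have h1 := (hb N).le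
  have h2 : 0 ≤ Real.log (3 + γ N) := Real.log_nonneg (by linarith only [h0])
  have h3 : C * (γ N + 1) * Real.log (3 + γ N) ≤ C * (b + 1) * Real.log (3 + b) := by
    have : 0 < b := by linarith
    gcongr
  linarith only [hN, h3, h N]

theorem density {η R : ℝ} (hη : 0 < η) (hR : 0 < R) (S : ℕ → ℕ)
    (h : ∀ᶠ T in atTop, ∀ N, γ N = 4 * T → η * T ≤ (S N + 1) * (R / Real.log T)) :
    ∃ η' : ℝ, 0 < η' ∧ ∀ᶠ N : ℕ in atTop, η' * N ≤ S N := by
  obtain ⟨C, hC, hN⟩ := hγ.index_le hμ
  refine ⟨η / (20 * C * R), by positivity, ?_⟩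
  have ht := (hγ.tendsto hμ).atTop_div_const (show (0 : ℝ) < 4 by norm_num)
  filter_upwards [ht.eventually h, ht.eventually_ge_atTop 5,
    tendsto_natCast_atTop_atTop.eventually_ge_atTop (20 * C * R / η)] with N h1 h2 h3
  have h4 := h1 N (by ring)
  have h5 := hN N
  obtain ⟨T, hT⟩ : ∃ T, γ N = 4 * T := ⟨γ N / 4, by ring⟩
  rw [hT] at h2 h4 h5
  rw [show 4 * T / 4 = T by ring] at h2 h4
  have hL := Real.log_pos (show 1 < T by linarith only [h2])
  have h6 : Real.log (3 + 4 * T) ≤ 2 * Real.log T := by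
    rw [← Real.log_rpow (by linarith only [h2]), Real.rpow_two]
    gcongr; nlinarith only [h2]
  have h7 : (N : ℝ) ≤ C * (5 * T) * (2 * Real.log T) := h5.trans (by
    gcongr
    · exact Real.log_nonneg (by linarith only [h2])
    · linarith only [h2])
  rw [← mul_div_assoc, le_div_iff₀ hL] at h4
  rw [div_le_iff₀ hη] at h3
  rw [div_mul_eq_mul_div, div_le_iff₀ (by positivity)]
  nlinarith only [h3, h4, hC, h7, hη, mul_le_mul_of_nonneg_left h4 hC.le, mul_le_mul_of_nonneg_left h7 hη.le]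

omit hμ in
theorem cnt_eq {c T t : ℝ} (hL : 2 * π ≤ Real.log T) (ht : c / 2 < t) :
    μ {y | |Real.log T / (2 * π) * (y - t)| ≤ c / 2} =
      {n | |Real.log T / (2 * π) * (γ n - t)| ≤ c / 2}.encard := by
  refine hγ.meas _ (fun y hy => ?_) (measurableSet_le (by fun_prop) (by fun_prop))
  have h1 := one_le_lam hL
  have h2 : |y - t| ≤ c / 2 := by
    refine le_trans ?_ hy
    rw [abs_mul, abs_of_pos (by linarith only [h1] : 0 < Real.log T / (2 * π))]
    exact le_mul_of_one_le_left (abs_nonneg _) h1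
  exact mem_Ioi.2 (by linarith only [ht, h2, (abs_le.1 h2).1])

end Enum

theorem volume_window {T R : ℝ} (hL : 2 * π ≤ Real.log T) (a : ℝ) :
    volume {t | |Real.log T / (2 * π) * (a - t)| ≤ R / 2} =
      ENNReal.ofReal (2 * π * R / Real.log T) := by
  have h1 := one_le_lam hL
  have hL0 : 0 < Real.log T := by linarith only [hL, Real.pi_pos]
  have e : {t | |Real.log T / (2 * π) * (a - t)| ≤ R / 2} =
      Metric.closedBall a (π * R / Real.log T) := by
    ext t
    rw [mem_ofPred_eq, Metric.mem_closedBall, Real.dist_eq, abs_mul, abs_of_pos (by linarith only [h1]),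
      abs_sub_comm, ← le_div_iff₀' (by linarith)]
    congr! 1
    field_simp
  rw [e, Real.volume_closedBall]
  congr 1; ring

namespace Enum

variable {μ : Measure ℝ} {γ : ℕ → ℝ} (hγ : Enum μ γ) (hμ : ZData μ)
include hγ hμ

theorem small {η c : ℝ} (hη : 0 < η) (hc : 0 < c)
    (h : ∀ᶠ T in atTop, ENNReal.ofReal (η * T) ≤
      volume {t | t ∈ Icc (T / 2) (3 * T) ∧ 1 < cnt μ c T t}) :
    ∃ η' : ℝ, 0 < η' ∧ ∀ᶠ N : ℕ in atTop, η' * N ≤ ((Finset.range N).filter fun n =>
      (γ (n + 1) - γ n) / (2 * π) * Real.log (γ n / (2 * π)) ≤ c).card := by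
  refine hγ.density hμ hη (show 0 < 2 * π * c by positivity) _ ?_
  filter_upwards [h, Real.tendsto_log_atTop.eventually_ge_atTop (2 * π), eventually_gt_atTop c]
    with T h1 hL hT N hN
  have hl := one_le_lam hL
  have hL0 : 0 < Real.log T := by linarith only [hL, Real.pi_pos]
  set S := (Finset.range N).filter fun n =>
    (γ (n + 1) - γ n) / (2 * π) * Real.log (γ n / (2 * π)) ≤ c with hS
  have h2 : {t | t ∈ Icc (T / 2) (3 * T) ∧ 1 < cnt μ c T t} ⊆
      ⋃ m ∈ S, {t | |Real.log T / (2 * π) * (γ m - t)| ≤ c / 2} := by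
    rintro t ⟨ht, h2⟩
    rw [cnt, Measure.real, hγ.cnt_eq hL (by linarith only [hT, ht.1])] at h2
    have h3 : ¬ {n | |Real.log T / (2 * π) * (γ n - t)| ≤ c / 2}.Subsingleton := fun h3 => by
      have := ENNReal.toReal_mono (by simp)
        (ENat.toENNReal_le.2 (encard_le_one_iff_subsingleton.2 h3))
      simp only [ENat.toENNReal_one, ENNReal.toReal_one] at this
      linarith only [h2, this]
    obtain ⟨m, hm, n, hn, hmn⟩ := (not_subsingleton_iff.1 h3).exists_lt
    have h4 : γ (m + 1) ≤ γ n := hγ.mono hmn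
    have h5 : γ m ≤ γ (m + 1) := hγ.mono (Nat.le_succ m)
    have hm' := abs_le.1 (mem_ofPred_eq ▸ hm :)
    have hn' := abs_le.1 (mem_ofPred_eq ▸ hn :)
    have h6 : γ m < 4 * T := by
      by_contra h6
      nlinarith only [hc, hT, hm', h6, hl, ht.2, hm'.2]
    simp only [mem_iUnion, hS, Finset.mem_filter, Finset.mem_range]
    refine ⟨m, ⟨hγ.mono.reflect_lt (by rwa [hN]), ?_⟩, hm⟩
    have h7 : Real.log (γ m / (2 * π)) ≤ Real.log T := by
      refine Real.log_le_log (by have := hγ.pos m; positivity) ?_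
      rw [div_le_iff₀ (by positivity)]
      nlinarith only [hc, hT, h6, Real.pi_gt_three]
    calc _ ≤ (γ (m + 1) - γ m) / (2 * π) * Real.log T :=
          mul_le_mul_of_nonneg_left h7 (div_nonneg (by linarith only [h5]) (by positivity))
      _ = Real.log T / (2 * π) * (γ (m + 1) - γ m) := by ring
      _ ≤ _ := by nlinarith only [h4, hm', hn', hl, hm'.1, hn'.2]
  have h3 := h1.trans ((measure_mono h2).trans (measure_biUnion_finset_le _ _))
  simp only [volume_window hL, Finset.sum_const, nsmul_eq_mul] at h3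
  rw [← ENNReal.ofReal_natCast, ← ENNReal.ofReal_mul (Nat.cast_nonneg _),
    ENNReal.ofReal_le_ofReal_iff (by positivity)] at h3
  refine h3.trans ?_
  gcongr; linarith

theorem large {η c c' R : ℝ} (hη : 0 < η) (hc' : 0 < c') (hc : c' < c) (hR : 0 < R)
    (h : ∀ᶠ T in atTop, ENNReal.ofReal (η * T) ≤
      volume {t | t ∈ Icc (T / 2) (3 * T) ∧ cnt μ c T t < 1 ∧ cnt μ R T t ≠ 0}) :
    ∃ η' : ℝ, 0 < η' ∧ ∀ᶠ N : ℕ in atTop, η' * N ≤ ((Finset.range N).filter fun n =>
      c' ≤ (γ (n + 1) - γ n) / (2 * π) * Real.log (γ n / (2 * π))).card := by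
  refine hγ.density hμ hη (show 0 < 2 * (2 * π * R) by positivity) _ ?_
  filter_upwards [h, Real.tendsto_log_atTop.eventually_ge_atTop (2 * π), eventually_gt_atTop c,
    eventually_gt_atTop R, eventually_gt_atTop (2 * γ 0),
    Real.tendsto_log_atTop.eventually_ge_atTop (c * Real.log (4 * π) / (c - c'))]
    with T h1 hL hT hTR hT0 hL2 N hN
  have hl := one_le_lam hL
  have hL0 : 0 < Real.log T := by linarith only [hL, Real.pi_pos]
  set l := Real.log T / (2 * π) with hl'
  set S := (Finset.range N).filter fun n =>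
    c' ≤ (γ (n + 1) - γ n) / (2 * π) * Real.log (γ n / (2 * π)) with hS
  set S' := (Finset.range N).filter fun n => c ≤ l * (γ (n + 1) - γ n) ∧ T / 2 ≤ γ (n + 1) with hS'
  have h2 : {t | t ∈ Icc (T / 2) (3 * T) ∧ cnt μ c T t < 1 ∧ cnt μ R T t ≠ 0} ⊆
      ⋃ m ∈ S', ({t | |l * (γ m - t)| ≤ R / 2} ∪ {t | |l * (γ (m + 1) - t)| ≤ R / 2}) := by
    rintro t ⟨ht, h2, h3⟩
    have h4 : ∀ n, c / 2 < |l * (γ n - t)| := fun n => by
      by_contra h4
      have h5 := hμ.window_ne_top c hL t
      rw [cnt, Measure.real] at h2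
      rw [hγ.cnt_eq hL (by linarith only [hT, ht.1])] at h2 h5
      have := ENNReal.toReal_mono h5
        (ENat.toENNReal_le.2 (one_le_encard_iff_nonempty.2 ⟨n, (not_lt.1 h4 :)⟩))
      simp only [ENat.toENNReal_one, ENNReal.toReal_one] at this
      linarith only [h2, this]
    obtain ⟨k, hk⟩ : {n | |l * (γ n - t)| ≤ R / 2}.Nonempty := by
      by_contra h5
      rw [cnt, Measure.real, hγ.cnt_eq hL (by linarith only [hTR, ht.1]), not_nonempty_iff_eq_empty.1 h5] at h3
      simp at h3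
    have hex : ∃ n, t < γ (n + 1) := by
      obtain ⟨n, hn⟩ := ((hγ.tendsto hμ).eventually_gt_atTop t).exists
      exact ⟨n, hn.trans_le (hγ.mono (Nat.le_succ n))⟩
    have hm1 := Nat.find_spec hex
    have hm0 : γ (Nat.find hex) ≤ t := by
      rcases hn : Nat.find hex with _ | n
      · linarith only [hT0, ht.1]
      · exact not_lt.1 (Nat.find_min hex (by omega))
    generalize Nat.find hex = m at hm1 hm0
    have h5 := h4 m
    have h6 := h4 (m + 1)
    rw [abs_of_nonpos (by nlinarith only [hm0, hl])] at h5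
    rw [abs_of_nonneg (by nlinarith only [hm1, hl])] at h6
    simp only [mem_iUnion, hS', Finset.mem_filter, Finset.mem_range]
    refine ⟨m, ⟨hγ.mono.reflect_lt (by linarith only [hc', hc, hT, hN, hm0, ht.2]), by linarith only [h5, h6], by linarith only [hm1, ht.1]⟩, ?_⟩
    have hk' := abs_le.1 (mem_ofPred_eq ▸ hk :)
    rcases le_or_gt k m with h7 | h7
    · left
      have := hγ.mono h7
      rw [mem_ofPred_eq, abs_of_nonpos (by nlinarith only [hc', hc, h5])]
      nlinarith only [hk', this, hl, hk'.1]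
    · right
      have : γ (m + 1) ≤ γ k := hγ.mono h7
      rw [mem_ofPred_eq, abs_of_nonneg (by nlinarith only [hc', hc, h6])]
      nlinarith only [hk', this, hl, hk'.2]
  have h3 := h1.trans ((measure_mono h2).trans ((measure_biUnion_finset_le _ _).trans
    (Finset.sum_le_sum fun m _ => measure_union_le _ _)))
  simp only [hl', volume_window hL, Finset.sum_const, nsmul_eq_mul] at h3
  rw [← ENNReal.ofReal_natCast, ← ENNReal.ofReal_add (by positivity) (by positivity),
    ← ENNReal.ofReal_mul (Nat.cast_nonneg _), ENNReal.ofReal_le_ofReal_iff (by positivity)] at h3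
  have h4 : S'.card ≤ S.card + 1 := by
    have h5 : S' ⊆ S ∪ (Finset.range N).filter fun n => γ n < T / 2 ∧ T / 2 ≤ γ (n + 1) := by
      intro m hm
      simp only [hS, hS', Finset.mem_filter, Finset.mem_union] at hm ⊢
      by_cases h6 : γ m < T / 2
      · exact Or.inr ⟨hm.1, h6, hm.2.2⟩
      refine Or.inl ⟨hm.1, ?_⟩
      have h7 : Real.log T - Real.log (4 * π) ≤ Real.log (γ m / (2 * π)) := by
        rw [← Real.log_div (by linarith) (by positivity)]
        refine Real.log_le_log (by apply div_pos <;> linarith only [hc', hc, hT, Real.pi_pos]) ?_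
        rw [div_le_div_iff₀ (by positivity) (by positivity)]
        nlinarith only [h6, Real.pi_pos, not_lt.1 h6]
      have h8 : c / Real.log T ≤ (γ (m + 1) - γ m) / (2 * π) := by
        have := hm.2.1
        rw [div_le_iff₀ hL0]
        rw [hl'] at this
        linarith only [hm, show Real.log T / (2 * π) * (γ (m + 1) - γ m) =
          (γ (m + 1) - γ m) / (2 * π) * Real.log T by ring]
      rw [div_le_iff₀ (by linarith only [hc])] at hL2
      have h9 : c' * Real.log T ≤ c * (Real.log T - Real.log (4 * π)) := by linarith only [hL2]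
      have h10 : 0 ≤ Real.log T - Real.log (4 * π) := by
        by_contra h10
        nlinarith only [hL2, hc', hL0, h10, hc, mul_pos hc' hL0]
      calc c' ≤ c / Real.log T * (Real.log T - Real.log (4 * π)) := by
            rw [div_mul_eq_mul_div, le_div_iff₀ hL0]; exact h9
        _ ≤ _ := mul_le_mul h8 h7 h10 ((div_nonneg (by linarith only [hc', hc]) hL0.le).trans h8)
    refine (Finset.card_le_card h5).trans ((Finset.card_union_le _ _).trans ?_)
    gcongr
    refine Finset.card_le_one.2 fun a ha b hb => ?_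
    simp only [Finset.mem_filter] at ha hb
    have h6 := hγ.mono.reflect_lt (ha.2.1.trans_le hb.2.2)
    have h7 := hγ.mono.reflect_lt (hb.2.1.trans_le ha.2.2)
    omega
  have h5 : (S'.card : ℝ) ≤ S.card + 1 := by exact_mod_cast h4
  refine h3.trans ?_
  rw [← two_mul, ← mul_div_assoc]
  gcongr

end Enum

end Pool.Agent.P.MP_7eacff_nt
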