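import Mathlib

/-!
The digamma function as a limit of harmonic-type sums, and its real part on vertical lines.
-/

open Complex Filter Topology Metric MeasureTheory Set

namespace Pool.Agent.P.MP_7eacff_nt

theorem norm_GammaSeq_le {s : ℂ} (hs : 0 < s.re) {n : ℕ} (hn : n ≠ 0) :
    ‖GammaSeq s n‖ ≤ Real.Gamma s.re := by
  rw [GammaSeq_eq_approx_Gamma_integral hs hn, Real.Gamma_eq_integral hs,
    intervalIntegral.integral_of_le (by positivity : 0 ≤ (n : ℝ))]
  have hI := Real.GammaIntegral_convergent hs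
  calc _ ≤ ∫ x in Ioc (0 : ℝ) n, Real.exp (-x) * x ^ (s.re - 1) := by
        refine norm_integral_le_of_norm_le (hI.mono_set Ioc_subset_Ioi_self) ?_
        rw [ae_restrict_iff' measurableSet_Ioc]
        filter_upwards with x hx
        rw [norm_mul, Complex.norm_of_nonneg
          (pow_nonneg (sub_nonneg.mpr <| div_le_one_of_le₀ hx.2 <| by positivity) _),
          norm_cpow_eq_rpow_re_of_pos hx.1, sub_re, one_re]
        have := hx.1
        gcongr
        exact Real.one_sub_div_pow_le_exp_neg hx.2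
    _ ≤ _ := by
        refine setIntegral_mono_set hI ?_ Ioc_subset_Ioi_self.eventuallyLE
        rw [EventuallyLE, ae_restrict_iff' measurableSet_Ioi]
        filter_upwards with x hx
        have : (0 : ℝ) < x := hx
        positivity

theorem norm_Gamma_le {s : ℂ} (hs : 0 < s.re) : ‖Gamma s‖ ≤ Real.Gamma s.re :=
  le_of_tendsto (GammaSeq_tendsto_Gamma s).norm
    ((eventually_ne_atTop 0).mono fun _ hn => norm_GammaSeq_le hs hn)

theorem tendsto_deriv_of_bounded {F : ℕ → ℂ → ℂ} {f : ℂ → ℂ} {U : Set ℂ} (hU : IsOpen U)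
    {z : ℂ} {r C : ℝ} (hr : 0 < r) (hz : closedBall z r ⊆ U)
    (hF : ∀ n, DifferentiableOn ℂ (F n) U) (hf : DifferentiableOn ℂ f U)
    (hb : ∀ᶠ n in atTop, ∀ w ∈ sphere z r, ‖F n w‖ ≤ C)
    (hlim : ∀ w ∈ sphere z r, Tendsto (fun n => F n w) atTop (𝓝 (f w))) :
    Tendsto (fun n => deriv (F n) z) atTop (𝓝 (deriv f z)) := by
  simp_rw [← cderiv_eq_deriv hU hf hr hz, ← fun n => cderiv_eq_deriv hU (hF n) hr hz, cderiv,
    circleIntegral]
  refine Tendsto.const_smul ?_ _
  have hmem : ∀ θ : ℝ, circleMap z r θ ∈ sphere z r := fun θ => circleMap_mem_sphere z hr.le θ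
  refine intervalIntegral.tendsto_integral_filter_of_dominated_convergence
    (fun _ => r * ((r ^ 2)⁻¹ * C)) ?_ ?_ intervalIntegrable_const ?_
  · refine Eventually.of_forall fun n => Continuous.aestronglyMeasurable ?_
    have h1 : Continuous fun θ : ℝ => F n (circleMap z r θ) :=
      (hF n).continuousOn.comp_continuous (continuous_circleMap z r)
        (fun θ => hz (sphere_subset_closedBall (hmem θ)))
    have h2 : Continuous fun θ : ℝ => ((circleMap z r θ - z) ^ 2)⁻¹ :=
      Continuous.inv₀ (by fun_prop) fun θ => pow_ne_zero _ (by simp [hr.ne'])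
    simp only [deriv_circleMap]
    have h3 : Continuous fun θ : ℝ => circleMap 0 r θ * I := by fun_prop
    exact h3.smul (h2.smul h1)
  · filter_upwards [hb] with n hn
    refine ae_of_all _ fun θ _ => ?_
    simp only [deriv_circleMap, norm_smul, norm_mul, norm_circleMap_zero, norm_I, mul_one,
      circleMap_sub_center, norm_inv, norm_pow, abs_of_pos hr]
    gcongr
    exact hn _ (hmem θ)
  · exact ae_of_all _ fun θ _ => ((hlim _ (hmem θ)).const_smul _).const_smul _

theorem tendsto_digamma {z : ℂ} (hz : 0 < z.re) :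
    Tendsto (fun n : ℕ => (Real.log n : ℂ) - ∑ j ∈ Finset.range (n + 1), 1 / (z + j)) atTop
      (𝓝 (digamma z)) := by
  set U : Set ℂ := {w | 0 < w.re} with hUdef
  have hU : IsOpen U := isOpen_lt continuous_const continuous_re
  have hne : ∀ w ∈ U, ∀ j : ℕ, w + j ≠ 0 := by
    intro w hw j h
    have := congrArg re h
    simp only [add_re, natCast_re, zero_re] at this
    have h1 : 0 < w.re := hw
    have : (0 : ℝ) ≤ j := Nat.cast_nonneg j
    linarith
  have hball : closedBall z (z.re / 2) ⊆ {w | z.re / 2 ≤ w.re ∧ w.re ≤ 2 * z.re} := by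
    intro w hw
    rw [mem_closedBall, dist_eq_norm] at hw
    have := abs_le.1 ((abs_re_le_norm (w - z)).trans hw)
    simp only [sub_re] at this
    constructor <;> linarith only [this, hz, this.1, this.2]
  have hsub : closedBall z (z.re / 2) ⊆ U := fun w hw => by
    have := (hball hw).1
    show 0 < w.re
    linarith only [hz, this]
  have hcont : ContinuousOn Real.Gamma (Icc (z.re / 2) (2 * z.re)) := by
    intro x hx
    refine (Real.differentiableAt_Gamma fun m h => ?_).continuousAt.continuousWithinAt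
    have : (0 : ℝ) ≤ m := Nat.cast_nonneg m
    linarith only [hz, h, hx.1]
  obtain ⟨C, hC⟩ := isCompact_Icc.exists_bound_of_continuousOn hcont
  have hG : DifferentiableOn ℂ Gamma U := by
    intro w hw
    refine (differentiableAt_Gamma w fun m h => hne w hw m ?_).differentiableWithinAt
    rw [h]; simp
  have hS : ∀ n : ℕ, DifferentiableOn ℂ (fun w => GammaSeq w (n + 1)) U := by
    intro n w hw
    refine DifferentiableAt.differentiableWithinAt ?_
    unfold GammaSeq
    refine DifferentiableAt.div ?_ (by fun_prop) (Finset.prod_ne_zero_iff.2 fun j _ => hne w hw j)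
    refine DifferentiableAt.mul_const ?_ _
    exact differentiableAt_id.const_cpow (Or.inl (by exact_mod_cast Nat.succ_ne_zero n))
  have h1 := tendsto_deriv_of_bounded (C := C) hU (by positivity) hsub hS hG
    (Eventually.of_forall fun n w hw => by
      have hw' := hball (sphere_subset_closedBall hw)
      refine (norm_GammaSeq_le (hsub (sphere_subset_closedBall hw)) (Nat.succ_ne_zero n)).trans ?_
      exact (le_abs_self _).trans (hC _ ⟨hw'.1, hw'.2⟩))
    (fun w _ => (GammaSeq_tendsto_Gamma w).comp (tendsto_add_atTop_nat 1))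
  have h2 := h1.div ((GammaSeq_tendsto_Gamma z).comp (tendsto_add_atTop_nat 1))
    (Gamma_ne_zero_of_re_pos hz)
  rw [← tendsto_add_atTop_iff_nat 1]
  refine h2.congr fun n => ?_
  have hn : ((n + 1 : ℕ) : ℂ) ≠ 0 := by exact_mod_cast Nat.succ_ne_zero n
  have hprod : ∏ j ∈ Finset.range (n + 1 + 1), (z + j) ≠ 0 :=
    Finset.prod_ne_zero_iff.2 fun j _ => hne z hz j
  have hpow : ((n + 1 : ℕ) : ℂ) ^ z ≠ 0 := by simp only [ne_eq, cpow_eq_zero_iff, hn]; simp
  have hfac : (((n + 1).factorial : ℕ) : ℂ) ≠ 0 := by exact_mod_cast Nat.factorial_ne_zero _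
  change logDeriv (fun w => GammaSeq w (n + 1)) z = _
  unfold GammaSeq
  have hd : DifferentiableAt ℂ (fun w : ℂ => ((n + 1 : ℕ) : ℂ) ^ w) z :=
    differentiableAt_id.const_cpow (Or.inl hn)
  rw [logDeriv_div (f := fun w : ℂ => ((n + 1 : ℕ) : ℂ) ^ w * (((n + 1).factorial : ℕ) : ℂ))
    (g := fun w : ℂ => ∏ j ∈ Finset.range (n + 1 + 1), (w + j))
    z (mul_ne_zero hpow hfac) hprod (hd.mul_const _) (by fun_prop),
    logDeriv_mul_const z _ hfac, logDeriv_prod (fun j _ => hne z hz j) (fun j _ => by fun_prop)]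
  congr 1
  · have hh : HasDerivAt (fun w : ℂ => ((n + 1 : ℕ) : ℂ) ^ w)
        (((n + 1 : ℕ) : ℂ) ^ z * log ((n + 1 : ℕ) : ℂ) * 1) z :=
      (hasDerivAt_id z).const_cpow (Or.inl hn)
    rw [logDeriv_apply, hh.deriv, mul_one, mul_div_cancel_left₀ _ hpow, Complex.natCast_log]
  · refine Finset.sum_congr rfl fun j _ => ?_
    rw [logDeriv_apply]
    simp

theorem abs_term_le {u y : ℝ} (hu : 0 < u) :
    |u / (u ^ 2 + y ^ 2) - (Real.log ((u + 1) ^ 2 + y ^ 2) / 2 - Real.log (u ^ 2 + y ^ 2) / 2)| ≤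
      1 / (u ^ 2 + y ^ 2) := by
  have hd : ∀ v ∈ Icc u (u + 1), HasDerivAt (fun v => Real.log (v ^ 2 + y ^ 2) / 2)
      (v / (v ^ 2 + y ^ 2)) v := by
    intro v hv
    have hv0 : 0 < v := hu.trans_le hv.1
    have h1 : HasDerivAt (fun v : ℝ => v ^ 2 + y ^ 2) (2 * v) v := by
      simpa using (hasDerivAt_pow 2 v).add_const (y ^ 2)
    refine ((h1.log (by positivity)).div_const 2).congr_deriv ?_
    field_simp
  obtain ⟨ξ, hξ, h⟩ := exists_hasDerivAt_eq_slope (fun v => Real.log (v ^ 2 + y ^ 2) / 2)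
    (fun v => v / (v ^ 2 + y ^ 2)) (by linarith : u < u + 1)
    (fun v hv => (hd v hv).continuousAt.continuousWithinAt)
    (fun v hv => hd v (Ioo_subset_Icc_self hv))
  simp only [add_sub_cancel_left, div_one] at h
  rw [← h]
  have hξ0 : 0 < ξ := hu.trans hξ.1
  have e : u / (u ^ 2 + y ^ 2) - ξ / (ξ ^ 2 + y ^ 2) =
      (ξ - u) * (ξ * u - y ^ 2) / (ξ ^ 2 + y ^ 2) / (u ^ 2 + y ^ 2) := by
    field_simp; ring
  rw [e, abs_div, abs_of_pos (by positivity : 0 < u ^ 2 + y ^ 2)]
  gcongr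
  rw [abs_div, abs_of_pos (by positivity : 0 < ξ ^ 2 + y ^ 2), div_le_one (by positivity), abs_mul,
    abs_of_pos (by linarith only [hξ.1] : 0 < ξ - u)]
  have h1 : |ξ * u - y ^ 2| ≤ ξ ^ 2 + y ^ 2 := by
    rw [abs_le]; constructor <;> nlinarith only [hξ0, hu, hξ.1, mul_pos hξ0 hu, sq_nonneg y]
  have h2 : ξ - u ≤ 1 := by linarith only [hξ.2]
  calc (ξ - u) * |ξ * u - y ^ 2| ≤ 1 * (ξ ^ 2 + y ^ 2) := by gcongr
    _ = _ := one_mul _

theorem sum_inv_sq_le {a y : ℝ} (ha : 0 < a) (ha1 : a ≤ 1) (n : ℕ) :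
    ∑ j ∈ Finset.range n, 1 / ((a + j) ^ 2 + y ^ 2) ≤ 4 / (a ^ 2 * (1 + |y|)) := by
  have h : ∀ j : ℕ, 1 / ((a + j) ^ 2 + y ^ 2) ≤
      4 / a ^ 2 * (1 / (1 + |y| + j) - 1 / (1 + |y| + ((j + 1 : ℕ) : ℝ))) := by
    intro j
    have hj : (0 : ℝ) ≤ j := Nat.cast_nonneg j
    have hy := abs_nonneg y
    set Y := 1 + |y| + j with hY
    have hY1 : 1 ≤ Y := by linarith only [hY, hy]
    have e : 4 / a ^ 2 * (1 / Y - 1 / (1 + |y| + ((j + 1 : ℕ) : ℝ))) =
        4 / (a ^ 2 * (Y * (Y + 1))) := by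
      have : 1 + |y| + ((j + 1 : ℕ) : ℝ) = Y + 1 := by push_cast; ring
      rw [this]; field_simp; ring
    rw [e, div_le_div_iff₀ (by positivity) (by positivity)]
    have h1 : a * Y ≤ a + j + |y| := by nlinarith only [ha1, hy]
    have h2 : (a * Y) ^ 2 ≤ (a + j + |y|) ^ 2 := by gcongr
    have h3 : (a + j + |y|) ^ 2 ≤ 2 * ((a + j) ^ 2 + y ^ 2) := by
      nlinarith only [sq_nonneg (a + j - |y|), sq_abs y]
    nlinarith only [h2, h3, hy, mul_nonneg (sq_nonneg a) (mul_nonneg (by linarith : 0 ≤ Y) (by linarith : 0 ≤ Y - 1))]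
  calc _ ≤ ∑ j ∈ Finset.range n,
        4 / a ^ 2 * (1 / (1 + |y| + j) - 1 / (1 + |y| + ((j + 1 : ℕ) : ℝ))) :=
        Finset.sum_le_sum fun j _ => h j
    _ = 4 / a ^ 2 * (1 / (1 + |y| + (0 : ℕ)) - 1 / (1 + |y| + n)) := by
        rw [← Finset.mul_sum, Finset.sum_range_sub' (fun j : ℕ => 1 / (1 + |y| + (j : ℝ)))]
    _ ≤ 4 / a ^ 2 * (1 / (1 + |y|)) := by
        gcongr
        have : 0 ≤ 1 / (1 + |y| + n) := by positivity
        simp only [Nat.cast_zero, add_zero]
        linarith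
    _ = _ := by field_simp

theorem abs_re_digamma_sub_le {a y : ℝ} (ha : 0 < a) (ha1 : a ≤ 1) :
    |(digamma (a + y * I)).re - Real.log (a ^ 2 + y ^ 2) / 2| ≤ 4 / (a ^ 2 * (1 + |y|)) := by
  have hz : 0 < ((a : ℂ) + y * I).re := by simpa using ha
  have h1 := (continuous_re.tendsto _).comp (tendsto_digamma hz)
  have h2 : Tendsto (fun n : ℕ => Real.log n - Real.log ((a + ((n + 1 : ℕ) : ℝ)) ^ 2 + y ^ 2) / 2)
      atTop (𝓝 0) := by
    have h3 : Tendsto (fun n : ℕ => ((a + 1) / n + 1) ^ 2 + (y / n) ^ 2) atTop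
        (𝓝 ((0 + 1) ^ 2 + 0 ^ 2)) :=
      (((tendsto_const_div_atTop_nhds_zero_nat (a + 1)).add_const 1).pow 2).add
        ((tendsto_const_div_atTop_nhds_zero_nat y).pow 2)
    have h4 := ((h3.log (by norm_num)).div_const 2).neg
    simp only [zero_add, one_pow, ne_eq, OfNat.ofNat_ne_zero, not_false_eq_true, zero_pow,
      add_zero, Real.log_one, zero_div, neg_zero] at h4
    refine h4.congr' ?_
    filter_upwards [eventually_gt_atTop 0] with n hn
    have hn' : (0 : ℝ) < n := by exact_mod_cast hn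
    have e : ((a + 1) / n + 1) ^ 2 + (y / n) ^ 2 =
        ((a + ((n + 1 : ℕ) : ℝ)) ^ 2 + y ^ 2) / n ^ 2 := by
      push_cast; field_simp; ring
    rw [e, Real.log_div (by positivity) (by positivity), Real.log_pow]
    push_cast; ring
  have h5 := ((h1.sub h2).sub_const (Real.log (a ^ 2 + y ^ 2) / 2)).abs
  rw [sub_zero] at h5
  refine le_of_tendsto' h5 fun n => ?_
  have e1 : ∀ j : ℕ, (1 / ((a : ℂ) + y * I + j)).re = (a + j) / ((a + j) ^ 2 + y ^ 2) := by
    intro j
    rw [one_div, inv_re, normSq_apply]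
    simp [sq]
  have e2 := Finset.sum_range_sub (fun j : ℕ => Real.log ((a + j) ^ 2 + y ^ 2) / 2) (n + 1)
  simp only [Function.comp, sub_re, ofReal_re, re_sum, e1]
  refine le_trans ?_ (sum_inv_sq_le (y := y) ha ha1 (n + 1))
  calc _ = |∑ j ∈ Finset.range (n + 1), ((a + j) / ((a + j) ^ 2 + y ^ 2) -
        (Real.log ((a + j + 1) ^ 2 + y ^ 2) / 2 - Real.log ((a + j) ^ 2 + y ^ 2) / 2))| := by
        rw [Finset.sum_sub_distrib, ← abs_neg]
        congr 1
        simp only [Nat.cast_add, Nat.cast_one, ← add_assoc, Nat.cast_zero, add_zero] at e2 ⊢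
        rw [e2]; ring
    _ ≤ _ := (Finset.abs_sum_le_sum_abs _ _).trans
        (Finset.sum_le_sum fun j _ => abs_term_le (by positivity))

end Pool.Agent.P.MP_7eacff_nt
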