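import Pool.Agent.P.MP_7eacff_nt.Reso

/-!
Mean values and pointwise bounds for the resonator.
-/

open Complex Filter Topology MeasureTheory Set ArithmeticFunction
open scoped Real

namespace Pool.Agent.P.MP_7eacff_nt

theorem sum_filter_le_eq {R : Type*} [CommRing R] (j : ℕ → ℕ) (N J : ℕ) (c f : ℕ → R) :
    ∑ n ∈ Finset.Icc 1 N with sz j n ≤ J, c (sz j n) * f n =
      ∑ s ∈ Finset.range (J + 1), c s * Es j N f s := by
  rw [← Finset.sum_fiberwise_of_maps_to (g := sz j) (t := Finset.range (J + 1))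
    (fun n hn => Finset.mem_range.2 (Nat.lt_succ_of_le (Finset.mem_filter.1 hn).2))]
  refine Finset.sum_congr rfl fun s hs => ?_
  rw [Es, Finset.mul_sum, Finset.filter_filter]
  refine Finset.sum_congr (Finset.filter_congr fun n _ => ?_) fun n hn => ?_
  · rw [Finset.mem_range] at hs
    exact ⟨fun h => h.2, fun h => ⟨by omega, h⟩⟩
  · rw [(Finset.mem_filter.1 hn).2]

@[fun_prop] theorem continuous_res (J : ℕ) (ψ : ℕ → ℝ) (φ : ℕ → ℝ → ℝ) (h T : ℝ) :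
    Continuous (res J ψ φ h T) := by
  unfold res; fun_prop

/-- The diagonal sums converge to the sequence `r`. -/
def Lim (J : ℕ) (φ : ℕ → ℝ → ℝ) (h : ℝ) (r : ℕ → ℝ) : Prop :=
  ∀ s ≤ J, Tendsto (fun T : ℝ => Es (jj h T) ⌊T⌋₊ (fun n => cm (al φ h T) n ^ 2) s) atTop (𝓝 (r s))

/-- The limit of the mean square of the resonator. -/
noncomputable def NN (J : ℕ) (ψ r : ℕ → ℝ) : ℝ := ∑ s ∈ Finset.range (J + 1), ψ s ^ 2 * r s

/-- The limit of the twisted mean square of the resonator. -/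
noncomputable def MM (J : ℕ) (ψ r w : ℕ → ℝ) : ℝ :=
  ∑ i ∈ Finset.range (J + 1), ∑ s ∈ Finset.range (J + 1),
    if i + s ≤ J then ψ s * ψ (i + s) * (w i * r s) else 0

namespace Cells

variable {J : ℕ} {h δ B : ℝ} {φ : ℕ → ℝ → ℝ} (hC : Cells J h δ B φ)
include hC

theorem norm_res_le (ψ : ℕ → ℝ) {T t Y : ℝ} (hT : 1 < T) (hY : 1 ≤ Y)
    (hq : ∀ i ≤ J, ‖qs (jj h T) ⌊T⌋₊ (fun n => (cm (al φ h T) n : ℂ) * ch n t) i‖ ≤ Y) :
    ‖res J ψ φ h T t‖ ≤ (∑ s ∈ Finset.range (J + 1), |ψ s|) * Y ^ J := by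
  have hN : 1 ≤ ⌊T⌋₊ := Nat.le_floor (by simpa using hT.le)
  have hE := norm_le_pow_of_rec (J := J)
    (E := Es (jj h T) ⌊T⌋₊ fun n => (cm (al φ h T) n : ℂ) * ch n t) hY
    (by rw [Es_zero (hC.one_le_jj hT) hN]; simp) (qs_zero (hC.one_le_jj hT) hN _) hq
    (fun s hs => Es_rec (hC.le_floor_of_sz hT) (fun m n hm hn => by
      rw [cm_mul _ hm hn, ch_mul hm hn]; push_cast; ring) hs)
  have e : res J ψ φ h T t = ∑ s ∈ Finset.range (J + 1), (ψ s : ℂ) *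
      Es (jj h T) ⌊T⌋₊ (fun n => (cm (al φ h T) n : ℂ) * ch n t) s := by
    rw [← sum_filter_le_eq (c := fun s => (ψ s : ℂ)), res]
    exact Finset.sum_congr rfl fun n _ => by push_cast; ring
  rw [e, Finset.sum_mul]
  refine (norm_sum_le _ _).trans (Finset.sum_le_sum fun s hs => ?_)
  rw [Finset.mem_range] at hs
  rw [norm_mul, norm_real, Real.norm_eq_abs]
  gcongr
  exact (hE s (by omega)).trans (pow_le_pow_right₀ hY (by omega))

theorem norm_res_crude (ψ : ℕ → ℝ) : ∀ᶠ T in atTop, ∀ t,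
    ‖res J ψ φ h T t‖ ≤ (∑ s ∈ Finset.range (J + 1), |ψ s|) * T := by
  filter_upwards [eventually_gt_atTop 1,
    hC.tendsto_eps.eventually_le_const (show (0 : ℝ) < 1 by norm_num)] with T hT he t
  have h0 : 0 ≤ ∑ s ∈ Finset.range (J + 1), |ψ s| := Finset.sum_nonneg fun _ _ => abs_nonneg _
  refine (norm_sum_le _ _).trans ((Finset.sum_le_card_nsmul _ _
    (∑ s ∈ Finset.range (J + 1), |ψ s|) fun n hn => ?_).trans ?_)
  · rw [norm_mul, norm_ch, mul_one, norm_real, Real.norm_eq_abs, abs_mul]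
    have h1 := abs_cm_le_one (fun p hp => (hC.abs_al_le hT p hp).trans he) n
    have h2 : |ψ (sz (jj h T) n)| ≤ ∑ s ∈ Finset.range (J + 1), |ψ s| :=
      Finset.single_le_sum (f := fun s => |ψ s|) (fun _ _ => abs_nonneg _)
        (Finset.mem_range.2 (Nat.lt_succ_of_le (Finset.mem_filter.1 hn).2))
    calc _ ≤ _ * 1 := mul_le_mul h2 h1 (abs_nonneg _) h0
      _ = _ := mul_one _
  · rw [nsmul_eq_mul, mul_comm]
    gcongr
    have : ((Finset.Icc 1 ⌊T⌋₊).filter fun n => sz (jj h T) n ≤ J).card ≤ ⌊T⌋₊ :=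
      (Finset.card_filter_le _ _).trans (by simp)
    exact (Nat.cast_le.2 this).trans (Nat.floor_le (by linarith))

theorem mean_sq {P : Measure ℝ} (hP : Win P) (ψ : ℕ → ℝ) {T T0 : ℝ} (hT : 1 < T)
    (hT0 : 2 * π * (T ^ (h * J) + 1) ≤ T0) (X : ℝ) :
    ∫ v, ‖res J ψ φ h T (X + T0 * v)‖ ^ 2 ∂P = ∑ s ∈ Finset.range (J + 1),
      ψ s ^ 2 * Es (jj h T) ⌊T⌋₊ (fun n => cm (al φ h T) n ^ 2) s := by
  have hm : ∀ n ∈ (Finset.Icc 1 ⌊T⌋₊).filter fun n => sz (jj h T) n ≤ J,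
      1 ≤ n ∧ (n : ℝ) ≤ T ^ (h * J) := fun n hn => by
    simp only [Finset.mem_filter, Finset.mem_Icc] at hn
    exact ⟨hn.1.1, hC.le_rpow_of_sz hT (by omega) hn.2⟩
  have h1 := hP.mean_value _ _ (fun n => ((ψ (sz (jj h T) n) * cm (al φ h T) n : ℝ) : ℂ))
    (fun n => ((ψ (sz (jj h T) n) * cm (al φ h T) n : ℝ) : ℂ)) id id
    (fun n hn => (hm n hn).1) hm hT0 X
  simp only [id, Complex.mul_conj', ← ofReal_pow, Finset.sum_ite_eq, conj_ofReal] at h1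
  rw [integral_complex_ofReal] at h1
  rw [← sum_filter_le_eq (c := fun s => ψ s ^ 2)]
  apply ofReal_injective
  refine h1.trans ?_
  push_cast
  refine Finset.sum_congr rfl fun n hn => ?_
  rw [if_pos hn]; ring

theorem mean_twist {P : Measure ℝ} (hP : Win P) (ψ : ℕ → ℝ) (g : ℝ → ℝ) {T T0 : ℝ} (hT : 1 < T)
    (hT0 : 2 * π * (T ^ (h * J) + 1) ≤ T0) (X : ℝ) :
    ∫ v, ((‖res J ψ φ h T (X + T0 * v)‖ ^ 2 : ℝ) : ℂ) * Psum (fun u => g u) T (X + T0 * v) ∂P =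
      ((∑ i ∈ Finset.range (J + 1), ∑ s ∈ Finset.range (J + 1),
        if i + s ≤ J then ψ s * ψ (i + s) *
          (Es (jj h T) ⌊T⌋₊ (fun k => vonMangoldt k / (√k * Real.log T) *
            g (Real.log k / Real.log T) * cm (al φ h T) k) i *
          Es (jj h T) ⌊T⌋₊ (fun n => cm (al φ h T) n ^ 2) s) else 0 : ℝ) : ℂ) := by
  have hm : ∀ n ∈ (Finset.Icc 1 ⌊T⌋₊).filter fun n => sz (jj h T) n ≤ J,
      1 ≤ n ∧ (n : ℝ) ≤ T ^ (h * J) := fun n hn => by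
    simp only [Finset.mem_filter, Finset.mem_Icc] at hn
    exact ⟨hn.1.1, hC.le_rpow_of_sz hT (by omega) hn.2⟩
  set b : ℕ → ℝ := fun k => vonMangoldt k / (√k * Real.log T) * g (Real.log k / Real.log T)
    with hb
  set a : ℕ → ℝ := fun n => ψ (sz (jj h T) n) * cm (al φ h T) n with ha
  set a' : ℕ → ℝ := fun n => if sz (jj h T) n ≤ J then a n else 0 with ha'
  have h1 := hP.mean_value (Finset.Icc 1 ⌊T⌋₊ ×ˢ Finset.Icc 1 ⌊T⌋₊) _
    (fun x => ((b x.1 * a' x.2 : ℝ) : ℂ)) (fun n => (a n : ℂ)) (fun x => x.1 * x.2) id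
    (fun x hx => by
      simp only [Finset.mem_product, Finset.mem_Icc] at hx
      exact Nat.mul_pos hx.1.1 hx.2.1) hm hT0 X
  have e : ∀ t, ((‖res J ψ φ h T t‖ ^ 2 : ℝ) : ℂ) * Psum (fun u => g u) T t =
      (∑ x ∈ Finset.Icc 1 ⌊T⌋₊ ×ˢ Finset.Icc 1 ⌊T⌋₊,
        ((b x.1 * a' x.2 : ℝ) : ℂ) * ch (x.1 * x.2) t) * (starRingEnd ℂ) (res J ψ φ h T t) := by
    intro t
    rw [ofReal_pow, ← Complex.mul_conj', mul_right_comm, mul_comm (res J ψ φ h T t)]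
    congr 1
    rw [Psum, res, Finset.sum_filter, Finset.sum_mul_sum, Finset.sum_product]
    refine Finset.sum_congr rfl fun k hk => Finset.sum_congr rfl fun m hm => ?_
    rw [Finset.mem_Icc] at hk hm
    rw [ch_mul (by omega) (by omega)]
    simp only [hb, ha', ha]
    split_ifs
    · push_cast; ring
    · simp
  simp_rw [e]
  refine h1.trans ?_
  rw [← sum_sum_eq_sum_Es (jj h T) ⌊T⌋₊ (fun k => b k * cm (al φ h T) k)
    (fun n => cm (al φ h T) n ^ 2) (fun i s => ψ s * ψ (i + s)) J, Finset.sum_product]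
  have h2 := sum_mul_eq (hC.le_floor_of_sz hT) (fun k m => b k * a' m) a
  have h3 : ∑ k ∈ Finset.Icc 1 ⌊T⌋₊, ∑ m ∈ Finset.Icc 1 ⌊T⌋₊,
      (if sz (jj h T) k + sz (jj h T) m ≤ J then b k * a' m * a (k * m) else 0) =
      ∑ k ∈ Finset.Icc 1 ⌊T⌋₊, ∑ m ∈ Finset.Icc 1 ⌊T⌋₊,
      if sz (jj h T) k + sz (jj h T) m ≤ J then
        ψ (sz (jj h T) m) * ψ (sz (jj h T) k + sz (jj h T) m) *
          (b k * cm (al φ h T) k * cm (al φ h T) m ^ 2) else 0 := by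
    refine Finset.sum_congr rfl fun k hk => Finset.sum_congr rfl fun m hm => ?_
    rw [Finset.mem_Icc] at hk hm
    split_ifs with hs
    · simp only [ha', ha, if_pos (show sz (jj h T) m ≤ J by omega),
        sz_mul _ (show k ≠ 0 by omega) (show m ≠ 0 by omega),
        cm_mul _ (show k ≠ 0 by omega) (show m ≠ 0 by omega)]
      ring
    · rfl
  rw [← h3, ← h2]
  push_cast
  refine Finset.sum_congr rfl fun k _ => Finset.sum_congr rfl fun m _ =>
    Finset.sum_congr rfl fun n _ => ?_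
  simp only [id, conj_ofReal]
  split_ifs <;> simp

omit hC in
theorem tendsto_mean_sq {r : ℕ → ℝ}
    (hr : Lim J φ h r) (ψ : ℕ → ℝ) :
    Tendsto (fun T : ℝ => ∑ s ∈ Finset.range (J + 1),
      ψ s ^ 2 * Es (jj h T) ⌊T⌋₊ (fun n => cm (al φ h T) n ^ 2) s) atTop (𝓝 (NN J ψ r)) :=
  tendsto_finsetSum _ fun _ hs =>
    (hr _ (Nat.le_of_lt_succ (Finset.mem_range.1 hs))).const_mul _

theorem tendsto_mean_twist {r : ℕ → ℝ}
    (hr : Lim J φ h r) (ψ : ℕ → ℝ)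
    {g : ℝ → ℝ} (hg : ContDiff ℝ 1 g) {B' : ℝ} (hB' : ∀ u, |g u| ≤ B') :
    Tendsto (fun T : ℝ => ∑ i ∈ Finset.range (J + 1), ∑ s ∈ Finset.range (J + 1),
        if i + s ≤ J then ψ s * ψ (i + s) *
          (Es (jj h T) ⌊T⌋₊ (fun k => vonMangoldt k / (√k * Real.log T) *
            g (Real.log k / Real.log T) * cm (al φ h T) k) i *
          Es (jj h T) ⌊T⌋₊ (fun n => cm (al φ h T) n ^ 2) s) else 0) atTop
      (𝓝 (MM J ψ r fun i => ∫ u in (0 : ℝ)..1, φ i u * u * g u)) := by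
  refine tendsto_finsetSum _ fun i _ => tendsto_finsetSum _ fun s hs => ?_
  split_ifs
  · exact ((hC.tendsto_wT hg hB' i).mul
      (hr _ (Nat.le_of_lt_succ (Finset.mem_range.1 hs)))).const_mul _
  · exact tendsto_const_nhds

end Cells

end Pool.Agent.P.MP_7eacff_nt
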