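import Pool.Agent.P.MP_7eacff_nt.Long
import Pool.Agent.P.MP_7eacff_nt.Reso2

/-!
Domination in mean on the window of heights of size `T`.
-/

open Complex Filter Topology MeasureTheory Set ArithmeticFunction
open scoped Real

namespace Pool.Agent.P.MP_7eacff_nt

/-- `F` is dominated at heights of size `T` by a function whose local means are at most `τ`. -/
def Dom (P : Measure ℝ) (θ T : ℝ) (F : ℝ → ℝ) (τ : ℝ) : Prop :=
  ∃ y : ℝ → ℝ, (∀ t, 0 ≤ y t) ∧ (∀ t ∈ Icc (T / 2) (3 * T), F t ≤ y t) ∧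
    ∀ X, Integrable (fun v => y (X + T ^ θ * v)) P ∧ ∫ v, y (X + T ^ θ * v) ∂P ≤ τ

namespace Dom

variable {P : Measure ℝ} {θ T : ℝ} {F F' : ℝ → ℝ} {τ τ' : ℝ}

theorem mono (h : Dom P θ T F τ) (hF : ∀ t ∈ Icc (T / 2) (3 * T), F' t ≤ F t) (hτ : τ ≤ τ') :
    Dom P θ T F' τ' := by
  obtain ⟨y, h0, h1, h2⟩ := h
  exact ⟨y, h0, fun t ht => (hF t ht).trans (h1 t ht), fun X => ⟨(h2 X).1, (h2 X).2.trans hτ⟩⟩

theorem add (h : Dom P θ T F τ) (h' : Dom P θ T F' τ') :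
    Dom P θ T (fun t => F t + F' t) (τ + τ') := by
  obtain ⟨y, h0, h1, h2⟩ := h
  obtain ⟨y', h0', h1', h2'⟩ := h'
  refine ⟨fun t => y t + y' t, fun t => add_nonneg (h0 t) (h0' t),
    fun t ht => add_le_add (h1 t ht) (h1' t ht), fun X => ⟨(h2 X).1.add (h2' X).1, ?_⟩⟩
  rw [integral_add (h2 X).1 (h2' X).1]
  exact add_le_add (h2 X).2 (h2' X).2

theorem const_mul (h : Dom P θ T F τ) {a : ℝ} (ha : 0 ≤ a) :
    Dom P θ T (fun t => a * F t) (a * τ) := by
  obtain ⟨y, h0, h1, h2⟩ := h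
  refine ⟨fun t => a * y t, fun t => mul_nonneg ha (h0 t),
    fun t ht => mul_le_mul_of_nonneg_left (h1 t ht) ha, fun X => ⟨(h2 X).1.const_mul a, ?_⟩⟩
  rw [integral_const_mul]
  exact mul_le_mul_of_nonneg_left (h2 X).2 ha

theorem const [IsProbabilityMeasure P] {a : ℝ} (ha : 0 ≤ a) : Dom P θ T (fun _ => a) a :=
  ⟨fun _ => a, fun _ => ha, fun _ _ => le_rfl, fun _ => ⟨integrable_const a, by simp⟩⟩

theorem sum [IsProbabilityMeasure P] {ι : Type*} (s : Finset ι) {F : ι → ℝ → ℝ} {τ : ι → ℝ}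
    (h : ∀ i ∈ s, Dom P θ T (F i) (τ i)) :
    Dom P θ T (fun t => ∑ i ∈ s, F i t) (∑ i ∈ s, τ i) := by
  classical
  induction s using Finset.induction_on with
  | empty => simpa using const (P := P) le_rfl
  | insert a s ha ih =>
    simp only [Finset.sum_insert ha]
    exact (h a (Finset.mem_insert_self _ _)).add (ih fun i hi => h i (Finset.mem_insert_of_mem hi))

theorem integral_le (hP : Win P) (h : Dom P θ T F τ) {Ψ : ℝ → ℝ} {E : Set ℝ} {l C X : ℝ}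
    (hT : 0 < T) (hX : X ∈ Icc T (2 * T)) (hE : MeasurableSet E) (hl : 0 ≤ l) (hC : 0 ≤ C)
    (hi : Integrable (fun v => Ψ (X + T ^ θ * v)) P)
    (h1 : ∀ t ∈ Icc (T / 2) (3 * T), Ψ t ≤ E.indicator (fun _ => l) t + F t)
    (h2 : ∀ v, Ψ (X + T ^ θ * v) ≤ C * (1 + |v|)) :
    ∫ v, Ψ (X + T ^ θ * v) ∂P ≤
      l * P.real {v | X + T ^ θ * v ∈ E} + τ + C * ∫ v, far θ T v ∂P := by
  have := hP.prob
  obtain ⟨y, h0, h3, h4⟩ := h
  have hE' : MeasurableSet {v | X + T ^ θ * v ∈ E} :=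
    hE.preimage (f := fun v => X + T ^ θ * v) (by fun_prop)
  have j1 : Integrable ({v | X + T ^ θ * v ∈ E}.indicator fun _ => l) P :=
    (integrable_const l).indicator hE'
  have j3 := (hP.integrable_far θ T).const_mul C
  have h5 := integral_mono hi ((j1.add (h4 X).1).add j3) fun v => by
    simp only [Pi.add_apply]
    have hf := far_nonneg θ T v
    have h6 := h0 (X + T ^ θ * v)
    have h7 : 0 ≤ {v | X + T ^ θ * v ∈ E}.indicator (fun _ => l) v :=
      indicator_nonneg (fun _ _ => hl) v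
    by_cases hv : |v| ≤ T ^ (1 - θ) / 2
    · have ht := near_mem hT hX hv
      exact le_add_of_le_of_nonneg ((h1 _ ht).trans (add_le_add le_rfl (h3 _ ht))) (by positivity)
    · rw [far, if_neg hv]
      exact le_add_of_nonneg_of_le (by positivity) (h2 v)
  have k1 := integral_add (j1.add (h4 X).1) j3
  have k2 := integral_add j1 (h4 X).1
  simp only [Pi.add_apply] at k1 k2 h5
  rw [k1, k2, integral_const_mul, integral_indicator_const _ hE', smul_eq_mul] at h5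
  linarith only [h5, (h4 X).2]

end Dom

theorem Win.dom_Psum {P : Measure ℝ} (hP : Win P) {φ : ℝ → ℂ} {B η θ : ℝ}
    (hB : ∀ u, ‖φ u‖ ≤ B) (hη : 0 < η) (hη1 : η ≤ 1) (hz : ∀ u, η < u → φ u = 0) (D : ℕ)
    (hD : η * D < θ) : ∀ᶠ T in atTop,
      Dom P θ T (fun t => ‖Psum φ T t‖ ^ (2 * D)) ((2 * (B * η) ^ 2 * D) ^ D) ∧
      Dom P θ T (fun t => ‖Psum φ T (-t)‖ ^ (2 * D)) ((2 * (B * η) ^ 2 * D) ^ D) := by
  have := hP.prob
  have hB0 : 0 ≤ B := (norm_nonneg _).trans (hB 0)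
  filter_upwards [eventually_gt_atTop 1, Real.tendsto_log_atTop.eventually_ge_atTop (6 / η),
    eventually_window (by positivity) hD] with T hT hL hW
  have hL0 := Real.log_pos hT
  have hMb : (B ^ 2 * (η * D) * (η + 6 / Real.log T)) ^ D ≤ (2 * (B * η) ^ 2 * D) ^ D := by
    have h6 : 6 / Real.log T ≤ η := by rw [div_le_iff₀ hη] at hL; rw [div_le_iff₀ hL0]; linarith only [hL]
    calc _ ≤ (B ^ 2 * (η * D) * (η + η)) ^ D := by gcongr
      _ = _ := by ring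
  refine ⟨⟨_, fun t => by positivity, fun _ _ => le_rfl, fun X => ⟨?_,
    (hP.moment_Psum hB hη.le hη1 hz D hT hW X).trans hMb⟩⟩,
    ⟨_, fun t => by positivity, fun _ _ => le_rfl, fun X => ⟨?_,
    (hP.moment_Psum_neg hB hη.le hη1 hz D hT hW X).trans hMb⟩⟩⟩
  all_goals
    refine integrable_of_bdd (by fun_prop) ((B * T) ^ (2 * D)) fun v => ?_
    rw [Real.norm_of_nonneg (by positivity)]
    gcongr; exact norm_Psum_le hB hT _

theorem add_pow_le_four {a b : ℝ} (ha : 0 ≤ a) (hb : 0 ≤ b) (D : ℕ) :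
    (a + b) ^ (2 * D) ≤ 4 ^ D * (a ^ (2 * D) + b ^ (2 * D)) := by
  have h4 : (4 : ℝ) ^ D = 2 ^ (2 * D) := by rw [pow_mul]; norm_num
  rw [h4]
  exact (add_pow_le ha hb _).trans (by gcongr <;> [norm_num; omega])

/-- Local density of points at a larger scale. -/
noncomputable def SdR (μ : Measure ℝ) (R T t : ℝ) : ℝ :=
  ∫ y, 1 / (1 + (Real.log T / (2 * π) * (y - t) / R) ^ 2) ∂μ

theorem inv_div_le {S : ℝ} (hS : 1 ≤ S) (y : ℝ) : 1 / (1 + (y / S) ^ 2) ≤ S ^ 2 / (1 + y ^ 2) := by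
  rw [div_le_div_iff₀ (by positivity) (by positivity), div_pow, mul_add (S ^ 2),
    mul_div_cancel₀ _ (by positivity)]
  nlinarith only [hS]

theorem ZData.integrable_SdR {μ : Measure ℝ} (hμ : ZData μ) {R T : ℝ} (hR : 1 ≤ R)
    (hL : 2 * π ≤ Real.log T) (t : ℝ) :
    Integrable (fun y => 1 / (1 + (Real.log T / (2 * π) * (y - t) / R) ^ 2)) μ := by
  refine ((hμ.integrable_Sd hL t).const_mul (R ^ 2)).mono' (Continuous.aestronglyMeasurable ?_)
    (ae_of_all _ fun y => ?_)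
  · exact Continuous.div continuous_const (by fun_prop) fun y => by positivity
  · rw [Real.norm_of_nonneg (by positivity), mul_one_div]
    exact inv_div_le hR _

theorem ZData.norm_stat_le_SdR {μ : Measure ℝ} (hμ : ZData μ) {h : ℝ → ℂ} {K R : ℝ} (hR : 1 ≤ R)
    (hK : ∀ y, ‖h y‖ ≤ K / (1 + (y / R) ^ 2)) {T : ℝ} (hL : 2 * π ≤ Real.log T) (t : ℝ) :
    ‖stat μ h T t‖ ≤ K * SdR μ R T t := by
  rw [SdR, ← integral_const_mul]
  exact norm_integral_le_of_norm_le ((hμ.integrable_SdR hR hL t).const_mul K)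
    (ae_of_all _ fun y => by simpa [div_eq_mul_inv] using hK _)

theorem ZData.dom_SdR {μ P : Measure ℝ} [SFinite μ] (hμ : ZData μ) (hP : Win P) {θ : ℝ}
    (hθ : 1 / 2 < θ) : ∃ A C : ℝ, 1 ≤ A ∧ 1 ≤ C ∧ ∀ (R : ℝ) (D : ℕ), 1 ≤ R → 1 ≤ D → D ≤ R →
      ∀ᶠ T in atTop, Dom P θ T (fun t => max (SdR μ R T t / A - R) 0 ^ (2 * D)) ((C * D) ^ D) := by
  have := hP.prob
  obtain ⟨fp, fm, B, c, hc, hp, hm, hp0, hm0, hmaj⟩ := exists_majorant one_half_pos
  have hB := hp.nonneg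
  have hb := norm_iF_pw_le hp hm one_half_pos (hp0.trans hm0.symm)
  have hMc := hp.continuous_iF_pw hm (hp0.trans hm0.symm)
  refine ⟨1 + 2 / c, 1 + 4 * B ^ 2, le_add_of_nonneg_right (by positivity),
    le_add_of_nonneg_right (by positivity), fun R D hR hD hDR => ?_⟩
  have hR0 : 0 < R := by linarith only [hR]
  have hz : ∀ {f : ℝ → ℂ}, Bump f (1 / 2) B → ∀ u, 1 / 2 / R < |u| → (R : ℂ) * f (R * u) = 0 := by
    intro f hf u hu
    rw [hf.zero _ (by rw [abs_mul, abs_of_pos hR0]; rw [div_lt_iff₀ hR0] at hu; linarith only [hu]), mul_zero]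
  have hηR : 1 / 2 / R ≤ 1 / 2 := div_le_self (by norm_num) hR
  have hb' : ∀ {f : ℝ → ℂ}, Bump f (1 / 2) B →
      ∃ B', 0 ≤ B' ∧ Bump (fun u => R * f (R * u)) (1 / 2) B' :=
    fun hf => exists_bump (contDiff_const.mul (hf.cd.comp (contDiff_const.mul contDiff_id)))
      fun u hu => hz hf u (hηR.trans_lt hu)
  have hn : ∀ {f : ℝ → ℂ}, Bump f (1 / 2) B → ∀ u, ‖(R : ℂ) * f (R * u)‖ ≤ R * B := fun hf u => by
    rw [norm_mul, norm_real, Real.norm_of_nonneg hR0.le]; gcongr; exact hf.b0 _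
  obtain ⟨B1, -, hB1⟩ := hb' hp
  obtain ⟨B2, -, hB2⟩ := hb' hm
  have hDθ : 1 / 2 / R * D < θ := by
    refine lt_of_le_of_lt ?_ hθ
    rw [div_mul_eq_mul_div, div_le_iff₀ hR0]; linarith only [hDR]
  filter_upwards [Real.tendsto_log_atTop.eventually_ge_atTop (2 * π),
    hP.dom_Psum (hn hp) (by positivity) (by linarith only [hηR])
      (fun u hu => hz hp u (hu.trans_le (le_abs_self u))) D hDθ,
    hP.dom_Psum (φ := fun u => R * fm (R * -u)) (fun u => hn hm _) (by positivity) (by linarith only [hηR])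
      (fun u hu => hz hm (-u) (by rw [abs_neg]; exact hu.trans_le (le_abs_self u))) D hDθ,
    hμ.local_ef (hB1.mono le_rfl (le_max_left B1 B2)) (hB2.mono le_rfl (le_max_right B1 B2))
      (by simp [hp0, hm0]) one_half_pos (by norm_num) one_pos] with T hL h1 h2 hef
  refine ((h1.1.add h2.2).const_mul (show (0 : ℝ) ≤ 4 ^ D by positivity)).mono (fun t ht => ?_) ?_
  · have h3 := hef t ht
    rw [funext (iF_pw_scale fp fm hR0)] at h3
    simp only [mul_zero, hp0, mul_one] at h3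
    refine le_trans ?_ (add_pow_le_four (norm_nonneg _) (norm_nonneg _) D)
    generalize Psum (fun u => R * fp (R * u)) T t = Q1 at *
    generalize Psum (fun u => R * fm (R * -u)) T (-t) = Q2 at *
    have hi := hμ.integrable_stat (h := fun y => iF (pw fp fm) (y / R)) (by fun_prop)
      (K := 6 * (1 + 1 / 2) * B * R ^ 2) (fun y => (hb _).trans (by
        rw [div_eq_mul_one_div, mul_div_assoc (6 * (1 + 1 / 2) * B)]
        exact mul_le_mul_of_nonneg_left (inv_div_le hR y) (by positivity))) hL t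
    have h4 : c * SdR μ R T t ≤ (stat μ (fun y => iF (pw fp fm) (y / R)) T t).re := by
      have h3 := integral_re hi
      simp only [RCLike.re_to_complex] at h3
      rw [stat, ← h3, SdR, ← integral_const_mul]
      exact integral_mono ((hμ.integrable_SdR hR hL t).const_mul c) hi.re fun y => by
        simpa [div_eq_mul_inv] using hmaj _
    have h5 := (re_le_norm _).trans h3
    simp only [add_re, sub_re, ofReal_re] at h5
    have h6 := abs_le.1 (abs_re_le_norm Q1)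
    have h7 := abs_le.1 (abs_re_le_norm Q2)
    have h8 := norm_nonneg Q1
    have h9 := norm_nonneg Q2
    gcongr
    refine max_le ?_ (by positivity)
    rw [sub_le_iff_le_add, div_le_iff₀ (by positivity)]
    refine le_of_mul_le_mul_left ?_ hc
    have : c * ((‖Q1‖ + ‖Q2‖ + R) * (1 + 2 / c)) = (c + 2) * (‖Q1‖ + ‖Q2‖ + R) := by field_simp
    nlinarith only [hc, hR, h4, h5, h6, h7, this]
  · have hD0 : (1 : ℝ) ≤ D := by exact_mod_cast hD
    have h3 : (2 : ℝ) ≤ 2 ^ D := by simpa using pow_le_pow_right₀ (one_le_two (α := ℝ)) hD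
    rw [show 2 * (R * B * (1 / 2 / R)) ^ 2 * D = B ^ 2 / 2 * D by field_simp, ← two_mul]
    calc _ ≤ 4 ^ D * (2 ^ D * (B ^ 2 / 2 * D) ^ D) := by gcongr
      _ = (4 * B ^ 2 * D) ^ D := by rw [← mul_pow, ← mul_pow]; congr 1; ring
      _ ≤ _ := by gcongr; linarith only []

theorem ZData.Sd_le_SdR {μ : Measure ℝ} (hμ : ZData μ) {R T : ℝ} (hR : 1 ≤ R)
    (hL : 2 * π ≤ Real.log T) (t : ℝ) : Sd μ T t ≤ SdR μ R T t :=
  integral_mono (hμ.integrable_Sd hL t) (hμ.integrable_SdR hR hL t) fun y => by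
    refine one_div_le_one_div_of_le (by positivity) ?_
    rw [div_pow]
    gcongr
    exact div_le_self (sq_nonneg _) (one_le_pow₀ hR)

theorem ZData.dom_Sd {μ P : Measure ℝ} [SFinite μ] (hμ : ZData μ) (hP : Win P) {θ : ℝ}
    (hθ : 0 < θ) (hθ1 : θ < 1) (D : ℕ) :
    ∃ K, 0 < K ∧ ∀ᶠ T in atTop, Dom P θ T (fun t => (1 + Sd μ T t) ^ D) K := by
  obtain ⟨U, K, hK, hU1, hU⟩ := hμ.exists_U hP D hθ hθ1
  refine ⟨2 ^ D * K, by positivity, hU.mono fun T hT => ?_⟩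
  refine (Dom.const_mul ⟨fun t => U T t ^ (2 * D), fun t => pow_nonneg (by linarith [hU1 T t]) _,
    fun _ _ => le_rfl, hT.2⟩ (show (0 : ℝ) ≤ 2 ^ D by positivity)).mono (fun t ht => ?_) le_rfl
  have h1 := hU1 T t
  have h2 := hT.1 t ht
  have h3 := Sd_nonneg μ T t
  calc (1 + Sd μ T t) ^ D ≤ (2 * U T t) ^ D := by gcongr; linarith
    _ ≤ _ := by rw [mul_pow]; gcongr; omega

theorem Cells.norm_res_le_Sd {J : ℕ} {h δ B : ℝ} {φ : ℕ → ℝ → ℝ} (hC : Cells J h δ B φ)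
    {μ : Measure ℝ} [SFinite μ] (hμ : ZData μ) (ψ : ℕ → ℝ) : ∃ K, 0 ≤ K ∧ ∀ᶠ T in atTop,
      ∀ t ∈ Icc (T / 2) (3 * T), ‖res J ψ φ h T t‖ ≤ K * (1 + Sd μ T t) ^ J := by
  obtain ⟨K1, hK1, hPs⟩ := hC.norm_Psum_le_Sd hμ
  have hB := hC.B_nonneg
  have hΨ0 : 0 ≤ ∑ s ∈ Finset.range (J + 1), |ψ s| := Finset.sum_nonneg fun _ _ => abs_nonneg _
  obtain ⟨K2, hK2⟩ : ∃ K2, K2 = 1 + J * (K1 + 1 + 8 * B + 8 * B ^ 2) := ⟨_, rfl⟩
  have hK21 : 1 ≤ K2 := hK2 ▸ le_add_of_nonneg_right (by positivity)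
  refine ⟨(∑ s ∈ Finset.range (J + 1), |ψ s|) * K2 ^ J, by positivity, ?_⟩
  filter_upwards [eventually_gt_atTop 1, hPs, hC.norm_qs_le] with T hT hPs hqs t ht
  have hS := Sd_nonneg μ T t
  rw [mul_assoc, ← mul_pow]
  refine hC.norm_res_le ψ hT (one_le_mul_of_one_le_of_one_le hK21 (by linarith)) fun i hi =>
    (hqs _ i hi).trans ?_
  have h2 := hPs i hi _ ht
  have h4 : ‖Psum (fun u => φ i u) T t‖ + 8 * B + 8 * B ^ 2 ≤
      (K1 + 1 + 8 * B + 8 * B ^ 2) * (1 + Sd μ T t) := by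
    nlinarith only [hK1, h2, hS, hB, mul_nonneg hS (show 0 ≤ 1 + 8 * B + 8 * B ^ 2 by positivity)]
  have h5 := mul_le_mul_of_nonneg_left h4 (Nat.cast_nonneg J)
  rw [hK2]; linarith only [hS, h5]

theorem ZData.G_pow_le {μ : Measure ℝ} (hμ : ZData μ) (j : ℕ) : ∃ C, 0 < C ∧ ∀ T X T0 v : ℝ,
    1 ≤ T → |X| ≤ 2 * T → |T0| ≤ T → (1 + G μ (X + T0 * v)) ^ j ≤ C * T * (1 + |v|) := by
  obtain ⟨C, hC, h⟩ := hμ.G_le
  refine ⟨(2 + C) ^ j * j.factorial * 4, by positivity, fun T X T0 v hT hX hT0 => ?_⟩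
  have h2 : |X + T0 * v| ≤ 2 * T + T * |v| := by
    refine (abs_add_le _ _).trans (add_le_add hX ?_)
    rw [abs_mul]; gcongr
  have h1 := h (X + T0 * v)
  have h0 := G_nonneg μ (X + T0 * v)
  have h3 := abs_nonneg (X + T0 * v)
  generalize |X + T0 * v| = a at *
  have h5 : 1 / 2 ≤ Real.log (2 + a) :=
    le_trans (by linarith only [Real.log_two_gt_d9]) (Real.log_le_log two_pos (by linarith))
  have h6 := Real.pow_div_factorial_le_exp (Real.log (2 + a)) (by linarith) j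
  rw [Real.exp_log (by linarith only [h3]), div_le_iff₀ (by positivity)] at h6
  have h7 : 0 ≤ T * |v| := by positivity
  calc _ ≤ ((2 + C) * Real.log (2 + a)) ^ j := by gcongr; linarith
    _ ≤ (2 + C) ^ j * ((4 * T * (1 + |v|)) * j.factorial) := by
        rw [mul_pow]; gcongr; exact h6.trans (by gcongr; nlinarith only [hT, h2, h7])
    _ = _ := by ring

end Pool.Agent.P.MP_7eacff_nt
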