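import Pool.Agent.P.MP_7eacff_nt.Zeros
import Pool.Agent.P.MP_7eacff_nt.Ch

/-!
The explicit formula, obtained by deconvolving the Poisson kernel.
-/

open Complex Filter Topology MeasureTheory Set ArithmeticFunction
open scoped Real

namespace Pool.Agent.P.MP_7eacff_nt

/-- Poisson-kernel sum over the points of `μ`. -/
noncomputable def G (μ : Measure ℝ) (x : ℝ) : ℝ := ∫ y, 1 / (1 + (x - y) ^ 2) ∂μ

/-- The smooth part of `G`. -/
noncomputable def gg (μ : Measure ℝ) (x : ℝ) : ℝ := G μ x + Dser x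

theorem summable_vM : Summable fun n : ℕ => vonMangoldt n * (n : ℝ) ^ (-(3 / 2) : ℝ) := by
  have h := (LSeriesSummable_vonMangoldt (s := 3 / 2) (by simp; norm_num)).norm
  refine h.congr fun n => ?_
  rw [LSeries.norm_term_eq]
  split_ifs with hn
  · simp [hn]
  · have : ((3 : ℂ) / 2).re = 3 / 2 := by simp
    rw [this, norm_real, Real.norm_of_nonneg vonMangoldt_nonneg, Real.rpow_neg (Nat.cast_nonneg n),
      div_eq_mul_inv]

theorem norm_Dterm_le (x : ℝ) (n : ℕ) :
    ‖vonMangoldt n * (n : ℝ) ^ (-(3 / 2) : ℝ) * Real.cos (x * Real.log n)‖ ≤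
      vonMangoldt n * (n : ℝ) ^ (-(3 / 2) : ℝ) := by
  have h0 : 0 ≤ vonMangoldt n * (n : ℝ) ^ (-(3 / 2) : ℝ) :=
    mul_nonneg vonMangoldt_nonneg (by positivity)
  rw [norm_mul, Real.norm_of_nonneg h0]
  exact mul_le_of_le_one_right h0 (Real.abs_cos_le_one _)

theorem continuous_Dser : Continuous Dser :=
  continuous_tsum (fun _ => by fun_prop) summable_vM fun n x => norm_Dterm_le x n

theorem abs_Dser_le (x : ℝ) : |Dser x| ≤ ∑' n : ℕ, vonMangoldt n * (n : ℝ) ^ (-(3 / 2) : ℝ) :=
  tsum_of_norm_bounded summable_vM.hasSum (norm_Dterm_le x)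

theorem G_nonneg (μ : Measure ℝ) (x : ℝ) : 0 ≤ G μ x := integral_nonneg fun _ => by positivity

theorem measurable_G (μ : Measure ℝ) [SFinite μ] : Measurable (G μ) := by
  have : Continuous (Function.uncurry fun x y : ℝ => 1 / (1 + (x - y) ^ 2)) :=
    Continuous.div continuous_const (by fun_prop) fun p => by positivity
  exact this.stronglyMeasurable.integral_prod_right.measurable

theorem ell_le (x : ℝ) : Real.log (9 / 4 + x ^ 2) / 4 ≤ Real.log (2 + |x|) / 2 := by
  have : Real.log (9 / 4 + x ^ 2) ≤ Real.log ((2 + |x|) ^ 2) :=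
    Real.log_le_log (by positivity) (by nlinarith only [abs_nonneg x, sq_abs x])
  rw [Real.log_pow] at this
  push_cast at this
  linarith only [this]

theorem ell_nonneg (x : ℝ) : 0 ≤ Real.log (9 / 4 + x ^ 2) / 4 :=
  div_nonneg (Real.log_nonneg (by nlinarith only [sq_nonneg x])) (by norm_num)

theorem ZData.G_le {μ : Measure ℝ} (hμ : ZData μ) :
    ∃ C, 0 < C ∧ ∀ x, G μ x ≤ C * Real.log (2 + |x|) := by
  obtain ⟨c, C, h⟩ := hμ.est
  set D := ∑' n : ℕ, vonMangoldt n * (n : ℝ) ^ (-(3 / 2) : ℝ)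
  refine ⟨2 * (|c| + |C| + |D|) + 1, by positivity, fun x => ?_⟩
  have h1 := (abs_le.1 (h x)).2
  have h2 := (abs_le.1 (abs_Dser_le x)).1
  have h3 := ell_le x
  have h4 : C / (1 + |x|) ≤ |C| := by
    refine (div_le_div_of_nonneg_right (le_abs_self C) (by positivity)).trans ?_
    exact div_le_self (abs_nonneg C) (by linarith only [abs_nonneg x])
  have h5 : 1 / 2 ≤ Real.log (2 + |x|) :=
    le_trans (by linarith only [Real.log_two_gt_d9])
      (Real.log_le_log two_pos (by linarith only [abs_nonneg x]))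
  have h6 : G μ x ≤ |c| + |C| + |D| + Real.log (2 + |x|) / 2 := by
    unfold G; linarith only [h1, h2, h3, h4, le_abs_self c, le_abs_self D]
  nlinarith only [h5, h6, abs_nonneg c, abs_nonneg C, abs_nonneg D]

theorem log_two_add_le {δ : ℝ} (hδ : 0 < δ) (hδ1 : δ ≤ 1) (x : ℝ) :
    Real.log (2 + |x|) ≤ 2 / δ * (1 + |x|) ^ δ := by
  have h1 := Real.log_le_rpow_div (x := 2 + |x|) (by positivity) hδ
  have h2 : (2 + |x|) ^ δ ≤ (2 * (1 + |x|)) ^ δ := by
    gcongr; linarith only [abs_nonneg x]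
  have h3 : (2 : ℝ) ^ δ ≤ 2 := by
    simpa using Real.rpow_le_rpow_of_exponent_le (by norm_num : (1 : ℝ) ≤ 2) hδ1
  rw [Real.mul_rpow (by norm_num) (by positivity)] at h2
  calc _ ≤ (2 + |x|) ^ δ / δ := h1
    _ ≤ 2 * (1 + |x|) ^ δ / δ := by
      gcongr
      exact h2.trans (by gcongr)
    _ = _ := by ring

theorem integrable_rpow_div {α : ℝ} (hα : α < 1) :
    Integrable fun y : ℝ => (1 + |y|) ^ α / (1 + y ^ 2) := by
  have h := (integrable_one_add_norm (E := ℝ) (μ := volume) (r := 2 - α)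
    (by simp; linarith)).const_mul 2
  refine h.mono' (Continuous.aestronglyMeasurable ?_) (ae_of_all _ fun y => ?_)
  · exact Continuous.div (Continuous.rpow_const (by fun_prop) fun y => Or.inl (by positivity))
      (by fun_prop) fun y => by positivity
  · rw [Real.norm_of_nonneg (by positivity), Real.norm_eq_abs, neg_sub,
      Real.rpow_sub (by positivity), ← mul_div_assoc, div_le_div_iff₀ (by positivity)
      (by positivity), Real.rpow_two]
    have : (1 + |y|) ^ 2 ≤ 2 * (1 + y ^ 2) := by nlinarith only [sq_nonneg (|y| - 1), sq_abs y]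
    nlinarith only [this, Real.rpow_nonneg (show 0 ≤ 1 + |y| by positivity) α]

theorem ZData.integrable_mul_G {μ : Measure ℝ} [SFinite μ] (hμ : ZData μ) {k : ℝ → ℂ}
    (hc : AEStronglyMeasurable k) {K t : ℝ} (hk : ∀ x, ‖k x‖ ≤ K / (1 + (x - t) ^ 2)) :
    Integrable fun x => k x * G μ x := by
  obtain ⟨C, hC, hG⟩ := hμ.G_le
  have hK : 0 ≤ K := by simpa using (norm_nonneg _).trans (hk t)
  have h := ((integrable_rpow_div (α := 1 / 2) (by norm_num)).comp_sub_right t).const_mul
    (K * (C * (4 * (1 + |t|) ^ (1 / 2 : ℝ))))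
  refine h.mono' (hc.mul
    (continuous_ofReal.measurable.comp (measurable_G μ)).aestronglyMeasurable)
    (ae_of_all _ fun x => ?_)
  rw [norm_mul, norm_real, Real.norm_of_nonneg (G_nonneg μ x)]
  have h1 : G μ x ≤ C * (4 * (1 + |t|) ^ (1 / 2 : ℝ) * (1 + |x - t|) ^ (1 / 2 : ℝ)) := by
    refine (hG x).trans ?_
    gcongr
    refine (log_two_add_le (δ := 1 / 2) (by norm_num) (by norm_num) x).trans ?_
    rw [mul_assoc, ← Real.mul_rpow (by positivity) (by positivity)]
    have : 1 + |x| ≤ (1 + |t|) * (1 + |x - t|) := by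
      have : |x| ≤ |t| + |x - t| := by
        calc |x| = |t + (x - t)| := by ring_nf
          _ ≤ _ := abs_add_le _ _
      nlinarith only [this, abs_nonneg t, abs_nonneg (x - t)]
    gcongr
    norm_num
  calc ‖k x‖ * G μ x ≤ K / (1 + (x - t) ^ 2) *
        (C * (4 * (1 + |t|) ^ (1 / 2 : ℝ) * (1 + |x - t|) ^ (1 / 2 : ℝ))) :=
        mul_le_mul (hk x) h1 (G_nonneg μ x) (by positivity)
    _ = _ := by ring

theorem integrable_of_decay {k : ℝ → ℂ} (hc : AEStronglyMeasurable k) {K t : ℝ}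
    (hk : ∀ x, ‖k x‖ ≤ K / (1 + (x - t) ^ 2)) : Integrable k := by
  refine ((integrable_inv_one_add_sq.comp_sub_right t).const_mul K).mono' hc
    (ae_of_all _ fun x => ?_)
  simpa [div_eq_mul_inv] using hk x

theorem ZData.ef {μ : Measure ℝ} [SFinite μ] (hμ : ZData μ) {κ : ℝ → ℂ} (hc : Continuous κ)
    (hi : Integrable κ) {K t : ℝ} (hk : ∀ x, ‖iF κ x‖ ≤ K / (1 + (x - t) ^ 2)) :
    ∫ y, iF (fun u => κ u * (Real.exp (-(2 * π * |u|)) : ℂ)) y ∂μ =
      (∫ x, iF κ x * gg μ x) / π - (∑' n : ℕ, ((vonMangoldt n * (n : ℝ) ^ (-(3 / 2) : ℝ) : ℝ) : ℂ) *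
        (κ (Real.log n / (2 * π)) + κ (-(Real.log n / (2 * π))))) / (2 * π) := by
  have hkc := continuous_iF hi
  have hki : Integrable (iF κ) := integrable_of_decay hkc.aestronglyMeasurable hk
  have hkG := hμ.integrable_mul_G hkc.aestronglyMeasurable hk
  have hpi : (π : ℂ) ≠ 0 := by exact_mod_cast Real.pi_ne_zero
  have inner : ∀ x, ∫ y, ((1 / (π * (1 + (x - y) ^ 2)) : ℝ) : ℂ) ∂μ = G μ x / π := by
    intro x
    rw [integral_complex_ofReal, G, ← ofReal_div, ← integral_div]
    congr 2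
    funext y
    field_simp
  have h1 : ∫ y, iF (fun u => κ u * (Real.exp (-(2 * π * |u|)) : ℂ)) y ∂μ =
      (∫ x, iF κ x * G μ x) / π := by
    simp_rw [← deconv hc hi hki]
    rw [← integral_integral_swap, ← integral_div]
    · congr 1
      funext x
      rw [integral_const_mul, inner, mul_div_assoc]
    · have hcont : Continuous (Function.uncurry fun x y : ℝ =>
          iF κ x * ((1 / (π * (1 + (x - y) ^ 2)) : ℝ) : ℂ)) := by
        refine (hkc.comp continuous_fst).mul (continuous_ofReal.comp ?_)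
        exact Continuous.div continuous_const (by fun_prop) fun p => by positivity
      rw [integrable_prod_iff hcont.aestronglyMeasurable]
      constructor
      · refine ae_of_all _ fun x => ?_
        refine (((hμ.int x).div_const π).ofReal.const_mul (iF κ x)).congr
          (ae_of_all _ fun y => ?_)
        have : 1 / (1 + (x - y) ^ 2) / π = 1 / (π * (1 + (x - y) ^ 2)) := by field_simp
        simp only [Function.uncurry, ← this]
        rfl
      · refine (hkG.norm.div_const π).congr (ae_of_all _ fun x => ?_)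
        simp only [Function.uncurry, norm_mul, norm_real, integral_const_mul]
        rw [Real.norm_of_nonneg (G_nonneg μ x), G, mul_div_assoc, ← integral_div]
        congr 2
        funext y
        rw [Real.norm_of_nonneg (by positivity)]
        field_simp
  have hDi : Integrable fun x => iF κ x * Dser x :=
    hki.mul_bdd (c := ∑' n : ℕ, vonMangoldt n * (n : ℝ) ^ (-(3 / 2) : ℝ))
      (continuous_ofReal.comp continuous_Dser).aestronglyMeasurable
      (ae_of_all _ fun x => by rw [norm_real]; exact abs_Dser_le x)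
  have h2 : ∫ x, iF κ x * Dser x =
      (∑' n : ℕ, ((vonMangoldt n * (n : ℝ) ^ (-(3 / 2) : ℝ) : ℝ) : ℂ) *
        (κ (Real.log n / (2 * π)) + κ (-(Real.log n / (2 * π))))) / 2 := by
    have hF : ∀ n : ℕ, Integrable fun x => iF κ x *
        ((vonMangoldt n * (n : ℝ) ^ (-(3 / 2) : ℝ) * Real.cos (x * Real.log n) : ℝ) : ℂ) :=
      fun n => hki.mul_bdd (c := vonMangoldt n * (n : ℝ) ^ (-(3 / 2) : ℝ)) (by fun_prop)
        (ae_of_all _ fun x => by rw [norm_real]; exact norm_Dterm_le x n)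
    have hs := hasSum_integral_of_summable_integral_norm hF (by
      refine Summable.of_nonneg_of_le (fun n => integral_nonneg fun x => norm_nonneg _)
        (fun n => ?_) (summable_vM.mul_left (∫ x, ‖iF κ x‖))
      rw [← integral_mul_const]
      refine integral_mono (hF n).norm (hki.norm.mul_const _) fun x => ?_
      simp only [norm_mul (iF κ x), norm_real]
      gcongr
      exact norm_Dterm_le x n)
    rw [← tsum_div_const]
    simp_rw [tsum_mul_left, ← ofReal_tsum] at hs
    refine hs.tsum_eq.symm.trans ?_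
    congr 1
    funext n
    have e : ∀ x : ℝ, iF κ x *
        ((vonMangoldt n * (n : ℝ) ^ (-(3 / 2) : ℝ) * Real.cos (x * Real.log n) : ℝ) : ℂ) =
        ((vonMangoldt n * (n : ℝ) ^ (-(3 / 2) : ℝ) : ℝ) : ℂ) *
          (iF κ x * ee (x * -(Real.log n / (2 * π))) +
            iF κ x * ee (x * - -(Real.log n / (2 * π)))) / 2 := by
      intro x
      have e1 : 2 * π * (x * -(Real.log n / (2 * π))) = -(x * Real.log n) := by field_simp
      have e2 : 2 * π * (x * - -(Real.log n / (2 * π))) = x * Real.log n := by field_simp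
      rw [ee, ee, e1, e2, ofReal_mul _ (Real.cos _), ofReal_cos, Complex.cos]
      push_cast
      ring
    simp_rw [e]
    rw [integral_div, integral_const_mul, integral_add (integrable_mul_ee hki _)
      (integrable_mul_ee hki _), ← iF, ← iF, iF_iF hc hi hki, iF_iF hc hi hki]
  have h3 : ∫ x, iF κ x * gg μ x = (∫ x, iF κ x * G μ x) + ∫ x, iF κ x * Dser x := by
    rw [← integral_add hkG hDi]
    congr 1
    funext x
    rw [gg]; push_cast; ring
  rw [h1, h3, h2]
  field_simp
  ring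

theorem ZData.gg_sub_le {μ : Measure ℝ} (hμ : ZData μ) {β : ℝ} (hβ : 0 < β) (hβ1 : β < 1) :
    ∃ C, 0 ≤ C ∧ ∀ t, 2 ≤ t → ∀ x, |gg μ x - gg μ t| ≤
      C * (1 + |x - t|) ^ ((1 + β) / 2) * t ^ (-β) := by
  obtain ⟨c, C0, h⟩ := hμ.est
  have hC0 : 0 ≤ C0 := by simpa using (abs_nonneg _).trans (h 0)
  set δ := (1 - β) / 2 with hδ
  have hδ0 : 0 < δ := by rw [hδ]; linarith only [hβ1]
  refine ⟨2 * (3 + 3 * C0 + 6 / δ), by positivity, fun t ht x => ?_⟩
  have ht0 : 0 < t := by linarith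
  have hx := abs_le.1 (h x)
  have ht' := abs_le.1 (h t)
  set y := |x - t| with hy
  have hy0 : 0 ≤ y := abs_nonneg _
  have hmain : |gg μ x - gg μ t| ≤ |Real.log (9 / 4 + x ^ 2) / 4 - Real.log (9 / 4 + t ^ 2) / 4| +
      C0 / (1 + |x|) + C0 / (1 + |t|) := by
    have k1 := le_abs_self (Real.log (9 / 4 + x ^ 2) / 4 - Real.log (9 / 4 + t ^ 2) / 4)
    have k2 := neg_abs_le (Real.log (9 / 4 + x ^ 2) / 4 - Real.log (9 / 4 + t ^ 2) / 4)
    unfold gg G
    rw [abs_le]; constructor <;> linarith only [k1, k2, hx.1, hx.2, ht'.1, ht'.2]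
  have hsplit : (1 + y) ^ ((1 + β) / 2) * t ^ (-β) = (1 + y) ^ δ * ((1 + y) / t) ^ β := by
    rw [Real.div_rpow (by positivity) ht0.le, Real.rpow_neg ht0.le, ← mul_div_assoc,
      ← Real.rpow_add (by positivity), div_eq_mul_inv]
    congr 2; rw [hδ]; ring
  have h1δ : 1 ≤ (1 + y) ^ δ := Real.one_le_rpow (by linarith only [hy0]) hδ0.le
  rw [mul_assoc, hsplit]
  have hxy := abs_le.1 (le_refl y)
  rcases le_total y (t / 2) with hyt | hyt
  · have hx1 : t / 2 ≤ x := by have := (abs_le.1 hyt).1; linarith only [hxy, hyt]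
    have hx2 : x ≤ 3 * t / 2 := by have := (abs_le.1 hyt).2; linarith only [hxy, hyt]
    have hq : (1 + y) / t ≤ ((1 + y) / t) ^ β := by
      have := Real.rpow_le_rpow_of_exponent_ge (x := (1 + y) / t) (by positivity)
        (by rw [div_le_one ht0]; linarith only [ht, hyt]) hβ1.le
      simpa using this
    have hl : ∀ a b : ℝ, t ^ 2 / 4 ≤ b → 0 < a → |a - b| ≤ 5 / 2 * t * y →
        Real.log a / 4 - Real.log b / 4 ≤ 3 * ((1 + y) / t) := by
      intro a b hb ha hab
      have hb0 : 0 < b := lt_of_lt_of_le (by positivity) hb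
      have h1 := Real.log_le_sub_one_of_pos (div_pos ha hb0)
      rw [Real.log_div ha.ne' hb0.ne'] at h1
      have h2 : a / b - 1 ≤ 10 * (y / t) := by
        rw [div_sub_one hb0.ne', div_le_iff₀ hb0]
        calc a - b ≤ 5 / 2 * t * y := (le_abs_self _).trans hab
          _ = 10 * (y / t) * (t ^ 2 / 4) := by field_simp; ring
          _ ≤ _ := by gcongr
      have h3 : y / t ≤ (1 + y) / t := by gcongr; linarith only []
      have h4 : 0 ≤ y / t := by positivity
      linarith only [h1, h2, h3, h4]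
    have hab : |(9 / 4 + x ^ 2) - (9 / 4 + t ^ 2)| ≤ 5 / 2 * t * y := by
      rw [show (9 / 4 + x ^ 2) - (9 / 4 + t ^ 2) = (x + t) * (x - t) by ring, abs_mul,
        abs_of_pos (by linarith only [hβ, hδ, hδ0, ht, hxy, hyt])]
      gcongr; linarith only [hxy, hyt]
    have hl1 := hl _ _ (by nlinarith only []) (by positivity) hab
    have hl2 := hl (9 / 4 + t ^ 2) (9 / 4 + x ^ 2) (by nlinarith only [hδ, hxy, hyt, hβ, hδ0, ht]) (by positivity)
      (by rwa [abs_sub_comm])
    have hl3 : |Real.log (9 / 4 + x ^ 2) / 4 - Real.log (9 / 4 + t ^ 2) / 4| ≤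
        3 * ((1 + y) / t) := by rw [abs_le]; constructor <;> linarith only [hl2, hl1]
    have hc1 : C0 / (1 + |x|) ≤ 2 * C0 * ((1 + y) / t) := by
      rw [abs_of_pos (by linarith only [hβ, hδ, hδ0, ht, hxy, hyt]), ← mul_div_assoc, div_le_div_iff₀ (by linarith only [hβ, hδ, hδ0, ht, hxy, hyt]) ht0]
      nlinarith only [hC0, hy0, hβ, hδ, hδ0, ht, hxy, hyt, hβ1, mul_nonneg hC0 hy0, mul_nonneg (mul_nonneg hC0 hy0) (by linarith only [hβ, hδ, hδ0, ht, hxy, hyt] : 0 ≤ x)]
    have hc2 : C0 / (1 + |t|) ≤ C0 * ((1 + y) / t) := by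
      rw [abs_of_pos ht0, ← mul_div_assoc, div_le_div_iff₀ (by linarith only [ht]) ht0]
      nlinarith only [hC0, hy0, ht0, mul_nonneg hC0 hy0, mul_nonneg (mul_nonneg hC0 hy0) ht0.le]
    have hq0 : 0 ≤ ((1 + y) / t) ^ β := by positivity
    calc _ ≤ (3 + 3 * C0) * ((1 + y) / t) := by linarith only [hmain, hl3, hc1, hc2]
      _ ≤ (3 + 3 * C0) * (1 * ((1 + y) / t) ^ β) := by rw [one_mul]; gcongr
      _ ≤ _ := by
        gcongr
        have : 0 ≤ 6 / δ := by positivity
        linarith only [hC0, this]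
  · have hq : 1 / 2 ≤ ((1 + y) / t) ^ β := by
      have h1 : (1 / 2 : ℝ) ^ β ≤ ((1 + y) / t) ^ β := by
        refine Real.rpow_le_rpow (by norm_num) ?_ hβ.le
        rw [le_div_iff₀ ht0]; linarith only [hβ, hδ, hδ0, hyt]
      have h2 := Real.rpow_le_rpow_of_exponent_ge (x := (1 / 2 : ℝ)) (by norm_num) (by norm_num)
        hβ1.le
      rw [Real.rpow_one] at h2
      linarith only [h1, h2]
    have hl : ∀ z : ℝ, |z| ≤ 3 * y → Real.log (9 / 4 + z ^ 2) / 4 ≤ 3 / δ * (1 + y) ^ δ := by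
      intro z hz
      refine (ell_le z).trans ?_
      have h1 := log_two_add_le hδ0 (by rw [hδ]; linarith only [hβ, hδ, hδ0]) z
      have h2 : (1 + |z|) ^ δ ≤ (3 * (1 + y)) ^ δ := by gcongr; linarith only [hβ, hδ, hδ0, hz]
      have h3 : (3 : ℝ) ^ δ ≤ 3 := by
        simpa using Real.rpow_le_rpow_of_exponent_le (by norm_num : (1 : ℝ) ≤ 3)
          (show δ ≤ 1 by rw [hδ]; linarith only [hβ, hδ, hδ0])
      rw [Real.mul_rpow (by norm_num) (by positivity)] at h2
      have h4 : (1 + |z|) ^ δ ≤ 3 * (1 + y) ^ δ := h2.trans (by gcongr)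
      calc _ ≤ 2 / δ * (3 * (1 + y) ^ δ) / 2 := by
            gcongr; exact h1.trans (by gcongr)
        _ = _ := by ring
    have hxz : |x| ≤ 3 * y := by
      have : |x| ≤ |t| + |x - t| := by
        calc |x| = |t + (x - t)| := by ring_nf
          _ ≤ _ := abs_add_le _ _
      rw [abs_of_pos ht0] at this; linarith only [hyt, this]
    have hl1 := hl x hxz
    have hl2 := hl t (by rw [abs_of_pos ht0]; linarith only [hβ, hδ, hδ0, ht, hyt])
    have hl3 : |Real.log (9 / 4 + x ^ 2) / 4 - Real.log (9 / 4 + t ^ 2) / 4| ≤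
        3 / δ * (1 + y) ^ δ := by
      rw [abs_le]; constructor <;> linarith only [hl2, hl1, ell_nonneg x, ell_nonneg t]
    have hc1 : C0 / (1 + |x|) ≤ C0 := div_le_self hC0 (by linarith only [abs_nonneg x])
    have hc2 : C0 / (1 + |t|) ≤ C0 := div_le_self hC0 (by linarith only [abs_nonneg t])
    have h6 : 6 / δ = 2 * (3 / δ) := by ring
    have h7 : 0 ≤ 3 / δ := by positivity
    calc _ ≤ (3 / δ + 2 * C0) * (1 + y) ^ δ := by nlinarith only [hmain, hl3, hc1, hc2, hβ, hβ1, hC0, h1δ]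
      _ = 2 * (3 / δ + 2 * C0) * ((1 + y) ^ δ * (1 / 2)) := by ring
      _ ≤ _ := mul_le_mul (by linarith only [hβ, hC0, hδ, hδ0, h6, h7]) (by gcongr) (by positivity) (by positivity)

theorem ZData.gg_ratio {μ : Measure ℝ} (hμ : ZData μ) {ε : ℝ} (hε : 0 < ε) :
    ∀ᶠ T in atTop, ∀ t ∈ Icc (T / 2) (3 * T), |2 * gg μ t / Real.log T - 1| ≤ ε := by
  obtain ⟨c, C0, h⟩ := hμ.est
  have hC0 : 0 ≤ C0 := by simpa using (abs_nonneg _).trans (h 0)
  filter_upwards [eventually_ge_atTop 2,
    Real.tendsto_log_atTop.eventually_ge_atTop ((2 * (|c| + C0) + 3) / ε)] with T hT hL t ht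
  have hL0 : 0 < Real.log T := Real.log_pos (by linarith only [hT])
  have h1 := abs_le.1 (h t)
  have hc : C0 / (1 + |t|) ≤ C0 := div_le_self hC0 (by linarith only [abs_nonneg t])
  have u1 : Real.log (9 / 4 + t ^ 2) ≤ 2 * Real.log T + 4 := by
    have : Real.log (9 / 4 + t ^ 2) ≤ Real.log (16 * T ^ 2) :=
      Real.log_le_log (by positivity) (by nlinarith only [hT, ht.1, ht.2])
    rw [Real.log_mul (by norm_num) (by positivity), Real.log_pow,
      show (16 : ℝ) = 2 ^ 4 by norm_num, Real.log_pow] at this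
    push_cast at this
    linarith only [this, Real.log_two_lt_d9]
  have u2 : 2 * Real.log T - 4 ≤ Real.log (9 / 4 + t ^ 2) := by
    have : Real.log (T ^ 2 / 4) ≤ Real.log (9 / 4 + t ^ 2) :=
      Real.log_le_log (by positivity) (by nlinarith only [hT, ht.1, ht.2])
    rw [Real.log_div (by positivity) (by norm_num), Real.log_pow,
      show (4 : ℝ) = 2 ^ 2 by norm_num, Real.log_pow] at this
    push_cast at this
    linarith only [this, Real.log_two_lt_d9]
  rw [div_sub_one hL0.ne', abs_div, abs_of_pos hL0, div_le_iff₀ hL0]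
  rw [div_le_iff₀ hε] at hL
  unfold gg G
  rw [abs_le]
  constructor <;> nlinarith only [hL, h1, hc, u2, u1, le_abs_self c, neg_abs_le c, h1.1, h1.2]

end Pool.Agent.P.MP_7eacff_nt
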