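import Pool.Agent.P.MP_7eacff_nt.Prob0

/-!
Very long gaps are rare.
-/

open Complex Filter Topology MeasureTheory Set ArithmeticFunction
open scoped Real

namespace Pool.Agent.P.MP_7eacff_nt

theorem iF_pw_scale (fp fm : ℝ → ℂ) {R : ℝ} (hR : 0 < R) (y : ℝ) :
    iF (pw (fun u => R * fp (R * u)) fun u => R * fm (R * u)) y = iF (pw fp fm) (y / R) := by
  have h1 := Measure.integral_comp_mul_left (fun u => pw fp fm u * ee (u * (y / R))) R
  rw [abs_of_pos (inv_pos.2 hR), real_smul] at h1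
  have hR' : (R : ℂ) ≠ 0 := by exact_mod_cast hR.ne'
  have e : (fun u => pw (fun u => R * fp (R * u)) (fun u => R * fm (R * u)) u * ee (u * y)) =
      fun u => R * (pw fp fm (R * u) * ee (R * u * (y / R))) := by
    funext u
    rw [show R * u * (y / R) = u * y by field_simp]
    simp only [pw, mul_nonneg_iff_of_pos_left hR]
    split_ifs <;> ring
  rw [iF, iF, e, integral_const_mul, h1, ofReal_inv, mul_inv_cancel_left₀ hR']

theorem ZData.scaled {μ P : Measure ℝ} [SFinite μ] (hμ : ZData μ) (hP : Win P) {fp fm : ℝ → ℂ}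
    {η B θ R : ℝ} (hη : 0 < η) (hηθ : η < θ) (hθ1 : θ < 1) (hp : Bump fp η B) (hm : Bump fm η B)
    (hp0 : fp 0 = 1) (hm0 : fm 0 = 1) (hR : 1 ≤ R) : ∀ᶠ T in atTop, ∃ q : ℝ → ℝ,
      (∀ t ∈ Icc (T / 2) (3 * T), ‖stat μ (fun y => iF (pw fp fm) (y / R)) T t - R‖ ≤ 1 + q t) ∧
      ∀ X, Integrable (fun v => q (X + T ^ θ * v) ^ 2) P ∧
        ∫ v, q (X + T ^ θ * v) ^ 2 ∂P ≤ 4 * (B ^ 2 * η * (η + 1)) := by
  have := hP.prob
  have hR0 : 0 < R := by linarith
  have hB := hp.nonneg
  have hz : ∀ {f : ℝ → ℂ}, Bump f η B → ∀ u, η / R < |u| → (R : ℂ) * f (R * u) = 0 := by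
    intro f hf u hu
    rw [hf.zero _ (by rw [abs_mul, abs_of_pos hR0]; rw [div_lt_iff₀ hR0] at hu; linarith only [hu]), mul_zero]
  have hηR : η / R ≤ η := div_le_self hη.le hR
  have hb : ∀ {f : ℝ → ℂ}, Bump f η B → ∃ B', 0 ≤ B' ∧ Bump (fun u => R * f (R * u)) η B' :=
    fun hf => exists_bump (contDiff_const.mul (hf.cd.comp (contDiff_const.mul contDiff_id)))
      fun u hu => hz hf u (hηR.trans_lt hu)
  have hn : ∀ {f : ℝ → ℂ}, Bump f η B → ∀ u, ‖(R : ℂ) * f (R * u)‖ ≤ R * B := fun hf u => by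
    rw [norm_mul, norm_real, Real.norm_of_nonneg hR0.le]; gcongr; exact hf.b0 _
  obtain ⟨B1, -, hB1⟩ := hb hp
  obtain ⟨B2, -, hB2⟩ := hb hm
  filter_upwards [eventually_gt_atTop 1, Real.tendsto_log_atTop.eventually_ge_atTop (6 * R),
    eventually_window (a := η / R * (1 : ℕ)) (by positivity) (by simpa using hηR.trans_lt hηθ),
    hμ.local_ef (hB1.mono le_rfl (le_max_left B1 B2)) (hB2.mono le_rfl (le_max_right B1 B2))
      (by simp [hp0, hm0]) hη (by linarith only [hηθ, hθ1]) one_pos] with T hT hL hW hef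
  set Q1 := Psum (fun u => R * fp (R * u)) T with hQ1
  set Q2 := Psum (fun u => R * fm (R * -u)) T with hQ2
  refine ⟨fun t => ‖Q1 t‖ + ‖Q2 (-t)‖, fun t ht => ?_, fun X => ?_⟩
  · have h1 := hef t ht
    rw [funext (iF_pw_scale fp fm hR0)] at h1
    simp only [mul_zero, hp0, mul_one] at h1
    have e : stat μ (fun y => iF (pw fp fm) (y / R)) T t - R =
        (stat μ (fun y => iF (pw fp fm) (y / R)) T t - R + Q1 t + Q2 (-t)) - Q1 t - Q2 (-t) := by
      ring
    rw [e, ← add_assoc]
    exact (norm_sub_le _ _).trans (add_le_add_left ((norm_sub_le _ _).trans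
      (add_le_add_left h1 _)) _)
  · have c1 : Continuous Q1 := continuous_Psum _ _
    have c2 : Continuous Q2 := continuous_Psum _ _
    have i1 : Integrable (fun v => ‖Q1 (X + T ^ θ * v)‖ ^ (2 * 1)) P :=
      integrable_of_bdd (by fun_prop) ((R * B * T) ^ (2 * 1)) fun v => by
        rw [Real.norm_of_nonneg (by positivity)]
        gcongr; exact norm_Psum_le (hn hp) hT _
    have i2 : Integrable (fun v => ‖Q2 (-(X + T ^ θ * v))‖ ^ (2 * 1)) P :=
      integrable_of_bdd (by fun_prop) ((R * B * T) ^ (2 * 1)) fun v => by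
        rw [Real.norm_of_nonneg (by positivity)]
        gcongr; exact norm_Psum_le (fun u => hn hm _) hT _
    have hb : ∀ v, (‖Q1 (X + T ^ θ * v)‖ + ‖Q2 (-(X + T ^ θ * v))‖) ^ 2 ≤
        2 * (‖Q1 (X + T ^ θ * v)‖ ^ (2 * 1) + ‖Q2 (-(X + T ^ θ * v))‖ ^ (2 * 1)) := fun v => by
      rw [mul_one]
      nlinarith only [sq_nonneg (‖Q1 (X + T ^ θ * v)‖ - ‖Q2 (-(X + T ^ θ * v))‖)]
    have i3 := (i1.add i2).const_mul 2
    have i4 : Integrable (fun v => (‖Q1 (X + T ^ θ * v)‖ + ‖Q2 (-(X + T ^ θ * v))‖) ^ 2) P :=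
      i3.mono' (Continuous.aestronglyMeasurable (by fun_prop)) (ae_of_all _ fun v => by
        rw [Real.norm_of_nonneg (by positivity)]; exact hb v)
    refine ⟨i4, (integral_mono i4 i3 hb).trans ?_⟩
    simp only [Pi.add_apply]
    rw [integral_const_mul, integral_add i1 i2]
    have hL0 := Real.log_pos hT
    have hMb : ((R * B) ^ 2 * (η / R * (1 : ℕ)) * (η / R + 6 / Real.log T)) ^ 1 ≤
        B ^ 2 * η * (η + 1) := by
      have h6 : 6 / Real.log T ≤ 1 / R := by rw [div_le_div_iff₀ hL0 hR0]; linarith only [hL]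
      calc _ ≤ ((R * B) ^ 2 * (η / R * (1 : ℕ)) * (η / R + 1 / R)) ^ 1 := by gcongr
        _ = _ := by field_simp; simp
    have m1 := (hP.moment_Psum (hn hp) (by positivity) (by linarith only [hηθ, hθ1, hηR])
      (fun u hu => hz hp u (hu.trans_le (le_abs_self u))) 1 hT hW X).trans hMb
    have m2 := (hP.moment_Psum_neg (φ := fun u => R * fm (R * -u)) (fun u => hn hm _)
      (by positivity) (by linarith only [hηθ, hθ1, hηR])
      (fun u hu => hz hm (-u) (by rw [abs_neg]; exact hu.trans_le (le_abs_self u))) 1 hT hW X).trans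
      hMb
    linarith only [m1, m2]

theorem ZData.prob_long {μ P : Measure ℝ} [SFinite μ] (hμ : ZData μ) (hP : Win P) {θ ε : ℝ}
    (hθ : 0 < θ) (hθ1 : θ < 1) (hε : 0 < ε) : ∃ R, 0 < R ∧ ∀ᶠ T in atTop, ∀ X,
      P.real {v | X + T ^ θ * v ∈ Icc (T / 2) (3 * T) ∧ cnt μ R T (X + T ^ θ * v) = 0} ≤ ε := by
  have := hP.prob
  obtain ⟨fp, fm, B, c, hc, hp, hm, hp0, hm0, hmaj⟩ := exists_majorant (half_pos hθ)
  have hB := hp.nonneg
  have hb := norm_iF_pw_le hp hm (half_pos hθ) (hp0.trans hm0.symm)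
  have hMc := hp.continuous_iF_pw hm (hp0.trans hm0.symm)
  set M := iF (pw fp fm) with hM
  set K0 := 6 * (1 + θ / 2) * B with hK0
  have hK00 : 0 ≤ K0 := by positivity
  set K := 4 * (B ^ 2 * (θ / 2) * (θ / 2 + 1)) with hK
  have hK' : 0 ≤ K := by positivity
  set A := 1 + 20 * K0 / c with hA
  have hA1 : 1 ≤ A := le_add_of_nonneg_right (by positivity)
  set R := 5 + 16 * K / ε with hR
  have hR5 : 5 ≤ R := le_add_of_nonneg_right (by positivity)
  have hAR : R ≤ A * R := le_mul_of_one_le_left (by linarith only [hθ, hθ1, hR5]) hA1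
  refine ⟨A * R, by positivity, ?_⟩
  filter_upwards [Real.tendsto_log_atTop.eventually_ge_atTop (2 * π),
    hμ.scaled hP (half_pos hθ) (half_lt_self hθ) hθ1 hp hm hp0 hm0 (show 1 ≤ R by linarith only [hθ, hθ1, hR5]),
    hμ.scaled hP (half_pos hθ) (half_lt_self hθ) hθ1 hp hm hp0 hm0 (show 1 ≤ A * R by linarith only [hθ, hθ1, hR5, hAR])]
    with T hL h1 h2 X
  obtain ⟨q, hq, hq'⟩ := h1
  obtain ⟨p, hp', hp''⟩ := h2
  obtain ⟨iq, mq⟩ := hq' X
  obtain ⟨ip, mp⟩ := hp'' X
  set E := {v | X + T ^ θ * v ∈ Icc (T / 2) (3 * T) ∧ cnt μ (A * R) T (X + T ^ θ * v) = 0} with hE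
  have hEm : MeasurableSet E :=
    (measurableSet_Icc.preimage (f := fun v => X + T ^ θ * v) (by fun_prop)).inter
      (measurableSet_eq_fun ((measurable_cnt μ (A * R) T).comp (by fun_prop)) measurable_const)
  have hdec : ∀ S : ℝ, 1 ≤ S → ∀ y, ‖M (y / S)‖ ≤ K0 * S ^ 2 / (1 + y ^ 2) := fun S hS y => by
    refine (hb _).trans ?_
    rw [div_le_div_iff₀ (by positivity) (by positivity), mul_assoc K0]
    refine mul_le_mul_of_nonneg_left ?_ hK00
    rw [div_pow, mul_add, mul_div_cancel₀ _ (by positivity)]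
    nlinarith only [hS]
  have key : ∀ v, E.indicator (fun _ => (1 : ℝ)) v ≤
      8 / R ^ 2 * (q (X + T ^ θ * v) ^ 2 + p (X + T ^ θ * v) ^ 2) := by
    intro v
    by_cases hv : v ∈ E
    swap
    · rw [indicator_of_notMem hv]; positivity
    rw [indicator_of_mem hv]
    obtain ⟨ht, h0⟩ := hv
    generalize X + T ^ θ * v = t at *
    have j1 := hμ.integrable_stat (h := fun y => M (y / R)) (by fun_prop) (hdec R (by linarith only [hθ, hθ1, hR5])) hL t
    have j2 := hμ.integrable_stat (h := fun y => M (y / (A * R))) (by fun_prop)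
      (hdec _ (by linarith only [hθ, hθ1, hR5, hAR])) hL t
    have j3 := hμ.integrable_stat (measurable_ind (A * R)) (norm_ind_le _) hL t
    have hae : ∀ᵐ y ∂μ, ¬ |Real.log T / (2 * π) * (y - t)| ≤ A * R / 2 := by
      have hms : MeasurableSet {y | |Real.log T / (2 * π) * (y - t)| ≤ A * R / 2} :=
        measurableSet_le (by fun_prop) (by fun_prop)
      have e : (fun y => ind (A * R) (Real.log T / (2 * π) * (y - t))) =
          {y | |Real.log T / (2 * π) * (y - t)| ≤ A * R / 2}.indicator fun _ => (1 : ℂ) := by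
        funext y
        simp only [ind, indicator, mem_Icc, mem_ofPred_eq, abs_le]
      rw [e, integrable_indicator_iff hms, integrableOn_const_iff] at j3
      rw [cnt, measureReal_eq_zero_iff (j3.resolve_left (by simp)).ne] at h0
      exact measure_eq_zero_iff_ae_notMem.1 h0
    have h3 : ‖stat μ (fun y => M (y / R)) T t‖ ≤
        1 / (4 * A) * (stat μ (fun y => M (y / (A * R))) T t).re := by
      have h4 := integral_re j2
      simp only [RCLike.re_to_complex] at h4
      rw [stat, stat, ← h4, ← integral_const_mul]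
      refine norm_integral_le_of_norm_le (j2.re.const_mul _) (hae.mono fun y hy => ?_)
      generalize Real.log T / (2 * π) * (y - t) = x at *
      refine (hb _).trans (le_trans ?_ (mul_le_mul_of_nonneg_left (hmaj _) (by positivity)))
      have h5 : (A * R / 2) ^ 2 ≤ x ^ 2 := by
        rw [← sq_abs x]; gcongr; exact (not_le.1 hy).le
      have h6 : 20 * K0 ≤ c * A := by rw [hA]; field_simp; linarith only [hc]
      have h7 : x / R = A * (x / (A * R)) := by field_simp
      have h8 : 1 / 4 ≤ (x / (A * R)) ^ 2 := by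
        rw [div_pow, le_div_iff₀ (by positivity)]; linarith only [h5]
      rw [h7]
      generalize x / (A * R) = z at *
      rw [div_mul_div_comm, div_le_div_iff₀ (by positivity) (by positivity)]
      have h9 : K0 * (4 * A * (1 + z ^ 2)) ≤ 20 * K0 * (A * z ^ 2) := by
        nlinarith only [hK00, hθ, hθ1, hA1, h8, mul_nonneg (mul_nonneg hK00 (show 0 ≤ A by linarith only [hθ, hθ1, hA1]))
          (show 0 ≤ 4 * z ^ 2 - 1 by linarith only [h8])]
      have h10 : 20 * K0 * (A * z ^ 2) ≤ c * A * (A * z ^ 2) := by gcongr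
      nlinarith only [hc, h9, h10]
    have h4 := hq t ht
    have h5 := hp' t ht
    have h6 : (stat μ (fun y => M (y / (A * R))) T t).re ≤ A * R + (1 + p t) := by
      have := (re_le_norm _).trans h5
      simp only [sub_re, ofReal_re] at this
      linarith only [this]
    have h7 : R ≤ ‖stat μ (fun y => M (y / R)) T t‖ + (1 + q t) := by
      have := norm_sub_norm_le (R : ℂ) (stat μ (fun y => M (y / R)) T t)
      rw [norm_sub_rev, norm_real, Real.norm_of_nonneg (by linarith only [hθ, hθ1, hR5])] at this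
      linarith only [h4, this]
    have h8 : 1 / (4 * A) * (A * R + (1 + p t)) ≤ R / 4 + (1 + |p t|) / 4 := by
      have : 1 / (4 * A) * (1 + p t) ≤ 1 / 4 * (1 + |p t|) :=
        calc _ ≤ 1 / (4 * A) * (1 + |p t|) := by gcongr; exact le_abs_self _
          _ ≤ _ := by gcongr; linarith only [hA1]
      rw [mul_add, show 1 / (4 * A) * (A * R) = R / 4 by field_simp]
      linarith only [this]
    have h9 := h3.trans (mul_le_mul_of_nonneg_left h6 (by positivity))
    have h10 : R / 2 ≤ |q t| + |p t| := by linarith only [hR5, h7, h8, h9, le_abs_self (q t), abs_nonneg (p t)]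
    rw [div_mul_eq_mul_div, le_div_iff₀ (by positivity), ← sq_abs (q t), ← sq_abs (p t)]
    nlinarith only [h10, hθ, hθ1, hR5, sq_nonneg (|q t| - |p t|), abs_nonneg (p t), abs_nonneg (q t)]
  have h3 := integral_mono ((integrable_const 1).indicator hEm) ((iq.add ip).const_mul _) key
  simp only [Pi.add_apply] at h3
  rw [integral_indicator_const _ hEm, integral_const_mul, integral_add iq ip, smul_eq_mul,
    mul_one] at h3
  refine h3.trans ?_
  rw [div_mul_eq_mul_div, div_le_iff₀ (by positivity)]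
  have h4 : 16 * K ≤ ε * R := by rw [hR]; field_simp; linarith only [hε]
  nlinarith only [hK, mq, mp, h4, hθ, hθ1, hR5, hε, mul_le_mul_of_nonneg_left (show 1 ≤ R by linarith only [hθ, hθ1, hR5]) (show 0 ≤ ε * R by positivity)]

/-- From probabilities in the windows to Lebesgue measure. -/
theorem le_volume_of_prob {P : Measure ℝ} [IsProbabilityMeasure P] {E : Set ℝ}
    (hE : MeasurableSet E) {η T T0 : ℝ} (hT : 0 ≤ T)
    (h : ∀ X ∈ Icc T (2 * T), η ≤ P.real {v | X + T0 * v ∈ E}) :
    ENNReal.ofReal (η * T) ≤ volume E := by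
  have hm : Measurable (Function.uncurry fun X v : ℝ => E.indicator (1 : ℝ → ENNReal) (X + T0 * v)) :=
    (measurable_one.indicator hE).comp (by fun_prop)
  have h1 : ∀ X, ∫⁻ v, E.indicator (1 : ℝ → ENNReal) (X + T0 * v) ∂P = P {v | X + T0 * v ∈ E} := by
    intro X
    exact lintegral_indicator_one (hE.preimage (f := fun v => X + T0 * v) (by fun_prop))
  calc _ = ∫⁻ _ in Icc T (2 * T), ENNReal.ofReal η := by
        rw [setLIntegral_const, Real.volume_Icc, ENNReal.ofReal_mul' hT]; congr 2; ring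
    _ ≤ ∫⁻ X in Icc T (2 * T), ∫⁻ v, E.indicator (1 : ℝ → ENNReal) (X + T0 * v) ∂P :=
        setLIntegral_mono' measurableSet_Icc fun X hX => by
          rw [h1]; exact ENNReal.ofReal_le_of_le_toReal (h X hX)
    _ ≤ ∫⁻ X, ∫⁻ v, E.indicator (1 : ℝ → ENNReal) (X + T0 * v) ∂P := setLIntegral_le_lintegral _ _
    _ = ∫⁻ v, (∫⁻ X, E.indicator (1 : ℝ → ENNReal) (X + T0 * v)) ∂P :=
        lintegral_lintegral_swap hm.aemeasurable
    _ = volume E := by
        simp_rw [lintegral_add_right_eq_self (E.indicator (1 : ℝ → ENNReal)),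
          lintegral_indicator_one hE]
        simp

end Pool.Agent.P.MP_7eacff_nt
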