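import Pool.Agent.Lib.Mertens.First

/-!
Smooth prime sums on the logarithmic scale, from Mertens' first theorem.
-/

open Filter Topology MeasureTheory Set

namespace Pool.Agent.P.MP_7eacff_nt

theorem abs_sum_sub_integral_le {ι : Type*} (S : Finset ι) (w x : ι → ℝ) {F : ℝ → ℝ}
    (hF : ContDiff ℝ 1 F) (hx : ∀ k ∈ S, x k ∈ Icc (0 : ℝ) 1) {ε : ℝ}
    (h : ∀ y ∈ Icc (0 : ℝ) 1, |∑ k ∈ S, (if x k ≤ y then w k else 0) - y| ≤ ε) :
    |∑ k ∈ S, w k * F (x k) - ∫ u in (0 : ℝ)..1, F u| ≤
      ε * (|F 1| + ∫ u in (0 : ℝ)..1, |deriv F u|) := by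
  have hc : Continuous (deriv F) := hF.continuous_deriv le_rfl
  have hd : ∀ u, HasDerivAt F (deriv F u) u := fun u =>
    (hF.differentiable (by norm_num) u).hasDerivAt
  have hind : ∀ a : ℝ, (fun y => if a ≤ y then deriv F y else 0) = (Ici a).indicator (deriv F) := by
    intro a; funext y; simp [indicator]
  have hii : ∀ a : ℝ, IntervalIntegrable (fun y => if a ≤ y then deriv F y else 0) volume 0 1 := by
    intro a
    rw [hind, intervalIntegrable_iff]
    exact (hc.intervalIntegrable 0 1).def'.indicator measurableSet_Ici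
  have h1 : ∀ a ∈ Icc (0 : ℝ) 1,
      F a = F 1 - ∫ y in (0 : ℝ)..1, if a ≤ y then deriv F y else 0 := by
    intro a ha
    have e := intervalIntegral.integral_eq_sub_of_hasDerivAt (a := a) (b := 1)
      (fun u _ => hd u) (hc.intervalIntegrable _ _)
    have e2 : (∫ y in (0 : ℝ)..1, if a ≤ y then deriv F y else 0) = ∫ y in a..1, deriv F y := by
      rw [hind, intervalIntegral.integral_of_le zero_le_one, intervalIntegral.integral_of_le ha.2,
        ← integral_Icc_eq_integral_Ioc, ← integral_Icc_eq_integral_Ioc,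
        setIntegral_indicator measurableSet_Ici]
      congr 2
      ext y
      simp only [mem_inter_iff, mem_Icc, mem_Ici]
      exact ⟨fun h => ⟨h.2, h.1.2⟩, fun h => ⟨⟨ha.1.trans h.1, h.2⟩, h.1⟩⟩
    rw [e2, e]; ring
  have h2 : ∫ u in (0 : ℝ)..1, F u = F 1 - ∫ y in (0 : ℝ)..1, y * deriv F y := by
    have e := intervalIntegral.integral_eq_sub_of_hasDerivAt (a := 0) (b := 1)
      (f := fun y => y * F y) (f' := fun y => F y + y * deriv F y)
      (fun u _ => HasDerivAt.congr_deriv ((hasDerivAt_id u).mul (hd u)) (by simp))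
      (Continuous.intervalIntegrable (by have := hF.continuous; fun_prop) _ _)
    rw [intervalIntegral.integral_add (hF.continuous.intervalIntegrable _ _)
      (Continuous.intervalIntegrable (by fun_prop) _ _)] at e
    simp only [one_mul, zero_mul, sub_zero] at e
    linarith
  have hS : IntervalIntegrable (fun y => ∑ k ∈ S, w k * if x k ≤ y then deriv F y else 0)
      volume 0 1 := by
    have := IntervalIntegrable.sum S fun k _ => (hii (x k)).const_mul (w k)
    rwa [Finset.sum_fn] at this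
  have h3 : ∑ k ∈ S, w k * F (x k) - ∫ u in (0 : ℝ)..1, F u =
      (∑ k ∈ S, (if x k ≤ 1 then w k else 0) - 1) * F 1 -
        ∫ y in (0 : ℝ)..1, (∑ k ∈ S, (if x k ≤ y then w k else 0) - y) * deriv F y := by
    have e1 : ∑ k ∈ S, (if x k ≤ 1 then w k else 0) = ∑ k ∈ S, w k :=
      Finset.sum_congr rfl fun k hk => if_pos (hx k hk).2
    have e2 : ∫ y in (0 : ℝ)..1, (∑ k ∈ S, (if x k ≤ y then w k else 0) - y) * deriv F y =
        (∑ k ∈ S, w k * ∫ y in (0 : ℝ)..1, if x k ≤ y then deriv F y else 0) -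
          ∫ y in (0 : ℝ)..1, y * deriv F y := by
      simp_rw [← intervalIntegral.integral_const_mul]
      rw [← intervalIntegral.integral_finsetSum fun k _ => (hii (x k)).const_mul (w k),
        ← intervalIntegral.integral_sub hS (Continuous.intervalIntegrable (by fun_prop) _ _)]
      congr 1
      funext y
      rw [sub_mul, Finset.sum_mul]
      congr 1
      exact Finset.sum_congr rfl fun k _ => by split_ifs <;> simp
    rw [e1, e2, h2, Finset.sum_congr rfl fun k hk => by rw [h1 (x k) (hx k hk)]]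
    simp only [mul_sub, Finset.sum_sub_distrib, ← Finset.sum_mul]
    ring
  rw [h3, mul_add]
  refine (abs_sub _ _).trans (add_le_add ?_ ?_)
  · rw [abs_mul]
    exact mul_le_mul_of_nonneg_right (h 1 ⟨zero_le_one, le_rfl⟩) (abs_nonneg _)
  · rw [← intervalIntegral.integral_const_mul, ← Real.norm_eq_abs]
    refine intervalIntegral.norm_integral_le_of_norm_le zero_le_one (ae_of_all _ fun y hy => ?_)
      (Continuous.intervalIntegrable (by fun_prop) _ _)
    rw [Real.norm_eq_abs, abs_mul]
    exact mul_le_mul_of_nonneg_right (h y (Ioc_subset_Icc_self hy)) (abs_nonneg _)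

theorem tendsto_prime_sum {F : ℝ → ℝ} (hF : ContDiff ℝ 1 F) :
    Tendsto (fun T : ℝ => ∑ p ∈ Finset.Icc 1 ⌊T⌋₊ with p.Prime,
      Real.log p / (p * Real.log T) * F (Real.log p / Real.log T)) atTop
      (𝓝 (∫ u in (0 : ℝ)..1, F u)) := by
  obtain ⟨C, hC, h⟩ := Pool.Agent.Lib.Mertens.exists_abs_sum_log_div_prime_sub_log_le
  rw [tendsto_iff_norm_sub_tendsto_zero]
  have hlim : Tendsto (fun T : ℝ => C / Real.log T * (|F 1| + ∫ u in (0 : ℝ)..1, |deriv F u|))
      atTop (𝓝 0) := by
    simpa using (tendsto_const_nhds (x := C).div_atTop Real.tendsto_log_atTop).mul_const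
      (|F 1| + ∫ u in (0 : ℝ)..1, |deriv F u|)
  refine squeeze_zero' (Eventually.of_forall fun _ => norm_nonneg _) ?_ hlim
  filter_upwards [eventually_gt_atTop 1] with T hT
  have hL := Real.log_pos hT
  have hT0 : 0 < T := by linarith
  refine abs_sum_sub_integral_le _ (fun p : ℕ => Real.log p / (p * Real.log T))
    (fun p : ℕ => Real.log p / Real.log T) hF (fun p hp => ?_) fun y hy => ?_
  · simp only [Finset.mem_filter, Finset.mem_Icc] at hp
    have h1 : (1 : ℝ) ≤ p := by exact_mod_cast hp.1.1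
    refine ⟨div_nonneg (Real.log_nonneg h1) hL.le, ?_⟩
    rw [div_le_one hL]
    exact Real.log_le_log (by linarith) ((Nat.le_floor_iff hT0.le).1 hp.1.2)
  · have h1 : 1 ≤ T ^ y := Real.one_le_rpow hT.le hy.1
    have h2 := h _ h1
    rw [Real.log_rpow hT0] at h2
    have e : ∑ p ∈ Finset.Icc 1 ⌊T⌋₊ with p.Prime,
        (if Real.log p / Real.log T ≤ y then Real.log p / (p * Real.log T) else 0) =
        (∑ p ∈ (Finset.Ioc 0 ⌊T ^ y⌋₊).filter Nat.Prime, Real.log p / p) / Real.log T := by
      rw [← Finset.sum_filter, Finset.sum_div]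
      refine Finset.sum_congr ?_ fun p _ => by rw [div_div]
      ext p
      simp only [Finset.mem_filter, Finset.mem_Icc, Finset.mem_Ioc]
      have hTy : T ^ y ≤ T := by simpa using Real.rpow_le_rpow_of_exponent_le hT.le hy.2
      constructor
      · rintro ⟨⟨⟨hp1, _⟩, hp⟩, hp2⟩
        refine ⟨⟨hp1, Nat.le_floor ?_⟩, hp⟩
        rw [div_le_iff₀ hL, ← Real.log_rpow hT0] at hp2
        exact (Real.log_le_log_iff (by exact_mod_cast hp1) (by positivity)).1 hp2
      · rintro ⟨⟨hp1, hp2⟩, hp⟩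
        have h3 : (p : ℝ) ≤ T ^ y := (Nat.le_floor_iff (by positivity)).1 hp2
        refine ⟨⟨⟨hp1, Nat.le_floor (h3.trans hTy)⟩, hp⟩, ?_⟩
        rw [div_le_iff₀ hL, ← Real.log_rpow hT0]
        exact Real.log_le_log (by exact_mod_cast hp1) h3
    rw [e, div_sub' hL.ne', abs_div, abs_of_pos hL, mul_comm]
    gcongr

end Pool.Agent.P.MP_7eacff_nt
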