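import Pool.Agent.P.MP_7eacff_nt.MeanValue
import Pool.Agent.P.MP_7eacff_nt.Arith
import Pool.Agent.P.MP_7eacff_nt.PrimeSum

/-!
The resonator supported on rough integers: definitions, limits of the diagonal sums.
-/

open Complex Filter Topology MeasureTheory Set ArithmeticFunction
open scoped Real

namespace Pool.Agent.P.MP_7eacff_nt

/-- Smooth weights `φ i` living in the cells `((i - 1) h, i h]`, `1 ≤ i ≤ J`. -/
structure Cells (J : ℕ) (h δ B : ℝ) (φ : ℕ → ℝ → ℝ) : Prop where
  hpos : 0 < h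
  lt_one : h * J < 1
  δpos : 0 < δ
  cd : ∀ i, ContDiff ℝ 2 (φ i)
  supp : ∀ i u, φ i u ≠ 0 → ((i : ℝ) - 1) * h < u ∧ u ≤ i * h ∧ δ ≤ u ∧ i ≤ J
  bdd : ∀ i u, |φ i u| ≤ B

/-- The cell of a prime. -/
noncomputable def jj (h T : ℝ) (p : ℕ) : ℕ := ⌈Real.log p / Real.log T / h⌉₊

/-- The weight of a prime. -/
noncomputable def al (φ : ℕ → ℝ → ℝ) (h T : ℝ) (p : ℕ) : ℝ :=
  φ (jj h T p) (Real.log p / Real.log T) * (Real.log p / (√p * Real.log T))

/-- The resonator. -/
noncomputable def res (J : ℕ) (ψ : ℕ → ℝ) (φ : ℕ → ℝ → ℝ) (h T t : ℝ) : ℂ :=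
  ∑ n ∈ Finset.Icc 1 ⌊T⌋₊ with sz (jj h T) n ≤ J,
    ((ψ (sz (jj h T) n) * cm (al φ h T) n : ℝ) : ℂ) * ch n t

theorem le_sz_of_isPrimePow (j : ℕ → ℕ) {k : ℕ} (hk : IsPrimePow k) : j k.minFac ≤ sz j k := by
  obtain ⟨p, a, hp, ha, rfl⟩ := (isPrimePow_nat_iff _).1 hk
  rw [hp.pow_minFac ha.ne', sz_prime_pow j hp]
  exact Nat.le_mul_of_pos_left _ ha

theorem Es_split {R : Type*} [CommRing R] (j : ℕ → ℕ) (N : ℕ) (g : ℕ → R) (i : ℕ) :
    Es j N (fun k => if IsPrimePow k then g k else 0) i =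
      (∑ p ∈ Finset.Icc 1 N with p.Prime, if j p = i then g p else 0) +
        ∑ k ∈ Finset.Icc 1 N with IsPrimePow k ∧ ¬ k.Prime, if sz j k = i then g k else 0 := by
  rw [Es, Finset.sum_filter, Finset.sum_filter, Finset.sum_filter, ← Finset.sum_add_distrib]
  refine Finset.sum_congr rfl fun k _ => ?_
  by_cases hp : k.Prime
  · simp [hp, hp.isPrimePow, sz_prime j hp]
  · by_cases hk : IsPrimePow k <;> simp [hp, hk]

theorem sum_log_div_le {T : ℝ} (hT : 1 < T) (hL : 6 ≤ Real.log T) :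
    ∑ p ∈ Finset.Icc 1 ⌊T⌋₊ with p.Prime, Real.log p / (p * Real.log T) ≤ 2 := by
  have h := Pool.Agent.Lib.Mertens.sum_log_div_prime_le hT.le
  have hl4 : Real.log 4 ≤ 2 := by
    rw [show (4 : ℝ) = 2 ^ 2 by norm_num, Real.log_pow]; push_cast; linarith only [Real.log_two_lt_d9]
  have e : ∑ p ∈ Finset.Icc 1 ⌊T⌋₊ with p.Prime, Real.log p / (p * Real.log T) =
      (∑ p ∈ (Finset.Ioc 0 ⌊T⌋₊).filter Nat.Prime, Real.log p / p) / Real.log T := by
    rw [Finset.sum_div]
    exact Finset.sum_congr rfl fun p _ => by rw [div_div]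
  rw [e, div_le_iff₀ (by linarith only [hL])]
  linarith only [hL, h, hl4]

namespace Cells

variable {J : ℕ} {h δ B : ℝ} {φ : ℕ → ℝ → ℝ} (hC : Cells J h δ B φ)
include hC

theorem B_nonneg : 0 ≤ B := (abs_nonneg _).trans (hC.bdd 0 0)

theorem one_le_jj {T : ℝ} (hT : 1 < T) (p : ℕ) (hp : p.Prime) : 1 ≤ jj h T p := by
  have := hC.hpos
  have h1 := Real.log_pos hT
  have h2 : 0 < Real.log p := Real.log_pos (by exact_mod_cast hp.one_lt)
  exact Nat.one_le_ceil_iff.2 (by positivity)

theorem le_rpow_of_sz {T : ℝ} (hT : 1 < T) {n : ℕ} (hn : n ≠ 0) (hs : sz (jj h T) n ≤ J) :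
    (n : ℝ) ≤ T ^ (h * J) := by
  have hh := hC.hpos
  have hL := Real.log_pos hT
  have h1 := log_le_sz (j := jj h T) (c := h * Real.log T) (fun p _ => by
    have := Nat.le_ceil (Real.log p / Real.log T / h)
    rw [div_le_iff₀ hh, div_le_iff₀ hL] at this
    unfold jj; linarith only [this]) n
  have h2 : (sz (jj h T) n : ℝ) ≤ J := by exact_mod_cast hs
  rw [← Real.log_le_log_iff (by positivity) (by positivity), Real.log_rpow (by linarith only [hT])]
  calc _ ≤ h * Real.log T * J := h1.trans (by gcongr)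
    _ = _ := by ring

theorem le_floor_of_sz {T : ℝ} (hT : 1 < T) (n : ℕ) (hn : n ≠ 0) (hs : sz (jj h T) n ≤ J) :
    n ≤ ⌊T⌋₊ :=
  Nat.le_floor ((hC.le_rpow_of_sz hT hn hs).trans (by
    simpa using Real.rpow_le_rpow_of_exponent_le hT.le hC.lt_one.le))

theorem jj_eq (T : ℝ) (p i : ℕ) (h0 : φ i (Real.log p / Real.log T) ≠ 0) : jj h T p = i := by
  obtain ⟨h1, h2, h3, _⟩ := hC.supp _ _ h0
  have hh := hC.hpos
  have hi : i ≠ 0 := by
    rintro rfl
    simp only [Nat.cast_zero, zero_mul] at h2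
    linarith only [h3, h2, hC.δpos]
  rw [jj, Nat.ceil_eq_iff hi, Nat.cast_pred (Nat.pos_of_ne_zero hi), lt_div_iff₀ hh,
    div_le_iff₀ hh]
  exact ⟨h1, h2⟩

theorem ite_al (T : ℝ) (p i : ℕ) : (if jj h T p = i then al φ h T p else 0) =
    φ i (Real.log p / Real.log T) * (Real.log p / (√p * Real.log T)) := by
  split_ifs with hi
  · rw [al, hi]
  · by_cases h0 : φ i (Real.log p / Real.log T) = 0
    · rw [h0, zero_mul]
    · exact absurd (hC.jj_eq T p i h0) hi

theorem abs_al_le {T : ℝ} (hT : 1 < T) (p : ℕ) (hp : p.Prime) :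
    |al φ h T p| ≤ B * T ^ (-(δ / 2)) := by
  have hB := hC.B_nonneg
  have hL := Real.log_pos hT
  have hp1 : (1 : ℝ) < p := by exact_mod_cast hp.one_lt
  have hl : 0 < Real.log p := Real.log_pos hp1
  by_cases h0 : φ (jj h T p) (Real.log p / Real.log T) = 0
  · rw [al, h0, zero_mul, abs_zero]; positivity
  obtain ⟨_, h2, h3, h4⟩ := hC.supp _ _ h0
  have h5 : Real.log p / Real.log T ≤ 1 := by
    have : (jj h T p : ℝ) ≤ J := by exact_mod_cast h4
    nlinarith [hC.hpos, hC.lt_one]
  have h6 : T ^ (δ / 2) ≤ √p := by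
    rw [le_div_iff₀ hL, ← Real.log_rpow (by linarith only [hT]),
      Real.log_le_log_iff (by positivity) (by positivity)] at h3
    rw [Real.sqrt_eq_rpow, div_eq_mul_one_div δ, Real.rpow_mul (by linarith only [hT])]
    gcongr
  rw [al, abs_mul, abs_of_pos (by positivity : 0 < Real.log p / (√p * Real.log T)),
    Real.rpow_neg (by linarith only [hT])]
  refine mul_le_mul (hC.bdd _ _) ?_ (by positivity) hB
  calc Real.log p / (√p * Real.log T) = Real.log p / Real.log T * (√p)⁻¹ := by field_simp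
    _ ≤ 1 * (T ^ (δ / 2))⁻¹ := by gcongr
    _ = _ := one_mul _

theorem tendsto_eps : Tendsto (fun T : ℝ => B * T ^ (-(δ / 2))) atTop (𝓝 0) := by
  simpa using (tendsto_rpow_neg_atTop (half_pos hC.δpos)).const_mul B

theorem sum_al_sq_le {T : ℝ} (hT : 1 < T) (hL : 6 ≤ Real.log T) :
    ∑ p ∈ Finset.Icc 1 ⌊T⌋₊ with p.Prime, al φ h T p ^ 2 ≤ 2 * B ^ 2 := by
  have hL0 := Real.log_pos hT
  calc _ ≤ ∑ p ∈ Finset.Icc 1 ⌊T⌋₊ with p.Prime, Real.log p / (p * Real.log T) * B ^ 2 := by
        refine Finset.sum_le_sum fun p hp => ?_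
        simp only [Finset.mem_filter, Finset.mem_Icc] at hp
        have hp1 : (1 : ℝ) < p := by exact_mod_cast hp.2.one_lt
        have hl : 0 < Real.log p := Real.log_pos hp1
        have h1 : Real.log p ≤ Real.log T :=
          Real.log_le_log (by linarith only [hp1]) ((Nat.le_floor_iff (by linarith only [hT])).1 hp.1.2)
        rw [al, mul_pow, mul_comm, div_pow, mul_pow, Real.sq_sqrt (by linarith only [hp1])]
        refine mul_le_mul ?_ (sq_le_sq' (abs_le.1 (hC.bdd _ _)).1 (abs_le.1 (hC.bdd _ _)).2)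
          (sq_nonneg _) (by positivity)
        rw [div_le_div_iff₀ (by positivity) (by positivity)]
        have : 0 < Real.log p * p * Real.log T := by positivity
        nlinarith only [h1, this]
    _ ≤ _ := by
        rw [← Finset.sum_mul]
        gcongr
        exact sum_log_div_le hT hL

theorem tendsto_qs {i : ℕ} (hi : i ≤ J) :
    Tendsto (fun T : ℝ => qs (jj h T) ⌊T⌋₊ (fun n => cm (al φ h T) n ^ 2) i) atTop
      (𝓝 (i * ∫ u in (0 : ℝ)..1, φ i u ^ 2 * u)) := by
  have h1 := (tendsto_prime_sum (F := fun u => φ i u ^ 2 * u)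
    ((((hC.cd i).of_le (by norm_num)).pow 2).mul contDiff_id)).const_mul (i : ℝ)
  have h2 : Tendsto (fun T : ℝ => ∑ k ∈ Finset.Icc 1 ⌊T⌋₊ with IsPrimePow k ∧ ¬ k.Prime,
      if sz (jj h T) k = i then (jj h T k.minFac : ℝ) * cm (al φ h T) k ^ 2 else 0) atTop
      (𝓝 0) := by
    have h3 : Tendsto (fun T : ℝ => 4 * J * (B * T ^ (-(δ / 2))) ^ 2 * (2 * B ^ 2)) atTop (𝓝 0) := by
      simpa using ((hC.tendsto_eps.pow 2).const_mul (4 * J : ℝ)).mul_const (2 * B ^ 2)
    refine squeeze_zero' (Eventually.of_forall fun T => Finset.sum_nonneg fun k _ => by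
      split_ifs <;> positivity) ?_ h3
    filter_upwards [eventually_gt_atTop 1, Real.tendsto_log_atTop.eventually_ge_atTop 6,
      hC.tendsto_eps.eventually_le_const (show (0 : ℝ) < 1 / 2 by norm_num)] with T hT hL he
    have hal := hC.abs_al_le hT
    have hsq : ∀ p, p.Prime → al φ h T p ^ 2 ≤ (B * T ^ (-(δ / 2))) ^ 2 := fun p hp =>
      sq_le_sq' (abs_le.1 (hal p hp)).1 (abs_le.1 (hal p hp)).2
    calc _ ≤ ∑ k ∈ Finset.Icc 1 ⌊T⌋₊ with IsPrimePow k ∧ ¬ k.Prime,
          (J : ℝ) * cm (al φ h T) k ^ 2 := by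
          refine Finset.sum_le_sum fun k hk => ?_
          split_ifs with hs
          · have := (le_sz_of_isPrimePow (jj h T) (Finset.mem_filter.1 hk).2.1).trans (hs.le.trans hi)
            gcongr
          · positivity
      _ ≤ ∑ p ∈ Finset.Icc 1 ⌊T⌋₊ with p.Prime, 4 * (J * (cm (al φ h T) p ^ 2) ^ 2) :=
          sum_nonprime_le (F := fun k => cm (al φ h T) k ^ 2) (w := fun _ => (J : ℝ))
            (fun p _ => sq_nonneg _) (fun p hp => by
              rw [cm_prime _ hp]
              have := (hal p hp).trans he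
              nlinarith only [this, abs_nonneg (al φ h T p), sq_abs (al φ h T p)])
            (fun p a hp => by rw [cm_prime_pow _ hp, cm_prime _ hp]; ring)
            (fun _ _ => Nat.cast_nonneg _) _
      _ ≤ ∑ p ∈ Finset.Icc 1 ⌊T⌋₊ with p.Prime,
          4 * J * (B * T ^ (-(δ / 2))) ^ 2 * al φ h T p ^ 2 := by
          refine Finset.sum_le_sum fun p hp => ?_
          have hp' := (Finset.mem_filter.1 hp).2
          rw [cm_prime _ hp', sq (al φ h T p ^ 2), ← mul_assoc, ← mul_assoc]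
          exact mul_le_mul_of_nonneg_right
            (mul_le_mul_of_nonneg_left (hsq p hp') (by positivity)) (sq_nonneg _)
      _ ≤ _ := by
          rw [← Finset.mul_sum]
          gcongr
          exact hC.sum_al_sq_le hT hL
  have h4 := h1.add h2
  rw [add_zero] at h4
  refine h4.congr fun T => ?_
  rw [qs, Es_split, Finset.mul_sum]
  congr 1
  refine Finset.sum_congr rfl fun p hp => ?_
  have hp' := (Finset.mem_filter.1 hp).2
  have e := hC.ite_al T p i
  rw [hp'.minFac_eq, cm_prime _ hp']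
  have e2 : (if jj h T p = i then (jj h T p : ℝ) * al φ h T p ^ 2 else 0) =
      i * (if jj h T p = i then al φ h T p else 0) ^ 2 := by
    split_ifs with hi <;> simp [hi]
  rw [e2, e, mul_pow, div_pow, mul_pow, Real.sq_sqrt (Nat.cast_nonneg _)]
  ring

theorem tendsto_ZT {r : ℝ} (hr : ∀ i : ℕ, 1 ≤ i → i ≤ J → i * ∫ u in (0 : ℝ)..1, φ i u ^ 2 * u = r)
    {s : ℕ} (hs : s ≤ J) :
    Tendsto (fun T : ℝ => Es (jj h T) ⌊T⌋₊ (fun n => cm (al φ h T) n ^ 2) s) atTop
      (𝓝 (Zc r s)) := by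
  refine tendsto_Zc (q := fun T => qs (jj h T) ⌊T⌋₊ (fun n => cm (al φ h T) n ^ 2)) ?_
    (fun i h1 h2 => hr i h1 h2 ▸ hC.tendsto_qs h2) s hs
  filter_upwards [eventually_gt_atTop 1] with T hT
  have hN : 1 ≤ ⌊T⌋₊ := Nat.le_floor (by simpa using hT.le)
  refine ⟨by rw [Es_zero (hC.one_le_jj hT) hN]; simp, qs_zero (hC.one_le_jj hT) hN _,
    fun s hs => Es_rec (hC.le_floor_of_sz hT) (fun m n hm hn => ?_) hs⟩
  rw [cm_mul _ hm hn, mul_pow]

theorem tendsto_wT {g : ℝ → ℝ} (hg : ContDiff ℝ 1 g) {B' : ℝ} (hB' : ∀ u, |g u| ≤ B') (i : ℕ) :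
    Tendsto (fun T : ℝ => Es (jj h T) ⌊T⌋₊ (fun k => vonMangoldt k / (√k * Real.log T) *
      g (Real.log k / Real.log T) * cm (al φ h T) k) i) atTop
      (𝓝 (∫ u in (0 : ℝ)..1, φ i u * u * g u)) := by
  have hB0 : 0 ≤ B' := (abs_nonneg _).trans (hB' 0)
  have h1 := tendsto_prime_sum (F := fun u => φ i u * u * g u)
    ((((hC.cd i).of_le (by norm_num)).mul contDiff_id).mul hg)
  have h2 : Tendsto (fun T : ℝ => ∑ k ∈ Finset.Icc 1 ⌊T⌋₊ with IsPrimePow k ∧ ¬ k.Prime,
      if sz (jj h T) k = i then Real.log k.minFac / (√k * Real.log T) *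
        g (Real.log k / Real.log T) * cm (al φ h T) k else 0) atTop (𝓝 0) := by
    have h3 : Tendsto (fun T : ℝ => 4 * B' * (B * T ^ (-(δ / 2))) ^ 2 * 2) atTop (𝓝 0) := by
      simpa using ((hC.tendsto_eps.pow 2).const_mul (4 * B')).mul_const 2
    refine squeeze_zero_norm' ?_ h3
    filter_upwards [eventually_gt_atTop 1, Real.tendsto_log_atTop.eventually_ge_atTop 6,
      hC.tendsto_eps.eventually_le_const (show (0 : ℝ) < 1 / 2 by norm_num)] with T hT hL he
    have hal := hC.abs_al_le hT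
    have hL0 := Real.log_pos hT
    have hsq : ∀ p, p.Prime → al φ h T p ^ 2 ≤ (B * T ^ (-(δ / 2))) ^ 2 := fun p hp =>
      sq_le_sq' (abs_le.1 (hal p hp)).1 (abs_le.1 (hal p hp)).2
    calc _ ≤ ∑ k ∈ Finset.Icc 1 ⌊T⌋₊ with IsPrimePow k ∧ ¬ k.Prime,
          (B' * (Real.log k.minFac / Real.log T)) * (|cm (al φ h T) k| / √k) := by
          refine (norm_sum_le _ _).trans (Finset.sum_le_sum fun k hk => ?_)
          have hl : 0 ≤ Real.log k.minFac := Real.log_natCast_nonneg _
          split_ifs with hs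
          · rw [Real.norm_eq_abs, abs_mul, abs_mul, abs_of_nonneg (by positivity)]
            calc _ ≤ Real.log k.minFac / (√k * Real.log T) * B' * |cm (al φ h T) k| := by
                  gcongr; exact hB' _
              _ = _ := by ring
          · rw [norm_zero]; positivity
      _ ≤ ∑ p ∈ Finset.Icc 1 ⌊T⌋₊ with p.Prime,
          4 * (B' * (Real.log p / Real.log T) * (|cm (al φ h T) p| / √p) ^ 2) :=
          sum_nonprime_le (F := fun k => |cm (al φ h T) k| / √k)
            (w := fun p => B' * (Real.log p / Real.log T))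
            (fun p _ => by positivity) (fun p hp => by
              rw [cm_prime _ hp]
              have h1 : 1 ≤ √(p : ℝ) := Real.one_le_sqrt.2 (by exact_mod_cast hp.one_lt.le)
              exact (div_le_self (abs_nonneg _) h1).trans (((hal p hp).trans he).trans (by norm_num)))
            (fun p a hp => by
              rw [cm_prime_pow _ hp, cm_prime _ hp, abs_pow, div_pow, Nat.cast_pow,
                Real.sqrt_eq_rpow, Real.sqrt_eq_rpow, ← Real.rpow_natCast_mul (Nat.cast_nonneg _),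
                ← Real.rpow_mul_natCast (Nat.cast_nonneg _), mul_comm (a : ℝ)])
            (fun p _ => by have := Real.log_natCast_nonneg p; positivity) _
      _ ≤ ∑ p ∈ Finset.Icc 1 ⌊T⌋₊ with p.Prime,
          4 * B' * (B * T ^ (-(δ / 2))) ^ 2 * (Real.log p / (p * Real.log T)) := by
          refine Finset.sum_le_sum fun p hp => ?_
          have hp' := (Finset.mem_filter.1 hp).2
          have hl := Real.log_natCast_nonneg p
          rw [cm_prime _ hp', div_pow, sq_abs, Real.sq_sqrt (Nat.cast_nonneg _)]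
          calc _ = 4 * B' * al φ h T p ^ 2 * (Real.log p / (p * Real.log T)) := by ring
            _ ≤ _ := mul_le_mul_of_nonneg_right
              (mul_le_mul_of_nonneg_left (hsq p hp') (by positivity)) (by positivity)
      _ ≤ _ := by
          rw [← Finset.mul_sum]
          gcongr
          exact sum_log_div_le hT hL
  have h4 := h1.add h2
  rw [add_zero] at h4
  refine h4.congr fun T => ?_
  have e0 : (fun k : ℕ => vonMangoldt k / (√k * Real.log T) *
      g (Real.log k / Real.log T) * cm (al φ h T) k) = fun k : ℕ => if IsPrimePow k then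
        Real.log k.minFac / (√k * Real.log T) * g (Real.log k / Real.log T) * cm (al φ h T) k
        else 0 := by
    funext k
    rw [vonMangoldt_apply]
    split_ifs <;> simp
  rw [e0, Es_split]
  congr 1
  refine Finset.sum_congr rfl fun p hp => ?_
  have hp' := (Finset.mem_filter.1 hp).2
  have e := hC.ite_al T p i
  rw [hp'.minFac_eq, cm_prime _ hp']
  have e2 : (if jj h T p = i then Real.log p / (√p * Real.log T) *
      g (Real.log p / Real.log T) * al φ h T p else 0) = Real.log p / (√p * Real.log T) *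
      g (Real.log p / Real.log T) * (if jj h T p = i then al φ h T p else 0) := by
    split_ifs <;> simp
  rw [e2, e]
  have hs := Real.mul_self_sqrt (Nat.cast_nonneg p : (0 : ℝ) ≤ p)
  generalize √(p : ℝ) = q at *
  rw [← hs]
  ring

theorem norm_qs_le : ∀ᶠ T in atTop, ∀ t : ℝ, ∀ i ≤ J,
    ‖qs (jj h T) ⌊T⌋₊ (fun n => (cm (al φ h T) n : ℂ) * ch n t) i‖ ≤
      J * (‖Psum (fun u => φ i u) T t‖ + 8 * B + 8 * B ^ 2) := by
  filter_upwards [eventually_gt_atTop 1, Real.tendsto_log_atTop.eventually_ge_atTop 6,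
    hC.tendsto_eps.eventually_le_const (show (0 : ℝ) < 1 / 2 by norm_num)] with T hT hL he t i hi
  have hal := hC.abs_al_le hT
  have hL0 := Real.log_pos hT
  have hB := hC.B_nonneg
  have hiJ : (i : ℝ) ≤ J := by exact_mod_cast hi
  set Y := ∑ k ∈ Finset.Icc 1 ⌊T⌋₊ with IsPrimePow k ∧ ¬ k.Prime,
    ((Real.log k.minFac / (√k * Real.log T) : ℝ) : ℂ) * φ i (Real.log k / Real.log T) * ch k t
    with hY
  have hP : Psum (fun u => φ i u) T t = (∑ p ∈ Finset.Icc 1 ⌊T⌋₊ with p.Prime,
      ((if jj h T p = i then al φ h T p else 0 : ℝ) : ℂ) * ch p t) + Y := by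
    rw [Psum, hY, Finset.sum_filter, Finset.sum_filter, ← Finset.sum_add_distrib]
    refine Finset.sum_congr rfl fun k _ => ?_
    rw [hC.ite_al, vonMangoldt_apply]
    by_cases hp : k.Prime
    · simp only [hp, hp.isPrimePow, hp.minFac_eq, if_true, not_true, and_false, if_false]
      push_cast; ring
    · by_cases hk : IsPrimePow k <;> simp [hp, hk]
  have hYb : ‖Y‖ ≤ 8 * B := by
    calc _ ≤ ∑ k ∈ Finset.Icc 1 ⌊T⌋₊ with IsPrimePow k ∧ ¬ k.Prime,
          (B * (Real.log k.minFac / Real.log T)) * (1 / √k) := by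
          refine (norm_sum_le _ _).trans (Finset.sum_le_sum fun k hk => ?_)
          have hl : 0 ≤ Real.log k.minFac := Real.log_natCast_nonneg _
          rw [norm_mul, norm_mul, norm_ch, norm_real, norm_real, Real.norm_of_nonneg (by positivity),
            mul_one, Real.norm_eq_abs]
          calc _ ≤ Real.log k.minFac / (√k * Real.log T) * B := by gcongr; exact hC.bdd _ _
            _ = _ := by ring
      _ ≤ ∑ p ∈ Finset.Icc 1 ⌊T⌋₊ with p.Prime,
          4 * (B * (Real.log p / Real.log T) * (1 / √p) ^ 2) :=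
          sum_nonprime_le (F := fun k => 1 / √k) (w := fun p => B * (Real.log p / Real.log T))
            (fun p _ => by positivity) (fun p hp => by
              have h2 : (2 : ℝ) ≤ p := by exact_mod_cast hp.two_le
              have h1 : 4 / 3 ≤ √(p : ℝ) := Real.le_sqrt_of_sq_le (by linarith only [h2])
              rw [div_le_iff₀ (by linarith only [h1])]; linarith only [h1])
            (fun p a hp => by
              rw [div_pow, one_pow, Nat.cast_pow,
                Real.sqrt_eq_rpow, Real.sqrt_eq_rpow, ← Real.rpow_natCast_mul (Nat.cast_nonneg _),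
                ← Real.rpow_mul_natCast (Nat.cast_nonneg _), mul_comm (a : ℝ)])
            (fun p _ => by have := Real.log_natCast_nonneg p; positivity) _
      _ = 4 * B * ∑ p ∈ Finset.Icc 1 ⌊T⌋₊ with p.Prime, Real.log p / (p * Real.log T) := by
          rw [Finset.mul_sum]
          refine Finset.sum_congr rfl fun p _ => ?_
          rw [div_pow, Real.sq_sqrt (Nat.cast_nonneg _)]; ring
      _ ≤ 4 * B * 2 := by gcongr; exact sum_log_div_le hT hL
      _ = _ := by ring
  have hrest : ‖∑ k ∈ Finset.Icc 1 ⌊T⌋₊ with IsPrimePow k ∧ ¬ k.Prime,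
      if sz (jj h T) k = i then (jj h T k.minFac : ℂ) * ((cm (al φ h T) k : ℂ) * ch k t) else 0‖ ≤
      J * (8 * B ^ 2) := by
    calc _ ≤ ∑ k ∈ Finset.Icc 1 ⌊T⌋₊ with IsPrimePow k ∧ ¬ k.Prime,
          (J : ℝ) * |cm (al φ h T) k| := by
          refine (norm_sum_le _ _).trans (Finset.sum_le_sum fun k hk => ?_)
          split_ifs with hs
          · have := (le_sz_of_isPrimePow (jj h T) (Finset.mem_filter.1 hk).2.1).trans (hs.le.trans hi)
            rw [norm_mul, norm_mul, norm_ch, mul_one, norm_real, Complex.norm_natCast,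
              Real.norm_eq_abs]
            gcongr
          · rw [norm_zero]; positivity
      _ ≤ ∑ p ∈ Finset.Icc 1 ⌊T⌋₊ with p.Prime, 4 * (J * |cm (al φ h T) p| ^ 2) :=
          sum_nonprime_le (F := fun k => |cm (al φ h T) k|) (w := fun _ => (J : ℝ))
            (fun p _ => abs_nonneg _) (fun p hp => by
              rw [cm_prime _ hp]
              exact ((hal p hp).trans he).trans (by norm_num))
            (fun p a hp => by rw [cm_prime_pow _ hp, cm_prime _ hp, abs_pow])
            (fun _ _ => Nat.cast_nonneg _) _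
      _ = 4 * J * ∑ p ∈ Finset.Icc 1 ⌊T⌋₊ with p.Prime, al φ h T p ^ 2 := by
          rw [Finset.mul_sum]
          refine Finset.sum_congr rfl fun p hp => ?_
          rw [cm_prime _ (Finset.mem_filter.1 hp).2, sq_abs]; ring
      _ ≤ 4 * J * (2 * B ^ 2) := by gcongr; exact hC.sum_al_sq_le hT hL
      _ = _ := by ring
  have hmain : (∑ p ∈ Finset.Icc 1 ⌊T⌋₊ with p.Prime, if jj h T p = i then
      (jj h T p.minFac : ℂ) * ((cm (al φ h T) p : ℂ) * ch p t) else 0) =
      i * (Psum (fun u => φ i u) T t - Y) := by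
    rw [hP, add_sub_cancel_right, Finset.mul_sum]
    refine Finset.sum_congr rfl fun p hp => ?_
    have hp' := (Finset.mem_filter.1 hp).2
    rw [hp'.minFac_eq, cm_prime _ hp']
    split_ifs with hi <;> simp [hi]
  rw [qs, Es_split, hmain]
  refine (norm_add_le _ _).trans ?_
  have : ‖(i : ℂ) * (Psum (fun u => φ i u) T t - Y)‖ ≤ J * (‖Psum (fun u => φ i u) T t‖ + 8 * B) := by
    rw [norm_mul, Complex.norm_natCast]
    gcongr
    exact (norm_sub_le _ _).trans (by gcongr)
  linarith only [hrest, this]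

end Cells

end Pool.Agent.P.MP_7eacff_nt
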