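import Pool.Agent.P.MP_7eacff_nt.Stat
import Pool.Agent.P.MP_7eacff_nt.Reso

/-!
Moments of the local density of points.
-/

open Complex Filter Topology MeasureTheory Set ArithmeticFunction
open scoped Real

namespace Pool.Agent.P.MP_7eacff_nt

theorem cnt_nonneg (μ : Measure ℝ) (c T t : ℝ) : 0 ≤ cnt μ c T t := measureReal_nonneg

theorem measurable_cnt (μ : Measure ℝ) [SFinite μ] (c T : ℝ) : Measurable (cnt μ c T) := by
  have e : cnt μ c T = fun t => (stat μ (ind c) T t).re := by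
    funext t; rw [stat_ind, ofReal_re]
  rw [e]
  exact measurable_re.comp (measurable_stat μ (measurable_ind c) T)

theorem ZData.cnt_le {μ : Measure ℝ} (hμ : ZData μ) (c : ℝ) {T : ℝ} (hL : 2 * π ≤ Real.log T)
    (t : ℝ) : cnt μ c T t ≤ (1 + c ^ 2) * Sd μ T t := by
  have := hμ.norm_stat_le (norm_ind_le c) hL t
  rwa [stat_ind, norm_real, Real.norm_of_nonneg (cnt_nonneg _ _ _ _)] at this

theorem Bump.continuous_iF_pw {fp fm : ℝ → ℂ} {R B : ℝ} (hp : Bump fp R B) (hm : Bump fm R B)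
    (h : fp 0 = fm 0) : Continuous (iF (pw fp fm)) :=
  continuous_iF ((continuous_pw hp.cd.continuous hm.cd.continuous h).integrable_of_hasCompactSupport
    (hasCompactSupport_of_zero (pw_zero hp.zero hm.zero)))

theorem Win.moment_Psum_neg {P : Measure ℝ} (hP : Win P) {φ : ℝ → ℂ} {B η T T0 : ℝ}
    (hB : ∀ u, ‖φ u‖ ≤ B) (hη : 0 ≤ η) (hη1 : η ≤ 1) (hz : ∀ u, η < u → φ u = 0) (D : ℕ)
    (hT : 1 < T) (hT0 : 2 * π * (T ^ (η * D) + 1) ≤ T0) (X : ℝ) :
    ∫ v, ‖Psum φ T (-(X + T0 * v))‖ ^ (2 * D) ∂P ≤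
      (B ^ 2 * (η * D) * (η + 6 / Real.log T)) ^ D := by
  have := hP.moment_Psum (φ := fun u => (starRingEnd ℂ) (φ u)) (B := B) (fun u => by simpa using hB u)
    hη hη1 (fun u hu => by simp [hz u hu]) D hT hT0 X
  simpa only [← conj_Psum, norm_conj] using this

theorem ZData.exists_U {μ P : Measure ℝ} [SFinite μ] (hμ : ZData μ) (hP : Win P) (D : ℕ) {θ : ℝ}
    (hθ : 0 < θ) (hθ1 : θ < 1) : ∃ (U : ℝ → ℝ → ℝ) (K : ℝ), 0 < K ∧ (∀ T t, 1 ≤ U T t) ∧
      ∀ᶠ T in atTop, (∀ t ∈ Icc (T / 2) (3 * T), Sd μ T t ≤ U T t) ∧ ∀ X,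
        Integrable (fun v => U T (X + T ^ θ * v) ^ (2 * D)) P ∧
          ∫ v, U T (X + T ^ θ * v) ^ (2 * D) ∂P ≤ K := by
  have := hP.prob
  have hD0 : (0 : ℝ) ≤ D := Nat.cast_nonneg D
  set η := θ / (D + 1) with hη
  have hη0 : 0 < η := by positivity
  have hηθ : η ≤ θ := div_le_self hθ.le (by linarith only [])
  have hηD : η * D < θ := by
    rw [hη, div_mul_eq_mul_div, div_lt_iff₀ (by positivity)]; nlinarith only [hθ]
  obtain ⟨fp, fm, B, c, hc, hp, hm, hp0, hm0, hmaj⟩ := exists_majorant hη0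
  have hB := hp.nonneg
  set c' := min c 1 with hc'
  have hc0 : 0 < c' := lt_min hc one_pos
  have hc1 : c' ≤ 1 := min_le_right _ _
  set M := (B ^ 2 * (η * D) * (η + 1)) ^ D with hM
  refine ⟨fun T t => (2 + ‖Psum fp T t‖ + ‖Psum (fun u => fm (-u)) T (-t)‖) / c',
    (3 / c') ^ (2 * D) * (2 ^ (2 * D) + M + M), by positivity, fun T t => ?_, ?_⟩
  · rw [le_div_iff₀ hc0]
    linarith [norm_nonneg (Psum fp T t), norm_nonneg (Psum (fun u => fm (-u)) T (-t))]
  filter_upwards [eventually_gt_atTop 1, Real.tendsto_log_atTop.eventually_ge_atTop (2 * π),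
    Real.tendsto_log_atTop.eventually_ge_atTop 6, eventually_window (by positivity) hηD,
    hμ.local_ef hp hm (hp0.trans hm0.symm) hη0 (by linarith) one_pos] with T hT hL hL6 hW hef
  refine ⟨fun t ht => ?_, fun X => ?_⟩
  · have h1 := hef t ht
    have hb := norm_iF_pw_le hp hm hη0 (hp0.trans hm0.symm)
    have hi := hμ.integrable_stat (hp.continuous_iF_pw hm (hp0.trans hm0.symm)).measurable hb hL t
    have h2 : c * Sd μ T t ≤ (stat μ (iF (pw fp fm)) T t).re := by
      have h3 := integral_re hi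
      simp only [RCLike.re_to_complex] at h3
      rw [stat, ← h3, Sd, ← integral_const_mul]
      exact integral_mono ((hμ.integrable_Sd hL t).const_mul c) hi.re fun y => by
        simpa [div_eq_mul_inv] using hmaj _
    have h3 : ‖stat μ (iF (pw fp fm)) T t‖ ≤
        2 + ‖Psum fp T t‖ + ‖Psum (fun u => fm (-u)) T (-t)‖ := by
      have e : stat μ (iF (pw fp fm)) T t = (stat μ (iF (pw fp fm)) T t - fp 0 + Psum fp T t +
          Psum (fun u => fm (-u)) T (-t)) + 1 - Psum fp T t - Psum (fun u => fm (-u)) T (-t) := by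
        rw [hp0]; ring
      rw [e]
      refine (norm_sub_le _ _).trans (add_le_add_left ((norm_sub_le _ _).trans
        (add_le_add_left ((norm_add_le _ _).trans ?_) _)) _)
      rw [norm_one]; linarith only [h1]
    rw [le_div_iff₀ hc0]
    have h4 := mul_le_mul_of_nonneg_left (min_le_left c 1) (Sd_nonneg μ T t)
    linarith only [h2, h3, h4, re_le_norm (stat μ (iF (pw fp fm)) T t)]
  · have i1 : Integrable (fun v => ‖Psum fp T (X + T ^ θ * v)‖ ^ (2 * D)) P :=
      integrable_of_bdd (by fun_prop) ((B * T) ^ (2 * D)) fun v => by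
        rw [Real.norm_of_nonneg (by positivity)]
        gcongr; exact norm_Psum_le hp.b0 hT _
    have i2 : Integrable (fun v => ‖Psum (fun u => fm (-u)) T (-(X + T ^ θ * v))‖ ^ (2 * D)) P :=
      integrable_of_bdd (by fun_prop) ((B * T) ^ (2 * D)) fun v => by
        rw [Real.norm_of_nonneg (by positivity)]
        gcongr; exact norm_Psum_le hm.comp_neg.b0 hT _
    have hb : ∀ v, ((2 + ‖Psum fp T (X + T ^ θ * v)‖ +
        ‖Psum (fun u => fm (-u)) T (-(X + T ^ θ * v))‖) / c') ^ (2 * D) ≤ (3 / c') ^ (2 * D) *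
        (2 ^ (2 * D) + ‖Psum fp T (X + T ^ θ * v)‖ ^ (2 * D) +
          ‖Psum (fun u => fm (-u)) T (-(X + T ^ θ * v))‖ ^ (2 * D)) := by
      intro v
      have ha := norm_nonneg (Psum fp T (X + T ^ θ * v))
      have hb := norm_nonneg (Psum (fun u => fm (-u)) T (-(X + T ^ θ * v)))
      generalize ‖Psum fp T (X + T ^ θ * v)‖ = a at *
      generalize ‖Psum (fun u => fm (-u)) T (-(X + T ^ θ * v))‖ = b at *
      have h2 : (0 : ℝ) ≤ 2 ^ (2 * D) := by positivity
      have h3 : 0 ≤ a ^ (2 * D) := by positivity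
      have h4 : 0 ≤ b ^ (2 * D) := by positivity
      have key : ∀ m, 2 + a + b ≤ 3 * m → m ^ (2 * D) ≤ 2 ^ (2 * D) + a ^ (2 * D) + b ^ (2 * D) →
          ((2 + a + b) / c') ^ (2 * D) ≤
            (3 / c') ^ (2 * D) * (2 ^ (2 * D) + a ^ (2 * D) + b ^ (2 * D)) := fun m h5 h6 =>
        calc _ ≤ (3 / c' * m) ^ (2 * D) := by rw [div_mul_eq_mul_div]; gcongr
          _ ≤ _ := by rw [mul_pow]; gcongr
      rcases le_total a b with h | h
      · rcases le_total 2 b with h' | h'
        · exact key b (by linarith only [h, h']) (by linarith)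
        · exact key 2 (by linarith) (by linarith only [h3, h4])
      · rcases le_total 2 a with h' | h'
        · exact key a (by linarith) (by linarith)
        · exact key 2 (by linarith) (by linarith)
    have i3 := (((integrable_const ((2 : ℝ) ^ (2 * D))).add i1).add i2).const_mul
      ((3 / c') ^ (2 * D))
    have i4 : Integrable (fun v => ((2 + ‖Psum fp T (X + T ^ θ * v)‖ +
        ‖Psum (fun u => fm (-u)) T (-(X + T ^ θ * v))‖) / c') ^ (2 * D)) P :=
      i3.mono' (Continuous.aestronglyMeasurable (by fun_prop)) (ae_of_all _ fun v => by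
        rw [Real.norm_of_nonneg (by positivity)]; exact hb v)
    refine ⟨i4, (integral_mono i4 i3 hb).trans ?_⟩
    have k1 := integral_add ((integrable_const ((2 : ℝ) ^ (2 * D))).add i1) i2
    have k2 := integral_add (integrable_const ((2 : ℝ) ^ (2 * D))) i1
    simp only [Pi.add_apply] at k1 k2 ⊢
    rw [integral_const_mul, k1, k2]
    have h6 : 6 / Real.log T ≤ 1 := by rw [div_le_one (by linarith only [hθ, hθ1, hL6])]; exact hL6
    have hMb : (B ^ 2 * (η * D) * (η + 6 / Real.log T)) ^ D ≤ M := by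
      have : 0 ≤ 6 / Real.log T := by positivity
      rw [hM]; gcongr
    have m1 := (hP.moment_Psum hp.b0 hη0.le (by linarith only [hθ1, hηθ])
      (fun u hu => hp.zero u (hu.trans_le (le_abs_self u))) D hT hW X).trans hMb
    have m2 := (hP.moment_Psum_neg hm.comp_neg.b0 hη0.le (by linarith)
      (fun u hu => hm.comp_neg.zero u (hu.trans_le (le_abs_self u))) D hT hW X).trans hMb
    simp only [integral_const, probReal_univ, one_smul]
    gcongr

namespace Cells

variable {J : ℕ} {h δ B : ℝ} {φ : ℕ → ℝ → ℝ} (hC : Cells J h δ B φ)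
include hC

theorem norm_Psum_le_Sd {μ : Measure ℝ} [SFinite μ] (hμ : ZData μ) :
    ∃ K, 0 ≤ K ∧ ∀ᶠ T in atTop, ∀ i ≤ J, ∀ t ∈ Icc (T / 2) (3 * T),
      ‖Psum (fun u => φ i u) T t‖ ≤ K * Sd μ T t + 1 := by
  have hJ0 : 0 ≤ h * J := mul_nonneg hC.hpos.le (Nat.cast_nonneg J)
  have hJ1 := hC.lt_one
  have key : ∀ i, ∃ K, 0 ≤ K ∧ ∀ᶠ T in atTop, ∀ t ∈ Icc (T / 2) (3 * T),
      ‖Psum (fun u => φ i u) T t‖ ≤ K * Sd μ T t + 1 := by
    intro i
    obtain ⟨B', hB'0, hB'⟩ := exists_bump (φ := fun u => (φ i u : ℂ)) (R := (1 + h * J) / 2)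
      (ofRealCLM.contDiff.comp (hC.cd i)) (fun u hu => by
        by_contra h0
        obtain ⟨_, h2, h3, h4⟩ := hC.supp i u (by simpa using h0)
        have h5 : (i : ℝ) ≤ J := by exact_mod_cast h4
        rw [abs_of_pos (by linarith only [h3, hC.δpos])] at hu
        nlinarith [hC.hpos])
    have h0 : φ i 0 = 0 := by
      by_contra h0
      linarith [(hC.supp i 0 h0).2.2.1, hC.δpos]
    have hz : Bump (fun _ => 0) ((1 + h * J) / 2) B' :=
      ⟨contDiff_const, fun _ _ => rfl, by simpa, by simpa, by simpa⟩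
    refine ⟨6 * (1 + (1 + h * J) / 2) * B', by positivity, ?_⟩
    filter_upwards [Real.tendsto_log_atTop.eventually_ge_atTop (2 * π),
      hμ.local_ef hB' hz (by simp [h0]) (by linarith only [hJ0]) (by linarith) one_pos] with T hL hef t ht
    have h1 := hef t ht
    have h2 := hμ.norm_stat_le (norm_iF_pw_le hB' hz (by linarith only [hJ0]) (by simp [h0])) hL t
    have h3 : Psum (fun _ => 0) T (-t) = 0 := by simp [Psum]
    simp only [h0, ofReal_zero, sub_zero, h3, add_zero] at h1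
    have h4 := norm_sub_le (stat μ (iF (pw (fun u => (φ i u : ℂ)) fun _ => 0)) T t +
      Psum (fun u => φ i u) T t) (stat μ (iF (pw (fun u => (φ i u : ℂ)) fun _ => 0)) T t)
    rw [add_sub_cancel_left] at h4
    linarith only [h2, h1, h4]
  choose K hK0 hK using key
  refine ⟨∑ i ∈ Finset.range (J + 1), K i, Finset.sum_nonneg fun i _ => hK0 i, ?_⟩
  filter_upwards [(Finset.range (J + 1)).eventually_all.2 fun i _ => hK i] with T hT i hi t ht
  have hi' : i ∈ Finset.range (J + 1) := Finset.mem_range.2 (by omega)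
  refine (hT i hi' t ht).trans ?_
  have := Finset.single_le_sum (fun i _ => hK0 i) hi'
  have := Sd_nonneg μ T t
  gcongr

end Cells

end Pool.Agent.P.MP_7eacff_nt
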