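import Pool.Agent.P.MP_7eacff_nt.MeanCnt
import Pool.Agent.P.MP_7eacff_nt.Prob0

/-!
From weighted means to positive probability: uniform integrability of the resonator.
-/

open Complex Filter Topology MeasureTheory Set ArithmeticFunction
open scoped Real

namespace Pool.Agent.P.MP_7eacff_nt

namespace Cells

variable {J : ℕ} {h δ B : ℝ} {φ : ℕ → ℝ → ℝ} (hC : Cells J h δ B φ)
include hC

theorem prob_pos {μ P : Measure ℝ} [SFinite μ] (hμ : ZData μ) (hP : Win P) (ψ : ℕ → ℝ) {r : ℕ → ℝ}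
    (hr : Lim J φ h r) {c θ σ k : ℝ}
    (hk : 1 ≤ k) (hc : 0 < c) (hθ : 2 * (h * J) < θ) (hθ1 : θ < 1) (hσ : |σ| = 1)
    (hpos : 0 < σ * ((c - k) * NN J ψ r ^ 2 - 2 * (2 * (MM J ψ r
          (fun i => ∫ u in (0 : ℝ)..1, φ i u * (Real.sin (π * c * u) / π)) * NN J ψ r)))) :
    ∃ η, 0 < η ∧ ∀ᶠ T in atTop, ∀ X ∈ Icc T (2 * T), η ≤ P.real {v | X + T ^ θ * v ∈
      Icc (T / 2) (3 * T) ∧ 0 < σ * (cnt μ c T (X + T ^ θ * v) - k)} := by
  have := hP.prob
  have hJ0 : 0 ≤ 2 * (h * J) := by have := hC.hpos; positivity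
  have hθ0 : 0 < θ := hJ0.trans_lt hθ
  have hB := hC.B_nonneg
  have hk0 : 0 < k := by linarith only [hk, hθ, hθ1, hJ0]
  obtain ⟨U, K, hK, hU1, hU⟩ := hμ.exists_U hP (4 * J + 1) hθ0 hθ1
  obtain ⟨K1, hK1, hPs⟩ := hC.norm_Psum_le_Sd hμ
  obtain ⟨CG, hCG, hG⟩ := hμ.G_le_lin
  set Ψ := ∑ s ∈ Finset.range (J + 1), |ψ s| with hΨ
  have hΨ0 : 0 ≤ Ψ := Finset.sum_nonneg fun _ _ => abs_nonneg _
  obtain ⟨K2, hK2⟩ : ∃ K2, K2 = 1 + J * (K1 + 1 + 8 * B + 8 * B ^ 2) := ⟨_, rfl⟩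
  have hK21 : 1 ≤ K2 := hK2 ▸ le_add_of_nonneg_right (by positivity)
  obtain ⟨Z, hZd⟩ : ∃ Z, Z = NN J 1 r + 1 := ⟨_, rfl⟩
  obtain ⟨J', hJ'⟩ : ∃ J' : ℝ, J' = J + 1 := ⟨_, rfl⟩
  obtain ⟨K3, hK3⟩ : ∃ K3, K3 = (Z * (J' * Ψ * K2 ^ J) ^ 2) ^ 2 * (k + 1 + c ^ 2) := ⟨_, rfl⟩
  set M := 2 * (MM J ψ r (fun i => ∫ u in (0 : ℝ)..1, φ i u * (Real.sin (π * c * u) / π)) *
    NN J ψ r)
  set N := NN J ψ r ^ 2
  set κ := σ * ((c - k) * N - 2 * M) with hκ
  obtain ⟨l, hl⟩ : ∃ l, l = 4 * (K3 ^ 2 * K + 1) / κ := ⟨_, rfl⟩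
  have hl0 : 0 < l := by rw [hl]; positivity
  refine ⟨κ / 4 / l, by positivity, ?_⟩
  filter_upwards [eventually_gt_atTop 1, Real.tendsto_log_atTop.eventually_ge_atTop (2 * π),
    eventually_window hJ0 hθ, hU, hPs, hC.norm_qs_le, hC.norm_res2_crude ψ,
    (tendsto_ZZ hr).eventually_le_const (lt_add_one _),
    hC.mean_cnt hμ hP ψ hr hc hθ hθ1 (show 0 < κ / 8 by positivity),
    Metric.tendsto_nhds.1 (hC.tendsto_sq2 hr ψ) _ (show 0 < κ / 8 / k by positivity),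
    (hP.tendsto_far hθ1 5 (Ψ ^ 4 * (k + (1 + c ^ 2) * CG))).eventually_le_const
      (show 0 < κ / 4 by positivity)] with T hT hL hW hU hPs hqs hcr hZ hmc hms hfar X hX
  have hT0 : 0 < T ^ θ := by positivity
  obtain ⟨hSd, hU⟩ := hU
  obtain ⟨iU, mU⟩ := hU X
  obtain ⟨C, hCb⟩ := exists_bound_res J ψ φ h T
  set A := {v | X + T ^ θ * v ∈ Icc (T / 2) (3 * T) ∧ 0 < σ * (cnt μ c T (X + T ^ θ * v) - k)}
    with hA
  have hmc' : Measurable fun v => cnt μ c T (X + T ^ θ * v) :=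
    (measurable_cnt μ c T).comp (by fun_prop)
  have hAm : MeasurableSet A :=
    (measurableSet_Icc.preimage (f := fun v => X + T ^ θ * v) (by fun_prop)).inter
      (measurableSet_lt measurable_const ((hmc'.sub_const k).const_mul σ))
  have i1 : Integrable (fun v => ‖res2 J ψ φ h T (X + T ^ θ * v)‖ ^ 2) P :=
    integrable_of_bdd (by fun_prop) C fun v => by simpa using hCb _
  have i2 : Integrable (fun v => ‖res2 J ψ φ h T (X + T ^ θ * v)‖ ^ 2 *
      cnt μ c T (X + T ^ θ * v)) P := by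
    have := (hμ.integrable_mul_stat hP (measurable_ind c) (norm_ind_le c) hL X (T ^ θ)
      (F := fun v => ((‖res2 J ψ φ h T (X + T ^ θ * v)‖ ^ 2 : ℝ) : ℂ)) (by fun_prop)
      fun v => hCb _).re
    simpa only [stat_ind, ← ofReal_mul, RCLike.re_to_complex, ofReal_re] using this
  have hb : ∀ v, σ * (‖res2 J ψ φ h T (X + T ^ θ * v)‖ ^ 2 * cnt μ c T (X + T ^ θ * v) -
      ‖res2 J ψ φ h T (X + T ^ θ * v)‖ ^ 2 * k) ≤ A.indicator (fun _ => l) v +
      K3 ^ 2 / l * U T (X + T ^ θ * v) ^ (2 * (4 * J + 1)) +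
      Ψ ^ 4 * (k + (1 + c ^ 2) * CG) * T ^ 5 * far θ T v := by
    intro v
    have hf := far_nonneg θ T v
    have hu1 := hU1 T (X + T ^ θ * v)
    have hn0 := cnt_nonneg μ c T (X + T ^ θ * v)
    have hn := hμ.cnt_le c hL (X + T ^ θ * v)
    have hi0 : 0 ≤ A.indicator (fun _ => l) v := indicator_nonneg (fun _ _ => hl0.le) v
    have hσ' : σ * (cnt μ c T (X + T ^ θ * v) - k) ≤ k + cnt μ c T (X + T ^ θ * v) := by
      refine (le_abs_self _).trans ?_
      rw [abs_mul, hσ, one_mul, abs_le]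
      constructor <;> linarith only [hn0, hk, hθ, hθ1, hJ0]
    rw [← mul_sub, mul_left_comm]
    by_cases hv : |v| ≤ T ^ (1 - θ) / 2
    · have ht := near_mem (by linarith only [hθ, hθ1, hJ0, hT]) hX hv
      refine le_add_of_le_of_nonneg ?_ (by positivity)
      by_cases hvA : v ∈ A
      · rw [indicator_of_mem hvA]
        have hS := hSd _ ht
        have h1 := hC.norm_res2_le ψ (t := X + T ^ θ * v) (Y := K2 * U T (X + T ^ θ * v)) hT
          (one_le_mul_of_one_le_of_one_le hK21 hu1) fun i hi => (hqs _ i hi).trans (by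
            have h2 := hPs i hi _ ht
            have h3 := mul_le_mul_of_nonneg_left hS hK1
            have h4 : ‖Psum (fun u => φ i u) T (X + T ^ θ * v)‖ + 8 * B + 8 * B ^ 2 ≤
                (K1 + 1 + 8 * B + 8 * B ^ 2) * U T (X + T ^ θ * v) := by
              nlinarith only [hu1, h2, h3, hB, mul_le_mul_of_nonneg_left hu1 (show 0 ≤ 8 * B + 8 * B ^ 2 by positivity)]
            have h5 := mul_le_mul_of_nonneg_left h4 (Nat.cast_nonneg J)
            rw [hK2]; linarith only [hθ, hθ1, hJ0, hu1, h5])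
        have h2 : k + cnt μ c T (X + T ^ θ * v) ≤ (k + 1 + c ^ 2) * U T (X + T ^ θ * v) := by
          linarith only [hn, hS, hc, hu1, hk0, mul_le_mul_of_nonneg_left hS (show 0 ≤ 1 + c ^ 2 by positivity),
            mul_le_mul_of_nonneg_left hu1 hk0.le]
        have h3 : ‖res2 J ψ φ h T (X + T ^ θ * v)‖ ^ 2 * (σ * (cnt μ c T (X + T ^ θ * v) - k)) ≤
            K3 * U T (X + T ^ θ * v) ^ (4 * J + 1) :=
          calc _ ≤ ‖res2 J ψ φ h T (X + T ^ θ * v)‖ ^ 2 * ((k + 1 + c ^ 2) * U T (X + T ^ θ * v)) :=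
                mul_le_mul_of_nonneg_left (hσ'.trans h2) (by positivity)
            _ ≤ (Z * (J' * Ψ * (K2 * U T (X + T ^ θ * v)) ^ J) ^ 2) ^ 2 *
                ((k + 1 + c ^ 2) * U T (X + T ^ θ * v)) := by
                gcongr ?_ ^ 2 * _
                rw [hZd, hJ']
                exact h1.trans (mul_le_mul_of_nonneg_right hZ (sq_nonneg _))
            _ = _ := by
                rw [hK3]; generalize U T (X + T ^ θ * v) = u; ring
        refine h3.trans ?_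
        rw [pow_mul', div_mul_eq_mul_div, ← mul_pow]
        generalize K3 * U T (X + T ^ θ * v) ^ (4 * J + 1) = Y
        rw [← sub_le_iff_le_add', le_div_iff₀ hl0]
        nlinarith only [hθ, hθ1, hJ0, hl0, sq_nonneg (Y - l)]
      · refine le_trans (mul_nonpos_of_nonneg_of_nonpos (by positivity) ?_) (by positivity)
        exact not_lt.1 fun h0 => hvA ⟨ht, h0⟩
    · refine le_add_of_nonneg_of_le (by positivity) ?_
      rw [far, if_neg hv]
      have h2 := (hμ.Sd_le_G hL _).trans (hG T X (T ^ θ) v hT.le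
        (by rw [abs_of_pos (by linarith only [hθ, hθ1, hJ0, hT, hX.1])]; exact hX.2) (by
          rw [abs_of_pos hT0]
          simpa using Real.rpow_le_rpow_of_exponent_le hT.le hθ1.le))
      have h4 : 1 ≤ T * (1 + |v|) := by nlinarith only [hθ, hT, hθ1, hJ0, abs_nonneg v]
      have h3 : σ * (cnt μ c T (X + T ^ θ * v) - k) ≤ (k + (1 + c ^ 2) * CG) * T * (1 + |v|) := by
        linarith only [hn, hσ', h2, hc, h4, hk0, mul_le_mul_of_nonneg_left h2 (show 0 ≤ 1 + c ^ 2 by positivity),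
          mul_le_mul_of_nonneg_left h4 hk0.le]
      calc _ ≤ ‖res2 J ψ φ h T (X + T ^ θ * v)‖ ^ 2 *
              ((k + (1 + c ^ 2) * CG) * T * (1 + |v|)) := by gcongr
        _ ≤ ((Ψ * T) ^ 2) ^ 2 * ((k + (1 + c ^ 2) * CG) * T * (1 + |v|)) := by gcongr; exact hcr _
        _ = _ := by ring
  have j1 : Integrable (A.indicator fun _ => l) P := (integrable_const l).indicator hAm
  have j2 := iU.const_mul (K3 ^ 2 / l)
  have j3 := (hP.integrable_far θ T).const_mul (Ψ ^ 4 * (k + (1 + c ^ 2) * CG) * T ^ 5)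
  have h1 := integral_mono ((i2.sub (i1.mul_const k)).const_mul σ) ((j1.add j2).add j3) hb
  have k1 := integral_add (j1.add j2) j3
  have k2 := integral_add j1 j2
  simp only [Pi.add_apply, Pi.sub_apply] at k1 k2 h1
  rw [k1, k2, integral_const_mul, integral_const_mul, integral_const_mul, integral_sub i2 (i1.mul_const k),
    integral_mul_const,     integral_indicator_const _ hAm, hC.mean_sq2 hP ψ hT hW X, smul_eq_mul] at h1
  have h2 := hmc X hX
  rw [Real.dist_eq] at hms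
  have h3 : K3 ^ 2 / l * ∫ v, U T (X + T ^ θ * v) ^ (2 * (4 * J + 1)) ∂P ≤ κ / 4 :=
    calc _ ≤ K3 ^ 2 / l * K := by gcongr
      _ ≤ (K3 ^ 2 * K + 1) / l := by rw [div_mul_eq_mul_div]; gcongr; linarith only [hθ, hθ1, hJ0]
      _ = _ := by rw [hl]; field_simp
  generalize (∫ v, ‖res2 J ψ φ h T (X + T ^ θ * v)‖ ^ 2 * cnt μ c T (X + T ^ θ * v) ∂P) = a at *
  generalize Tn (jj h T) (al φ h T) ψ ⌊T⌋₊ J 1 = b at *
  have h4 : |σ * (a - b * k) - κ| ≤ κ / 4 := by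
    rw [show σ * (a - b * k) - κ = σ * ((a - (c * N - 2 * M)) - (b - N) * k) by rw [hκ]; ring,
      abs_mul, hσ, one_mul]
    rw [lt_div_iff₀ hk0, ← abs_of_pos hk0, ← abs_mul] at hms
    linarith only [h2, hms, abs_sub (a - (c * N - 2 * M)) ((b - N) * k)]
  rw [div_le_iff₀ hl0]
  linarith only [hfar, h3, h1, h4, (abs_le.1 h4).1]

end Cells

end Pool.Agent.P.MP_7eacff_nt
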