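import Pool.Agent.P.MP_7eacff_nt.Count
import Pool.Agent.P.MP_7eacff_nt.Asym
import Pool.Agent.P.MP_7eacff_nt.CellsEx
import Pool.Agent.P.MP_7eacff_nt.Prob
import Pool.Agent.P.MP_7eacff_nt.Long

/-!
Reduction of the statements on gaps to a numerical inequality.
-/

open Filter Topology MeasureTheory Set
open scoped Real

namespace Pool.Agent.P.MP_7eacff_nt

/-- The limiting mean square. -/
noncomputable def nInf (R : ℝ) (cf : ℕ → ℝ) (d : ℕ) : ℝ :=
  ∑ a ∈ Finset.range d, ∑ b ∈ Finset.range d, cf a * cf b * bet R (a + b)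

/-- A lower bound for the limiting twisted mean square. -/
noncomputable def sInf (R : ℝ) (cf : ℕ → ℝ) (d : ℕ) (x : ℝ) (m : ℕ) : ℝ :=
  ∑ a ∈ Finset.range d, ∑ b ∈ Finset.range d, ∑ k ∈ Finset.range m,
    cf a * cf b * ((-1) ^ k * x ^ (2 * k + 1) / (2 * k + 1).factorial) *
      (b.factorial * (2 * k).factorial / (b + 2 * k + 1).factorial * bet R (a + (b + 2 * k + 1)))

theorem MM_sub_le {J : ℕ} {ψ w w' e : ℕ → ℝ} {r Ψ ε : ℝ} (hr : 0 < r)
    (hψ : ∀ s ≤ J, 0 ≤ ψ s ∧ ψ s ≤ Ψ) (hw : ∀ i ≤ J, w' i - |e i| / J ≤ ε * w i) :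
    MM J ψ (Zc r) w' - Ψ ^ 2 * ((∑ i ∈ Finset.range (J + 1), |e i|) / J) * Zc (r + 1) J ≤
      ε * MM J ψ (Zc r) w := by
  rw [← sum_Zc hr, Finset.sum_div, mul_assoc, Finset.sum_mul_sum, Finset.mul_sum, MM, MM,
    ← Finset.sum_sub_distrib, Finset.mul_sum]
  refine Finset.sum_le_sum fun i hi => ?_
  rw [Finset.mul_sum, Finset.mul_sum, ← Finset.sum_sub_distrib]
  refine Finset.sum_le_sum fun s _ => ?_
  have hZ := Zc_pos hr s
  have he : 0 ≤ |e i| / J * Zc r s := by positivity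
  split_ifs with h
  · have h1 := hψ s (by omega)
    have h2 := hψ (i + s) h
    have h3 := mul_le_mul_of_nonneg_left (mul_le_mul_of_nonneg_right (hw i (by omega)) hZ.le)
      (mul_nonneg h1.1 h2.1)
    have h4 := mul_le_mul_of_nonneg_right (mul_le_mul h1.2 h2.2 h2.1 (h1.1.trans h1.2)) he
    nlinarith only [h3, h4]
  · simp only [mul_zero, zero_sub, neg_nonpos]; positivity

theorem exists_good {σ c r x κ : ℝ} {cf : ℕ → ℝ} {d m : ℕ} (hσ : |σ| = 1) (hr : 0 < r)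
    (hx : 0 < x) (hxc : 2 * x < π * c) (hκ : 0 < κ) (hκ1 : κ < 1 / 2)
    (hψ : ∀ y ∈ Icc (0 : ℝ) 1, 0 ≤ ∑ a ∈ Finset.range d, cf a * y ^ a)
    (hn : 0 < nInf (r ^ 2) cf d) (hS : 0 ≤ sInf (r ^ 2) cf d x (2 * m + 2))
    (hnum : 0 < σ * (c - 1) * nInf (r ^ 2) cf d +
      4 * ((1 - 2 * κ) * r / π * sInf (r ^ 2) cf d x (2 * m + 2))) :
    ∃ (J : ℕ) (h δ B θ : ℝ) (φ : ℕ → ℝ → ℝ) (ψ : ℕ → ℝ), Cells J h δ B φ ∧
      (∀ i : ℕ, 1 ≤ i → i ≤ J → i * ∫ u in (0 : ℝ)..1, φ i u ^ 2 * u = r ^ 2) ∧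
      2 * (h * J) < θ ∧ θ < 1 ∧
      0 < σ * ((c - 1) * NN J ψ (Zc (r ^ 2)) ^ 2 - 2 * (2 * (MM J ψ (Zc (r ^ 2))
        (fun i => ∫ u in (0 : ℝ)..1, φ i u * (Real.sin (π * c * u) / π)) * NN J ψ (Zc (r ^ 2))))) := by
  obtain ⟨ρ, e, hρ, -, he, hcell⟩ := exists_cells hr hκ hκ1
  have hpi := Real.pi_pos
  have hc : 0 < c := by by_contra h'; nlinarith only [hx, hκ, hκ1, hxc, hpi, h']
  have hρ0 : 0 < ρ := by linarith only [hκ1, hρ]
  have hR : 0 < r ^ 2 := by positivity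
  set θ' := x / (π * c) with hθ'
  have hθ0 : 0 < θ' := by positivity
  have hθ1 : 2 * θ' < 1 := by rw [hθ', ← mul_div_assoc, div_lt_one (by positivity)]; exact hxc
  set t : ℕ → ℝ := fun k => ρ * r / π * ((-1) ^ k * x ^ (2 * k + 1) / (2 * k + 1).factorial) with ht
  set e' : ℕ → ℝ := fun i => if i = 0 then
    ∑ k ∈ Finset.range (2 * m + 2), t k * 0 ^ (2 * k) else c * θ' * e i with he'
  set Ψ := ∑ a ∈ Finset.range d, |cf a| with hΨ
  have h1 : Tendsto (fun i => |e' i|) atTop (𝓝 0) := by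
    have := (he.const_mul (c * θ')).abs
    rw [mul_zero, abs_zero] at this
    refine this.congr' ?_
    filter_upwards [eventually_ne_atTop 0] with i hi
    simp only [he', hi, if_false]
  have h2 : Tendsto (fun J : ℕ => (∑ i ∈ Finset.range (J + 1), |e' i|) / J) atTop (𝓝 0) := by
    have := h1.cesaro.add (h1.div_atTop tendsto_natCast_atTop_atTop)
    rw [add_zero] at this
    exact this.congr fun J => by rw [Finset.sum_range_succ]; ring
  have h3 := tendsto_MM hR cf d t (2 * m + 2)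
  have e3 : ∑ a ∈ Finset.range d, ∑ b ∈ Finset.range d, ∑ k ∈ Finset.range (2 * m + 2),
      cf a * cf b * t k * (b.factorial * (2 * k).factorial / (b + 2 * k + 1).factorial *
        bet (r ^ 2) (a + (b + 2 * k + 1))) = ρ * r / π * sInf (r ^ 2) cf d x (2 * m + 2) := by
    simp only [sInf, Finset.mul_sum, ht]
    exact Finset.sum_congr rfl fun a _ => Finset.sum_congr rfl fun b _ =>
      Finset.sum_congr rfl fun k _ => by ring
  rw [e3] at h3
  have h4 := ((tendsto_NN hR cf d).const_mul (σ * (c - 1))).add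
    ((h3.sub (h2.const_mul (Ψ ^ 2))).const_mul 4)
  have h5 : (1 - 2 * κ) * r / π * sInf (r ^ 2) cf d x (2 * m + 2) ≤
      ρ * r / π * sInf (r ^ 2) cf d x (2 * m + 2) := by gcongr
  obtain ⟨J, hJ, hJ0, hJN⟩ := ((h4.eventually_const_lt (u := 0) (by
    rw [mul_zero, sub_zero]; unfold nInf at hnum; linarith only [hnum, h5])).and ((eventually_gt_atTop 0).and
      ((tendsto_NN hR cf d).eventually_const_lt hn))).exists
  have hJ' : (0 : ℝ) < J := by exact_mod_cast hJ0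
  have hhJ : θ' / J * J = θ' := by field_simp
  obtain ⟨φ, δ, B, hC, hφ, hφ0, hw⟩ := hcell J (θ' / J) (-σ) (by positivity) (by linarith only [hκ, hκ1, hθ1, hhJ])
    (by rw [abs_neg, hσ])
  refine ⟨J, θ' / J, δ, B, (1 + 2 * θ') / 2, φ, psi cf d J, hC, hφ, by linarith only [hθ1, hhJ], by linarith only [hθ1], ?_⟩
  have h6 := MM_sub_le (J := J) (ψ := psi cf d J) (Ψ := Ψ) (ε := -σ) (e := e')
    (w := fun i => ∫ u in (0 : ℝ)..1, φ i u * (Real.sin (π * c * u) / π))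
    (w' := fun i => (∑ k ∈ Finset.range (2 * m + 2), t k * ((i : ℝ) / J) ^ (2 * k)) / J) hR
    (fun s hs => ?_) fun i hi => ?_
  · have hZ := Zc_pos (show 0 < r ^ 2 + 1 by positivity) J
    have h7 := mul_pos hJ hZ
    rw [add_mul, mul_assoc, div_mul_cancel₀ _ hZ.ne', mul_assoc 4, sub_mul,
      div_mul_cancel₀ _ hZ.ne'] at h7
    have h8 := mul_pos hJN hZ
    rw [div_mul_cancel₀ _ hZ.ne'] at h8
    refine (mul_pos h8 (show 0 < σ * ((c - 1) * NN J (psi cf d J) (Zc (r ^ 2)) - 4 *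
      MM J (psi cf d J) (Zc (r ^ 2)) fun i => ∫ u in (0 : ℝ)..1, φ i u * (Real.sin (π * c * u) / π)) by
        linarith only [h6, h7])).trans_eq (by ring)
  · have h7 : (s : ℝ) / J ≤ 1 := by rw [div_le_one hJ']; exact_mod_cast hs
    have h8 : 0 ≤ (s : ℝ) / J := by positivity
    refine ⟨hψ _ ⟨by linarith only [h7], by linarith only [h8]⟩, Finset.sum_le_sum fun a _ => ?_⟩
    refine (le_abs_self _).trans ?_
    rw [abs_mul, abs_of_nonneg (pow_nonneg (sub_nonneg.2 h7) a)]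
    exact mul_le_of_le_one_right (abs_nonneg _) (pow_le_one₀ (by linarith only [h7]) (by linarith only [h8]))
  · rcases Nat.eq_zero_or_pos i with rfl | hi0
    · simp only [he', hφ0, if_true, Nat.cast_zero, zero_div, Pi.zero_apply, zero_mul,
        intervalIntegral.integral_zero, mul_zero, sub_nonpos]
      gcongr; exact le_abs_self _
    have hi' : (0 : ℝ) < i := by exact_mod_cast hi0
    have h7' := hw (fun u => ((Real.sin (π * c * u) / π : ℝ) : ℂ)) c (by fun_prop) (by simp)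
      (fun x y => by
        rw [← Complex.ofReal_sub, Complex.norm_real, ← sub_div, Real.norm_eq_abs, abs_div,
          abs_of_pos hpi, div_le_iff₀ hpi]
        refine (Real.abs_sin_sub_sin_le _ _).trans_eq ?_
        rw [← mul_sub, abs_mul, abs_of_pos (by positivity)]; ring) i hi0 hi
    simp only [← Complex.ofReal_mul, intervalIntegral.integral_ofReal] at h7'
    rw [← Complex.ofReal_natCast, ← Complex.ofReal_div, ← Complex.ofReal_mul, ← Complex.ofReal_sub,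
      Complex.norm_real, div_div, ← mul_assoc (π * c)] at h7'
    have h7 := (abs_le.1 h7').1
    have h8 := taylor_le_sin m (show 0 ≤ x * (i / J) by positivity)
    rw [show π * c * (θ' / J) * i = x * (i / J) by rw [hθ']; field_simp] at h7
    have h9 : (∑ k ∈ Finset.range (2 * m + 2), t k * ((i : ℝ) / J) ^ (2 * k)) / J =
        ρ * r / (π * i) * ∑ k ∈ Finset.range (2 * m + 2),
          (-1) ^ k * (x * (i / J)) ^ (2 * k + 1) / (2 * k + 1).factorial := by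
      rw [Finset.sum_div, Finset.mul_sum]
      refine Finset.sum_congr rfl fun k _ => ?_
      simp only [ht]
      rw [mul_pow, pow_succ ((i : ℝ) / J)]
      field_simp
    have h10 := mul_le_mul_of_nonneg_left h8 (show 0 ≤ ρ * r / (π * i) by positivity)
    have h11 : c * (θ' / J) * e i ≤ |e' i| / J := by
      simp only [he', hi0.ne', if_false]
      rw [show c * (θ' / J) * e i = c * θ' * e i / J by ring]
      gcongr; exact le_abs_self _
    rw [h9]
    have h12 : ρ * r / (π * i) * Real.sin (x * (i / J)) =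
      ρ * r * (Real.sin (x * (i / J)) / (π * i)) := by ring
    linarith only [h7, h10, h11, h12]

theorem small_of_num {μ : Measure ℝ} [SFinite μ] (hμ : ZData μ) {γ : ℕ → ℝ} (hγ : Enum μ γ)
    {c r x κ : ℝ} {cf : ℕ → ℝ} {d m : ℕ} (hc : 0 < c) (hr : 0 < r)
    (hx : 0 < x) (hxc : 2 * x < π * c) (hκ : 0 < κ) (hκ1 : κ < 1 / 2)
    (hψ : ∀ y ∈ Icc (0 : ℝ) 1, 0 ≤ ∑ a ∈ Finset.range d, cf a * y ^ a)
    (hn : 0 < nInf (r ^ 2) cf d) (hS : 0 ≤ sInf (r ^ 2) cf d x (2 * m + 2))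
    (hnum : 0 < 1 * (c - 1) * nInf (r ^ 2) cf d +
      4 * ((1 - 2 * κ) * r / π * sInf (r ^ 2) cf d x (2 * m + 2))) :
    ∃ η : ℝ, 0 < η ∧ ∀ᶠ N : ℕ in atTop, η * N ≤ ((Finset.range N).filter fun n =>
      (γ (n + 1) - γ n) / (2 * π) * Real.log (γ n / (2 * π)) ≤ c).card := by
  obtain ⟨J, h, δ, B, θ, φ, ψ, hC, hφ, hθ, hθ1, hpos⟩ :=
    exists_good abs_one hr hx hxc hκ hκ1 hψ hn hS hnum
  obtain ⟨P, hP⟩ := exists_win
  have := hP.prob
  obtain ⟨η, hη, h1⟩ := hC.prob_pos hμ hP ψ (fun _ => hC.tendsto_ZT hφ) le_rfl hc hθ hθ1 abs_one hpos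
  refine hγ.small hμ hη hc ?_
  filter_upwards [h1, eventually_ge_atTop 0] with T h2 hT
  refine le_volume_of_prob (P := P) (T0 := T ^ θ) (measurableSet_Icc.inter
    (measurableSet_lt measurable_const (measurable_cnt μ c T))) hT fun X hX => ?_
  simpa using h2 X hX

theorem large_of_num {μ : Measure ℝ} [SFinite μ] (hμ : ZData μ) {γ : ℕ → ℝ} (hγ : Enum μ γ)
    {c c' r x κ : ℝ} {cf : ℕ → ℝ} {d m : ℕ} (hc' : 0 < c') (hc : c' < c) (hr : 0 < r)
    (hx : 0 < x) (hxc : 2 * x < π * c) (hκ : 0 < κ) (hκ1 : κ < 1 / 2)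
    (hψ : ∀ y ∈ Icc (0 : ℝ) 1, 0 ≤ ∑ a ∈ Finset.range d, cf a * y ^ a)
    (hn : 0 < nInf (r ^ 2) cf d) (hS : 0 ≤ sInf (r ^ 2) cf d x (2 * m + 2))
    (hnum : 0 < -1 * (c - 1) * nInf (r ^ 2) cf d +
      4 * ((1 - 2 * κ) * r / π * sInf (r ^ 2) cf d x (2 * m + 2))) :
    ∃ η : ℝ, 0 < η ∧ ∀ᶠ N : ℕ in atTop, η * N ≤ ((Finset.range N).filter fun n =>
      c' ≤ (γ (n + 1) - γ n) / (2 * π) * Real.log (γ n / (2 * π))).card := by
  obtain ⟨J, h, δ, B, θ, φ, ψ, hC, hφ, hθ, hθ1, hpos⟩ :=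
    exists_good (σ := -1) (by simp) hr hx hxc hκ hκ1 hψ hn hS hnum
  obtain ⟨P, hP⟩ := exists_win
  have := hP.prob
  obtain ⟨η, hη, h1⟩ := hC.prob_pos hμ hP ψ (fun _ => hC.tendsto_ZT hφ) le_rfl (hc'.trans hc) hθ hθ1 (by simp) hpos
  obtain ⟨R, hR, h2⟩ := hμ.prob_long hP
    (lt_of_le_of_lt (by have := hC.hpos; positivity) hθ) hθ1 (half_pos hη)
  refine hγ.large hμ (half_pos hη) hc' hc hR ?_
  filter_upwards [h1, h2, eventually_ge_atTop 0] with T h3 h4 hT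
  refine le_volume_of_prob (P := P) (T0 := T ^ θ) (measurableSet_Icc.inter
    ((measurableSet_lt (measurable_cnt μ c T) measurable_const).inter
      (measurableSet_eq_fun (measurable_cnt μ R T) measurable_const).compl)) hT fun X hX => ?_
  have h5 := (h3 X hX).trans ((measureReal_mono (s₂ := {v | X + T ^ θ * v ∈
      {t | t ∈ Icc (T / 2) (3 * T) ∧ cnt μ c T t < 1 ∧ cnt μ R T t ≠ 0}} ∪
      {v | X + T ^ θ * v ∈ Icc (T / 2) (3 * T) ∧ cnt μ R T (X + T ^ θ * v) = 0})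
    (fun v hv => ?_)).trans (measureReal_union_le _ _))
  · change _ ≤ P.real {v | X + T ^ θ * v ∈
      {t | t ∈ Icc (T / 2) (3 * T) ∧ cnt μ c T t < 1 ∧ cnt μ R T t ≠ 0}}
    linarith only [h5, h4 X]
  · by_cases h6 : cnt μ R T (X + T ^ θ * v) = 0
    · exact Or.inr ⟨hv.1, h6⟩
    · exact Or.inl ⟨hv.1, by linarith only [hv.2], h6⟩

end Pool.Agent.P.MP_7eacff_nt
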