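import Mathlib

/-!
Fourier tools: inversion, decay for functions with a kink at the origin, the Poisson kernel.
-/

open Complex Filter Topology MeasureTheory Set
open scoped Real FourierTransform

namespace Pool.Agent.P.MP_7eacff_nt

/-- `e(x) = exp (2 π i x)`. -/
noncomputable def ee (x : ℝ) : ℂ := cexp (((2 * π * x : ℝ) : ℂ) * I)

theorem ee_add (x y : ℝ) : ee (x + y) = ee x * ee y := by
  simp only [ee, ← Complex.exp_add]; congr 1; push_cast; ring

@[simp] theorem ee_zero : ee 0 = 1 := by simp [ee]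

@[simp] theorem norm_ee (x : ℝ) : ‖ee x‖ = 1 := norm_exp_ofReal_mul_I _

@[fun_prop] theorem continuous_ee : Continuous ee := by unfold ee; fun_prop

theorem conj_ee (x : ℝ) : (starRingEnd ℂ) (ee x) = ee (-x) := by
  simp only [ee, ← exp_conj, map_mul, conj_ofReal, conj_I]; congr 1; push_cast; ring

theorem hasDerivAt_ee (y u : ℝ) :
    HasDerivAt (fun u => ee (u * y)) (2 * π * I * y * ee (u * y)) u := by
  have h : HasDerivAt (fun u : ℝ => ((2 * π * (u * y) : ℝ) : ℂ) * I) (2 * π * I * y) u := by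
    have h1 : HasDerivAt (fun u : ℝ => 2 * π * (u * y)) (2 * π * y) u := by
      simpa using ((hasDerivAt_id u).mul_const y).const_mul (2 * π)
    refine (h1.ofReal_comp.mul_const I).congr_deriv ?_
    push_cast; ring
  exact h.cexp.congr_deriv (by rw [ee]; ring)

/-- Inverse Fourier transform. -/
noncomputable def iF (φ : ℝ → ℂ) (y : ℝ) : ℂ := ∫ u, φ u * ee (u * y)

theorem iF_eq (φ : ℝ → ℂ) : iF φ = 𝓕⁻ φ := by
  funext y
  rw [Real.fourierInv_eq', iF]
  congr 1
  funext u
  rw [smul_eq_mul, mul_comm, ee]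
  simp [mul_comm]

theorem fourier_eq_iF (φ : ℝ → ℂ) (u : ℝ) : 𝓕 φ u = iF φ (-u) := by
  rw [iF_eq, Real.fourierInv_eq_fourier_neg, neg_neg]

theorem iF_iF {φ : ℝ → ℂ} (hc : Continuous φ) (hi : Integrable φ) (hi' : Integrable (iF φ))
    (u : ℝ) : iF (iF φ) (-u) = φ u := by
  have h1 : Integrable (𝓕 φ) := by
    have : 𝓕 φ = fun u => iF φ (-u) := funext (fourier_eq_iF φ)
    rw [this]; exact hi'.comp_neg
  rw [← fourier_eq_iF, iF_eq, hc.fourier_fourierInv_eq hi h1]

theorem integrable_mul_ee {φ : ℝ → ℂ} {μ : Measure ℝ} (hi : Integrable φ μ) (y : ℝ) :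
    Integrable (fun u => φ u * ee (u * y)) μ :=
  hi.mul_bdd (c := 1) (by fun_prop) (ae_of_all _ fun u => by simp)

theorem continuous_iF {φ : ℝ → ℂ} (hi : Integrable φ) : Continuous (iF φ) := by
  refine continuous_of_dominated (bound := fun u => ‖φ u‖)
    (fun y => (integrable_mul_ee hi y).aestronglyMeasurable)
    (fun y => ae_of_all _ fun u => by simp) hi.norm (ae_of_all _ fun u => by fun_prop)

/-- A twice continuously differentiable function vanishing outside `[-R, R]`, with bounds. -/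
structure Bump (φ : ℝ → ℂ) (R B : ℝ) : Prop where
  cd : ContDiff ℝ 2 φ
  zero : ∀ u, R < |u| → φ u = 0
  b0 : ∀ u, ‖φ u‖ ≤ B
  b1 : ∀ u, ‖deriv φ u‖ ≤ B
  b2 : ∀ u, ‖deriv (deriv φ) u‖ ≤ B

theorem deriv_zero_of_zero {φ : ℝ → ℂ} {R : ℝ} (h : ∀ u, R < |u| → φ u = 0) (u : ℝ)
    (hu : R < |u|) : deriv φ u = 0 := by
  have : φ =ᶠ[𝓝 u] fun _ => 0 := by
    filter_upwards [(isOpen_lt continuous_const continuous_abs).mem_nhds hu] with v hv using h v hv
  rw [this.deriv_eq]; simp

theorem hasCompactSupport_of_zero {φ : ℝ → ℂ} {R : ℝ} (h : ∀ u, R < |u| → φ u = 0) :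
    HasCompactSupport φ :=
  HasCompactSupport.intro (isCompact_Icc (a := -R) (b := R)) fun u hu =>
    h u (by rw [mem_Icc, ← abs_le] at hu; exact not_le.1 hu)

theorem contDiff_one_deriv {φ : ℝ → ℂ} (h : ContDiff ℝ 2 φ) : ContDiff ℝ 1 (deriv φ) :=
  (contDiff_succ_iff_deriv.1 (show ContDiff ℝ (1 + 1) φ from h)).2.2

theorem exists_bump {φ : ℝ → ℂ} {R : ℝ} (hc : ContDiff ℝ 2 φ) (h : ∀ u, R < |u| → φ u = 0) :
    ∃ B, 0 ≤ B ∧ Bump φ R B := by
  have h1 := contDiff_one_deriv hc
  obtain ⟨B0, hB0⟩ := hc.continuous.bounded_above_of_compact_support (hasCompactSupport_of_zero h)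
  obtain ⟨B1, hB1⟩ := h1.continuous.bounded_above_of_compact_support
    (hasCompactSupport_of_zero (deriv_zero_of_zero h))
  obtain ⟨B2, hB2⟩ := (h1.continuous_deriv le_rfl).bounded_above_of_compact_support
    (hasCompactSupport_of_zero (deriv_zero_of_zero (deriv_zero_of_zero h)))
  refine ⟨max B0 (max B1 B2), (norm_nonneg _).trans ((hB0 0).trans (le_max_left _ _)), hc, h,
    fun u => (hB0 u).trans (le_max_left _ _),
    fun u => (hB1 u).trans ((le_max_left _ _).trans (le_max_right _ _)),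
    fun u => (hB2 u).trans ((le_max_right _ _).trans (le_max_right _ _))⟩

theorem Bump.mono {φ : ℝ → ℂ} {R B R' B' : ℝ} (h : Bump φ R B) (hR : R ≤ R') (hB : B ≤ B') :
    Bump φ R' B' :=
  ⟨h.cd, fun u hu => h.zero u (hR.trans_lt hu), fun u => (h.b0 u).trans hB,
    fun u => (h.b1 u).trans hB, fun u => (h.b2 u).trans hB⟩

theorem Bump.nonneg {φ : ℝ → ℂ} {R B : ℝ} (h : Bump φ R B) : 0 ≤ B :=
  (norm_nonneg _).trans (h.b0 0)

theorem Bump.comp_neg {φ : ℝ → ℂ} {R B : ℝ} (h : Bump φ R B) : Bump (fun u => φ (-u)) R B := by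
  have e1 : deriv (fun u => φ (-u)) = fun u => -deriv φ (-u) := funext fun u => deriv_comp_neg φ u
  refine ⟨h.cd.comp contDiff_neg, fun u hu => h.zero _ (by rwa [abs_neg]), fun u => h.b0 _,
    fun u => by rw [e1, norm_neg]; exact h.b1 _, fun u => ?_⟩
  rw [e1, deriv.fun_neg, deriv_comp_neg (deriv φ) u, neg_neg]
  exact h.b2 _

theorem Bump.half {f : ℝ → ℂ} {R B : ℝ} (h : Bump f R B) (hR : 0 < R) {y : ℝ} (hy : y ≠ 0) :
    ‖(∫ u in (0 : ℝ)..(2 * R), f u * ee (u * y)) + f 0 / (2 * π * I * y)‖ ≤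
      (B + 2 * R * B) / (2 * π * y) ^ 2 := by
  have h1 := contDiff_one_deriv h.cd
  have hd0 : ∀ u, HasDerivAt f (deriv f u) u := fun u =>
    (h.cd.differentiable (by norm_num) u).hasDerivAt
  have hd1 : ∀ u, HasDerivAt (deriv f) (deriv (deriv f) u) u := fun u =>
    (h1.differentiable (by norm_num) u).hasDerivAt
  have hc2 : Continuous (deriv (deriv f)) := h1.continuous_deriv le_rfl
  have hc1 := h1.continuous
  have hc0 := h.cd.continuous
  set a : ℂ := 2 * π * I * y with ha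
  have ha0 : a ≠ 0 := by simp [ha, hy, Real.pi_ne_zero]
  have hR2 : R < |2 * R| := by rw [abs_of_pos (by linarith)]; linarith
  have key : ∫ u in (0 : ℝ)..(2 * R), (f u * ee (u * y) - deriv (deriv f) u * ee (u * y) / a ^ 2) =
      (f (2 * R) / a - deriv f (2 * R) / a ^ 2) * ee (2 * R * y) -
        (f 0 / a - deriv f 0 / a ^ 2) * ee (0 * y) := by
    refine intervalIntegral.integral_eq_sub_of_hasDerivAt
      (f := fun u => (f u / a - deriv f u / a ^ 2) * ee (u * y)) (fun u _ => ?_)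
      (Continuous.intervalIntegrable (by fun_prop) _ _)
    refine ((((hd0 u).div_const a).sub ((hd1 u).div_const (a ^ 2))).mul
      (hasDerivAt_ee y u)).congr_deriv ?_
    rw [← ha]
    simp only [Pi.sub_apply]
    field_simp
    ring
  rw [h.zero _ hR2, deriv_zero_of_zero h.zero _ hR2, intervalIntegral.integral_sub
    (Continuous.intervalIntegrable (by fun_prop) _ _)
    (Continuous.intervalIntegrable (by fun_prop) _ _), intervalIntegral.integral_div] at key
  have e : (∫ u in (0 : ℝ)..(2 * R), f u * ee (u * y)) + f 0 / a =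
      (deriv f 0 + ∫ u in (0 : ℝ)..(2 * R), deriv (deriv f) u * ee (u * y)) / a ^ 2 := by
    simp only [zero_mul, ee_zero, mul_one, zero_div, sub_zero, zero_sub] at key
    rw [add_div]
    linear_combination key
  have hn : ‖a ^ 2‖ = (2 * π * y) ^ 2 := by
    rw [norm_pow, ha, ← sq_abs (2 * π * y)]
    congr 1
    simp [abs_mul, abs_of_pos Real.pi_pos]
  rw [e, norm_div, hn]
  gcongr
  refine (norm_add_le _ _).trans (add_le_add (h.b1 0) ?_)
  refine (intervalIntegral.norm_integral_le_of_norm_le_const (C := B) fun u _ => ?_).trans ?_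
  · simpa using h.b2 u
  · rw [sub_zero, abs_of_pos (by linarith only [hR])]; linarith only []

/-- The function equal to `fp` on the right half-line and to `fm` on the left one. -/
noncomputable def pw (fp fm : ℝ → ℂ) (u : ℝ) : ℂ := if 0 ≤ u then fp u else fm u

theorem continuous_pw {fp fm : ℝ → ℂ} (hp : Continuous fp) (hm : Continuous fm)
    (h : fp 0 = fm 0) : Continuous (pw fp fm) :=
  Continuous.if_le hp hm continuous_const continuous_id fun u hu => by rw [← hu, h]

theorem pw_zero {fp fm : ℝ → ℂ} {R : ℝ} (hp : ∀ u, R < |u| → fp u = 0)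
    (hm : ∀ u, R < |u| → fm u = 0) (u : ℝ) (hu : R < |u|) : pw fp fm u = 0 := by
  unfold pw; split_ifs; exacts [hp u hu, hm u hu]

theorem pw_self (f : ℝ → ℂ) : pw f f = f := by funext u; simp [pw]

theorem norm_iF_pw_le {fp fm : ℝ → ℂ} {R B : ℝ} (hp : Bump fp R B) (hm : Bump fm R B)
    (hR : 0 < R) (h : fp 0 = fm 0) (y : ℝ) :
    ‖iF (pw fp fm) y‖ ≤ 6 * (1 + R) * B / (1 + y ^ 2) := by
  have hB := hp.nonneg
  have hc := continuous_pw hp.cd.continuous hm.cd.continuous h
  have hcp := hp.cd.continuous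
  have hcm := hm.cd.continuous
  have e : iF (pw fp fm) y = (∫ u in (0 : ℝ)..(2 * R), fp u * ee (u * y)) +
      ∫ u in (0 : ℝ)..(2 * R), fm (-u) * ee (u * (-y)) := by
    have e1 : iF (pw fp fm) y = ∫ u in (-(2 * R))..(2 * R), pw fp fm u * ee (u * y) := by
      rw [iF, intervalIntegral.integral_eq_integral_of_support_subset]
      intro u hu
      by_contra hc
      refine hu ?_
      show pw fp fm u * ee (u * y) = 0
      rw [pw_zero hp.zero hm.zero u, zero_mul]
      rw [mem_Ioc, not_and_or, not_lt, not_le] at hc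
      rcases hc with hc | hc
      · rw [abs_of_neg (by linarith)]; linarith
      · rw [abs_of_pos (by linarith)]; linarith
    rw [e1, ← intervalIntegral.integral_add_adjacent_intervals (b := 0)
      (Continuous.intervalIntegrable (by fun_prop) _ _)
      (Continuous.intervalIntegrable (by fun_prop) _ _), add_comm]
    congr 1
    · refine intervalIntegral.integral_congr fun u hu => ?_
      rw [uIcc_of_le (by linarith)] at hu
      simp [pw, hu.1]
    · have := intervalIntegral.integral_comp_neg (a := 0) (b := 2 * R)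
        (fun u => pw fp fm u * ee (u * y))
      rw [neg_zero] at this
      rw [← this]
      refine intervalIntegral.integral_congr fun u hu => ?_
      rw [uIcc_of_le (by linarith)] at hu
      rcases hu.1.eq_or_lt with rfl | h0
      · simp [pw, h]
      · have : ¬ (0 ≤ -u) := by linarith
        simp only [pw, this, if_false]
        congr 2; ring
  have b1 : ‖iF (pw fp fm) y‖ ≤ 4 * R * B := by
    rw [e]
    have i1 := intervalIntegral.norm_integral_le_of_norm_le_const (a := 0) (b := 2 * R) (C := B)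
      (f := fun u => fp u * ee (u * y)) fun u _ => by simpa using hp.b0 u
    have i2 := intervalIntegral.norm_integral_le_of_norm_le_const (a := 0) (b := 2 * R) (C := B)
      (f := fun u => fm (-u) * ee (u * (-y))) fun u _ => by simpa using hm.b0 (-u)
    rw [sub_zero, abs_of_pos (by linarith only [hR])] at i1 i2
    linarith [norm_add_le (∫ u in (0 : ℝ)..(2 * R), fp u * ee (u * y))
      (∫ u in (0 : ℝ)..(2 * R), fm (-u) * ee (u * (-y)))]
  have b2 : y ^ 2 * ‖iF (pw fp fm) y‖ ≤ B + 2 * R * B := by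
    by_cases hy : y = 0
    · simp only [hy, ne_eq, OfNat.ofNat_ne_zero, not_false_eq_true, zero_pow, zero_mul]
      positivity
    · have i1 := hp.half hR hy
      have i2 := hm.comp_neg.half hR (neg_ne_zero.2 hy)
      have e2 : iF (pw fp fm) y = ((∫ u in (0 : ℝ)..(2 * R), fp u * ee (u * y)) +
          fp 0 / (2 * π * I * y)) + ((∫ u in (0 : ℝ)..(2 * R), fm (-u) * ee (u * (-y))) +
          fm (-0) / (2 * π * I * (-y : ℝ))) := by
        rw [e, neg_zero, h]; push_cast; ring
      have i3 : ‖iF (pw fp fm) y‖ ≤ 2 * ((B + 2 * R * B) / (2 * π * y) ^ 2) := by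
        rw [e2]
        refine (norm_add_le _ _).trans ?_
        have : (2 * π * -y) ^ 2 = (2 * π * y) ^ 2 := by ring
        rw [this] at i2
        linarith only [i1, i2]
      have hy2 : 0 < y ^ 2 := by positivity
      calc y ^ 2 * ‖iF (pw fp fm) y‖ ≤ y ^ 2 * (2 * ((B + 2 * R * B) / (2 * π * y) ^ 2)) := by
            gcongr
        _ = (B + 2 * R * B) / (2 * π ^ 2) := by field_simp
        _ ≤ _ := div_le_self (by positivity) (by nlinarith only [Real.pi_gt_three])
  rw [le_div_iff₀ (by positivity)]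
  nlinarith only [hB, b1, b2, mul_nonneg hR.le hB]

theorem Bump.scale_exp {φ : ℝ → ℂ} {R B Λ b : ℝ} (h : Bump φ R B) (hΛ : 1 ≤ Λ) (hb : |b| ≤ 7) :
    Bump (fun ξ => φ (ξ / Λ) * (Real.exp (b * ξ) : ℂ)) (R * Λ)
      (64 * B * Real.exp (|b| * (R * Λ))) := by
  have hΛ0 : 0 < Λ := by linarith
  have hB := h.nonneg
  have h1 := contDiff_one_deriv h.cd
  have hd0 : ∀ u, HasDerivAt (fun ξ => φ (ξ / Λ)) (deriv φ (u / Λ) * (Λ⁻¹ : ℝ)) u := fun u => by
    have := (h.cd.differentiable (by norm_num) (u / Λ)).hasDerivAt.scomp u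
      ((hasDerivAt_id u).div_const Λ)
    refine HasDerivAt.congr_deriv this ?_
    simp [mul_comm]
  have hd1 : ∀ u, HasDerivAt (fun ξ => deriv φ (ξ / Λ))
      (deriv (deriv φ) (u / Λ) * (Λ⁻¹ : ℝ)) u := fun u => by
    have := (h1.differentiable (by norm_num) (u / Λ)).hasDerivAt.scomp u
      ((hasDerivAt_id u).div_const Λ)
    refine HasDerivAt.congr_deriv this ?_
    simp [mul_comm]
  have hE : ∀ u, HasDerivAt (fun ξ => (Real.exp (b * ξ) : ℂ)) (b * Real.exp (b * u)) u := fun u => by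
    have := (((hasDerivAt_id u).const_mul b).exp).ofReal_comp
    refine HasDerivAt.congr_deriv this ?_
    simp [mul_comm]
  have e1 : deriv (fun ξ => φ (ξ / Λ) * (Real.exp (b * ξ) : ℂ)) = fun u =>
      (deriv φ (u / Λ) * (Λ⁻¹ : ℝ) + b * φ (u / Λ)) * (Real.exp (b * u) : ℂ) := by
    funext u
    refine Eq.trans ((hd0 u).mul (hE u)).deriv ?_
    ring
  have e2 : deriv (deriv (fun ξ => φ (ξ / Λ) * (Real.exp (b * ξ) : ℂ))) = fun u =>
      (deriv (deriv φ) (u / Λ) * (Λ⁻¹ : ℝ) * (Λ⁻¹ : ℝ) + 2 * b * (deriv φ (u / Λ) * (Λ⁻¹ : ℝ)) +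
        b * b * φ (u / Λ)) * (Real.exp (b * u) : ℂ) := by
    funext u
    rw [e1]
    have := ((((hd1 u).mul_const ((Λ⁻¹ : ℝ) : ℂ)).add ((hd0 u).const_mul (b : ℂ))).mul (hE u)).deriv
    refine Eq.trans this ?_
    simp only [Pi.add_apply]
    ring
  have hz : ∀ u, R * Λ < |u| → R < |u / Λ| := fun u hu => by
    rwa [abs_div, abs_of_pos hΛ0, lt_div_iff₀ hΛ0]
  have hi : ‖((Λ⁻¹ : ℝ) : ℂ)‖ ≤ 1 := by
    rw [norm_real, Real.norm_of_nonneg (by positivity)]; exact inv_le_one_of_one_le₀ hΛ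
  have hbn : ‖(b : ℂ)‖ ≤ 7 := by rwa [norm_real]
  have main : ∀ (u : ℝ) (w : ℂ), (R * Λ < |u| → w = 0) → ‖w‖ ≤ 64 * B →
      ‖w * (Real.exp (b * u) : ℂ)‖ ≤ 64 * B * Real.exp (|b| * (R * Λ)) := by
    intro u w h0 hw
    by_cases hu : R * Λ < |u|
    · rw [h0 hu, zero_mul, norm_zero]; positivity
    · rw [norm_mul, norm_real, Real.norm_of_nonneg (Real.exp_pos _).le]
      have : b * u ≤ |b| * (R * Λ) :=
        calc b * u ≤ |b * u| := le_abs_self _
          _ = |b| * |u| := abs_mul _ _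
          _ ≤ _ := mul_le_mul_of_nonneg_left (not_lt.1 hu) (abs_nonneg b)
      exact mul_le_mul hw (Real.exp_le_exp.2 this) (Real.exp_pos _).le (by positivity)
  have n0 := h.b0
  have n1 : ∀ u, ‖deriv φ u * (Λ⁻¹ : ℝ)‖ ≤ B := fun u => by
    rw [norm_mul]; nlinarith only [hi, h.b1 u, norm_nonneg (deriv φ u), norm_nonneg ((Λ⁻¹ : ℝ) : ℂ)]
  have n2 : ∀ u, ‖deriv (deriv φ) u * (Λ⁻¹ : ℝ) * (Λ⁻¹ : ℝ)‖ ≤ B := fun u => by
    rw [norm_mul, norm_mul]
    calc _ ≤ B * 1 * 1 := by gcongr; exact h.b2 u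
      _ = B := by ring
  refine ⟨?_, fun u hu => by rw [h.zero _ (hz u hu), zero_mul], fun u => ?_, fun u => ?_,
    fun u => ?_⟩
  · refine (h.cd.comp (contDiff_id.div_const Λ)).mul ?_
    exact ofRealCLM.contDiff.comp (contDiff_const.mul contDiff_id).exp
  · exact main u _ (fun hu => h.zero _ (hz u hu)) (by linarith only [hB, n0 (u / Λ)])
  · rw [e1]
    refine main u _ (fun hu => by
      rw [h.zero _ (hz u hu), deriv_zero_of_zero h.zero _ (hz u hu)]; simp) ?_
    refine (norm_add_le _ _).trans ?_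
    have : ‖(b : ℂ) * φ (u / Λ)‖ ≤ 7 * B := by rw [norm_mul]; gcongr; exact n0 _
    linarith only [hB, this, n1 (u / Λ)]
  · rw [e2]
    refine main u _ (fun hu => by
      rw [h.zero _ (hz u hu), deriv_zero_of_zero h.zero _ (hz u hu),
        deriv_zero_of_zero (deriv_zero_of_zero h.zero) _ (hz u hu)]; simp) ?_
    refine (norm_add₃_le).trans ?_
    have t1 : ‖(b : ℂ) * b * φ (u / Λ)‖ ≤ 7 * 7 * B := by
      rw [norm_mul, norm_mul]; gcongr; exact n0 _
    have t2 : ‖2 * (b : ℂ) * (deriv φ (u / Λ) * (Λ⁻¹ : ℝ))‖ ≤ 2 * 7 * B := by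
      rw [norm_mul, norm_mul, Complex.norm_two]; gcongr; exact n1 _
    linarith only [t1, t2, n2 (u / Λ)]

theorem integrable_exp_neg_abs : Integrable fun u : ℝ => (Real.exp (-(2 * π * |u|)) : ℂ) := by
  rw [← integrableOn_univ, ← Iic_union_Ioi (a := (0 : ℝ)), integrableOn_union]
  constructor
  · refine (integrableOn_exp_mul_complex_Iic (a := 2 * π) (by simp [Real.pi_pos]) 0).congr_fun
      (fun u hu => ?_) measurableSet_Iic
    simp only [abs_of_nonpos (show u ≤ 0 from hu)]; push_cast; congr 1; ring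
  · refine (integrableOn_exp_mul_complex_Ioi (a := -(2 * π)) (by simp [Real.pi_pos]) 0).congr_fun
      (fun u hu => ?_) measurableSet_Ioi
    simp only [abs_of_pos (show 0 < u from hu)]; push_cast; congr 1; ring

theorem iF_exp_neg_abs (y : ℝ) :
    iF (fun u => (Real.exp (-(2 * π * |u|)) : ℂ)) y = ((1 / (π * (1 + y ^ 2)) : ℝ) : ℂ) := by
  have hi := integrable_mul_ee integrable_exp_neg_abs y
  rw [iF, ← setIntegral_univ, ← Iic_union_Ioi (a := (0 : ℝ)),
    setIntegral_union (Iic_disjoint_Ioi le_rfl) measurableSet_Ioi hi.integrableOn hi.integrableOn]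
  have e1 : ∫ u in Iic (0 : ℝ), (Real.exp (-(2 * π * |u|)) : ℂ) * ee (u * y) =
      ∫ u in Iic (0 : ℝ), cexp ((2 * π * (1 + y * I)) * u) := by
    refine setIntegral_congr_fun measurableSet_Iic fun u hu => ?_
    simp only [abs_of_nonpos (show u ≤ 0 from hu), ee, ofReal_exp, ← Complex.exp_add]
    congr 1; push_cast; ring
  have e2 : ∫ u in Ioi (0 : ℝ), (Real.exp (-(2 * π * |u|)) : ℂ) * ee (u * y) =
      ∫ u in Ioi (0 : ℝ), cexp ((2 * π * (-1 + y * I)) * u) := by
    refine setIntegral_congr_fun measurableSet_Ioi fun u hu => ?_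
    simp only [abs_of_pos (show 0 < u from hu), ee, ofReal_exp, ← Complex.exp_add]
    congr 1; push_cast; ring
  rw [e1, e2, integral_exp_mul_complex_Iic (by simp [Real.pi_pos]),
    integral_exp_mul_complex_Ioi (by simp [Real.pi_pos])]
  have n1 : (1 + (y : ℂ) * I) ≠ 0 := fun h => by simpa using congrArg re h
  have n2 : (-1 + (y : ℂ) * I) ≠ 0 := fun h => by simpa using congrArg re h
  have n3 : (1 + (y : ℂ) ^ 2) ≠ 0 := by
    have : (1 + y ^ 2 : ℝ) ≠ 0 := by positivity
    exact_mod_cast this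
  have n4 : (π : ℂ) ≠ 0 := by exact_mod_cast Real.pi_ne_zero
  simp only [ofReal_zero, mul_zero, Complex.exp_zero]
  push_cast
  field_simp
  ring_nf
  simp
  ring

theorem deconv {κ : ℝ → ℂ} (hc : Continuous κ) (hi : Integrable κ) (hi' : Integrable (iF κ))
    (γ : ℝ) : ∫ x, iF κ x * ((1 / (π * (1 + (x - γ) ^ 2)) : ℝ) : ℂ) =
      iF (fun u => κ u * (Real.exp (-(2 * π * |u|)) : ℂ)) γ := by
  have e : ∀ x, iF κ x * ((1 / (π * (1 + (x - γ) ^ 2)) : ℝ) : ℂ) =
      ∫ u, iF κ x * ((Real.exp (-(2 * π * |u|)) : ℂ) * ee (u * (γ - x))) := by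
    intro x
    rw [integral_const_mul, ← iF, iF_exp_neg_abs]
    congr 4; ring
  simp_rw [e]
  rw [integral_integral_swap]
  · rw [iF]
    congr 1
    funext u
    rw [← iF_iF hc hi hi' u, iF, ← integral_mul_const, ← integral_mul_const]
    congr 1
    funext x
    rw [show u * (γ - x) = x * -u + u * γ by ring, ee_add]
    ring
  · have := (hi'.mul_prod integrable_exp_neg_abs).mul_bdd (c := 1)
      (g := fun p : ℝ × ℝ => ee (p.2 * (γ - p.1))) (by fun_prop) (ae_of_all _ fun p => by simp)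
    refine this.congr (ae_of_all _ fun p => ?_)
    simp only [Function.uncurry]
    ring

end Pool.Agent.P.MP_7eacff_nt
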