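import Pool.Agent.P.MP_7eacff_nt.Reso2

/-!
Generating series for the mean values of powers of prime sums against the resonator.
-/

open Complex Filter Topology MeasureTheory Set ArithmeticFunction PowerSeries
open scoped Real

namespace Pool.Agent.P.MP_7eacff_nt

/-- Generating series of `f` with respect to the size. -/
noncomputable def genP (j : ℕ → ℕ) (N : ℕ) (f : ℕ → ℂ) : ℂ⟦X⟧ :=
  ∑ n ∈ Finset.Icc 1 N, C (f n) * X ^ sz j n

theorem coeff_genP (j : ℕ → ℕ) (N : ℕ) (f : ℕ → ℂ) (i : ℕ) : coeff i (genP j N f) = Es j N f i := by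
  simp only [genP, map_sum, coeff_C_mul, coeff_X_pow, Es, Finset.sum_filter, eq_comm (a := i)]
  simp

theorem sz_cm_prod {ι : Type*} (j : ℕ → ℕ) (x : ℕ → ℝ) (s : Finset ι) (f : ι → ℕ)
    (hf : ∀ i ∈ s, f i ≠ 0) :
    sz j (∏ i ∈ s, f i) = ∑ i ∈ s, sz j (f i) ∧ cm x (∏ i ∈ s, f i) = ∏ i ∈ s, cm x (f i) := by
  classical
  induction s using Finset.induction_on with
  | empty => simp
  | insert a s ha ih =>
    have h1 := hf a (Finset.mem_insert_self a s)
    have h2 := fun i hi => hf i (Finset.mem_insert_of_mem hi)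
    have h3 := Finset.prod_ne_zero_iff.2 h2
    simp only [Finset.prod_insert ha, Finset.sum_insert ha, sz_mul _ h1 h3, cm_mul _ h1 h3,
      (ih h2).1, (ih h2).2, and_self]

theorem tendsto_coeff_mul {ι : Type*} {l : Filter ι} {F G : ι → ℂ⟦X⟧} {F' G' : ℂ⟦X⟧} {J : ℕ}
    (hF : ∀ i ≤ J, Tendsto (fun T => coeff i (F T)) l (𝓝 (coeff i F')))
    (hG : ∀ i ≤ J, Tendsto (fun T => coeff i (G T)) l (𝓝 (coeff i G'))) :
    ∀ i ≤ J, Tendsto (fun T => coeff i (F T * G T)) l (𝓝 (coeff i (F' * G'))) := by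
  intro i hi
  simp only [coeff_mul]
  refine tendsto_finsetSum _ fun p hp => ?_
  have := Finset.HasAntidiagonal.mem_antidiagonal.1 hp
  exact (hF _ (by omega)).mul (hG _ (by omega))

theorem tendsto_coeff_pow {ι : Type*} {l : Filter ι} {F : ι → ℂ⟦X⟧} {F' : ℂ⟦X⟧} {J : ℕ}
    (hF : ∀ i ≤ J, Tendsto (fun T => coeff i (F T)) l (𝓝 (coeff i F'))) (k : ℕ) :
    ∀ i ≤ J, Tendsto (fun T => coeff i (F T ^ k)) l (𝓝 (coeff i (F' ^ k))) := by
  induction k with
  | zero => exact fun i _ => by simpa only [pow_zero] using tendsto_const_nhds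
  | succ k ih => simpa only [pow_succ] using tendsto_coeff_mul ih hF

theorem coeff_exp_close {Ω : ℂ⟦X⟧} (h0 : constantCoeff Ω = 0) {J m : ℕ} (hm : J ≤ m) {w : ℂ}
    (hw : ‖w‖ = 1) {σ : ℝ} (hσ : σ ≤ 1 / 2)
    (h : ∑ i ∈ Finset.range J, ‖coeff (i + 1) Ω + (1 - w ^ (i + 1)) / (i + 1)‖ ≤ σ) :
    ‖∑ n ∈ Finset.range (J + 1), coeff n ((∑ k ∈ Finset.range (m + 1),
      C ((k.factorial : ℂ)⁻¹) * Ω ^ k) * PowerSeries.mk 1) - ∑ n ∈ Finset.range (J + 1), w ^ n‖ ≤
      (J + 1) * (2 * σ) := by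
  have hE : ∀ m : ℕ, d⁄dX ℂ (∑ k ∈ Finset.range (m + 1), C ((k.factorial : ℂ)⁻¹) * Ω ^ k) =
      d⁄dX ℂ Ω * ∑ k ∈ Finset.range m, C ((k.factorial : ℂ)⁻¹) * Ω ^ k := by
    intro m
    induction m with
    | zero => simp
    | succ m ih =>
      rw [Finset.sum_range_succ, map_add, ih, Finset.sum_range_succ _ m, mul_add,
        Derivation.leibniz, derivative_C, derivative_pow]
      have : (C (((m + 1).factorial : ℂ)⁻¹) : ℂ⟦X⟧) * ((m + 1 : ℕ) : ℂ⟦X⟧) =
          C ((m.factorial : ℂ)⁻¹) := by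
        rw [← map_natCast (C : ℂ →+* ℂ⟦X⟧), ← map_mul, Nat.factorial_succ]
        congr 1
        push_cast
        field_simp
      simp only [smul_eq_mul, mul_zero, add_zero, Nat.add_sub_cancel]
      rw [← this]; ring
  set E := ∑ k ∈ Finset.range (m + 1), C ((k.factorial : ℂ)⁻¹) * Ω ^ k with hEd
  have hE' : d⁄dX ℂ E = d⁄dX ℂ Ω * (E - C ((m.factorial : ℂ)⁻¹) * Ω ^ m) := by
    rw [hEd, hE, Finset.sum_range_succ, add_sub_cancel_right]
  have hA : (PowerSeries.mk 1 : ℂ⟦X⟧) * (1 - X) = 1 := mk_one_mul_one_sub_eq_one ℂ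
  set A : ℂ⟦X⟧ := PowerSeries.mk 1 with hAd
  set B : ℂ⟦X⟧ := PowerSeries.mk fun n => w ^ n with hBd
  have hB : B * (1 - C w * X) = 1 := by
    ext n
    rcases n with _ | n
    · simp [hBd]
    · simp [hBd, mul_sub, ← mul_assoc, coeff_succ_mul_X, pow_succ, coeff_one]
  have hA' : d⁄dX ℂ A = A * A := by
    have := congrArg (d⁄dX ℂ) hA
    rw [Derivation.leibniz, map_sub, derivative_one, derivative_X] at this
    simp only [smul_eq_mul] at this
    linear_combination A * this - d⁄dX ℂ A * hA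
  set D := E * A * (1 - C w * X) with hD
  have hD' : d⁄dX ℂ D = D * (d⁄dX ℂ Ω + A - C w * B) -
      Ω ^ m * (d⁄dX ℂ Ω * C ((m.factorial : ℂ)⁻¹) * A * (1 - C w * X)) := by
    rw [hD, Derivation.leibniz, Derivation.leibniz, map_sub, Derivation.leibniz, derivative_one,
      derivative_X, derivative_C, hA', hE']
    simp only [smul_eq_mul]
    linear_combination (E * A * C w) * hB
  have hD0 : coeff 0 D = 1 := by
    simp [hD, hEd, hAd, Finset.sum_range_succ', h0]
  have hrec : ∀ n < J, ‖coeff (n + 1) D‖ ≤ ∑ p ∈ Finset.HasAntidiagonal.antidiagonal n,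
      ‖coeff p.1 D‖ * ‖coeff (p.2 + 1) Ω + (1 - w ^ (p.2 + 1)) / (p.2 + 1)‖ := by
    intro n hn
    have h1 := congrArg (coeff n) hD'
    rw [coeff_derivative, map_sub, X_pow_dvd_iff.1 ((pow_dvd_pow_of_dvd (X_dvd_iff.2 h0) m).mul_right
      _) n (by omega), sub_zero, coeff_mul n] at h1
    have h2 : ‖(n + 1 : ℂ)‖ = n + 1 := by exact_mod_cast Complex.norm_natCast (n + 1)
    refine le_of_mul_le_mul_right ?_ (show (0 : ℝ) < n + 1 by positivity)
    rw [← h2, ← norm_mul, h1, h2, Finset.sum_mul]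
    refine (norm_sum_le _ _).trans (Finset.sum_le_sum fun p hp => ?_)
    have h3 := Finset.HasAntidiagonal.mem_antidiagonal.1 hp
    have h4 : ‖(p.2 + 1 : ℂ)‖ = p.2 + 1 := by exact_mod_cast Complex.norm_natCast (p.2 + 1)
    have h5 : (p.2 + 1 : ℂ) ≠ 0 := by exact_mod_cast Nat.succ_ne_zero p.2
    have e : coeff p.2 (d⁄dX ℂ Ω + A - C w * B) =
        (coeff (p.2 + 1) Ω + (1 - w ^ (p.2 + 1)) / (p.2 + 1)) * (p.2 + 1) := by
      simp only [map_sub, map_add, coeff_derivative, coeff_C_mul, hAd, hBd, coeff_mk, Pi.one_apply]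
      field_simp
      ring
    rw [e, norm_mul, norm_mul, h4, mul_assoc]
    gcongr
    omega
  have hσ0 : 0 ≤ σ := (Finset.sum_nonneg fun _ _ => norm_nonneg _).trans h
  have hS : ∑ n ∈ Finset.range J, ‖coeff (n + 1) D‖ ≤ 2 * σ := by
    have h1 : ∑ n ∈ Finset.range J, ‖coeff (n + 1) D‖ ≤
        (∑ n ∈ Finset.range (J + 1), ‖coeff n D‖) * σ := by
      refine (Finset.sum_le_sum fun n hn => hrec n (Finset.mem_range.1 hn)).trans
        (le_trans ?_ (mul_le_mul_of_nonneg_left h (Finset.sum_nonneg fun _ _ => norm_nonneg _)))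
      rw [Finset.sum_mul_sum, ← Finset.sum_product', ← Finset.sum_biUnion]
      · refine Finset.sum_le_sum_of_subset_of_nonneg (fun p hp => ?_) fun _ _ _ => by positivity
        simp only [Finset.mem_biUnion, Finset.mem_range, Finset.HasAntidiagonal.mem_antidiagonal,
          Finset.mem_product] at hp ⊢
        omega
      · intro a _ b _ hab
        exact Finset.disjoint_left.2 fun p h1 h2 =>
          hab ((Finset.HasAntidiagonal.mem_antidiagonal.1 h1).symm.trans (Finset.HasAntidiagonal.mem_antidiagonal.1 h2))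
    rw [Finset.sum_range_succ', hD0, norm_one] at h1
    have : 0 ≤ ∑ n ∈ Finset.range J, ‖coeff (n + 1) D‖ := Finset.sum_nonneg fun _ _ => norm_nonneg _
    nlinarith only [h1, hσ, this]
  rw [← Finset.sum_sub_distrib]
  refine (norm_sum_le _ _).trans ((Finset.sum_le_card_nsmul _ _ (2 * σ) fun n hn => ?_).trans
    (by simp))
  have e : E * A = D * B := by rw [hD]; linear_combination (-(E * A)) * hB
  rw [e, coeff_mul, Finset.Nat.sum_antidiagonal_eq_sum_range_succ_mk, Finset.sum_range_succ', hD0]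
  simp only [hBd, coeff_mk, one_mul, Nat.sub_zero, add_sub_cancel_right]
  refine (norm_sum_le _ _).trans (le_trans ?_ hS)
  simp only [norm_mul, norm_pow, hw, one_pow, mul_one]
  exact Finset.sum_le_sum_of_subset_of_nonneg
    (Finset.range_mono (by have := Finset.mem_range.1 hn; omega)) fun _ _ _ => norm_nonneg _

theorem neg_sum_sin (b x : ℝ) (n : ℕ) : 2 * Real.sin (x / 2) * -∑ k ∈ Finset.range n,
    Real.sin (b + k * x) = Real.cos (b + n * x - x / 2) - Real.cos (b - x / 2) := by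
  induction n with
  | zero => simp
  | succ n ih =>
    rw [Finset.sum_range_succ, neg_add, mul_add, ih]
    push_cast
    rw [show b + (n + 1) * x - x / 2 = b + n * x + x / 2 by ring, Real.cos_add (b + n * x),
      Real.cos_sub (b + n * x)]
    ring

namespace Cells

variable {J : ℕ} {h δ B : ℝ} {φ : ℕ → ℝ → ℝ} (hC : Cells J h δ B φ)
include hC

theorem mean_Psum_pow {P : Measure ℝ} (hP : Win P) (g : ℝ → ℂ) {T T0 : ℝ} (hT : 1 < T)
    (hT0 : 2 * π * (T ^ (h * J) + 1) ≤ T0) (X : ℝ) (k : ℕ) :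
    ∫ v, Psum g T (X + T0 * v) ^ k * ((‖res J 1 φ h T (X + T0 * v)‖ ^ 2 : ℝ) : ℂ) ∂P =
      ∑ n ∈ Finset.range (J + 1), coeff n (genP (jj h T) ⌊T⌋₊ (fun n =>
        ((vonMangoldt n / (√n * Real.log T) : ℝ) : ℂ) * g (Real.log n / Real.log T) *
          cm (al φ h T) n) ^ k * genP (jj h T) ⌊T⌋₊ fun n => cm (al φ h T) n ^ 2) := by
  have hm : ∀ n ∈ (Finset.Icc 1 ⌊T⌋₊).filter fun n => sz (jj h T) n ≤ J,
      1 ≤ n ∧ (n : ℝ) ≤ T ^ (h * J) := fun n hn => by
    simp only [Finset.mem_filter, Finset.mem_Icc] at hn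
    exact ⟨hn.1.1, hC.le_rpow_of_sz hT (by omega) hn.2⟩
  set a : ℕ → ℂ := fun n => ((vonMangoldt n / (√n * Real.log T) : ℝ) : ℂ) *
    g (Real.log n / Real.log T) with ha
  set F := Fintype.piFinset fun _ : Fin k => Finset.Icc 1 ⌊T⌋₊ with hF
  have hFm : ∀ f ∈ F, ∀ i, f i ≠ 0 := fun f hf i => by
    have := Finset.mem_Icc.1 (Fintype.mem_piFinset.1 hf i); omega
  have h1 := hP.mean_value (F ×ˢ Finset.Icc 1 ⌊T⌋₊) _
    (fun x => (∏ i, a (x.1 i)) * if sz (jj h T) x.2 ≤ J then (cm (al φ h T) x.2 : ℂ) else 0)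
    (fun n => (cm (al φ h T) n : ℂ)) (fun x => (∏ i, x.1 i) * x.2) id
    (fun x hx => by
      obtain ⟨h1, h2⟩ := Finset.mem_product.1 hx
      exact Nat.mul_pos (Nat.pos_of_ne_zero (Finset.prod_ne_zero_iff.2 fun i _ => hFm _ h1 i))
        (Finset.mem_Icc.1 h2).1) hm hT0 X
  refine Eq.trans (integral_congr_ae (ae_of_all _ fun v => ?_)) (h1.trans ?_)
  · simp only
    rw [ofReal_pow, ← Complex.mul_conj', ← mul_assoc]
    simp only [res, Pi.one_apply, one_mul, id]
    congr 1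
    rw [Psum, Finset.sum_pow', Finset.sum_filter, Finset.sum_mul_sum, Finset.sum_product]
    refine Finset.sum_congr rfl fun f hf => Finset.sum_congr rfl fun m hm => ?_
    rw [ch_mul (Finset.prod_ne_zero_iff.2 fun i _ => hFm _ hf i)
      (by have := Finset.mem_Icc.1 hm; omega), ch_prod _ _ fun i _ => hFm _ hf i,
      Finset.prod_mul_distrib]
    split_ifs
    · ring
    · simp
  · rw [genP, genP, Finset.sum_pow', Finset.sum_mul_sum, Finset.sum_product]
    simp only [map_sum]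
    rw [Finset.sum_comm (s := Finset.range (J + 1))]
    refine Finset.sum_congr rfl fun f hf => ?_
    rw [Finset.sum_comm (s := Finset.range (J + 1))]
    refine Finset.sum_congr rfl fun m hm => ?_
    have hm0 : m ≠ 0 := by have := Finset.mem_Icc.1 hm; omega
    have hf0 := Finset.prod_ne_zero_iff.2 fun i (_ : i ∈ Finset.univ) => hFm _ hf i
    obtain ⟨e1, e2⟩ := sz_cm_prod (jj h T) (al φ h T) Finset.univ f fun i _ => hFm _ hf i
    rw [Finset.prod_mul_distrib (M := PowerSeries ℂ), Finset.prod_pow_eq_pow_sum, ← map_prod,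
      mul_mul_mul_comm, ← map_mul, ← pow_add, ← e1, ← sz_mul _ hf0 hm0]
    simp only [id, coeff_C_mul, coeff_X_pow, mul_ite, mul_one, mul_zero, Finset.sum_ite_eq,
      Finset.sum_ite_eq', Finset.mem_range, Finset.mem_filter, Finset.mem_Icc, conj_ofReal]
    have h3 := mul_ne_zero hf0 hm0
    by_cases hs : sz (jj h T) ((∏ i, f i) * m) ≤ J
    · rw [if_pos ⟨⟨by omega, hC.le_floor_of_sz hT _ h3 hs⟩, hs⟩, if_pos (Nat.lt_succ_of_le hs),
        if_pos (by rw [sz_mul _ hf0 hm0] at hs; omega), cm_mul _ hf0 hm0, e2,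
        Finset.prod_mul_distrib (g := fun x => (cm (al φ h T) (f x) : ℂ))]
      simp only [ha, ofReal_mul, ofReal_prod]
      ring
    · rw [if_neg fun a => hs a.2, if_neg (by omega)]

theorem tendsto_wT_complex {g : ℝ → ℂ} (hg : ContDiff ℝ 1 g) {B' : ℝ} (hB' : ∀ u, ‖g u‖ ≤ B')
    (i : ℕ) : Tendsto (fun T : ℝ => Es (jj h T) ⌊T⌋₊ (fun n =>
      ((vonMangoldt n / (√n * Real.log T) : ℝ) : ℂ) * g (Real.log n / Real.log T) *
        cm (al φ h T) n) i) atTop (𝓝 (∫ u in (0 : ℝ)..1, φ i u * (u * g u))) := by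
  have h1 := hC.tendsto_wT (reCLM.contDiff.comp hg) (fun u => (abs_re_le_norm _).trans (hB' u)) i
  have h2 := hC.tendsto_wT (imCLM.contDiff.comp hg) (fun u => (abs_im_le_norm _).trans (hB' u)) i
  have hc := (hC.cd i).continuous
  have hgc := hg.continuous
  have h3 := h1.ofReal.add (h2.ofReal.mul_const I)
  convert h3 using 2 with T
  · simp only [Es, ofReal_sum, Finset.sum_mul, ← Finset.sum_add_distrib]
    refine Finset.sum_congr rfl fun n _ => ?_
    conv_lhs => rw [← re_add_im (g _)]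
    simp only [Function.comp, reCLM_apply, imCLM_apply]
    push_cast; ring
  · rw [← intervalIntegral.integral_ofReal, ← intervalIntegral.integral_ofReal,
      ← intervalIntegral.integral_mul_const, ← intervalIntegral.integral_add
        (Continuous.intervalIntegrable (by fun_prop) _ _)
        (Continuous.intervalIntegrable (by fun_prop) _ _)]
    congr 1; funext u
    conv_lhs => rw [← re_add_im (g _)]
    simp only [Function.comp, reCLM_apply, imCLM_apply]
    push_cast; ring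

theorem tendsto_Psum_pow (hr : ∀ i : ℕ, 1 ≤ i → i ≤ J → i * ∫ u in (0 : ℝ)..1, φ i u ^ 2 * u = 1)
    {g : ℝ → ℂ} (hg : ContDiff ℝ 1 g) {B' : ℝ} (hB' : ∀ u, ‖g u‖ ≤ B') (k : ℕ) :
    Tendsto (fun T : ℝ => ∑ n ∈ Finset.range (J + 1), coeff n (genP (jj h T) ⌊T⌋₊ (fun n =>
        ((vonMangoldt n / (√n * Real.log T) : ℝ) : ℂ) * g (Real.log n / Real.log T) *
          cm (al φ h T) n) ^ k * genP (jj h T) ⌊T⌋₊ fun n => cm (al φ h T) n ^ 2)) atTop
      (𝓝 (∑ n ∈ Finset.range (J + 1), coeff n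
        ((PowerSeries.mk fun i => ∫ u in (0 : ℝ)..1, φ i u * (u * g u)) ^ k * PowerSeries.mk 1))) := by
  refine tendsto_finsetSum _ fun n hn => tendsto_coeff_mul (J := J)
    (tendsto_coeff_pow (fun i _ => ?_) k) (fun i hi => ?_) n (by have := Finset.mem_range.1 hn; omega)
  · simpa only [coeff_genP, coeff_mk] using hC.tendsto_wT_complex hg hB' i
  · have h1 : Zc 1 i = 1 := by
      clear hi
      induction i with
      | zero => rfl
      | succ n ih => rw [Zc, ih]; field_simp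
    have := (hC.tendsto_ZT hr hi).ofReal
    simpa [coeff_genP, Es, h1] using this

end Cells

end Pool.Agent.P.MP_7eacff_nt
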