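import Pool.Agent.P.MP_7eacff_nt.Kernel
import Pool.Agent.P.MP_7eacff_nt.Gen
import Pool.Agent.P.MP_7eacff_nt.CellsEx

/-!
Small gaps up to one half.
-/

open Complex Filter Topology MeasureTheory Set PowerSeries
open scoped Real

namespace Pool.Agent.P.MP_7eacff_nt

theorem exists_half {c : ℝ} (hc : 1 / 2 < c) (hc1 : c < 1) :
    ∃ (J : ℕ) (h δ B S M0 : ℝ) (φ : ℕ → ℝ → ℝ) (f : ℝ → ℂ), Cells J h δ B φ ∧
      (∀ i : ℕ, 1 ≤ i → i ≤ J → i * ∫ u in (0 : ℝ)..1, φ i u ^ 2 * u = 1) ∧ Sym f c S ∧ 0 < M0 ∧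
      ∀ m, J ≤ m → M0 ≤ (cexp (-(π * c : ℝ) * I) * ∑ k ∈ Finset.range (m + 1),
        (-I) ^ k / k.factorial * ((-1) ^ k * ∑ n ∈ Finset.range (J + 1), coeff n
          ((PowerSeries.mk fun i => ∫ u in (0 : ℝ)..1, φ i u * (u * f u)) ^ k *
            PowerSeries.mk 1))).im := by
  have hπ := Real.pi_pos
  have hc0 : 0 < c := by linarith only [hc, hc1]
  obtain ⟨L, hL, hf⟩ := exists_sym hc0
  obtain ⟨κ, hκ⟩ : ∃ κ, κ = -Real.cos (π * c) := ⟨_, rfl⟩
  have hκ0 : 0 < κ := by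
    rw [hκ, neg_pos]; exact Real.cos_neg_of_pi_div_two_lt_of_lt (by nlinarith only [hc, hπ]) (by nlinarith only [hπ, hc1])
  have hκ1 : κ ≤ 1 := by rw [hκ]; linarith only [Real.neg_one_le_cos (π * c)]
  obtain ⟨s, hs⟩ : ∃ s, s = κ / 32 / (3 * L + 1) := ⟨_, rfl⟩
  have hs0 : 0 < s := by rw [hs]; positivity
  have hs1 : s * (3 * L + 1) = κ / 32 := by rw [hs]; field_simp
  have hs2 : s ≤ 1 := by nlinarith only [hκ1, hs1, hc, hc1, hL, hs0]
  obtain ⟨f, hS, hlip, happ⟩ := hf (1 / s) ((one_le_div hs0).2 hs2)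
  obtain ⟨ρ, e, hρ, hρ', he, hcell⟩ := exists_cells one_pos (show 0 < s / 4 by positivity)
    (by linarith only [hc, hc1, hs2])
  have hρ1 : |ρ - 1| ≤ s := abs_le.2 ⟨by linarith only [hs0, hρ], by nlinarith only [hρ', hc, hs0, hc1, hL, hκ1, hρ, hs1]⟩
  have h1 := ((tendsto_add_atTop_iff_nat 1).2 he.abs).cesaro
  rw [abs_zero] at h1
  obtain ⟨J, hJ, hJ2⟩ := ((h1.eventually_le_const hs0).and (eventually_ge_atTop 2)).exists
  have hJ' : (2 : ℝ) ≤ J := by exact_mod_cast hJ2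
  rw [inv_mul_le_iff₀ (by linarith only [hc, hc1, hJ'])] at hJ
  obtain ⟨h, hh⟩ : ∃ h, h = 1 / (2 * c * J) := ⟨_, rfl⟩
  have hh0 : 0 < h := by rw [hh]; positivity
  have hhJ : h * J < 1 := by
    rw [hh, div_mul_eq_mul_div, div_lt_one (by positivity)]; nlinarith only [hc, hc1, hJ']
  obtain ⟨φ, δ, B, hC, hr, hφ0, hw⟩ := hcell J h (-1) hh0 hhJ (by simp)
  refine ⟨J, h, δ, B, _, κ * J / 8, φ, f, hC, by simpa using hr, hS, by positivity, fun m hm => ?_⟩
  have hwn : ∀ n : ℕ, ee (-(c * h)) ^ n = ee (-(c * (h * n))) := fun n => by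
    rw [ee, ee, ← Complex.exp_nat_mul]; congr 1; push_cast; ring
  have hfc := hS.cd.continuous
  have h2 := coeff_exp_close (Ω := C I * PowerSeries.mk fun i =>
    ∫ u in (0 : ℝ)..1, φ i u * (u * f u)) (by simp [← coeff_zero_eq_constantCoeff_apply, hφ0]) hm
    (norm_ee (-(c * h))) (show κ / 32 ≤ 1 / 2 by linarith only [hc, hc1, hκ1]) (by
      refine (Finset.sum_le_sum (g := fun i => L * h * (|e (i + 1)| + 2 * s)) fun i hi => ?_).trans ?_
      · have hi' : i + 1 ≤ J := Finset.mem_range.1 hi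
        have h3 := hw (fun u => I * (u * f u)) L (by fun_prop) (by simp) hlip (i + 1) (by omega) hi'
        have h4 : h * (i + 1 : ℕ) ∈ Icc (0 : ℝ) 1 :=
          ⟨by positivity, le_trans (by gcongr) hhJ.le⟩
        have h5 := happ _ h4
        have h6 := hlip (h * (i + 1 : ℕ)) 0
        rw [ofReal_zero, zero_mul, mul_zero, sub_zero, sub_zero, abs_of_nonneg h4.1] at h6
        have e1 : ∫ u in (0 : ℝ)..1, φ (i + 1) u * (I * (u * f u)) =
            I * ∫ u in (0 : ℝ)..1, φ (i + 1) u * (u * f u) := by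
          rw [← intervalIntegral.integral_const_mul]; congr 1; funext u; ring
        rw [e1] at h3
        rw [coeff_C_mul, coeff_mk, hwn, ← Nat.cast_succ]
        generalize I * (((h * (i + 1 : ℕ) : ℝ) : ℂ) * f (h * (i + 1 : ℕ))) = F at *
        generalize I * ∫ u in (0 : ℝ)..1, φ (i + 1) u * (u * f u) = w at *
        generalize 1 - ee (-(c * (h * (i + 1 : ℕ)))) = z at *
        have hi0 : (0 : ℝ) < (i + 1 : ℕ) := by positivity
        rw [show w + z / (i + 1 : ℕ) = -(((-1 : ℝ) : ℂ) * w - ρ * (1 : ℝ) * (F / (i + 1 : ℕ))) -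
          ((ρ - 1 : ℝ) * F + (F - z)) / (i + 1 : ℕ) by push_cast; ring]
        refine (norm_sub_le _ _).trans ?_
        rw [norm_neg, norm_div, Complex.norm_natCast, mul_add]
        refine add_le_add (h3.trans (by gcongr; exact le_abs_self _)) ?_
        rw [div_le_iff₀ hi0]
        refine (norm_add_le _ _).trans ?_
        rw [norm_mul, norm_real, Real.norm_eq_abs]
        rw [div_div_eq_mul_div, div_one] at h5
        nlinarith only [h5, hρ1, h6, hs0, mul_le_mul hρ1 h6 (norm_nonneg _) hs0.le]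
      · rw [← Finset.mul_sum, Finset.sum_add_distrib, Finset.sum_const, Finset.card_range,
          nsmul_eq_mul]
        calc _ ≤ L * h * (J * s + J * (2 * s)) := by gcongr
          _ = 3 * L * s * (h * J) := by ring
          _ ≤ 3 * L * s * 1 := by gcongr
          _ ≤ _ := by linarith only [hs0, hs1])
  have e2 : ∀ Ω : ℂ⟦X⟧, ∑ k ∈ Finset.range (m + 1), (-I) ^ k / k.factorial * ((-1) ^ k *
      ∑ n ∈ Finset.range (J + 1), coeff n (Ω ^ k * PowerSeries.mk 1)) =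
      ∑ n ∈ Finset.range (J + 1), coeff n ((∑ k ∈ Finset.range (m + 1),
        C ((k.factorial : ℂ)⁻¹) * (C I * Ω) ^ k) * PowerSeries.mk 1) := fun Ω => by
    simp only [Finset.sum_mul, map_sum, Finset.mul_sum]
    rw [Finset.sum_comm]
    refine Finset.sum_congr rfl fun n _ => Finset.sum_congr rfl fun k _ => ?_
    rw [mul_pow, ← map_pow, mul_assoc, mul_assoc, coeff_C_mul, coeff_C_mul, ← mul_assoc,
      div_mul_eq_mul_div, ← mul_pow]
    simp only [mul_neg, mul_one, neg_neg]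
    ring
  rw [e2]
  generalize ∑ n ∈ Finset.range (J + 1), coeff (R := ℂ) n _ = w at *
  have h3 : (cexp (-(π * c : ℝ) * I) * ∑ n ∈ Finset.range (J + 1), ee (-(c * h)) ^ n).im =
      -∑ n ∈ Finset.range (J + 1), Real.sin (π * c + n * (π / J)) := by
    rw [Finset.mul_sum, im_sum, ← Finset.sum_neg_distrib]
    refine Finset.sum_congr rfl fun n _ => ?_
    rw [hwn, ee, ← Complex.exp_add, ← Real.sin_neg, ← exp_ofReal_mul_I_im, ← add_mul,
      ← ofReal_neg, ← ofReal_add, hh]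
    congr 4; field_simp; ring
  have h4 := neg_sum_sin (π * c) (π / J) (J + 1)
  rw [show π * c + (J + 1 : ℕ) * (π / J) - π / J / 2 = π * c + π / J / 2 + π by
    push_cast; field_simp; ring, Real.cos_add_pi, Real.cos_add, Real.cos_sub, ← h3] at h4
  have h5 : π / J / 2 ≤ 1 := by
    rw [div_div, div_le_one (by positivity)]; linarith only [hJ', Real.pi_le_four]
  have h6 : 0 < π / J / 2 := by positivity
  have h7 := Real.one_sub_sq_div_two_le_cos (x := π / J / 2)
  have h8 := Real.sin_le h6.le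
  have h9 := Real.sin_pos_of_pos_of_lt_pi h6 (by linarith only [hc, hc1, h5, Real.pi_gt_three])
  have h10 := abs_le.1 ((abs_im_le_norm (cexp (-(π * c : ℝ) * I) *
    (w - ∑ n ∈ Finset.range (J + 1), ee (-(c * h)) ^ n))).trans (le_of_eq_of_le (by
      rw [norm_mul, ← ofReal_neg, norm_exp_ofReal_mul_I, one_mul]) h2))
  rw [mul_sub, sub_im] at h10
  generalize (cexp (-(π * c : ℝ) * I) * ∑ n ∈ Finset.range (J + 1), ee (-(c * h)) ^ n).im = y at *
  have h11 : κ ≤ 2 * Real.sin (π / J / 2) * y := by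
    rw [h4]; nlinarith only [hκ, hc, hc1, h7, hκ0, h5, h6, mul_le_mul h5 h5 h6.le zero_le_one]
  have h12 : 0 < y := by by_contra h; nlinarith only [hs1, h11, hc, hs0, hc1, hL, h9, h]
  have h13 : κ * J ≤ 4 * y := by
    have : π / J / 2 * J ≤ 2 := by field_simp; linarith only [Real.pi_le_four]
    calc _ ≤ 2 * (π / J / 2) * y * J := by gcongr; exact h11.trans (by gcongr)
      _ = 2 * y * (π / J / 2 * J) := by ring
      _ ≤ 2 * y * 2 := by gcongr
      _ = _ := by ring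
  nlinarith only [hs1, h10, h13, hc, hs0, hc1, hL, hκ0, hJ', h10.1]

theorem im_sum_le (M : ℝ) {r : ℝ} (hr : 0 < r) : ∀ᶠ m : ℕ in atTop, ∀ (z : ℂ) (b y : ℝ), 0 ≤ y →
    -Real.sin (z.re + b) ≤ y →
    (cexp (-b * I) * ∑ k ∈ Finset.range (m + 1), (-I) ^ k / k.factorial * z ^ k).im ≤
      Real.exp M * y + r + if M < ‖z‖ then
        ∑ k ∈ Finset.range (m + 1), ‖z‖ ^ k / k.factorial else 0 := by
  filter_upwards [((tendsto_add_atTop_iff_nat 1).2
    (FloorSemiring.tendsto_pow_div_factorial_atTop M)).eventually_le_const (half_pos hr),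
    tendsto_natCast_atTop_atTop.eventually_ge_atTop (2 * M)] with m h1 h2 z b y hy h
  have hb : ‖cexp (-b * I)‖ = 1 := by rw [← ofReal_neg, norm_exp_ofReal_mul_I]
  split_ifs with hM
  · refine le_add_of_nonneg_of_le (by positivity) ((im_le_norm _).trans ?_)
    rw [norm_mul, hb, one_mul]
    exact (norm_sum_le _ _).trans_eq (Finset.sum_congr rfl fun k _ => by simp [div_mul_eq_mul_div])
  · rw [not_lt] at hM
    have h3 := Complex.exp_bound' (x := -I * z) (n := m + 1) (by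
      rw [div_le_iff₀ (by positivity)]; simp; linarith only [h2, hM])
    have e : ∑ k ∈ Finset.range (m + 1), (-I) ^ k / k.factorial * z ^ k =
        ∑ k ∈ Finset.range (m + 1), (-I * z) ^ k / k.factorial :=
      Finset.sum_congr rfl fun k _ => by rw [mul_pow]; ring
    rw [e]
    generalize ∑ k ∈ Finset.range (m + 1), (-I * z) ^ k / k.factorial = w at *
    have h4 := abs_le.1 ((abs_im_le_norm (cexp (-b * I) * (cexp (-I * z) - w))).trans
      (show _ ≤ r by
        rw [norm_mul, hb, one_mul]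
        refine h3.trans (le_trans ?_ (show M ^ (m + 1) / (m + 1).factorial * 2 ≤ r by linarith only [h1]))
        gcongr; simpa))
    rw [mul_sub, sub_im, ← Complex.exp_add, exp_im] at h4
    generalize (cexp (-b * I) * w).im = x at *
    simp only [add_re, add_im, mul_re, mul_im, neg_re, neg_im, ofReal_re, ofReal_im, I_re, I_im,
      mul_zero, mul_one, neg_zero, zero_mul, sub_zero, zero_add, add_zero, neg_mul, one_mul,
      zero_sub, neg_neg] at h4
    rw [← neg_add, Real.sin_neg, add_comm b] at h4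
    have h5 : Real.exp z.im * -Real.sin (z.re + b) ≤ Real.exp M * y :=
      (mul_le_mul_of_nonneg_left h (Real.exp_pos _).le).trans
        (by gcongr; exact (im_le_norm z).trans hM)
    linarith only [h4, h5, h4.1]

theorem amgm (a F : ℝ) {n : ℝ} (hn : 0 < n) : a * F ≤ n⁻¹ * a ^ 2 + n * F ^ 2 := by
  rw [inv_mul_eq_div, div_add' _ _ _ hn.ne', le_div_iff₀ hn]
  nlinarith only [sq_nonneg (a - n * F), sq_nonneg a, sq_nonneg (n * F)]

theorem pt_mem {w F x r y q l ν p : ℝ} (h : w ≤ x * 1 + r + y) (hF : 0 ≤ F) (hr : 0 ≤ r)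
    (hl : 0 < l) (hν : 0 < ν) (hp : 0 ≤ p) :
    w * F ≤ l + ((x ^ 2 / l + 4 * ν) * F ^ 2 + ν⁻¹ * (p + x ^ 2 * q ^ 2 + y ^ 2 + (2 * r) ^ 2)) := by
  have a4 : x * F ≤ l + x ^ 2 / l * F ^ 2 := by
    simpa [sq, hl.ne', div_eq_mul_inv, mul_assoc, mul_comm, mul_left_comm, add_comm] using
      amgm (x * F) 1 hl
  have p1 : 0 ≤ ν⁻¹ * p := by positivity
  have p3 : 0 ≤ ν * F ^ 2 := by positivity
  have p4 : 0 ≤ ν⁻¹ * (x ^ 2 * q ^ 2) := by positivity
  linarith only [a4, p1, p3, p4, h, hF, hν, hr, mul_le_mul_of_nonneg_right h hF, amgm y F hν, amgm (2 * r) F hν, mul_nonneg hr hF]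

theorem pt_notMem {w F x r y q l ν p s : ℝ} (h : w ≤ x * (s + r / x + q) + r + y) (hF : 0 ≤ F)
    (hx : 0 < x) (hl : 0 < l) (hν : 0 < ν) (hp : (x * s) ^ 2 ≤ p) :
    w * F ≤ 0 + ((x ^ 2 / l + 4 * ν) * F ^ 2 + ν⁻¹ * (p + x ^ 2 * q ^ 2 + y ^ 2 + (2 * r) ^ 2)) := by
  have p2 : 0 ≤ x ^ 2 / l * F ^ 2 := by positivity
  rw [mul_add, mul_add, mul_div_cancel₀ _ hx.ne'] at h
  linarith only [p2, h, hF, hν, hp, mul_le_mul_of_nonneg_right h hF, amgm y F hν, amgm (2 * r) F hν, amgm (x * q) F hν,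
    amgm (x * s) F hν, mul_le_mul_of_nonneg_left hp (inv_pos.2 hν).le]

theorem pt_far {x K A R s : ℝ} (hx : 0 ≤ x) (hK : 0 ≤ K) (hA : 1 ≤ A) (hR : 1 ≤ R) (hs : 0 ≤ s) :
    (x * (K / R ^ 2 * s)) ^ 2 ≤ 2 * (x * K * A) ^ 2 / R * (1 + max (s / A - R) 0 ^ 2) := by
  have h7 := le_max_left (s / A - R) 0
  have h8 := le_max_right (s / A - R) 0
  generalize max (s / A - R) 0 = Y at *
  rw [sub_le_iff_le_add, div_le_iff₀ (by linarith only [hA])] at h7
  calc _ ≤ (x * (K / R ^ 2 * ((Y + R) * A))) ^ 2 := by gcongr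
    _ = 2 * (x * K * A) ^ 2 / R * ((Y + R) ^ 2 / (2 * R ^ 3)) := by field_simp
    _ ≤ _ := by
      gcongr
      rw [div_le_iff₀ (by positivity)]
      have h11 : R ^ 2 ≤ R ^ 3 := pow_le_pow_right₀ hR (by norm_num)
      have h12 : 1 ≤ R ^ 3 := one_le_pow₀ hR
      nlinarith only [h11, h12, sq_nonneg (Y - R), mul_le_mul_of_nonneg_left h12 (sq_nonneg Y)]

theorem im_sub_le {m : ℕ} {ε : ℝ} {w : ℂ} {a a' : ℕ → ℂ} (hw : ‖w‖ = 1)
    (ha : ∀ k ∈ Finset.range (m + 1), ‖a k - a' k‖ ≤ ε / (m + 1)) :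
    (w * ∑ k ∈ Finset.range (m + 1), (-I) ^ k / k.factorial * a' k).im - ε ≤
      (w * ∑ k ∈ Finset.range (m + 1), (-I) ^ k / k.factorial * a k).im := by
  have h5 : ‖w * ∑ k ∈ Finset.range (m + 1), (-I) ^ k / k.factorial * (a k - a' k)‖ ≤ ε := by
    rw [norm_mul, hw, one_mul]
    refine (norm_sum_le _ _).trans ((Finset.sum_le_card_nsmul _ _ (ε / (m + 1)) fun k hk => ?_).trans
      (by simp; field_simp; rfl))
    rw [norm_mul]
    refine (mul_le_of_le_one_left (norm_nonneg _) ?_).trans (ha k hk)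
    simpa using inv_le_one_of_one_le₀ (show (1 : ℝ) ≤ k.factorial by exact_mod_cast k.factorial_pos)
  have h6 := abs_le.1 ((abs_im_le_norm _).trans h5)
  simp only [mul_sub, Finset.sum_sub_distrib, sub_im] at h6
  linarith only [h6, h6.1]

end Pool.Agent.P.MP_7eacff_nt
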