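import Pool.Agent.P.MP_7eacff_nt.Kernel
import Pool.Agent.P.MP_7eacff_nt.Dom
import Pool.Agent.P.MP_7eacff_nt.Gen

/-!
Mean values of powers of the one-sided statistic against the resonator.
-/

open Complex Filter Topology MeasureTheory Set PowerSeries
open scoped Real

namespace Pool.Agent.P.MP_7eacff_nt

/-- Crude polynomial growth. -/
def Gro (μ : Measure ℝ) (F : ℝ → ℝ → ℂ) : Prop :=
  (∀ T, Measurable (F T)) ∧
    ∃ (C : ℝ) (k : ℕ), 0 ≤ C ∧ ∀ᶠ T in atTop, ∀ t, ‖F T t‖ ≤ C * (T * (1 + G μ t)) ^ k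

theorem one_le_mul_G (μ : Measure ℝ) {T : ℝ} (hT : 1 ≤ T) (t : ℝ) : 1 ≤ T * (1 + G μ t) := by
  nlinarith only [hT, G_nonneg μ t]

namespace Gro

variable {μ P : Measure ℝ} {F F' : ℝ → ℝ → ℂ}

theorem of_le (h : Gro μ F) (hm : ∀ T, Measurable (F' T)) (h' : ∀ T t, ‖F' T t‖ ≤ ‖F T t‖) :
    Gro μ F' := by
  obtain ⟨-, C, k, hC, h⟩ := h
  exact ⟨hm, C, k, hC, h.mono fun T hT t => (h' T t).trans (hT t)⟩

theorem const (a : ℂ) : Gro μ fun _ _ => a :=
  ⟨fun _ => measurable_const, ‖a‖, 0, norm_nonneg _, Eventually.of_forall fun T t => by simp⟩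

theorem of_lin (hm : ∀ T, Measurable (F T)) {C : ℝ} (hC : 0 ≤ C)
    (h : ∀ᶠ T in atTop, ∀ t, ‖F T t‖ ≤ C * T) : Gro μ F := by
  refine ⟨hm, C, 1, hC, ?_⟩
  filter_upwards [h, eventually_ge_atTop 0] with T h hT t
  refine (h t).trans (mul_le_mul_of_nonneg_left ?_ hC)
  nlinarith only [hT, G_nonneg μ t]

theorem add (h : Gro μ F) (h' : Gro μ F') : Gro μ fun T t => F T t + F' T t := by
  obtain ⟨m, C, k, hC, h⟩ := h
  obtain ⟨m', C', k', hC', h'⟩ := h'
  refine ⟨fun T => (m T).add (m' T), C + C', k + k', by positivity, ?_⟩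
  filter_upwards [h, h', eventually_ge_atTop 1] with T h h' hT t
  have := one_le_mul_G μ hT t
  rw [add_mul]
  refine (norm_add_le _ _).trans (add_le_add ((h t).trans ?_) ((h' t).trans ?_)) <;> gcongr <;>
    omega

theorem mul (h : Gro μ F) (h' : Gro μ F') : Gro μ fun T t => F T t * F' T t := by
  obtain ⟨m, C, k, hC, h⟩ := h
  obtain ⟨m', C', k', hC', h'⟩ := h'
  refine ⟨fun T => (m T).mul (m' T), C * C', k + k', by positivity, ?_⟩
  filter_upwards [h, h'] with T h h' t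
  rw [norm_mul, pow_add, mul_mul_mul_comm]
  exact mul_le_mul (h t) (h' t) (norm_nonneg _) ((norm_nonneg _).trans (h t))

theorem pow (h : Gro μ F) (j : ℕ) : Gro μ fun T t => F T t ^ j := by
  induction j with
  | zero => simpa using const 1
  | succ j ih => simpa only [pow_succ] using ih.mul h

theorem sum {ι : Type*} (s : Finset ι) {F : ι → ℝ → ℝ → ℂ} (h : ∀ i ∈ s, Gro μ (F i)) :
    Gro μ fun T t => ∑ i ∈ s, F i T t := by
  classical
  induction s using Finset.induction_on with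
  | empty => simpa using const 0
  | insert a s ha ih =>
    simp only [Finset.sum_insert ha]
    exact (h a (Finset.mem_insert_self _ _)).add (ih fun i hi => h i (Finset.mem_insert_of_mem hi))

theorem bound (h : Gro μ F) (hμ : ZData μ) (hP : Win P) {θ ε : ℝ} (hθ : θ < 1) (hε : 0 < ε) :
    ∀ᶠ T in atTop, ∀ X ∈ Icc T (2 * T), Integrable (fun v => F T (X + T ^ θ * v)) P ∧
      ∃ C, 0 ≤ C ∧ (∀ v, ‖F T (X + T ^ θ * v)‖ ≤ C * (1 + |v|)) ∧ C * ∫ v, far θ T v ∂P ≤ ε := by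
  obtain ⟨m, C, k, hC, h⟩ := h
  obtain ⟨C', hC', hG⟩ := hμ.G_pow_le k
  filter_upwards [h, eventually_ge_atTop 1,
    (hP.tendsto_far hθ (k + 1) (C * C')).eventually_le_const hε] with T h hT hf X hX
  have h1 : ∀ v, ‖F T (X + T ^ θ * v)‖ ≤ C * C' * T ^ (k + 1) * (1 + |v|) := fun v => by
    have := hG T X (T ^ θ) v hT (by rw [abs_of_nonneg (by linarith [hX.1])]; exact hX.2) (by
      rw [abs_of_nonneg (by positivity)]
      simpa using Real.rpow_le_rpow_of_exponent_le hT hθ.le)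
    refine (h _).trans ?_
    rw [mul_pow]
    calc _ ≤ C * (T ^ k * (C' * T * (1 + |v|))) := by gcongr
      _ = _ := by ring
  exact ⟨(hP.integrable_lin.const_mul _).mono'
    ((m T).comp (show Measurable fun v => X + T ^ θ * v by fun_prop)).aestronglyMeasurable
    (ae_of_all _ h1), _, by positivity, h1, hf⟩

theorem integrable (h : Gro μ F) (hμ : ZData μ) (hP : Win P) {θ : ℝ} (hθ : θ < 1) :
    ∀ᶠ T in atTop, ∀ X ∈ Icc T (2 * T), Integrable (fun v => F T (X + T ^ θ * v)) P :=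
  (h.bound hμ hP hθ one_pos).mono fun _ h X hX => (h X hX).1

theorem integral_le {Ψ : ℝ → ℝ → ℝ} (h : Gro μ fun T t => Ψ T t) (hμ : ZData μ) (hP : Win P)
    {θ ε : ℝ} (hθ : θ < 1) (hε : 0 < ε) : ∀ᶠ T in atTop, ∀ X ∈ Icc T (2 * T),
      ∀ (E : Set ℝ) (l τ : ℝ) (F : ℝ → ℝ), MeasurableSet E → 0 ≤ l → Dom P θ T F τ →
        (∀ t ∈ Icc (T / 2) (3 * T), Ψ T t ≤ E.indicator (fun _ => l) t + F t) →
        ∫ v, Ψ T (X + T ^ θ * v) ∂P ≤ l * P.real {v | X + T ^ θ * v ∈ E} + τ + ε := by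
  filter_upwards [h.bound hμ hP hθ hε, eventually_gt_atTop 0] with T h hT X hX E l τ F hE hl hD h1
  obtain ⟨hi, C, hC, h2, h3⟩ := h X hX
  refine (hD.integral_le hP hT hX hE hl hC (by simpa using hi.re) h1 fun v => ?_).trans (by linarith)
  exact (le_abs_self _).trans (by simpa using h2 v)

end Gro

theorem Adm.norm_II_le {f : ℝ → ℂ} {R : ℝ} (h : Adm f R) {μ : Measure ℝ} (hμ : ZData μ) :
    ∃ K, 0 ≤ K ∧ ∀ T, 2 * π ≤ Real.log T → ∀ t, ‖II μ f T t‖ ≤ K * Sd μ T t := by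
  obtain ⟨K, hK, hd⟩ := h.decay
  exact ⟨K, hK, fun T hL t => hμ.norm_stat_le hd hL t⟩

theorem Adm.gro {f : ℝ → ℂ} {R : ℝ} (h : Adm f R) {μ : Measure ℝ} [SFinite μ] (hμ : ZData μ) :
    Gro μ (II μ f) := by
  obtain ⟨K, hK, hd⟩ := h.norm_II_le hμ
  refine ⟨h.measurable μ, K, 1, hK, ?_⟩
  filter_upwards [Real.tendsto_log_atTop.eventually_ge_atTop (2 * π), eventually_ge_atTop 1]
    with T hL hT t
  refine (hd T hL t).trans (mul_le_mul_of_nonneg_left ((hμ.Sd_le_G hL t).trans ?_) hK)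
  nlinarith only [hT, G_nonneg μ t]

theorem Ann.integral_sq {P : Measure ℝ} {F : ℝ → ℂ} {l : ℝ} (h : Ann P F l) (hP : Win P)
    (s : Finset ℕ) (a : ℕ → ℂ) {X T0 : ℝ} (hT0 : 0 ≤ T0)
    (hm : ∀ m ∈ s, Real.log m / (2 * π) * T0 ≤ l - 1) :
    ∫ v, F v * ((‖∑ n ∈ s, a n * ch n (X + T0 * v)‖ ^ 2 : ℝ) : ℂ) ∂P = 0 := by
  have e : ∀ v, F v * ((‖∑ n ∈ s, a n * ch n (X + T0 * v)‖ ^ 2 : ℝ) : ℂ) =
      ∑ p ∈ s ×ˢ s, a p.1 * (starRingEnd ℂ) (a p.2) *
        (F v * (ch p.1 (X + T0 * v) * ch p.2 (-(X + T0 * v)))) := fun v => by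
    rw [ofReal_pow, ← Complex.mul_conj', map_sum, Finset.sum_mul_sum, ← Finset.sum_product',
      Finset.mul_sum]
    exact Finset.sum_congr rfl fun p _ => by rw [map_mul, conj_ch]; ring
  simp only [e]
  rw [integral_finsetSum _ fun p _ => ((h.integrable hP).mul_bdd (c := 1) (by fun_prop)
    (ae_of_all _ fun v => by simp)).const_mul _]
  exact Finset.sum_eq_zero fun p hp => by
    rw [integral_const_mul, h.integral_ch hT0 (hm _ (Finset.mem_product.1 hp).2), mul_zero]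

theorem norm_pow_sub_pow_le' {a b : ℂ} {Y : ℝ} (hY : 1 ≤ Y) (ha : ‖a‖ ≤ Y) (hb : ‖b‖ ≤ Y) (j : ℕ) :
    ‖a ^ j - b ^ j‖ ≤ j * ‖a - b‖ * Y ^ j := by
  induction j with
  | zero => simp
  | succ j ih =>
    rw [show a ^ (j + 1) - b ^ (j + 1) = (a ^ j - b ^ j) * a + (a - b) * b ^ j by ring]
    refine (norm_add_le _ _).trans ?_
    rw [norm_mul, norm_mul, norm_pow]
    calc _ ≤ j * ‖a - b‖ * Y ^ j * Y + ‖a - b‖ * Y ^ (j + 1) := by
          gcongr
          exact (pow_le_pow_left₀ (norm_nonneg _) hb j).trans (pow_le_pow_right₀ hY j.le_succ)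
      _ = _ := by push_cast; ring

namespace Cells

variable {J : ℕ} {h δ B : ℝ} {φ : ℕ → ℝ → ℝ} (hC : Cells J h δ B φ)
include hC

theorem gro_sq (μ : Measure ℝ) : Gro μ fun T t => ((‖res J 1 φ h T t‖ ^ 2 : ℝ) : ℂ) :=
  ((Gro.of_lin (fun T => (continuous_res J 1 φ h T).measurable)
    (Finset.sum_nonneg fun _ _ => abs_nonneg _) (hC.norm_res_crude 1)).pow 2).of_le
    (fun T => Continuous.measurable (by fun_prop)) fun T t => by simp

theorem mean_II_pow {μ P : Measure ℝ} [SFinite μ] (hμ : ZData μ) (hP : Win P)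
    (hr : ∀ i : ℕ, 1 ≤ i → i ≤ J → i * ∫ u in (0 : ℝ)..1, φ i u ^ 2 * u = 1) {g : ℝ → ℂ} {R θ : ℝ}
    (hg : Adm g R) (hθ : h * J < θ) (hθ1 : θ < 1) (j : ℕ) {ε : ℝ} (hε : 0 < ε) :
    ∀ᶠ T in atTop, ∀ X ∈ Icc T (2 * T),
      ‖∫ v, II μ g T (X + T ^ θ * v) ^ j * ((‖res J 1 φ h T (X + T ^ θ * v)‖ ^ 2 : ℝ) : ℂ) ∂P -
        (-1) ^ j * ∑ n ∈ Finset.range (J + 1), coeff n ((PowerSeries.mk fun i =>
          ∫ u in (0 : ℝ)..1, φ i u * (u * g u)) ^ j * PowerSeries.mk 1)‖ ≤ ε := by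
  have := hP.prob
  have hJ0 : 0 ≤ h * J := by have := hC.hpos; positivity
  have hθ0 : 0 < θ := hJ0.trans_lt hθ
  obtain ⟨χ, hχ⟩ := exists_cut hθ0 (show θ < (1 + θ) / 2 by linarith only [hθ1])
  have hl := hg.lo hχ (by linarith only [hθ, hθ1, hJ0])
  have hh := hχ.adm_hi hg.pos hg.cd hg.zero
  obtain ⟨K1, hK1, hd1⟩ := hl.decay
  obtain ⟨K2, hK2, hd2⟩ := hh.decay
  obtain ⟨B', hB', hb'⟩ := exists_bump hl.cd hl.zero
  have hlim := hC.tendsto_Psum_pow hr (hl.cd.of_le (by norm_num)) hb'.b0 j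
  have e1 : (fun i => ∫ u in (0 : ℝ)..1, φ i u * (u * lo g χ u)) =
      fun i => ∫ u in (0 : ℝ)..1, φ i u * (u * g u) := by
    funext i; congr 1; funext u
    by_cases h0 : φ i u = 0
    · simp [h0]
    · obtain ⟨_, h2, h3, h4⟩ := hC.supp _ _ h0
      have h5 : (i : ℝ) ≤ J := by exact_mod_cast h4
      rw [lo, hχ.one u (by rw [abs_of_pos (by linarith [hC.δpos])]; nlinarith [hC.hpos]), ofReal_one,
        mul_one]
  rw [e1] at hlim
  have e2 : (fun u => pw (lo g χ) 0 u + pw (hi g χ) 0 u) = pw g 0 := by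
    funext u; simp only [pw]; split_ifs <;> simp [lo_add_hi]
  obtain ⟨K, hK, hII⟩ := hl.norm_II_le hμ
  obtain ⟨Kr, hKr, hres⟩ := hC.norm_res_le_Sd hμ 1
  obtain ⟨KD, hKD, hD⟩ := hμ.dom_Sd hP hθ0 hθ1 (j + J * 2)
  have gP : Gro μ fun T t => (-Psum (lo g χ) T t) ^ j := (Gro.of_lin
    (fun T => (continuous_Psum _ T).neg.measurable) hB' ((eventually_gt_atTop 1).mono
      fun T hT t => by simpa using norm_Psum_le hb'.b0 hT t)).pow j
  have gR := hC.gro_sq μ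
  have g1 := ((hg.gro hμ).pow j).mul gR
  have g2 := ((hl.gro hμ).pow j).mul gR
  have g3 := gP.mul gR
  have g4 := g2.add ((Gro.const (-1)).mul g3)
  have g5 := g4.of_le (F' := fun T t => (‖II μ (lo g χ) T t ^ j * ((‖res J 1 φ h T t‖ ^ 2 : ℝ) : ℂ) +
      -1 * ((-Psum (lo g χ) T t) ^ j * ((‖res J 1 φ h T t‖ ^ 2 : ℝ) : ℂ))‖ : ℝ))
    (fun T => measurable_ofReal.comp (g4.1 T).norm) fun T t => by rw [norm_real, norm_norm]
  obtain ⟨A, hA⟩ : ∃ A, A = j * (K + 1) ^ j * Kr ^ 2 := ⟨_, rfl⟩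
  have hA0 : 0 ≤ A := by rw [hA]; positivity
  obtain ⟨ε', hε'⟩ : ∃ ε', ε' = min 1 (ε / 3 / ((A + 1) * KD)) := ⟨_, rfl⟩
  have hε0 : 0 < ε' := by rw [hε']; positivity
  filter_upwards [eventually_gt_atTop 1, Real.tendsto_log_atTop.eventually_ge_atTop (2 * π),
    eventually_window hJ0 hθ, (tendsto_rpow_atTop hθ0).eventually_ge_atTop (1 / (θ - h * J)),
    hl.loc hμ (by linarith only [hθ1]) hε0, hres, hD, g1.integrable hμ hP hθ1, g2.integrable hμ hP hθ1,
    g3.integrable hμ hP hθ1, g5.integral_le hμ hP hθ1 (show 0 < ε / 3 by positivity),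
    Metric.tendsto_nhds.1 hlim _ (show 0 < ε / 3 by positivity)]
    with T hT hL hW hW2 hloc hres hD i1 i2 i3 hle hcl X hX
  have hT0 : 0 < T ^ θ := by positivity
  have hann := (hμ.ann_pow_sub hP hl.integrable hh.integrable (K := K1 + K2) hθ0.le
    (fun u hu => by simp [pw, not_le.2 hu]) (fun u hu => by
      simp only [pw]; split_ifs with h0
      · simp [hi, hχ.one u (by rw [abs_of_nonneg h0]; exact hu.le)]
      · rfl)
    (fun y => (hd1 y).trans (by gcongr; linarith only [hK2])) (fun y => (hd2 y).trans (by gcongr; linarith only [hK1]))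
    hL X hT0.le j).integral_sq hP ((Finset.Icc 1 ⌊T⌋₊).filter fun n => sz (jj h T) n ≤ J)
    (fun n => (((1 : ℕ → ℝ) (sz (jj h T) n) * cm (al φ h T) n : ℝ) : ℂ)) (X := X) hT0.le
    fun m hm => by
      simp only [Finset.mem_filter, Finset.mem_Icc] at hm
      have h1 := Real.log_le_log (by exact_mod_cast hm.1.1) (hC.le_rpow_of_sz hT (by omega) hm.2)
      rw [Real.log_rpow (by linarith only [hθ, hθ1, hJ0, hT])] at h1
      have h2 := one_le_lam hL
      rw [div_le_iff₀ (by linarith only [hθ])] at hW2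
      have h3 : Real.log m / (2 * π) * T ^ θ ≤ h * J * Real.log T / (2 * π) * T ^ θ := by gcongr
      rw [mul_div_assoc] at h3
      nlinarith only [hW2, h2, h3, hθ, hθ1, hJ0]
  rw [e2] at hann
  simp only [sub_mul] at hann
  have hann' := (integral_sub (i1 X hX) (i2 X hX)).symm.trans hann
  have h1 := hle X hX ∅ 0 _ _ MeasurableSet.empty le_rfl
    (hD.const_mul (show 0 ≤ ε' * A by positivity)) fun t ht => by
      have h2 := hloc t ht
      have h3 := hII T hL t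
      have h4 := Sd_nonneg μ T t
      have h5 : ε' ≤ 1 := by rw [hε']; exact min_le_left _ _
      have h6 := norm_sub_le (II μ (lo g χ) T t) (II μ (lo g χ) T t + Psum (lo g χ) T t)
      rw [sub_add_cancel_left] at h6
      have h7 := norm_pow_sub_pow_le' (Y := (K + 1) * (1 + Sd μ T t)) (a := II μ (lo g χ) T t)
        (b := -Psum (lo g χ) T t) (by nlinarith only [hK, h4, hθ, hθ1, hJ0]) (by nlinarith only [hθ, hθ1, hJ0, hK, h3, h4]) (by nlinarith only [hK, h2, h3, h4, h5, h6]) j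
      rw [indicator_empty, zero_add, neg_one_mul, ← sub_eq_add_neg, ← sub_mul, norm_mul, norm_real,
        norm_pow, norm_norm]
      rw [sub_neg_eq_add] at h7
      calc _ ≤ j * ε' * ((K + 1) * (1 + Sd μ T t)) ^ j * (Kr * (1 + Sd μ T t) ^ J) ^ 2 := by
            gcongr
            · exact h7.trans (by gcongr)
            · exact hres t ht
        _ = _ := by rw [hA, mul_pow, mul_pow, pow_add, pow_mul]; ring
  have h2 : ε' * A * KD ≤ ε / 3 := by
    have : ε' ≤ ε / 3 / ((A + 1) * KD) := by rw [hε']; exact min_le_right _ _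
    rw [le_div_iff₀ (by positivity)] at this
    nlinarith only [this, hε0, hKD, mul_pos hε0 hKD]
  have h3 := (norm_integral_le_integral_norm _).trans h1
  rw [integral_add (i2 X hX) ((i3 X hX).const_mul _), integral_const_mul] at h3
  have h4 : ∫ v, (-Psum (lo g χ) T (X + T ^ θ * v)) ^ j *
      ((‖res J 1 φ h T (X + T ^ θ * v)‖ ^ 2 : ℝ) : ℂ) ∂P = (-1) ^ j *
      ∫ v, Psum (lo g χ) T (X + T ^ θ * v) ^ j *
        ((‖res J 1 φ h T (X + T ^ θ * v)‖ ^ 2 : ℝ) : ℂ) ∂P := by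
    rw [← integral_const_mul]
    congr 1; funext v; rw [neg_pow, mul_assoc]
  rw [h4, hC.mean_Psum_pow hP (lo g χ) hT hW X j, neg_one_mul, ← sub_eq_add_neg, ← sub_eq_zero.1 hann'] at h3
  refine (norm_sub_le_norm_sub_add_norm_sub _ _ _).trans ((add_le_add h3 ?_).trans
    (show _ + ε / 3 ≤ _ by linarith only [h2]))
  rw [← mul_sub, norm_mul, norm_pow, norm_neg, norm_one, one_pow, one_mul, ← dist_eq_norm]
  exact hcl.le

end Cells

end Pool.Agent.P.MP_7eacff_nt
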