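import Pool.Agent.P.MP_7eacff_nt.Kernel
import Pool.Agent.P.MP_7eacff_nt.Dom

/-!
The real part and the tails of the one-sided statistic.
-/

open Complex Filter Topology MeasureTheory Set
open scoped Real

namespace Pool.Agent.P.MP_7eacff_nt

/-- Near `t`, closed windows of normalised length `c` hold at most one point. -/
def Sep (μ : Measure ℝ) (c R T t : ℝ) : Prop :=
  ∀ x, μ {y | |Real.log T / (2 * π) * (y - t)| ≤ R ∧
    Real.log T / (2 * π) * (y - t) ∈ Icc x (x + c)} ≤ 1

theorem neg_sin_pi_le {ω e x : ℝ} (h0 : 0 ≤ ω) (h1 : ω ≤ 1 + x) (hx : 0 ≤ x) :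
    -Real.sin (π * ω + e) ≤ π * x + |e| := by
  have hπ := Real.pi_pos
  rcases le_total ω 1 with h | h
  · have h2 := Real.sin_nonneg_of_nonneg_of_le_pi (show 0 ≤ π * ω by positivity) (by nlinarith only [hπ, h])
    have h3 := abs_le.1 (Real.abs_sin_sub_sin_le (π * ω + e) (π * ω))
    rw [add_sub_cancel_left] at h3
    nlinarith only [h2, h3, hx, hπ]
  · have h3 := (Real.abs_sin_sub_sin_le (π * ω + e) π).trans
      (show _ ≤ π * x + |e| from abs_le.2 ⟨by nlinarith only [h1, hπ, h, neg_abs_le e], by nlinarith only [h1, hπ, le_abs_self e]⟩)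
    rw [Real.sin_pi, sub_zero] at h3
    linarith [neg_abs_le (Real.sin (π * ω + e))]

theorem conj_iF (g : ℝ → ℂ) (y : ℝ) :
    (starRingEnd ℂ) (iF g y) = iF (fun u => (starRingEnd ℂ) (g (-u))) y := by
  rw [iF, iF, ← integral_conj, ← integral_neg_eq_self]
  simp [conj_ee]

theorem Sep.near_le {μ : Measure ℝ} [SFinite μ] {c R T t : ℝ} (h : Sep μ c R T t) {W : ℝ → ℝ}
    (h0 : ∀ x, 0 ≤ W x) (hc : Continuous W) (hi : Integrable W) (h1 : ∫ x, W x = 1)
    (hm : Measurable fun y => ∫ x in Icc (y - c) y, W x) :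
    ∫ y in {y | |Real.log T / (2 * π) * (y - t)| ≤ R}, (∫ x in Icc (Real.log T / (2 * π) * (y - t) - c)
      (Real.log T / (2 * π) * (y - t)), W x) ∂μ ≤ 1 := by
  unfold Sep at h
  generalize Real.log T / (2 * π) = l at *
  have hm' : Measurable fun y => ∫ x in Icc (l * (y - t) - c) (l * (y - t)), W x :=
    hm.comp (show Measurable fun y => l * (y - t) by fun_prop)
  rw [integral_eq_lintegral_of_nonneg_ae (ae_of_all _ fun y => integral_nonneg h0)
    hm'.aestronglyMeasurable]
  refine ENNReal.toReal_le_of_le_ofReal zero_le_one ?_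
  have e : ∀ y, ENNReal.ofReal (∫ x in Icc (l * (y - t) - c) (l * (y - t)), W x) =
      ∫⁻ x, {p : ℝ × ℝ | l * (p.1 - t) ∈ Icc p.2 (p.2 + c)}.indicator
        (fun p => ENNReal.ofReal (W p.2)) (y, x) := fun y => by
    rw [ofReal_integral_eq_lintegral_ofReal hi.integrableOn (ae_of_all _ h0),
      ← lintegral_indicator measurableSet_Icc]
    congr 1; funext x
    simp only [indicator, mem_Icc, mem_ofPred_eq, sub_le_iff_le_add, and_comm]
  simp only [e]
  have hs : MeasurableSet {p : ℝ × ℝ | l * (p.1 - t) ∈ Icc p.2 (p.2 + c)} := by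
    simp only [mem_Icc]; measurability
  rw [lintegral_lintegral_swap (f := fun y x => {p : ℝ × ℝ | l * (p.1 - t) ∈ Icc p.2 (p.2 + c)}.indicator
        (fun p => ENNReal.ofReal (W p.2)) (y, x))
      (Measurable.indicator (by fun_prop) hs).aemeasurable, ← h1,
    ofReal_integral_eq_lintegral_ofReal hi (ae_of_all _ h0)]
  refine lintegral_mono fun x => ?_
  have hs' : MeasurableSet {y | l * (y - t) ∈ Icc x (x + c)} :=
    measurableSet_Icc.preimage (show Measurable fun y => l * (y - t) by fun_prop)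
  have := lintegral_indicator_const (μ := μ.restrict {y | |l * (y - t)| ≤ R}) hs'
    (ENNReal.ofReal (W x))
  refine this.le.trans ?_
  rw [Measure.restrict_apply hs', inter_comm]
  exact mul_le_of_le_one_right' (h x)

theorem Sym.neg_sin_le {f : ℝ → ℂ} {c S : ℝ} (h : Sym f c S) {μ : Measure ℝ} [SFinite μ]
    (hμ : ZData μ) : ∃ K, 0 ≤ K ∧ ∀ χ a η, Cut χ a η → 0 < η → η < 1 → ∀ ε, 0 < ε →
      ∀ᶠ T in atTop, ∀ t ∈ Icc (T / 2) (3 * T), ∀ R, 1 ≤ R → Sep μ c R T t →
        -Real.sin ((II μ (hi f χ) T t).re + π * c) ≤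
          K / R ^ 2 * SdR μ R T t + ε + ‖Psum (lo f χ) T t‖ := by
  obtain ⟨B, hB, hb⟩ := exists_bump h.cd h.zero
  obtain ⟨W, hW0, hWc, hWi, hW1, hk⟩ := h.ker
  have hS := h.pos
  have hπ := Real.pi_gt_three
  have hK := norm_iF_pw_le hb hb hS rfl
  rw [pw_self] at hK
  obtain ⟨K, hKd⟩ : ∃ K, K = 6 * (1 + S) * B := ⟨_, rfl⟩
  have hK0 : 0 ≤ K := by rw [hKd]; positivity
  rw [← hKd] at hK
  have hfi : Integrable f :=
    h.cd.continuous.integrable_of_hasCompactSupport (hasCompactSupport_of_zero h.zero)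
  have hfm := (continuous_iF hfi).measurable
  set k : ℝ → ℝ := fun y => ∫ x in Icc (y - c) y, W x with hkd
  have hk0 : ∀ y, 0 ≤ k y := fun y => integral_nonneg hW0
  have hkm : Measurable k := by
    have : k = fun y => (iF f y).re / (2 * π) := by
      funext y; rw [hk, ofReal_re]; field_simp; rfl
    rw [this]; fun_prop
  have hkK : ∀ y, k y ≤ K / (1 + y ^ 2) := fun y => by
    have := hK y
    rw [hk, norm_real, Real.norm_of_nonneg (mul_nonneg (by positivity) (hk0 y))] at this
    nlinarith only [this, hπ, hk0 y]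
  refine ⟨π * (2 * K), by positivity, fun χ a η hχ hη hη1 ε hε => ?_⟩
  obtain ⟨B', hB', hb'⟩ := exists_bump (φ := lo f χ) (R := η) (h.cd.mul hχ.cdC)
    fun u hu => by simp [lo, hχ.zero u hu.le]
  have hK' := norm_iF_pw_le hb' hb' hη rfl
  rw [pw_self] at hK'
  have hli : Integrable (lo f χ) :=
    hb'.cd.continuous.integrable_of_hasCompactSupport (hasCompactSupport_of_zero hb'.zero)
  have hA := hχ.adm_hi hS h.cd h.zero
  have e1 : ∀ y, iF (pw (hi f χ) 0) y + (starRingEnd ℂ) (iF (pw (hi f χ) 0) y) =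
      iF f y - iF (lo f χ) y := fun y => by
    have hi2 : Integrable fun u => (starRingEnd ℂ) (pw (hi f χ) 0 (-u)) :=
      (conjCLE.integrable_comp_iff.2 hA.integrable.comp_neg :)
    have hi3 : Integrable fun u => pw (hi f χ) 0 u + (starRingEnd ℂ) (pw (hi f χ) 0 (-u)) :=
      hA.integrable.add hi2
    rw [conj_iF, ← iF_add hA.integrable hi2, eq_sub_iff_add_eq, ← iF_add hi3 hli]
    congr 1; funext u
    rw [← lo_add_hi f χ u]
    rcases lt_trichotomy u 0 with hu | rfl | hu
    · simp [pw, hu.le, not_le.2 hu, hi, h.conj, hχ.even, add_comm]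
    · simp [pw, hA.at0]
    · simp [pw, hu.le, not_le.2 hu, add_comm]
  filter_upwards [Real.tendsto_log_atTop.eventually_ge_atTop (2 * π),
    hμ.local_ef hb' hb' rfl hη hη1 hε] with T hL hef t ht R hR hsep
  have h1 := hef t ht
  rw [pw_self] at h1
  have e2 : Psum (fun u => lo f χ (-u)) T (-t) = (starRingEnd ℂ) (Psum (lo f χ) T t) := by
    have := conj_Psum (fun u => lo f χ (-u)) T t
    simp only [lo, map_mul, h.conj, conj_ofReal, hχ.even] at this
    rw [← Complex.conj_conj (Psum _ T (-t))]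
    simp only [lo, hχ.even, this]
    rfl
  have hki : Integrable (fun y => k (Real.log T / (2 * π) * (y - t))) μ := by
    simpa using (hμ.integrable_stat (h := fun y => (k y : ℂ)) (by fun_prop) (K := K)
      (fun y => by simpa [abs_of_nonneg (hk0 y)] using hkK y) hL t).re
  have e3 : stat μ (iF f) T t =
      ((2 * π * ∫ y, k (Real.log T / (2 * π) * (y - t)) ∂μ : ℝ) : ℂ) := by
    simp only [stat, hk]
    rw [integral_complex_ofReal, integral_const_mul]
  have e4 : II μ (hi f χ) T t + (starRingEnd ℂ) (II μ (hi f χ) T t) =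
      stat μ (iF f) T t - stat μ (iF (lo f χ)) T t := by
    have hi1 := hA.integrable_II hμ hL t
    have hi2 : Integrable (fun y => (starRingEnd ℂ)
      (iF (pw (hi f χ) 0) (Real.log T / (2 * π) * (y - t)))) μ := conjCLE.integrable_comp_iff.2 hi1
    rw [II, stat, ← integral_conj, ← integral_add hi1 hi2, stat,
      stat, ← integral_sub (hμ.integrable_stat hfm hK hL t)
        (hμ.integrable_stat (continuous_iF hli).measurable hK' hL t)]
    simp only [e1]
  have h2 : ∫ y, k (Real.log T / (2 * π) * (y - t)) ∂μ ≤ 1 + 2 * K / R ^ 2 * SdR μ R T t := by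
    have hs : MeasurableSet {y | |Real.log T / (2 * π) * (y - t)| ≤ R} :=
      measurableSet_le (by fun_prop) measurable_const
    have h3 := hsep.near_le hW0 hWc hWi hW1 hkm
    rw [← integral_indicator hs] at h3
    refine le_trans ?_ (add_le_add_left h3 _)
    rw [SdR, ← integral_const_mul, ← integral_add (hki.indicator hs)
      ((hμ.integrable_SdR hR hL t).const_mul _)]
    refine integral_mono hki ((hki.indicator hs).add ((hμ.integrable_SdR hR hL t).const_mul _))
      fun y => ?_
    by_cases hy : y ∈ {y | |Real.log T / (2 * π) * (y - t)| ≤ R}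
    · simp only [indicator_of_mem hy]
      exact le_add_of_nonneg_right (by positivity)
    · simp only [indicator_of_notMem hy, zero_add]
      refine (hkK _).trans ?_
      have h4 : R ^ 2 ≤ |Real.log T / (2 * π) * (y - t)| ^ 2 :=
        pow_le_pow_left₀ (by linarith) (le_of_not_ge hy) 2
      rw [sq_abs] at h4
      generalize Real.log T / (2 * π) * (y - t) = z at *
      rw [div_mul_div_comm, mul_one, div_le_div_iff₀ (by positivity) (by positivity), div_pow,
        mul_add (R ^ 2), mul_div_cancel₀ _ (by positivity)]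
      nlinarith only [hK0, h4]
  have h3 := neg_sin_pi_le (e := (II μ (hi f χ) T t).re + π * c -
    π * ∫ y, k (Real.log T / (2 * π) * (y - t)) ∂μ) (integral_nonneg fun _ => hk0 _) h2
    (mul_nonneg (by positivity) (integral_nonneg fun _ => by positivity))
  rw [add_sub_cancel] at h3
  refine h3.trans ?_
  rw [add_assoc]
  refine add_le_add (le_of_eq (by ring)) ?_
  have h4 := congrArg re e4
  have h5 := abs_le.1 ((abs_re_le_norm _).trans h1)
  have h6 := abs_le.1 (abs_re_le_norm (Psum (lo f χ) T t))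
  have h7 : lo f χ 0 = ((2 * π * c : ℝ) : ℂ) := by
    simp [lo, h.at0, hχ.one 0 (by simpa using hχ.apos.le)]
  rw [e2, h7] at h5
  simp only [e3, add_re, sub_re, conj_re, ofReal_re] at h4 h5
  exact abs_le.2 ⟨by linarith only [hε, h5, h6, h4], by linarith only [hε, h5, h6, h4]⟩

end Pool.Agent.P.MP_7eacff_nt
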