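import Pool.Agent.P.MP_7eacff_nt.Kernel
import Pool.Agent.P.MP_7eacff_nt.Dom

/-!
Tails of the one-sided statistic.
-/

open Complex Filter Topology MeasureTheory Set
open scoped Real

namespace Pool.Agent.P.MP_7eacff_nt

theorem Sym.dom_II {f : ℝ → ℂ} {c S θ : ℝ} (h : Sym f c S) {μ P : Measure ℝ} [SFinite μ]
    (hμ : ZData μ) (hP : Win P) (hθ : 1 / 2 < θ) : ∃ A C : ℝ, 1 ≤ A ∧ 1 ≤ C ∧ ∀ D : ℕ, 1 ≤ D →
      ∀ χ a η, Cut χ a η → η ≤ 1 / (4 * D) → ∀ᶠ T in atTop,
        Dom P θ T (fun t => max (‖II μ (hi f χ) T t‖ / A - D) 0 ^ (2 * D)) ((C * D) ^ D) := by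
  obtain ⟨χ0, h0⟩ := exists_cut one_half_pos one_half_lt_one
  obtain ⟨B, hB, hb⟩ := exists_bump h.cd h.zero
  obtain ⟨B0, hB0, hb0⟩ := exists_bump (R := 1) h0.cdC fun u hu => by simp [h0.zero u hu.le]
  obtain ⟨A, C, hA, hC, hd⟩ := hμ.dom_SdR hP hθ
  have hS := h.pos
  obtain ⟨K, hK⟩ : ∃ K, K = 6 * (1 + S) * (64 * B + 4 * (64 * B * B0)) := ⟨_, rfl⟩
  have hK0 : 0 ≤ K := by rw [hK]; positivity
  have hc : 0 ≤ 2 * π * c := (norm_nonneg _).trans (h.bdd 0)
  have hKA : 0 ≤ K * A := by positivity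
  refine ⟨1 + 2 * (K * A), 8 * (C + 2 * (2 * π * c) ^ 2), by linarith only [hKA],
    by nlinarith only [hC, sq_nonneg (2 * π * c)], fun D hD χ a η hχ hη => ?_⟩
  have hD1 : (1 : ℝ) ≤ D := by exact_mod_cast hD
  obtain ⟨k, hk⟩ : ∃ k : ℝ, k = 2 * D := ⟨_, rfl⟩
  have hk1 : 1 ≤ k := by linarith only [hD1, hk]
  have hk0 : 0 < k := by linarith only [hD1, hk]
  have hχk := h0.scale hk0
  have hg := hχ.adm_hi hS h.cd h.zero
  have hl := hg.lo hχk (by positivity)
  have e1 : hi (hi f χ) (fun u => χ0 (k * u)) = hi f fun u => χ0 (k * u) := by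
    funext u
    rcases le_total |u| (1 / 2 / k) with hu | hu
    · simp [hi, hχk.one u hu]
    · simp [hi, hχ.zero u (hη.trans (le_of_eq_of_le (by rw [hk]; field_simp; norm_num) hu))]
  have hdec : ∀ y, ‖iF (pw (hi f fun u => χ0 (k * u)) 0) y‖ ≤ K / (1 + (y / k) ^ 2) := fun y => by
    have h1 := hb.scale_exp hk1 (show |(0 : ℝ)| ≤ 7 by simp)
    simp only [zero_mul, Real.exp_zero, ofReal_one, mul_one, abs_zero] at h1
    have h2 := h1.sub (h1.mul hb0)
    have h3 := norm_iF_pw_le h2 (bump_zero h2.nonneg) (by positivity)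
      (by simp [h0.one 0 (by simp)]) (y / k)
    rw [← iF_pw_scale _ _ hk0] at h3
    have e : iF (pw (fun u => (k : ℂ) * (f (k * u / k) - f (k * u / k) * χ0 (k * u)))
        fun u => (k : ℂ) * (0 : ℝ → ℂ) (k * u)) y =
        k * iF (pw (hi f fun u => χ0 (k * u)) 0) y := by
      rw [iF, iF, ← integral_const_mul]
      congr 1; funext u
      simp only [pw, hi, mul_div_cancel_left₀ _ hk0.ne']
      split_ifs
      · ring
      · simp
    rw [e, norm_mul, norm_real, Real.norm_of_nonneg hk0.le] at h3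
    refine le_of_mul_le_mul_left (h3.trans ?_) hk0
    rw [← mul_div_assoc, hK, ← mul_assoc k, mul_left_comm k]
    have : 1 + S * k ≤ k * (1 + S) := by linarith only [hD1, hk]
    gcongr
  have hk2 : 1 / k ≤ 1 / 2 := one_div_le_one_div_of_le two_pos (by linarith only [hD1, hk])
  filter_upwards [Real.tendsto_log_atTop.eventually_ge_atTop (2 * π),
    hl.loc hμ (by linarith only [hk2]) one_pos, hd k D hk1 hD (by linarith only [hD1, hk]),
    hP.dom_Psum (φ := lo (hi f χ) fun u => χ0 (k * u)) (θ := θ)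
      (fun u => (hχk.norm_lo_le _ u).trans ((hχ.norm_hi_le _ u).trans (h.bdd u))) hl.pos
      (by linarith only [hk2]) (fun u hu => hl.zero u (hu.trans_le (le_abs_self u))) D
      (lt_of_eq_of_lt (by rw [hk]; field_simp) hθ)] with T hL hloc h1 h2
  refine ((h2.1.add h1).const_mul (show (0 : ℝ) ≤ 4 ^ D by positivity)).mono (fun t ht => ?_) ?_
  · refine le_trans ?_ (add_pow_le_four (norm_nonneg _) (le_max_right _ _) D)
    have h3 := hloc t ht
    have h4 : ‖II μ (hi f fun u => χ0 (k * u)) T t‖ ≤ _ := hμ.norm_stat_le_SdR hk1 hdec hL t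
    rw [hg.split hμ hχk hl.pos hL, e1]
    have h5 := le_max_left (SdR μ k T t / A - k) 0
    have h6 := le_max_right (SdR μ k T t / A - k) 0
    generalize max (SdR μ k T t / A - k) 0 = Y at *
    rw [sub_le_iff_le_add, div_le_iff₀ (by linarith only [hA])] at h5
    have h7 := mul_le_mul_of_nonneg_left h5 hK0
    have h8 := norm_add_le (II μ (lo (hi f χ) fun u => χ0 (k * u)) T t)
      (II μ (hi f fun u => χ0 (k * u)) T t)
    have h9 := norm_sub_le (II μ (lo (hi f χ) fun u => χ0 (k * u)) T t +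
      Psum (lo (hi f χ) fun u => χ0 (k * u)) T t) (Psum (lo (hi f χ) fun u => χ0 (k * u)) T t)
    rw [add_sub_cancel_right] at h9
    have h10 := norm_nonneg (Psum (lo (hi f χ) fun u => χ0 (k * u)) T t)
    gcongr
    refine max_le ?_ (by positivity)
    rw [sub_le_iff_le_add, div_le_iff₀ (by linarith only [hKA])]
    rw [hk] at h7
    nlinarith only [hD1, h3, h4, h6, h8, h9, hKA, h10, hK0, h5, hk, mul_nonneg hKA h10, mul_nonneg hKA h6]
  · have h3 : (2 * (2 * π * c * (1 / k)) ^ 2 * D) ^ D ≤ ((C + 2 * (2 * π * c) ^ 2) * D) ^ D := by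
      gcongr
      nlinarith only [hC, hc, hk1, hk2, pow_le_pow_left₀ (by positivity)
        (mul_le_of_le_one_right hc (show 1 / k ≤ 1 by linarith only [hk2])) 2]
    have h4 : (C * D) ^ D ≤ ((C + 2 * (2 * π * c) ^ 2) * D) ^ D := by
      gcongr; nlinarith only [sq_nonneg (2 * π * c)]
    have h5 : (2 : ℝ) ≤ 2 ^ D := le_self_pow₀ one_le_two (by omega)
    calc _ ≤ 4 ^ D * (2 ^ D * ((C + 2 * (2 * π * c) ^ 2) * D) ^ D) := by
          gcongr
          nlinarith only [h3, h4, h5, hC, hD, show 0 ≤ ((C + 2 * (2 * π * c) ^ 2) * D) ^ D by positivity]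
      _ = _ := by rw [← mul_pow, ← mul_pow]; congr 1; ring

theorem exists_tail {P : Measure ℝ} [IsProbabilityMeasure P] {θ A C τ : ℝ} (hA : 1 ≤ A)
    (hC : 1 ≤ C) (hτ : 0 < τ) : ∃ M : ℝ, 0 ≤ M ∧ ∀ m : ℕ, ∃ K : ℕ, 1 ≤ K ∧ ∀ (T : ℝ) (V : ℝ → ℝ),
      (∀ D : ℕ, 1 ≤ D → D ≤ K →
        Dom P θ T (fun t => max (V t / A - D) 0 ^ (2 * D)) ((C * D) ^ D)) →
      Dom P θ T (fun t => (if M < V t then
        ∑ k ∈ Finset.range (m + 1), V t ^ k / k.factorial else 0) ^ 2) τ := by
  have hA0 : 0 < A := by linarith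
  obtain ⟨D0, h1, h2, h3⟩ := (((tendsto_pow_atTop_nhds_zero_of_lt_one (r := (1 / 2 : ℝ))
    (by norm_num) (by norm_num)).eventually_le_const (show 0 < τ / 4 by positivity)).and
    ((tendsto_natCast_atTop_atTop.eventually_ge_atTop (2 * (Real.exp (8 * A) * C))).and
      (eventually_ge_atTop 1))).exists
  have hE : 1 ≤ Real.exp (8 * A) := Real.one_le_exp (by positivity)
  refine ⟨2 * A * D0, by positivity, fun m => ?_⟩
  obtain ⟨K, h4, h5, h6⟩ := ((((tendsto_pow_const_div_const_pow_of_one_lt (2 * m)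
    (show (1 : ℝ) < 2 by norm_num)).const_mul (((m + 1) * (2 * A) ^ m) ^ 2)).eventually_le_const
      (show _ < τ / 2 by simpa)).and ((eventually_ge_atTop D0).and (eventually_ge_atTop m))).exists
  refine ⟨K, h3.trans h5, fun T V hV => ?_⟩
  have hhalf : ∀ D : ℕ, D0 ≤ D → Real.exp (8 * A) * C / D ≤ 1 / 2 := fun D hD => by
    have : (D0 : ℝ) ≤ D := by exact_mod_cast hD
    have : (0 : ℝ) < D := by exact_mod_cast (by omega : 0 < D)
    rw [div_le_iff₀ this]; linarith
  have hsc : ∀ (D : ℕ) (b : ℝ), 1 ≤ D → b / D ^ (2 * D) * (C * D) ^ D = b * (C / D) ^ D :=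
    fun D b hD => by
      have : (0 : ℝ) < D := by exact_mod_cast (by omega : 0 < D)
      rw [two_mul, pow_add, mul_pow, div_pow]; field_simp
  refine ((Dom.sum (Finset.Ico D0 K) fun D hD =>
    (hV D (h3.trans (Finset.mem_Ico.1 hD).1) (Finset.mem_Ico.1 hD).2.le).const_mul
      (show 0 ≤ Real.exp (8 * A) ^ D / D ^ (2 * D) by positivity)).add
    ((hV K (h3.trans h5) le_rfl).const_mul
      (show 0 ≤ ((m + 1) * (2 * A * K) ^ m) ^ 2 / K ^ (2 * K) by positivity))).mono
    (fun t _ => ?_) ?_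
  · have hs : ∀ D ∈ Finset.Ico D0 K, 0 ≤ Real.exp (8 * A) ^ D / D ^ (2 * D) *
      max (V t / A - D) 0 ^ (2 * D) := fun D _ => by positivity
    have hY : ∀ D : ℕ, 2 * A * D < V t → D ≤ max (V t / A - D) 0 ∧
        V t ≤ 2 * A * max (V t / A - D) 0 := fun D hD => by
      have h7 := le_max_left (V t / A - D) 0
      rw [sub_le_iff_le_add, div_le_iff₀ hA0] at h7
      exact ⟨le_of_mul_le_mul_right (by linarith only [hD, h7]) hA0, by linarith only [hD, h7]⟩
    have hD01 : (1 : ℝ) ≤ D0 := by exact_mod_cast h3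
    split_ifs with hM
    swap
    · rw [zero_pow two_ne_zero]
      exact add_nonneg (Finset.sum_nonneg hs) (by positivity)
    have hV1 : 1 ≤ V t := by nlinarith only [hD01, hM, hA]
    by_cases hK : 2 * A * K < V t
    · refine le_add_of_nonneg_of_le (Finset.sum_nonneg hs) ?_
      obtain ⟨h7, h8⟩ := hY K hK
      have hK0 : (0 : ℝ) < K := by exact_mod_cast (by omega : 0 < K)
      generalize max (V t / A - K) 0 = Y at *
      have h9 : ∑ k ∈ Finset.range (m + 1), V t ^ k / k.factorial ≤ (m + 1) * V t ^ m := by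
        refine (Finset.sum_le_card_nsmul _ _ (V t ^ m) fun k hk => ?_).trans (by simp)
        exact (div_le_self (by positivity) (by exact_mod_cast k.factorial_pos)).trans
          (pow_le_pow_right₀ hV1 (by have := Finset.mem_range.1 hk; omega))
      calc _ ≤ ((m + 1) * (2 * A * K * (Y / K)) ^ m) ^ 2 := by
            refine pow_le_pow_left₀ (by positivity) (h9.trans ?_) 2
            gcongr
            exact h8.trans_eq (by field_simp)
        _ = ((m + 1) * (2 * A * K) ^ m) ^ 2 * (Y / K) ^ (2 * m) := by rw [mul_pow _ (Y / K)]; ring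
        _ ≤ ((m + 1) * (2 * A * K) ^ m) ^ 2 * (Y / K) ^ (2 * K) := by
            gcongr
            exact (one_le_div hK0).2 h7
        _ = _ := by rw [div_pow]; ring
    · have h7 : D0 < ⌈V t / (2 * A)⌉₊ := Nat.lt_ceil.2 (by rw [lt_div_iff₀ (by positivity)]; linarith only [hM])
      have h8 : ⌈V t / (2 * A)⌉₊ ≤ K := Nat.ceil_le.2 (by rw [div_le_iff₀ (by positivity)]; linarith only [hK])
      obtain ⟨D, hD⟩ : ∃ D, ⌈V t / (2 * A)⌉₊ = D + 1 := ⟨_, (Nat.sub_add_cancel (by omega)).symm⟩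
      have h9 := Nat.lt_ceil.1 (show D < ⌈V t / (2 * A)⌉₊ by omega)
      have h10 := Nat.le_ceil (V t / (2 * A))
      rw [hD, div_le_iff₀ (by positivity)] at h10
      rw [lt_div_iff₀ (by positivity)] at h9
      have hD1 : (1 : ℝ) ≤ D := by exact_mod_cast (by omega : 1 ≤ D)
      refine le_add_of_le_of_nonneg (le_trans ?_ (Finset.single_le_sum hs
        (show D ∈ _ from Finset.mem_Ico.2 ⟨by omega, by omega⟩))) (by positivity)
      calc _ ≤ Real.exp (V t) ^ 2 :=
            pow_le_pow_left₀ (by positivity) (Real.sum_le_exp_of_nonneg (by linarith only [hV1]) _) 2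
        _ ≤ Real.exp (8 * A) ^ D * 1 := by
            rw [mul_one, ← Real.exp_nat_mul, ← Real.exp_nat_mul]
            push_cast at h10 ⊢
            exact Real.exp_le_exp.2 (by nlinarith only [hD1, h10, hA])
        _ ≤ Real.exp (8 * A) ^ D * (max (V t / A - D) 0 / D) ^ (2 * D) := by
            gcongr
            exact one_le_pow₀ ((one_le_div (by linarith only [hD1])).2 (hY D (by linarith only [h9])).1)
        _ = _ := by rw [div_pow]; ring
  · rw [← add_halves τ]
    refine add_le_add ((Finset.sum_le_sum (g := fun D => (1 / 2 : ℝ) ^ D) fun D hD => ?_).trans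
      ((geom_sum_Ico_le_of_lt_one (by norm_num) (by norm_num)).trans
        (by rw [div_le_iff₀ (by norm_num)]; linarith only [h1])))
      (le_trans ?_ h4)
    · have h7 := (Finset.mem_Ico.1 hD).1
      rw [hsc D _ (by omega), ← mul_pow, ← mul_div_assoc]
      exact pow_le_pow_left₀ (by positivity) (hhalf D h7) D
    · rw [hsc K _ (by omega), mul_pow (2 * A), ← mul_assoc, mul_pow _ (_ ^ m), mul_assoc, ← pow_mul,
        mul_comm m, div_eq_mul_one_div _ (2 ^ K), ← one_div_pow]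
      have h7 : C / K ≤ 1 / 2 := le_trans (by gcongr; nlinarith only [hE, hC]) (hhalf K h5)
      gcongr

end Pool.Agent.P.MP_7eacff_nt
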