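import Pool.Agent.P.MP_7eacff_nt.Half
import Pool.Agent.P.MP_7eacff_nt.Count
import Pool.Agent.P.MP_7eacff_nt.MeanII
import Pool.Agent.P.MP_7eacff_nt.Tail
import Pool.Agent.P.MP_7eacff_nt.RePart

/-!
Small gaps up to one half: the final assembly.
-/

open Complex Filter Topology MeasureTheory Set PowerSeries
open scoped Real

namespace Pool.Agent.P.MP_7eacff_nt

theorem ZData.prob_half {μ P : Measure ℝ} [SFinite μ] (hμ : ZData μ) (hP : Win P) {c : ℝ}
    (hc : 1 / 2 < c) (hc1 : c < 1) : ∃ θ R η : ℝ, 0 < R ∧ 0 < η ∧ ∀ᶠ T in atTop, ∀ E,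
      MeasurableSet E → (∀ t ∈ Icc (T / 2) (3 * T), t ∉ E → Sep μ c R T t) →
        ∀ X ∈ Icc T (2 * T), η ≤ P.real {v | X + T ^ θ * v ∈ E} := by
  have := hP.prob
  obtain ⟨J, h, δ, B, S, M0, φ, f, hC, hr, hS, hM0, hM⟩ := exists_half hc hc1
  have hJ0 : 0 ≤ h * J := by have := hC.hpos; positivity
  have hJ1 := hC.lt_one
  obtain ⟨θ, hθ⟩ : ∃ θ, θ = (2 + h * J) / 3 := ⟨_, rfl⟩
  have hθ1 : θ < 1 := by linarith only [hJ1, hθ]
  have hθ2 : 1 / 2 < θ := by linarith only [hc, hc1, hJ0, hθ]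
  obtain ⟨Kr, hKr, hres⟩ := hC.norm_res_le_Sd hμ 1
  obtain ⟨KD, hKD, hD⟩ := hμ.dom_Sd hP (by linarith only [hc, hc1, hJ0, hθ]) hθ1 (J * 4)
  obtain ⟨Kf, hKf⟩ : ∃ Kf, Kf = Kr ^ 4 * KD + 1 := ⟨_, rfl⟩
  have hKf0 : 0 < Kf := by rw [hKf]; positivity
  have hDf : ∀ᶠ T in atTop, Dom P θ T (fun t => (‖res J 1 φ h T t‖ ^ 2) ^ 2) Kf := by
    filter_upwards [hres, hD] with T hres hD
    refine (hD.const_mul (show 0 ≤ Kr ^ 4 by positivity)).mono (fun t ht => ?_) (by linarith only [hc, hc1, hKf])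
    rw [← pow_mul, pow_mul (1 + _), ← mul_pow]
    exact pow_le_pow_left₀ (norm_nonneg _) (hres t ht) 4
  obtain ⟨ε, hε⟩ : ∃ ε, ε = M0 / 12 := ⟨_, rfl⟩
  have hε0 : 0 < ε := by linarith only [hM0, hε]
  obtain ⟨ν, hν⟩ : ∃ ν, ν = ε / Kf := ⟨_, rfl⟩
  have hν0 : 0 < ν := by rw [hν]; positivity
  obtain ⟨τ, hτ⟩ : ∃ τ, τ = ε * ν := ⟨_, rfl⟩
  have hτ0 : 0 < τ := by rw [hτ]; positivity
  obtain ⟨A, C, hA, hC1, hII⟩ := hS.dom_II hμ hP hθ2
  obtain ⟨M, hM0', htail⟩ := exists_tail (P := P) (θ := θ) hA hC1 hτ0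
  obtain ⟨r, hr'⟩ : ∃ r, r = min 1 τ / 2 := ⟨_, rfl⟩
  have hr0 : 0 < r := by rw [hr']; positivity
  have hr1 : (2 * r) ^ 2 ≤ τ := by
    have h1 := min_le_left 1 τ
    have h2 := min_le_right 1 τ
    nlinarith only [hr', h2, hc, hc1, hr0, h1]
  obtain ⟨m, hm1, hm2⟩ := ((im_sum_le M hr0).and (eventually_ge_atTop J)).exists
  obtain ⟨K, hK1, htail⟩ := htail m
  have hK1' : (1 : ℝ) ≤ K := by exact_mod_cast hK1
  obtain ⟨x, hx⟩ : ∃ x, x = Real.exp M := ⟨_, rfl⟩
  have hx0 : 0 < x := hx ▸ Real.exp_pos M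
  rw [← hx] at hm1
  obtain ⟨η, hη⟩ : ∃ η, η = min (min δ (1 / (4 * K))) (τ / (2 * (x * (2 * π * c)) ^ 2 + 1)) :=
    ⟨_, rfl⟩
  have hδ := hC.δpos
  have hη0 : 0 < η := by rw [hη]; positivity
  have hη1 : η ≤ δ := hη ▸ (min_le_left _ _).trans (min_le_left _ _)
  have hη2 : η ≤ 1 / (4 * K) := hη ▸ (min_le_left _ _).trans (min_le_right _ _)
  have hη3 : η * (2 * (x * (2 * π * c)) ^ 2 + 1) ≤ τ :=
    (le_div_iff₀ (by positivity)).1 (hη ▸ min_le_right _ _)
  have hη4 : η ≤ 1 / 4 := hη2.trans (one_div_le_one_div_of_le (by norm_num) (by linarith only [hK1']))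
  obtain ⟨χ, hχ⟩ := exists_cut (half_pos hη0) (half_lt_self hη0)
  have hg := hχ.adm_hi hS.pos hS.cd hS.zero
  obtain ⟨Ks, hKs, hsin⟩ := hS.neg_sin_le hμ
  obtain ⟨A', C', hA', hC', hSd⟩ := hμ.dom_SdR hP hθ2
  obtain ⟨b, hb⟩ : ∃ b, b = 2 * (x * Ks * A') ^ 2 := ⟨_, rfl⟩
  have hb0 : 0 ≤ b := by rw [hb]; positivity
  obtain ⟨R, hR⟩ : ∃ R, R = 1 + b * (1 + C') / τ := ⟨_, rfl⟩
  have hR1 : 1 ≤ R := by rw [hR]; exact le_add_of_nonneg_right (by positivity)
  obtain ⟨l, hl⟩ : ∃ l, l = x ^ 2 * Kf / ε := ⟨_, rfl⟩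
  have hl0 : 0 < l := by rw [hl]; positivity
  have b1 : b / R * (1 + C') ≤ τ := by
    rw [div_mul_eq_mul_div, div_le_iff₀ (by linarith only [hη0, hη4, hR1]), hR, mul_add τ, mul_div_cancel₀ _ hτ0.ne']
    linarith only [hτ0]
  have b2 : x ^ 2 * (2 * (2 * π * c * η) ^ 2) ≤ τ := by
    have : η ^ 2 ≤ η := by nlinarith only [hc, hη0, hc1, hη4]
    calc _ = η ^ 2 * (2 * (x * (2 * π * c)) ^ 2) := by ring
      _ ≤ η * (2 * (x * (2 * π * c)) ^ 2 + 1) := by gcongr; linarith only [hη0, hη4]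
      _ ≤ τ := hη3
  have b3 : ν⁻¹ * (b / R * (1 + C') + x ^ 2 * (2 * (2 * π * c * η) ^ 2) + τ + (2 * r) ^ 2) ≤
      4 * ε := by
    rw [inv_mul_le_iff₀ hν0]; linarith only [hτ, hr1, b1, b2]
  have b4 : (x ^ 2 / l + 4 * ν) * Kf = 5 * ε := by rw [hl, hν]; field_simp; norm_num
  refine ⟨θ, R, ε / l, by linarith only [hη0, hη4, hR1], by positivity, ?_⟩
  have e1 : (fun i => ∫ u in (0 : ℝ)..1, φ i u * (u * hi f χ u)) =
      fun i => ∫ u in (0 : ℝ)..1, φ i u * (u * f u) := by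
    funext i; congr 1; funext u
    by_cases h0 : φ i u = 0
    · simp [h0]
    · simp [hi, hχ.zero u ((hη1.trans (hC.supp _ _ h0).2.2.1).trans (le_abs_self u))]
  have g1 := fun k => ((hg.gro hμ).pow k).mul (hC.gro_sq μ)
  have g2 := (Gro.const (cexp (-(π * c : ℝ) * I))).mul (Gro.sum (Finset.range (m + 1)) fun k _ =>
    (Gro.const ((-I) ^ k / k.factorial)).mul (g1 k))
  have g3 := g2.of_le (F' := fun T t => (((cexp (-(π * c : ℝ) * I) *
      ∑ k ∈ Finset.range (m + 1), (-I) ^ k / k.factorial *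
        (II μ (hi f χ) T t ^ k * ((‖res J 1 φ h T t‖ ^ 2 : ℝ) : ℂ))).im : ℝ) : ℂ))
    (fun T => measurable_ofReal.comp (measurable_im.comp (g2.1 T))) fun T t => by
      rw [norm_real]; exact abs_im_le_norm _
  filter_upwards [hDf, g3.integral_le hμ hP hθ1 hε0, g2.integrable hμ hP hθ1,
    (eventually_all_finset (Finset.range (m + 1))).2 fun k _ => (g1 k).integrable hμ hP hθ1,
    (eventually_all_finset (Finset.range (m + 1))).2 fun k _ => hC.mean_II_pow hμ hP hr hg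
      (show _ < θ by linarith only [hJ1, hθ]) hθ1 k (show 0 < ε / (m + 1) by positivity),
    (eventually_all_finset (Finset.Icc 1 K)).2 fun D hD => hII D (Finset.mem_Icc.1 hD).1 χ _ η hχ
      (hη2.trans (by
        have h1 : (1 : ℝ) ≤ D := by exact_mod_cast (Finset.mem_Icc.1 hD).1
        have h2 : (D : ℝ) ≤ K := by exact_mod_cast (Finset.mem_Icc.1 hD).2
        gcongr)),
    hsin χ _ η hχ hη0 (by linarith only [hη0, hη4]) (r / x) (by positivity), hSd R 1 hR1 le_rfl (by simpa),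
    hP.dom_Psum (φ := lo f χ) (θ := θ) (fun u => (hχ.norm_lo_le f u).trans (hS.bdd u)) hη0
      (by linarith only [hη0, hη4]) (fun u hu => by simp [lo, hχ.zero u (hu.le.trans (le_abs_self u))]) 1
      (by simp; linarith only [hJ0, hθ, hη0, hη4])] with T hDf hle i2 i1 hmean hII hsin hSd hQ E hE hsep X hX
  have hT := htail T (fun t => ‖II μ (hi f χ) T t‖) fun D h1 h2 => hII D (Finset.mem_Icc.2 ⟨h1, h2⟩)
  simp only [mul_one, Nat.cast_one, pow_one] at hSd hQ
  have h1 := hle X hX E l _ _ hE hl0.le ((hDf.const_mul (show 0 ≤ x ^ 2 / l + 4 * ν by positivity)).add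
    (((((((Dom.const zero_le_one).add hSd).const_mul (show 0 ≤ b / R by positivity)).add
      (hQ.1.const_mul (sq_nonneg x))).add hT).add (Dom.const (sq_nonneg (2 * r)))).const_mul
        (inv_pos.2 hν0).le)) fun t ht => by
    have h2 := hsin t ht R hR1
    have h3 := hm1 (II μ (hi f χ) T t) (π * c)
    have e : ∀ (w z : ℂ) (a : ℝ), (w * ∑ k ∈ Finset.range (m + 1), (-I) ^ k / k.factorial *
        (z ^ k * a)).im = (w * ∑ k ∈ Finset.range (m + 1), (-I) ^ k / k.factorial * z ^ k).im * a :=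
      fun w z a => by rw [← im_mul_ofReal, mul_assoc, Finset.sum_mul]; simp only [mul_assoc]
    rw [e]
    have h9 : 0 ≤ SdR μ R T t := integral_nonneg fun _ => by positivity
    by_cases htE : t ∈ E
    · rw [indicator_of_mem htE]
      exact pt_mem (h3 1 zero_le_one (neg_le.1 (Real.neg_one_le_sin _))) (sq_nonneg _) hr0.le hl0
        hν0 (by positivity)
    · rw [indicator_of_notMem htE]
      exact pt_notMem (h3 _ (by positivity) (h2 (hsep t ht htE))) (sq_nonneg _) hx0 hl0 hν0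
        (hb ▸ pt_far hx0.le hKs hA' hR1 h9)
  have h2 := integral_im (i2 X hX)
  simp only [RCLike.im_to_complex] at h2
  rw [h2, integral_const_mul, integral_finsetSum _ fun k hk => (i1 k hk X hX).const_mul _] at h1
  simp only [integral_const_mul] at h1
  have h3 := hM m hm2
  rw [← e1] at h3
  have h5 := im_sub_le (w := cexp (-(π * c : ℝ) * I))
    (by rw [← ofReal_neg, norm_exp_ofReal_mul_I]) fun k hk => hmean k hk X hX
  rw [div_le_iff₀' hl0]
  linarith only [hε, b3, b4, h1, h3, h5]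

theorem half_gaps {μ : Measure ℝ} [SFinite μ] (hμ : ZData μ) {γ : ℕ → ℝ} (hγ : Enum μ γ) {c : ℝ}
    (hc : 1 / 2 < c) : ∃ η : ℝ, 0 < η ∧ ∀ᶠ N : ℕ in atTop, η * N ≤ ((Finset.range N).filter fun n =>
      (γ (n + 1) - γ n) / (2 * π) * Real.log (γ n / (2 * π)) ≤ c).card := by
  wlog hc1 : c < 1 generalizing c
  · obtain ⟨η, hη, h⟩ := this (show (1 : ℝ) / 2 < 3 / 4 by norm_num) (by norm_num)
    refine ⟨η, hη, h.mono fun N hN => hN.trans ?_⟩
    gcongr with n
    linarith only [hc, hc1]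
  obtain ⟨P, hP⟩ := exists_win
  have := hP.prob
  obtain ⟨θ, R, η, hR, hη, h⟩ := hμ.prob_half hP hc hc1
  refine hγ.density hμ hη (show 0 < 2 * π * (2 * R) by positivity) _ ?_
  filter_upwards [h, Real.tendsto_log_atTop.eventually_ge_atTop (2 * π),
    eventually_gt_atTop (2 * R)] with T h1 hL hT N hN
  have hl := one_le_lam hL
  have hL0 : 0 < Real.log T := by linarith only [hL, Real.pi_pos]
  set S := (Finset.range N).filter fun n =>
    (γ (n + 1) - γ n) / (2 * π) * Real.log (γ n / (2 * π)) ≤ c with hS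
  have hE : MeasurableSet (⋃ m ∈ S, {t | |Real.log T / (2 * π) * (γ m - t)| ≤ 2 * R / 2}) :=
    S.measurableSet_biUnion fun m _ => measurableSet_le (by fun_prop) measurable_const
  have h2 := le_volume_of_prob hE (by linarith only [hR, hT]) (h1 _ hE fun t ht htE x => by
    rw [hγ.meas _ (fun y hy => by
      by_contra h3
      nlinarith only [h3, hc, hT, hc1, hR, hl, (abs_le.1 hy.1).1, ht.1, notMem_Ioi.1 h3]) (by simp only [mem_Icc]; measurability)]
    refine (ENat.toENNReal_le.2 (encard_le_one_iff_subsingleton.2 ?_)).trans_eq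
      ENat.toENNReal_one
    by_contra h3
    obtain ⟨m, hm, n, hn, hmn⟩ := (not_subsingleton_iff.1 h3).exists_lt
    have h4 : γ (m + 1) ≤ γ n := hγ.mono hmn
    have h5 : γ m ≤ γ (m + 1) := hγ.mono (Nat.le_succ m)
    have hm' := abs_le.1 hm.1
    have h6 : γ m < 4 * T := by
      by_contra h6
      nlinarith only [hm', h6, hc, hR, hT, hc1, hl, ht.2, hm'.2]
    refine htE ?_
    simp only [mem_iUnion, hS, Finset.mem_filter, Finset.mem_range]
    refine ⟨m, ⟨hγ.mono.reflect_lt (by rwa [hN]), ?_⟩, hm.1.trans_eq (by ring)⟩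
    have h7 : Real.log (γ m / (2 * π)) ≤ Real.log T := by
      refine Real.log_le_log (by have := hγ.pos m; positivity) ?_
      rw [div_le_iff₀ (by positivity)]
      nlinarith only [hT, hc, hR, h6, hc1, Real.pi_gt_three]
    calc _ ≤ (γ (m + 1) - γ m) / (2 * π) * Real.log T :=
          mul_le_mul_of_nonneg_left h7 (div_nonneg (by linarith only [h5]) (by positivity))
      _ = Real.log T / (2 * π) * (γ (m + 1) - γ m) := by ring
      _ ≤ _ := by nlinarith only [h4, hc, hc1, hl, hm.2.1, hn.2.2])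
  have h3 := h2.trans (measure_biUnion_finset_le _ _)
  simp only [volume_window hL, Finset.sum_const, nsmul_eq_mul] at h3
  rw [← ENNReal.ofReal_natCast, ← ENNReal.ofReal_mul (Nat.cast_nonneg _),
    ENNReal.ofReal_le_ofReal_iff (by positivity)] at h3
  refine h3.trans ?_
  gcongr; linarith only [hc, hc1]

end Pool.Agent.P.MP_7eacff_nt
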