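import Pool.Agent.P.MP_7eacff_nt.Spec

/-!
One-sided statistics of the zeros: cut-offs, the symbol and the real part.
-/

open Complex Filter Topology MeasureTheory Set
open scoped Real

namespace Pool.Agent.P.MP_7eacff_nt

theorem Bump.mul {f g : ℝ → ℂ} {R R' B B' : ℝ} (hf : Bump f R B) (hg : Bump g R' B') :
    Bump (fun u => f u * g u) R (4 * (B * B')) := by
  have hB := hf.nonneg
  have hB' := hg.nonneg
  have d : ∀ {f : ℝ → ℂ}, ContDiff ℝ 2 f → ∀ u, HasDerivAt f (deriv f u) u :=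
    fun h u => (h.differentiable (by norm_num) u).hasDerivAt
  have d' : ∀ {f : ℝ → ℂ}, ContDiff ℝ 2 f → ∀ u, HasDerivAt (deriv f) (deriv (deriv f) u) u :=
    fun h u => ((contDiff_one_deriv h).differentiable (by norm_num) u).hasDerivAt
  have e1 : deriv (fun u => f u * g u) = fun u => deriv f u * g u + f u * deriv g u :=
    funext fun u => ((d hf.cd u).mul (d hg.cd u)).deriv
  have e2 : ∀ u, deriv (deriv fun u => f u * g u) u = deriv (deriv f) u * g u +
      deriv f u * deriv g u + (deriv f u * deriv g u + f u * deriv (deriv g) u) := fun u => by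
    rw [e1]
    exact (((d' hf.cd u).mul (d hg.cd u)).add ((d hf.cd u).mul (d' hg.cd u))).deriv
  have m : ∀ {a b : ℂ}, ‖a‖ ≤ B → ‖b‖ ≤ B' → ‖a * b‖ ≤ B * B' := fun ha hb => by
    rw [norm_mul]; gcongr
  have h0 : 0 ≤ B * B' := by positivity
  refine ⟨hf.cd.mul hg.cd, fun u hu => by simp [hf.zero u hu], fun u => ?_, fun u => ?_,
    fun u => ?_⟩
  · linarith [m (hf.b0 u) (hg.b0 u)]
  · rw [e1]
    linarith only [h0, norm_add_le (deriv f u * g u) (f u * deriv g u), m (hf.b1 u) (hg.b0 u),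
      m (hf.b0 u) (hg.b1 u)]
  · rw [e2]
    refine (norm_add_le _ _).trans ((add_le_add (norm_add_le _ _) (norm_add_le _ _)).trans ?_)
    linarith [m (hf.b2 u) (hg.b0 u), m (hf.b1 u) (hg.b1 u), m (hf.b0 u) (hg.b2 u)]

theorem Bump.sub {f g : ℝ → ℂ} {R B B' : ℝ} (hf : Bump f R B) (hg : Bump g R B') :
    Bump (fun u => f u - g u) R (B + B') := by
  have e1 : deriv (fun u => f u - g u) = fun u => deriv f u - deriv g u :=
    funext fun u => deriv_fun_sub (hf.cd.differentiable (by norm_num) u)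
      (hg.cd.differentiable (by norm_num) u)
  refine ⟨hf.cd.sub hg.cd, fun u hu => by simp [hf.zero u hu, hg.zero u hu],
    fun u => (norm_sub_le _ _).trans (add_le_add (hf.b0 u) (hg.b0 u)), fun u => ?_, fun u => ?_⟩
  · rw [e1]; exact (norm_sub_le _ _).trans (add_le_add (hf.b1 u) (hg.b1 u))
  · rw [e1, deriv_fun_sub ((contDiff_one_deriv hf.cd).differentiable (by norm_num) u)
      ((contDiff_one_deriv hg.cd).differentiable (by norm_num) u)]
    exact (norm_sub_le _ _).trans (add_le_add (hf.b2 u) (hg.b2 u))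

theorem bump_zero {R B : ℝ} (hB : 0 ≤ B) : Bump 0 R B :=
  ⟨contDiff_const, fun _ _ => rfl, by simpa, by simpa, by simpa⟩

/-- An even smooth cut-off. -/
structure Cut (χ : ℝ → ℝ) (a b : ℝ) : Prop where
  apos : 0 < a
  cd : ContDiff ℝ 2 χ
  nonneg : ∀ u, 0 ≤ χ u
  le_one : ∀ u, χ u ≤ 1
  one : ∀ u, |u| ≤ a → χ u = 1
  zero : ∀ u, b ≤ |u| → χ u = 0
  even : ∀ u, χ (-u) = χ u

theorem exists_cut {a b : ℝ} (ha : 0 < a) (hab : a < b) : ∃ χ, Cut χ a b := by
  let χ : ContDiffBump (0 : ℝ) := ⟨a, b, ha, hab⟩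
  exact ⟨χ, ha, χ.contDiff, fun _ => χ.nonneg, fun _ => χ.le_one,
    fun u hu => χ.one_of_mem_closedBall (by simpa using hu),
    fun u hu => χ.zero_of_le_dist (by simpa using hu), χ.neg⟩

theorem Cut.scale {χ : ℝ → ℝ} {a b k : ℝ} (h : Cut χ a b) (hk : 0 < k) :
    Cut (fun u => χ (k * u)) (a / k) (b / k) :=
  ⟨div_pos h.apos hk, h.cd.comp (contDiff_const.mul contDiff_id), fun _ => h.nonneg _,
    fun _ => h.le_one _,
    fun u hu => h.one _ (by rw [abs_mul, abs_of_pos hk]; rwa [le_div_iff₀' hk] at hu),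
    fun u hu => h.zero _ (by rw [abs_mul, abs_of_pos hk]; rwa [div_le_iff₀' hk] at hu),
    fun u => by rw [mul_neg, h.even]⟩

theorem Cut.cdC {χ : ℝ → ℝ} {a b : ℝ} (h : Cut χ a b) : ContDiff ℝ 2 fun u => (χ u : ℂ) :=
  ofRealCLM.contDiff.comp h.cd

/-- Low-frequency part. -/
noncomputable def lo (f : ℝ → ℂ) (χ : ℝ → ℝ) (u : ℝ) : ℂ := f u * χ u

/-- High-frequency part. -/
noncomputable def hi (f : ℝ → ℂ) (χ : ℝ → ℝ) (u : ℝ) : ℂ := f u * (1 - χ u)

theorem lo_add_hi (f : ℝ → ℂ) (χ : ℝ → ℝ) (u : ℝ) : lo f χ u + hi f χ u = f u := by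
  simp only [lo, hi]; ring

theorem Cut.norm_lo_le {χ : ℝ → ℝ} {a b : ℝ} (h : Cut χ a b) (f : ℝ → ℂ) (u : ℝ) :
    ‖lo f χ u‖ ≤ ‖f u‖ := by
  rw [lo, norm_mul, norm_real, Real.norm_of_nonneg (h.nonneg u)]
  exact mul_le_of_le_one_right (norm_nonneg _) (h.le_one u)

theorem Cut.norm_hi_le {χ : ℝ → ℝ} {a b : ℝ} (h : Cut χ a b) (f : ℝ → ℂ) (u : ℝ) :
    ‖hi f χ u‖ ≤ ‖f u‖ := by
  rw [hi, norm_mul, ← ofReal_one, ← ofReal_sub, norm_real,
    Real.norm_of_nonneg (sub_nonneg.2 (h.le_one u))]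
  exact mul_le_of_le_one_right (norm_nonneg _) (sub_le_self _ (h.nonneg u))

/-- Admissible one-sided symbols. -/
structure Adm (f : ℝ → ℂ) (R : ℝ) : Prop where
  pos : 0 < R
  cd : ContDiff ℝ 2 f
  zero : ∀ u, R < |u| → f u = 0
  at0 : f 0 = 0

/-- One-sided statistic. -/
noncomputable def II (μ : Measure ℝ) (f : ℝ → ℂ) (T t : ℝ) : ℂ := stat μ (iF (pw f 0)) T t

theorem Cut.adm_hi {χ : ℝ → ℝ} {a b : ℝ} (h : Cut χ a b) {f : ℝ → ℂ} {R : ℝ} (hR : 0 < R)
    (hf : ContDiff ℝ 2 f) (hz : ∀ u, R < |u| → f u = 0) : Adm (hi f χ) R :=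
  ⟨hR, hf.mul (contDiff_const.sub h.cdC), fun u hu => by simp [hi, hz u hu],
    by simp [hi, h.one 0 (by simpa using h.apos.le)]⟩

namespace Adm

variable {f : ℝ → ℂ} {R : ℝ} (h : Adm f R)
include h

theorem lo {χ : ℝ → ℝ} {a b : ℝ} (hχ : Cut χ a b) (hb : 0 < b) : Adm (lo f χ) b :=
  ⟨hb, h.cd.mul hχ.cdC, fun u hu => by simp [MP_7eacff_nt.lo, hχ.zero u hu.le],
    by simp [MP_7eacff_nt.lo, h.at0]⟩

theorem integrable : Integrable (pw f 0) :=
  (continuous_pw h.cd.continuous continuous_const h.at0).integrable_of_hasCompactSupport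
    (hasCompactSupport_of_zero (pw_zero h.zero fun _ _ => rfl))

theorem decay : ∃ K, 0 ≤ K ∧ ∀ y, ‖iF (pw f 0) y‖ ≤ K / (1 + y ^ 2) := by
  obtain ⟨B, hB, hb⟩ := exists_bump h.cd h.zero
  exact ⟨_, by have := h.pos; positivity, norm_iF_pw_le hb (bump_zero hB) h.pos h.at0⟩

theorem measurable (μ : Measure ℝ) [SFinite μ] (T : ℝ) : Measurable (II μ f T) :=
  measurable_stat μ (continuous_iF h.integrable).measurable T

theorem integrable_II {μ : Measure ℝ} (hμ : ZData μ) {T : ℝ} (hL : 2 * π ≤ Real.log T) (t : ℝ) :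
    Integrable (fun y => iF (pw f 0) (Real.log T / (2 * π) * (y - t))) μ := by
  obtain ⟨K, -, hK⟩ := h.decay
  exact hμ.integrable_stat (continuous_iF h.integrable).measurable hK hL t

theorem loc {μ : Measure ℝ} [SFinite μ] (hμ : ZData μ) (hR : R < 1) {ε : ℝ} (hε : 0 < ε) :
    ∀ᶠ T in atTop, ∀ t ∈ Icc (T / 2) (3 * T), ‖II μ f T t + Psum f T t‖ ≤ ε := by
  obtain ⟨B, hB, hb⟩ := exists_bump h.cd h.zero
  filter_upwards [hμ.local_ef hb (bump_zero hB) h.at0 h.pos hR hε] with T hT t ht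
  simpa [h.at0, Psum, II] using hT t ht

theorem split {μ : Measure ℝ} (hμ : ZData μ) {χ : ℝ → ℝ} {a b : ℝ} (hχ : Cut χ a b) (hb : 0 < b)
    {T : ℝ} (hL : 2 * π ≤ Real.log T) (t : ℝ) :
    II μ f T t = II μ (MP_7eacff_nt.lo f χ) T t + II μ (hi f χ) T t := by
  have h1 := h.lo hχ hb
  have h2 := hχ.adm_hi h.pos h.cd h.zero
  rw [II, II, II, stat, stat, stat, ← integral_add (h1.integrable_II hμ hL t)
    (h2.integrable_II hμ hL t)]
  congr 1; funext y
  rw [← iF_add h1.integrable h2.integrable]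
  congr 1; funext u
  simp only [pw]
  split_ifs <;> simp [lo_add_hi]

end Adm

/-- The symbol attached to windows of length `c`. -/
structure Sym (f : ℝ → ℂ) (c S : ℝ) : Prop where
  pos : 0 < S
  cd : ContDiff ℝ 2 f
  zero : ∀ u, S < |u| → f u = 0
  at0 : f 0 = 2 * π * c
  bdd : ∀ u, ‖f u‖ ≤ 2 * π * c
  conj : ∀ u, (starRingEnd ℂ) (f (-u)) = f u
  ker : ∃ W : ℝ → ℝ, (∀ x, 0 ≤ W x) ∧ Continuous W ∧ Integrable W ∧ ∫ x, W x = 1 ∧
    ∀ y, iF f y = ((2 * π * ∫ x in Icc (y - c) y, W x : ℝ) : ℂ)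

theorem gc_mul_ee {c : ℝ} (hc : 0 ≤ c) (u y : ℝ) :
    (gc c u : ℂ) * ee (-(c * u / 2)) * ee (u * y) = ∫ x in Icc (y - c) y, ee (u * x) := by
  rw [← iF_ind hc, iF, ← integral_sub_right_eq_self _ (y - c / 2), mul_assoc,
    ← integral_mul_const, ← integral_indicator measurableSet_Icc]
  congr 1; funext x
  by_cases hx : x ∈ Icc (y - c) y
  · rw [indicator_of_mem hx, ind, indicator_of_mem (show x - (y - c / 2) ∈ Icc (-(c / 2)) (c / 2)
      from ⟨by linarith [hx.1], by linarith [hx.2]⟩), one_mul, ← ee_add, ← ee_add]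
    congr 1; ring
  · rw [indicator_of_notMem hx, ind, indicator_of_notMem fun h =>
      hx ⟨by linarith [h.1], by linarith [h.2]⟩, zero_mul, zero_mul]

theorem norm_ee_sub (x y : ℝ) : ‖ee x - ee y‖ ≤ 2 * π * |x - y| := by
  have e : ee x - ee y = ee y * (cexp (I * (2 * π * (x - y) : ℝ)) - 1) := by
    rw [mul_sub, mul_one, show x = y + (x - y) by ring, ee_add, add_sub_cancel_left, ee, ee,
      mul_comm I]
  rw [e, norm_mul, norm_ee, one_mul]
  refine Real.norm_exp_I_mul_ofReal_sub_one_le.trans_eq ?_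
  rw [Real.norm_eq_abs, abs_mul, abs_of_pos Real.two_pi_pos]

theorem exists_sym {c : ℝ} (hc : 0 < c) : ∃ L, 0 < L ∧ ∀ S, 1 ≤ S → ∃ f, Sym f c S ∧
    (∀ x y : ℝ, ‖I * (x * f x) - I * (y * f y)‖ ≤ L * |x - y|) ∧
    ∀ u ∈ Icc (0 : ℝ) 1, ‖I * (u * f u) - (1 - ee (-(c * u)))‖ ≤ L * u / S := by
  obtain ⟨W, β, hW0, hWc, hW1, hWm, hβ, hβz, hWβ, hβW⟩ := exists_W
  have hWi : Integrable W := by simpa using hWm 0
  obtain ⟨B, hB, hb⟩ := exists_bump hβ fun u (hu : 1 < |u|) => hβz u hu.le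
  have hβ1 : ∀ u, ‖β u‖ ≤ 1 := fun u => by
    rw [hβW, ← hW1]
    exact norm_integral_le_of_norm_le hWi (ae_of_all _ fun v => by simp [abs_of_nonneg (hW0 v)])
  have hβ0 : β 0 = 1 := by simp [hβW, iF, integral_complex_ofReal, hW1]
  have hβc : ∀ u, (starRingEnd ℂ) (β (-u)) = β u := fun u => by
    simp [hβW, iF, ← integral_conj, conj_ee]
  have hβL : ∀ x y, ‖β x - β y‖ ≤ B * |x - y| := fun x y =>
    convex_univ.norm_image_sub_le_of_norm_deriv_le (𝕜 := ℝ)
      (fun u _ => hβ.differentiable (by norm_num) u) (fun u _ => hb.b1 u) trivial trivial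
  have hπ := Real.pi_pos
  refine ⟨2 * π * c + 2 * B + 2 * π * c * B, by positivity, fun S hS => ?_⟩
  have hS0 : 0 < S := by linarith
  have hβS : ∀ x y, ‖β (x / S) - β (y / S)‖ ≤ B * (|x - y| / S) := fun x y => by
    simpa [← sub_div, abs_div, abs_of_pos hS0] using hβL (x / S) (y / S)
  have key : ∀ u : ℝ, I * (u * (2 * π * (gc c u * ee (-(c * u / 2))) * β (u / S))) =
      (1 - ee (-(c * u))) * β (u / S) := fun u => by
    have h1 : (u : ℂ) * gc c u = Complex.sin (π * c * u) / π := by exact_mod_cast mul_gc c u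
    have hpi : (π : ℂ) ≠ 0 := by exact_mod_cast hπ.ne'
    have h2 : ee (-(c * u / 2)) = cexp (-(π * c * u) * I) := by
      rw [ee]; congr 1; push_cast; ring
    have h3 : ee (-(c * u)) = cexp (-(π * c * u) * I) * cexp (-(π * c * u) * I) := by
      rw [ee, ← Complex.exp_add]; congr 1; push_cast; ring
    have h4 : cexp (π * c * u * I) * cexp (-(π * c * u) * I) = 1 := by
      rw [← Complex.exp_add]; simp
    rw [show I * (u * (2 * π * (gc c u * ee (-(c * u / 2))) * β (u / S))) =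
      I * (2 * π * (u * gc c u)) * ee (-(c * u / 2)) * β (u / S) by ring, h1, h2, h3,
      show 2 * (π : ℂ) * (Complex.sin (π * c * u) / π) = 2 * Complex.sin (π * c * u) by field_simp, Complex.two_sin]
    congr 1
    linear_combination (cexp (-(π * c * u) * I) - cexp (π * c * u * I)) *
      cexp (-(π * c * u) * I) * I_mul_I + h4
  have h1e : ∀ u, ‖1 - ee (-(c * u))‖ ≤ 2 * π * (c * |u|) := fun u => by
    simpa [abs_mul, abs_of_pos hc] using norm_ee_sub 0 (-(c * u))
  have hzS : ∀ u, S < |u| → β (u / S) = 0 := fun u hu => hβz _ (by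
    rw [abs_div, abs_of_pos hS0, one_le_div hS0]; exact hu.le)
  refine ⟨fun u => 2 * π * (gc c u * ee (-(c * u / 2))) * β (u / S), ⟨hS0, ?_,
    fun u hu => by simp [hzS u hu], by simp [gc, hβ0], fun u => ?_, fun u => ?_,
    fun x => S * W (S * x), fun x => mul_nonneg hS0.le (hW0 _), by fun_prop,
    (hWi.comp_mul_left' hS0.ne').const_mul S, ?_, fun y => ?_⟩, fun x y => ?_, fun u hu => ?_⟩
  · refine (contDiff_const.mul ((ofRealCLM.contDiff.comp (contDiff_gc hc.le)).mul ?_)).mul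
      (hβ.comp (contDiff_id.div_const S))
    exact ((ofRealCLM.contDiff.comp (show ContDiff ℝ 2 fun u : ℝ => 2 * π * -(c * u / 2) by
      fun_prop)).mul contDiff_const).cexp
  · have : |gc c u| ≤ c := by
      unfold gc
      split_ifs with hu
      · exact (abs_of_pos hc).le
      · rw [abs_div, div_le_iff₀ (abs_pos.2 (by positivity))]
        refine Real.abs_sin_le_abs.trans_eq ?_
        simp only [abs_mul, abs_of_pos hc]; ring
    simp only [norm_mul, norm_ee, norm_real, Real.norm_eq_abs, abs_of_pos hπ, Complex.norm_two]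
    calc _ ≤ 2 * π * (c * 1) * 1 := by gcongr; exact hβ1 _
      _ = _ := by ring
  · simp only [map_mul, conj_ofReal, conj_ee, gc_neg, neg_div, hβc, map_ofNat]
    congr 4; ring
  · rw [integral_const_mul, Measure.integral_comp_mul_left, hW1, abs_of_pos (inv_pos.2 hS0)]
    simp [hS0.ne']
  · have hi : Integrable fun u => β (u / S) :=
      (hβ.continuous.comp (by fun_prop)).integrable_of_hasCompactSupport
        (hasCompactSupport_of_zero hzS)
    have e : ∀ u, 2 * π * (gc c u * ee (-(c * u / 2))) * β (u / S) * ee (u * y) =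
        2 * π * ∫ x in Icc (y - c) y, β (u / S) * ee (u * x) := fun u => by
      rw [integral_const_mul, ← gc_mul_ee hc.le]; ring
    simp only [iF, e]
    rw [integral_const_mul, integral_integral_swap, ofReal_mul, ← integral_complex_ofReal]
    · congr 1
      · simp
      congr 1; funext x
      have h1 := Measure.integral_comp_div (fun u => β u * ee (u * (S * x))) S
      simp only [abs_of_pos hS0] at h1
      rw [ofReal_mul, ← hWβ, iF, ← real_smul, ← h1]
      congr 1; funext u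
      congr 2; field_simp
    · refine (hi.norm.mul_prod (integrable_const (1 : ℝ))).mono' ?_ (ae_of_all _ fun z => ?_)
      · have := hβ.continuous
        exact Continuous.aestronglyMeasurable (by unfold Function.uncurry; fun_prop)
      · simp [Function.uncurry]
  · rw [key, key, show (1 - ee (-(c * x))) * β (x / S) - (1 - ee (-(c * y))) * β (y / S) =
      (ee (-(c * y)) - ee (-(c * x))) * β (x / S) + (1 - ee (-(c * y))) * (β (x / S) - β (y / S))
      by ring]
    refine (norm_add_le _ _).trans ?_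
    have h1 := norm_ee_sub (-(c * y)) (-(c * x))
    rw [show -(c * y) - -(c * x) = c * (x - y) by ring, abs_mul, abs_of_pos hc] at h1
    have h2 : ‖1 - ee (-(c * y))‖ ≤ 2 := (norm_sub_le _ _).trans (by simp; norm_num)
    have h3 := (hβS x y).trans (mul_le_mul_of_nonneg_left (div_le_self (abs_nonneg _) hS) hB)
    rw [norm_mul, norm_mul]
    calc _ ≤ 2 * π * (c * |x - y|) * 1 + 2 * (B * |x - y|) := by gcongr; exact hβ1 _
      _ ≤ _ := by nlinarith only [hc, hB, show 0 ≤ 2 * π * c * B * |x - y| by positivity]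
  · rw [key, ← mul_sub_one, norm_mul]
    have h1 := hβS u 0
    have h2 := h1e u
    rw [zero_div, hβ0, sub_zero, abs_of_nonneg hu.1] at *
    have hu0 := hu.1
    calc _ ≤ 2 * π * (c * 1) * (B * (u / S)) := by
          refine mul_le_mul (h2.trans ?_) h1 (norm_nonneg _) (by positivity)
          gcongr; exact hu.2
      _ = 2 * π * c * B * u / S := by ring
      _ ≤ _ := by gcongr; linarith only [hB, hc, show 0 ≤ 2 * π * c by positivity]

end Pool.Agent.P.MP_7eacff_nt
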