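import Mathlib

/-!
Landau's lemma: a substitute for the Hadamard product for entire functions of order below two.
-/

open Complex Filter Topology Metric

namespace Pool.Agent.P.MP_7eacff_nt

theorem exists_factor_one (f : ℂ → ℂ) (hf : Differentiable ℂ f) (a : ℂ)
    (ha : analyticOrderAt f a ≠ ⊤) :
    ∃ g : ℂ → ℂ, Differentiable ℂ g ∧ (∀ z, f z = (z - a) ^ analyticOrderNatAt f a * g z) ∧
      g a ≠ 0 := by
  have hfa : AnalyticAt ℂ f a := hf.analyticAt a
  obtain ⟨g, hg, hga, hfg⟩ := (hfa.analyticOrderNatAt_eq_iff ha).1 rfl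
  classical
  refine ⟨fun z => if z = a then g a else f z / (z - a) ^ analyticOrderNatAt f a, ?_, ?_, ?_⟩
  · intro z
    by_cases hz : z = a
    · subst hz
      refine hg.differentiableAt.congr_of_eventuallyEq ?_
      filter_upwards [hfg] with w hw
      by_cases hwz : w = z
      · simp [hwz]
      · have : (w - z) ^ analyticOrderNatAt f z ≠ 0 := pow_ne_zero _ (sub_ne_zero.2 hwz)
        simp only [hwz, if_false, hw, smul_eq_mul]
        field_simp
    · have h1 : DifferentiableAt ℂ (fun w => f w / (w - a) ^ analyticOrderNatAt f a) z :=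
        (hf z).div (by fun_prop) (pow_ne_zero _ (sub_ne_zero.2 hz))
      refine h1.congr_of_eventuallyEq ?_
      filter_upwards [isOpen_ne.mem_nhds hz] with w hw
      simp [hw]
  · intro z
    by_cases hz : z = a
    · subst hz
      simpa using hfg.self_of_nhds
    · have : (z - a) ^ analyticOrderNatAt f a ≠ 0 := pow_ne_zero _ (sub_ne_zero.2 hz)
      simp only [hz, if_false]
      field_simp
  · simpa using hga

theorem exists_factor (f : ℂ → ℂ) (hf : Differentiable ℂ f)
    (hne : ∀ z, analyticOrderAt f z ≠ ⊤) (S : Finset ℂ) :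
    ∃ g : ℂ → ℂ, Differentiable ℂ g ∧
      (∀ z, f z = (∏ ρ ∈ S, (z - ρ) ^ analyticOrderNatAt f ρ) * g z) ∧ ∀ ρ ∈ S, g ρ ≠ 0 := by
  classical
  induction S using Finset.induction_on with
  | empty => exact ⟨f, hf, by simp, by simp⟩
  | insert a S haS ih =>
    obtain ⟨g, hg, hfg, hg0⟩ := ih
    have hP : Differentiable ℂ (fun z : ℂ => ∏ ρ ∈ S, (z - ρ) ^ analyticOrderNatAt f ρ) := by
      fun_prop
    have hPa : (∏ ρ ∈ S, (a - ρ) ^ analyticOrderNatAt f ρ) ≠ 0 := by
      refine Finset.prod_ne_zero_iff.2 fun ρ hρ => pow_ne_zero _ (sub_ne_zero.2 ?_)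
      rintro rfl
      exact haS hρ
    have hord : analyticOrderAt f a = analyticOrderAt g a := by
      have e : f = (fun z : ℂ => ∏ ρ ∈ S, (z - ρ) ^ analyticOrderNatAt f ρ) * g := by
        funext z; exact hfg z
      have h0 : analyticOrderAt (fun z : ℂ => ∏ ρ ∈ S, (z - ρ) ^ analyticOrderNatAt f ρ) a = 0 :=
        (hP.analyticAt a).analyticOrderAt_eq_zero.2 hPa
      calc analyticOrderAt f a
          = analyticOrderAt ((fun z : ℂ => ∏ ρ ∈ S, (z - ρ) ^ analyticOrderNatAt f ρ) * g) a := by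
            rw [← e]
        _ = analyticOrderAt g a := by
            rw [analyticOrderAt_mul (hP.analyticAt a) (hg.analyticAt a), h0, zero_add]
    obtain ⟨g', hg', hgg', hg'a⟩ := exists_factor_one g hg a (hord ▸ hne a)
    have hn : analyticOrderNatAt g a = analyticOrderNatAt f a := by
      simp [analyticOrderNatAt, hord]
    refine ⟨g', hg', fun z => ?_, fun ρ hρ => ?_⟩
    · rw [Finset.prod_insert haS, hfg z, hgg' z, hn]; ring
    · rcases Finset.mem_insert.1 hρ with rfl | hρ
      · exact hg'a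
      · intro h
        exact hg0 ρ hρ (by rw [hgg' ρ, h, mul_zero])

/-- A zero-free function bounded by `‖g c‖ exp M` has nearly constant logarithmic derivative. -/
theorem logDeriv_sub_le (g : ℂ → ℂ) (hg : Differentiable ℂ g) (c : ℂ) {R M : ℝ} (hR : 0 < R)
    (hM : 0 < M) (h0 : ∀ z ∈ ball c R, g z ≠ 0)
    (hbd : ∀ z ∈ ball c R, ‖g z‖ ≤ ‖g c‖ * Real.exp M) {s s' : ℂ} (hs : ‖s - c‖ ≤ R / 4)
    (hs' : ‖s' - c‖ ≤ R / 4) :
    ‖logDeriv g s - logDeriv g s'‖ ≤ 64 * M / R ^ 2 * ‖s - s'‖ := by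
  have hL : DifferentiableOn ℂ (logDeriv g) (ball c R) := by
    intro z hz
    have : DifferentiableAt ℂ (fun w => deriv g w / g w) z :=
      (hg.analyticAt z).deriv.differentiableAt.div (hg z) (h0 z hz)
    exact this.differentiableWithinAt
  obtain ⟨h, hhc, hh⟩ := hL.isExactOn_ball.with_val_at c 0
  have hgc : g c ≠ 0 := h0 c (mem_ball_self hR)
  have hexp : ∀ z ∈ ball c R, g z = g c * exp (h z) := by
    have hd : ∀ z ∈ ball c R, HasDerivAt (fun w => g w * exp (-h w)) 0 z := by
      intro z hz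
      have := (hg z).hasDerivAt.mul (hh z hz).neg.cexp
      refine HasDerivAt.congr_deriv this ?_
      rw [logDeriv_apply]
      have := h0 z hz
      field_simp
      simp
    intro z hz
    have hc := (isOpen_ball.is_const_of_deriv_eq_zero (convex_ball c R).isPreconnected
      (fun w hw => (hd w hw).differentiableAt.differentiableWithinAt)
      (fun w hw => (hd w hw).deriv) hz (mem_ball_self hR))
    simp only [hhc, neg_zero, exp_zero, mul_one] at hc
    rw [← hc, mul_assoc, ← exp_add]; simp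
  have hre : ∀ z ∈ ball c R, (h z).re ≤ M := by
    intro z hz
    have h1 := hbd z hz
    rw [hexp z hz, norm_mul, norm_exp] at h1
    exact Real.exp_le_exp.1 (le_of_mul_le_mul_left h1 (norm_pos_iff.2 hgc))
  have hhd : DifferentiableOn ℂ h (ball c R) := fun z hz =>
    (hh z hz).differentiableAt.differentiableWithinAt
  have hmem : ∀ w : ℂ, w ∈ ball (0 : ℂ) R → c + w ∈ ball c R := by
    intro w hw; simpa [mem_ball, dist_eq_norm] using hw
  have hBC : ∀ z, ‖z - c‖ ≤ R / 2 → ‖h z‖ ≤ 2 * M := by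
    intro z hz
    have hzb : z - c ∈ ball (0 : ℂ) R := by
      rw [mem_ball_zero_iff]; linarith only [hR, hz]
    have := borelCaratheodory_zero (f := fun w => h (c + w)) (z := z - c) hM
      (fun w hw => ((hh _ (hmem w hw)).differentiableAt.comp w
        (by fun_prop : DifferentiableAt ℂ (fun w => c + w) w)).differentiableWithinAt)
      (fun w hw => hre _ (hmem w hw)) hR hzb (by simpa using hhc)
    simp only [add_sub_cancel] at this
    refine this.trans ?_
    rw [div_le_iff₀ (by linarith only [hR, hz])]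
    nlinarith only [hM, hz, norm_nonneg (z - c)]
  have hder : ∀ z ∈ ball c R, deriv h z = logDeriv g z := fun z hz => (hh z hz).deriv
  have h2 : ∀ z ∈ closedBall c (R / 4), ‖deriv (logDeriv g) z‖ ≤ 64 * M / R ^ 2 := by
    intro z hz
    rw [mem_closedBall, dist_eq_norm] at hz
    have hsub : closedBall z (R / 4) ⊆ ball c R := by
      intro w hw
      rw [mem_closedBall, dist_eq_norm] at hw
      rw [mem_ball, dist_eq_norm]
      calc ‖w - c‖ = ‖(w - z) + (z - c)‖ := by ring_nf
        _ ≤ ‖w - z‖ + ‖z - c‖ := norm_add_le _ _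
        _ < R := by linarith only [hR, hz, hw]
    have hdc : DiffContOnCl ℂ h (ball z (R / 4)) := by
      refine DifferentiableOn.diffContOnCl ?_
      rw [closure_ball z (by positivity)]
      exact hhd.mono hsub
    have := norm_iteratedDeriv_le_of_forall_mem_sphere_norm_le (C := 2 * M) 2 (by positivity) hdc
      (fun w hw => hBC w (by
        rw [mem_sphere_iff_norm] at hw
        calc ‖w - c‖ = ‖(w - z) + (z - c)‖ := by ring_nf
          _ ≤ ‖w - z‖ + ‖z - c‖ := norm_add_le _ _
          _ ≤ R / 2 := by linarith only [hz, hw]))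
    have e : iteratedDeriv 2 h z = deriv (logDeriv g) z := by
      rw [iteratedDeriv_succ, iteratedDeriv_one]
      refine Filter.EventuallyEq.deriv_eq ?_
      filter_upwards [isOpen_ball.mem_nhds (hsub (mem_closedBall_self (by positivity)))] with w hw
      exact hder w hw
    rw [e] at this
    refine this.trans (le_of_eq ?_)
    simp only [Nat.factorial, Nat.succ_eq_add_one]
    field_simp
    norm_num
  have hsub : closedBall c (R / 4) ⊆ ball c R := closedBall_subset_ball (by linarith only [hR])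
  exact (convex_closedBall c (R / 4)).norm_image_sub_le_of_norm_deriv_le
    (fun z hz => hL.differentiableAt (isOpen_ball.mem_nhds (hsub hz))) h2
    (by rwa [mem_closedBall, dist_eq_norm]) (by rwa [mem_closedBall, dist_eq_norm])

theorem landau (f : ℂ → ℂ) (hf : Differentiable ℂ f) (c : ℂ) (hc : f c ≠ 0) {R M : ℝ}
    (hR : 0 < R) (hM : 0 < M)
    (hbd : ∀ z, ‖z - c‖ = 2 * R → ‖f z‖ ≤ ‖f c‖ * Real.exp M)
    (S : Finset ℂ) (hS : ∀ z, ‖z - c‖ < R → f z = 0 → z ∈ S) (hS' : ∀ z ∈ S, ‖z - c‖ ≤ R)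
    {s s' : ℂ} (hs : ‖s - c‖ ≤ R / 4) (hs' : ‖s' - c‖ ≤ R / 4) (hfs : f s ≠ 0)
    (hfs' : f s' ≠ 0) :
    ‖logDeriv f s - logDeriv f s' -
        ∑ ρ ∈ S, (analyticOrderNatAt f ρ : ℂ) * (1 / (s - ρ) - 1 / (s' - ρ))‖ ≤
      64 * M / R ^ 2 * ‖s - s'‖ := by
  have hne : ∀ z, analyticOrderAt f z ≠ ⊤ := by
    intro z hz
    have := (AnalyticOnNhd.analyticOrderAt_eq_top_iff_eq_zero z (fun w => hf.analyticAt w)).1 hz
    exact hc (by rw [this]; rfl)
  obtain ⟨g, hg, hfg, hg0⟩ := exists_factor f hf hne S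
  set P : ℂ → ℂ := fun z => ∏ ρ ∈ S, (z - ρ) ^ analyticOrderNatAt f ρ with hPdef
  have hgne : ∀ z ∈ ball c R, g z ≠ 0 := by
    intro z hz h
    rw [mem_ball, dist_eq_norm] at hz
    exact hg0 z (hS z hz (by rw [hfg z, h, mul_zero])) h
  have hPc : P c ≠ 0 := fun h => hc (by rw [hfg c]; exact mul_eq_zero_of_left h _)
  have hgb : ∀ z ∈ ball c R, ‖g z‖ ≤ ‖g c‖ * Real.exp M := by
    intro z hz
    refine norm_le_of_forall_mem_frontier_norm_le (U := ball c (2 * R)) isBounded_ball
      hg.diffContOnCl ?_ (subset_closure (ball_subset_ball (by linarith only [hR]) hz))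
    intro w hw
    rw [frontier_ball c (by positivity), mem_sphere_iff_norm] at hw
    have h1 := hbd w hw
    have hPle : ‖P c‖ ≤ ‖P w‖ := by
      simp only [hPdef, norm_prod, norm_pow]
      refine Finset.prod_le_prod (fun _ _ => by positivity) fun ρ hρ => ?_
      refine pow_le_pow_left₀ (norm_nonneg _) ?_ _
      have h2 := hS' ρ hρ
      have h3 : ‖w - c‖ ≤ ‖w - ρ‖ + ‖ρ - c‖ := by
        calc ‖w - c‖ = ‖(w - ρ) + (ρ - c)‖ := by ring_nf
          _ ≤ _ := norm_add_le _ _
      rw [norm_sub_rev c ρ]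
      linarith only [hw, h2, h3]
    rw [hfg w, hfg c, norm_mul, norm_mul] at h1
    have hp : 0 < ‖P c‖ := norm_pos_iff.2 hPc
    have : ‖P c‖ * ‖g w‖ ≤ ‖P c‖ * (‖g c‖ * Real.exp M) := by
      calc ‖P c‖ * ‖g w‖ ≤ ‖P w‖ * ‖g w‖ := by gcongr
        _ ≤ _ := by rw [← mul_assoc]; exact h1
    exact le_of_mul_le_mul_left this hp
  have key : ∀ z, f z ≠ 0 → logDeriv f z =
      ∑ ρ ∈ S, (analyticOrderNatAt f ρ : ℂ) * (1 / (z - ρ)) + logDeriv g z := by
    intro z hz
    have hPz : P z ≠ 0 := fun h => hz (by rw [hfg z]; exact mul_eq_zero_of_left h _)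
    have hgz : g z ≠ 0 := fun h => hz (by rw [hfg z, h, mul_zero])
    have e : f = fun w => P w * g w := funext hfg
    have hPd : DifferentiableAt ℂ P z := by simp only [hPdef]; fun_prop
    calc logDeriv f z = logDeriv (fun w => P w * g w) z := by rw [← e]
      _ = logDeriv P z + logDeriv g z := logDeriv_mul z hPz hgz hPd (hg z)
      _ = _ := by
        congr 1
        have hne' := Finset.prod_ne_zero_iff.1 hPz
        rw [hPdef, logDeriv_prod (fun ρ hρ => hne' ρ hρ) (fun ρ _ => by fun_prop)]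
        refine Finset.sum_congr rfl fun ρ _ => ?_
        rw [logDeriv_fun_pow (by fun_prop)]
        congr 1
        rw [logDeriv_apply]
        simp
  have := logDeriv_sub_le g hg c hR hM hgne hgb hs hs'
  convert this using 2
  rw [key s hfs, key s' hfs']
  simp only [mul_sub, Finset.sum_sub_distrib]
  ring

end Pool.Agent.P.MP_7eacff_nt
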