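import Pool.Agent.P.MP_7eacff_nt.RCount

/-!
On the Riemann hypothesis, for every `θ < 2` and every large `r`, a positive proportion of the
normalised distances between the `n`-th and the `(n + r)`-th zero of the zeta function are
at least `r + θ √r`.
-/

namespace Pool.Agent.P.MP_7eacff_nt.LargeRGapsKept

open Filter

/-- `γ 0 ≤ γ 1 ≤ ⋯` lists the positive ordinates of the zeros `1 / 2 + i y` with multiplicity. -/
theorem result (hRH : RiemannHypothesis) (γ : ℕ → ℝ) (hmono : Monotone γ) (hpos : ∀ n, 0 < γ n)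
    (hmult : ∀ y : ℝ, 0 < y →
      {n | γ n = y}.encard = analyticOrderAt riemannZeta (1 / 2 + y * Complex.I))
    (θ : ℝ) (hθ : θ < 2) :
    ∀ᶠ r : ℕ in atTop, ∃ η : ℝ, 0 < η ∧ ∀ᶠ N : ℕ in atTop,
      η * N ≤ ((Finset.range N).filter fun n =>
        r + θ * √r ≤ (γ (n + r) - γ n) / (2 * Real.pi) * Real.log (γ n / (2 * Real.pi))).card := by
  simpa only [sub_sub_cancel] using Pool.Agent.P.MP_7eacff_nt.large_rgaps
    (Pool.Agent.P.MP_7eacff_nt.zdata hRH) (Pool.Agent.P.MP_7eacff_nt.enum_zmeas hmono hpos hmult)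
    (sub_pos.2 hθ)

end Pool.Agent.P.MP_7eacff_nt.LargeRGapsKept
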