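import Pool.Agent.P.MP_7eacff_nt.EF

/-!
The explicit formula at microscopic scale, uniformly for heights of size `T`.
-/

open Complex Filter Topology MeasureTheory Set ArithmeticFunction
open scoped Real

namespace Pool.Agent.P.MP_7eacff_nt

/-- The linear statistic of the points near `t`, at the scale of the mean spacing. -/
noncomputable def stat (μ : Measure ℝ) (h : ℝ → ℂ) (T t : ℝ) : ℂ :=
  ∫ y, h (Real.log T / (2 * π) * (y - t)) ∂μ

theorem ZData.local_ef {μ : Measure ℝ} [SFinite μ] (hμ : ZData μ) {fp fm : ℝ → ℂ} {θ B : ℝ}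
    (hp : Bump fp θ B) (hm : Bump fm θ B) (h0 : fp 0 = fm 0) (hθ : 0 < θ) (hθ1 : θ < 1) {ε : ℝ}
    (hε : 0 < ε) : ∀ᶠ T in atTop, ∀ t ∈ Icc (T / 2) (3 * T),
      ‖stat μ (iF (pw fp fm)) T t - fp 0 + Psum fp T t + Psum (fun u => fm (-u)) T (-t)‖ ≤ ε := by
  set β := (1 + θ) / 2 with hβ
  have hβ0 : 0 < β := by rw [hβ]; linarith only [hθ, hθ1]
  have hβ1 : β < 1 := by rw [hβ]; linarith
  obtain ⟨C, hC, hg⟩ := hμ.gg_sub_le hβ0 hβ1
  have hB := hp.nonneg
  have hIi := integrable_rpow_div (α := (1 + β) / 2) (by linarith only [hβ1])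
  set I0 := ∫ y : ℝ, (1 + |y|) ^ ((1 + β) / 2) / (1 + y ^ 2) with hI0
  have hI00 : 0 ≤ I0 := integral_nonneg fun y => by positivity
  have hlim : Tendsto (fun T : ℝ => 768 * B * C * I0 * 2 * T ^ (-(β - θ))) atTop (𝓝 0) := by
    simpa using (tendsto_rpow_neg_atTop (show 0 < β - θ by rw [hβ]; linarith only [hβ, hβ1])).const_mul
      (768 * B * C * I0 * 2)
  filter_upwards [eventually_ge_atTop 4, Real.tendsto_log_atTop.eventually_ge_atTop (2 * π),
    hμ.gg_ratio (show 0 < ε / 2 / (B + 1) by positivity),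
    hlim.eventually_le_const (show 0 < ε / 2 by positivity)] with T hT hL hr he t ht
  have hT0 : 0 < T := by linarith only [hθ, hβ, hβ1, hT]
  have hpi := Real.pi_pos
  set L := Real.log T with hLdef
  have hL0 : 0 < L := by linarith only [hpi, hL]
  set lam := L / (2 * π) with hlamdef
  have hlam : 1 ≤ lam := by rw [hlamdef, le_div_iff₀ (by positivity)]; linarith only [hL]
  have hlam0 : 0 < lam := by linarith only [hθ, hβ, hβ1, hlam]
  have hlamc : (lam : ℂ) ≠ 0 := by exact_mod_cast hlam0.ne'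
  have hb : |2 * π| ≤ 7 := by rw [abs_of_pos (by positivity)]; linarith only [hθ, hβ, hβ1, Real.pi_lt_d2]
  have hb' : |-(2 * π)| ≤ 7 := by rwa [abs_neg]
  have hψp := hp.scale_exp hlam hb
  have hψm := hm.scale_exp hlam hb'
  rw [abs_neg] at hψm
  have hexp : Real.exp (|2 * π| * (θ * lam)) = T ^ θ := by
    rw [abs_of_pos (by positivity), Real.rpow_def_of_pos hT0, hlamdef]
    rw [← hLdef]
    congr 1; field_simp
  rw [hexp] at hψp hψm
  set ψp : ℝ → ℂ := fun ξ => fp (ξ / lam) * (Real.exp (2 * π * ξ) : ℂ) with hψpdef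
  set ψm : ℝ → ℂ := fun ξ => fm (ξ / lam) * (Real.exp (-(2 * π) * ξ) : ℂ) with hψmdef
  have hψ0 : ψp 0 = ψm 0 := by simp [hψpdef, hψmdef, h0]
  have hψc := continuous_pw hψp.cd.continuous hψm.cd.continuous hψ0
  have hψ : ∀ ξ, pw ψp ψm ξ = pw fp fm (ξ / lam) * (Real.exp (2 * π * |ξ|) : ℂ) := by
    intro ξ
    by_cases hξ : 0 ≤ ξ
    · simp only [pw, hξ, div_nonneg hξ hlam0.le, if_true, abs_of_nonneg hξ, hψpdef]
    · have : ¬ 0 ≤ ξ / lam := not_le.2 (div_neg_of_neg_of_pos (not_le.1 hξ) hlam0)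
      simp only [pw, hξ, this, if_false, abs_of_neg (not_le.1 hξ), hψmdef]
      congr 3; ring
  set κ : ℝ → ℂ := fun ξ => pw ψp ψm ξ * ee (ξ * -t) / lam with hκ
  have hκc : Continuous κ := by simp only [hκ]; fun_prop
  have hκi : Integrable κ := hκc.integrable_of_hasCompactSupport
    (hasCompactSupport_of_zero (R := θ * lam) fun u hu => by
      simp only [hκ, pw_zero hψp.zero hψm.zero u hu, zero_mul, zero_div])
  have hiFκ : ∀ x, iF κ x = iF (pw ψp ψm) (x - t) / lam := by
    intro x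
    rw [iF, iF, ← integral_div]
    congr 1
    funext u
    rw [show u * (x - t) = u * -t + u * x by ring, ee_add]
    simp only [hκ]; ring
  have hk : ∀ x, ‖iF κ x‖ ≤ 768 * B * T ^ θ / (1 + (x - t) ^ 2) := by
    intro x
    rw [hiFκ, norm_div, norm_real, Real.norm_of_nonneg hlam0.le, div_le_iff₀ hlam0]
    refine (norm_iF_pw_le hψp hψm (by positivity) hψ0 _).trans ?_
    rw [div_mul_eq_mul_div]
    refine div_le_div_of_nonneg_right ?_ (by positivity)
    have h1 : 1 + θ * lam ≤ 2 * lam := by nlinarith only [hβ, hlam, hθ, hβ1, hθ1]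
    calc 6 * (1 + θ * lam) * (64 * B * T ^ θ) ≤ 6 * (2 * lam) * (64 * B * T ^ θ) := by gcongr
      _ = _ := by ring
  have hef := hμ.ef hκc hκi hk
  have hLHS : ∀ y, iF (fun u => κ u * (Real.exp (-(2 * π * |u|)) : ℂ)) y =
      iF (pw fp fm) (lam * (y - t)) := by
    intro y
    have := Measure.integral_comp_div (fun u => pw fp fm u * ee (u * (lam * (y - t)))) lam
    rw [abs_of_pos hlam0, real_smul] at this
    rw [iF, iF, ← mul_div_cancel_left₀ (∫ u, pw fp fm u * ee (u * (lam * (y - t)))) hlamc, ← this,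
      ← integral_div]
    congr 1
    funext u
    have e1 : u / lam * (lam * (y - t)) = u * -t + u * y := by field_simp; ring
    have e2 : (Real.exp (2 * π * |u|) : ℂ) * (Real.exp (-(2 * π * |u|)) : ℂ) = 1 := by
      rw [← ofReal_mul, ← Real.exp_add]; simp
    simp only [hκ, hψ, e1, ee_add]
    linear_combination (pw fp fm (u / lam) * ee (u * -t) * ee (u * y) / lam) * e2
  simp_rw [hLHS] at hef
  have hkc := continuous_iF hκi
  have hki : Integrable (iF κ) := integrable_of_decay hkc.aestronglyMeasurable hk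
  have hint0 : ∫ x, iF κ x = fp 0 / lam := by
    have := iF_iF hκc hκi hki 0
    simp only [iF, neg_zero, mul_zero, ee_zero, mul_one] at this
    simp only [iF]
    rw [this]
    simp [hκ, pw, hψpdef]
  have ht2 : 2 ≤ t := by linarith only [hT, ht.1]
  have hbd : ∀ x, ‖iF κ x * ((gg μ x - gg μ t : ℝ) : ℂ)‖ ≤ 768 * B * T ^ θ * C * t ^ (-β) *
      ((1 + |x - t|) ^ ((1 + β) / 2) / (1 + (x - t) ^ 2)) := by
    intro x
    rw [norm_mul, norm_real, Real.norm_eq_abs]
    calc _ ≤ 768 * B * T ^ θ / (1 + (x - t) ^ 2) *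
          (C * (1 + |x - t|) ^ ((1 + β) / 2) * t ^ (-β)) :=
          mul_le_mul (hk x) (hg t ht2 x) (abs_nonneg _) (by positivity)
      _ = _ := by ring
  have hmg : Measurable (gg μ) := (measurable_G μ).add continuous_Dser.measurable
  have hbi := (hIi.comp_sub_right t).const_mul (768 * B * T ^ θ * C * t ^ (-β))
  have hdi : Integrable fun x => iF κ x * ((gg μ x - gg μ t : ℝ) : ℂ) :=
    hbi.mono' (hkc.aestronglyMeasurable.mul
      (continuous_ofReal.measurable.comp (hmg.sub_const _)).aestronglyMeasurable) (ae_of_all _ hbd)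
  have hsplit : ∫ x, iF κ x * gg μ x =
      (∫ x, iF κ x * ((gg μ x - gg μ t : ℝ) : ℂ)) + fp 0 / lam * gg μ t := by
    rw [← hint0, ← integral_mul_const, ← integral_add hdi (hki.mul_const _)]
    congr 1
    funext x
    push_cast; ring
  have herr : ‖∫ x, iF κ x * ((gg μ x - gg μ t : ℝ) : ℂ)‖ ≤ ε / 2 := by
    refine (norm_integral_le_of_norm_le hbi (ae_of_all _ hbd)).trans ?_
    rw [integral_const_mul, integral_sub_right_eq_self
      (fun y : ℝ => (1 + |y|) ^ ((1 + β) / 2) / (1 + y ^ 2)) t, ← hI0]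
    refine le_trans ?_ he
    have h1 : t ^ (-β) ≤ (T / 2) ^ (-β) :=
      Real.rpow_le_rpow_of_nonpos (by positivity) ht.1 (by linarith only [hθ, hβ, hβ1])
    have h2 : (T / 2) ^ (-β) ≤ 2 * T ^ (-β) := by
      rw [Real.div_rpow hT0.le (by norm_num), Real.rpow_neg (by norm_num : (0 : ℝ) ≤ 2),
        div_inv_eq_mul, mul_comm]
      gcongr
      simpa using Real.rpow_le_rpow_of_exponent_le (by norm_num : (1 : ℝ) ≤ 2) hβ1.le
    have h3 : T ^ (-(β - θ)) = T ^ θ * T ^ (-β) := by
      rw [← Real.rpow_add hT0]; congr 1; ring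
    rw [h3]
    calc _ ≤ 768 * B * T ^ θ * C * (2 * T ^ (-β)) * I0 := by gcongr; exact h1.trans h2
      _ = _ := by ring
  have hprime : (∑' n : ℕ, ((vonMangoldt n * (n : ℝ) ^ (-(3 / 2) : ℝ) : ℝ) : ℂ) *
        (κ (Real.log n / (2 * π)) + κ (-(Real.log n / (2 * π))))) / (2 * π) =
      Psum fp T t + Psum (fun u => fm (-u)) T (-t) := by
    have hq : ∀ n : ℕ, Real.log n / (2 * π) / lam = Real.log n / L := fun n => by
      rw [hlamdef]; field_simp
    rw [tsum_eq_sum (s := Finset.Icc 1 ⌊T⌋₊), Psum, Psum, ← Finset.sum_add_distrib,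
      Finset.sum_div]
    · refine Finset.sum_congr rfl fun n hn => ?_
      have hn1 : 1 ≤ n := (Finset.mem_Icc.1 hn).1
      rcases hn1.eq_or_lt with rfl | hn1
      · simp
      have hn' : (1 : ℝ) < n := by exact_mod_cast hn1
      have hl : 0 < Real.log n := Real.log_pos hn'
      have hl' : 0 < Real.log n / (2 * π) := by positivity
      have hE : Real.exp (2 * π * (Real.log n / (2 * π))) = n := by
        rw [mul_div_cancel₀ _ (by positivity), Real.exp_log (by linarith only [hθ, hβ, hβ1, hn'])]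
      have hneg : ¬ 0 ≤ -(Real.log n / L) := by
        have : 0 < Real.log n / L := by positivity
        linarith only [this]
      have hpos : 0 ≤ Real.log n / L := by positivity
      have hs : (n : ℝ) ^ (-(3 / 2) : ℝ) = 1 / (n * √n) := by
        rw [Real.rpow_neg (by positivity), Real.sqrt_eq_rpow, show (3 / 2 : ℝ) = 1 + 1 / 2 by norm_num,
          Real.rpow_add (by positivity), Real.rpow_one, one_div ((n : ℝ) * _)]
      have hsq : (0 : ℝ) < √n := Real.sqrt_pos.2 (by linarith only [hθ, hβ, hβ1, hn'])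
      simp only [hκ, hψ, abs_neg, abs_of_pos hl', hE, neg_div, hq]
      simp only [pw, hneg, hpos, if_true, if_false, hs, ch, mul_neg, neg_mul, neg_neg, ← hLdef]
      have c1 : (n : ℂ) ≠ 0 := by exact_mod_cast (by linarith only [hθ, hβ, hβ1, hn'] : (n : ℝ) ≠ 0)
      have c2 : ((√n : ℝ) : ℂ) ≠ 0 := by exact_mod_cast hsq.ne'
      have c3 : (L : ℂ) ≠ 0 := by exact_mod_cast hL0.ne'
      have c4 : (π : ℂ) ≠ 0 := by exact_mod_cast hpi.ne'
      rw [hlamdef]
      push_cast
      field_simp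
    · intro n hn
      rcases Nat.eq_zero_or_pos n with rfl | hn0
      · simp
      have hn' : ⌊T⌋₊ < n := by
        rw [Finset.mem_Icc, not_and_or] at hn
        omega
      have hTn : T < n := (Nat.floor_lt hT0.le).1 hn'
      have hl : L < Real.log n := Real.log_lt_log hT0 hTn
      have hz : θ * lam < |Real.log n / (2 * π)| := by
        rw [abs_of_pos (div_pos (by linarith only [hpi, hL, hl]) (by positivity)), hlamdef, ← mul_div_assoc]
        gcongr
        nlinarith only [hl, hθ1, hpi, hL]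
      simp only [hκ, pw_zero hψp.zero hψm.zero _ hz,
        pw_zero hψp.zero hψm.zero (-(Real.log n / (2 * π))) (by rwa [abs_neg])]
      simp
  have hfin : stat μ (iF (pw fp fm)) T t - fp 0 + Psum fp T t + Psum (fun u => fm (-u)) T (-t) =
      (∫ x, iF κ x * ((gg μ x - gg μ t : ℝ) : ℂ)) / π +
        fp 0 * ((2 * gg μ t / L - 1 : ℝ) : ℂ) := by
    have c3 : (L : ℂ) ≠ 0 := by exact_mod_cast hL0.ne'
    have c4 : (π : ℂ) ≠ 0 := by exact_mod_cast hpi.ne'
    rw [stat, ← hLdef, ← hlamdef, hef, hprime, hsplit, hlamdef]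
    push_cast
    field_simp
    ring
  rw [hfin]
  refine (norm_add_le _ _).trans ?_
  have a1 : ‖(∫ x, iF κ x * ((gg μ x - gg μ t : ℝ) : ℂ)) / π‖ ≤ ε / 2 := by
    rw [norm_div, norm_real, Real.norm_of_nonneg hpi.le]
    exact (div_le_self (norm_nonneg _) (by linarith only [hθ, hβ, hβ1, Real.pi_gt_three])).trans herr
  have a2 : ‖fp 0 * ((2 * gg μ t / L - 1 : ℝ) : ℂ)‖ ≤ ε / 2 := by
    rw [norm_mul, norm_real, Real.norm_eq_abs]
    calc _ ≤ (B + 1) * (ε / 2 / (B + 1)) :=
          mul_le_mul ((hp.b0 0).trans (by linarith only [hθ, hβ, hβ1])) (hr t ht) (abs_nonneg _) (by positivity)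
      _ = ε / 2 := by field_simp
  linarith only [a1, a2]

end Pool.Agent.P.MP_7eacff_nt
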