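import Pool.Agent.P.MP_7eacff_nt.Reso2
import Pool.Agent.P.MP_7eacff_nt.Coprime

/-!
The two-sided resonator, supported on fractions in lowest terms.
-/

open Complex Filter Topology MeasureTheory Set ArithmeticFunction
open scoped Real

namespace Pool.Agent.P.MP_7eacff_nt

/-- The two-sided resonator. -/
noncomputable def res2 (J : ℕ) (ψ : ℕ → ℝ) (φ : ℕ → ℝ → ℝ) (h T t : ℝ) : ℂ :=
  ∑ p ∈ S2 (jj h T) ⌊T⌋₊ J, ((bb (jj h T) (al φ h T) ψ p.1 * bb (jj h T) (al φ h T) ψ p.2 : ℝ) : ℂ) *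
    (ch p.1 t * ch p.2 (-t))

@[fun_prop] theorem continuous_res2 (J : ℕ) (ψ : ℕ → ℝ) (φ : ℕ → ℝ → ℝ) (h T : ℝ) :
    Continuous (res2 J ψ φ h T) := by
  unfold res2; fun_prop

theorem Win.mean_diag {P : Measure ℝ} (hP : Win P) {ι : Type*} (s : Finset ι) (a : ι → ℝ)
    (N M : ι → ℕ) {Y T0 : ℝ} (hN : ∀ i ∈ s, 1 ≤ N i) (hM : ∀ i ∈ s, 1 ≤ M i ∧ (M i : ℝ) ≤ Y)
    (hT : 2 * π * (Y + 1) ≤ T0) (X : ℝ) :
    ∫ v, ∑ i ∈ s, (a i : ℂ) * (ch (N i) (X + T0 * v) * ch (M i) (-(X + T0 * v))) ∂P =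
      ((∑ i ∈ s, if N i = M i then a i else 0 : ℝ) : ℂ) := by
  have := hP.prob
  rw [integral_finsetSum _ fun i _ =>
    (integrable_of_bdd (by fun_prop) 1 fun v => by simp).const_mul _]
  push_cast
  refine Finset.sum_congr rfl fun i hi => ?_
  simp_rw [← conj_ch]
  rw [integral_const_mul, hP.orth_ch (hN i hi) (hM i hi).1 (hM i hi).2 hT]
  split_ifs <;> simp

theorem card_divisors_mul_le (x : ℕ → ℝ) {n : ℕ} (hn : IsPrimePow n) :
    n.divisors.card * |cm x n| ≤ |cm (fun p => 2 * x p) n| := by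
  obtain ⟨p, a, hp, -, rfl⟩ := (isPrimePow_nat_iff _).1 hn
  rw [cm_prime_pow _ hp, cm_prime_pow _ hp, mul_pow, abs_mul, Nat.divisors_prime_pow hp,
    Finset.card_map, Finset.card_range, abs_of_pos (by positivity : (0 : ℝ) < 2 ^ a)]
  gcongr
  exact_mod_cast Nat.lt_two_pow_self

namespace Cells

variable {J : ℕ} {h δ B : ℝ} {φ : ℕ → ℝ → ℝ} (hC : Cells J h δ B φ)
include hC

theorem ar (ψ : ℕ → ℝ) {T : ℝ} (hT : 1 < T) : Ar (jj h T) (al φ h T) ψ ⌊T⌋₊ J (B * T ^ (-(δ / 2)))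
    (∑ s ∈ Finset.range (J + 1), |ψ s|) :=
  ⟨hC.one_le_jj hT, hC.le_floor_of_sz hT, hC.abs_al_le hT, fun s hs =>
    Finset.single_le_sum (f := fun s => |ψ s|) (fun _ _ => abs_nonneg _)
      (Finset.mem_range.2 (by omega))⟩

theorem mem_S2 {T : ℝ} (hT : 1 < T) {p q : ℕ × ℕ} (hp : p ∈ S2 (jj h T) ⌊T⌋₊ J)
    (hq : q ∈ S2 (jj h T) ⌊T⌋₊ J) : p.1 ≠ 0 ∧ p.2 ≠ 0 ∧ q.1 ≠ 0 ∧ q.2 ≠ 0 ∧
      ((p.1 * q.2 : ℕ) : ℝ) ≤ T ^ (2 * (h * J)) ∧ ((p.2 * q.1 : ℕ) : ℝ) ≤ T ^ (2 * (h * J)) := by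
  have hA := hC.ar 0 hT
  simp only [S2, Finset.mem_filter, Finset.mem_product, hA.mem_SS] at hp hq
  have key : ∀ m n : ℕ, m ≠ 0 ∧ sz (jj h T) m ≤ J → n ≠ 0 ∧ sz (jj h T) n ≤ J →
      ((m * n : ℕ) : ℝ) ≤ T ^ (2 * (h * J)) := fun m n hm hn => by
    rw [two_mul, Real.rpow_add (by linarith only [hT]), Nat.cast_mul]
    exact mul_le_mul (hC.le_rpow_of_sz hT hm.1 hm.2) (hC.le_rpow_of_sz hT hn.1 hn.2)
      (Nat.cast_nonneg _) (by positivity)
  exact ⟨hp.1.1.1, hp.1.2.1, hq.1.1.1, hq.1.2.1, key _ _ hp.1.1 hq.1.2, key _ _ hp.1.2 hq.1.1⟩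

theorem normSq_res2 (ψ : ℕ → ℝ) {T : ℝ} (hT : 1 < T) (t : ℝ) :
    ((‖res2 J ψ φ h T t‖ ^ 2 : ℝ) : ℂ) = ∑ z ∈ S2 (jj h T) ⌊T⌋₊ J ×ˢ S2 (jj h T) ⌊T⌋₊ J,
      ((bb (jj h T) (al φ h T) ψ z.1.1 * bb (jj h T) (al φ h T) ψ z.1.2 *
        (bb (jj h T) (al φ h T) ψ z.2.1 * bb (jj h T) (al φ h T) ψ z.2.2) : ℝ) : ℂ) *
        (ch (z.1.1 * z.2.2) t * ch (z.1.2 * z.2.1) (-t)) := by
  rw [ofReal_pow, ← Complex.mul_conj', res2, map_sum, Finset.sum_mul_sum, Finset.sum_product]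
  refine Finset.sum_congr rfl fun p hp => Finset.sum_congr rfl fun q hq => ?_
  obtain ⟨h1, h2, h3, h4, -⟩ := hC.mem_S2 hT hp hq
  simp only [map_mul, conj_ofReal, conj_ch, neg_neg, ch_mul h1 h4, ch_mul h2 h3]
  push_cast; ring

theorem mean_sq2 {P : Measure ℝ} (hP : Win P) (ψ : ℕ → ℝ) {T T0 : ℝ} (hT : 1 < T)
    (hT0 : 2 * π * (T ^ (2 * (h * J)) + 1) ≤ T0) (X : ℝ) :
    ∫ v, ‖res2 J ψ φ h T (X + T0 * v)‖ ^ 2 ∂P = Tn (jj h T) (al φ h T) ψ ⌊T⌋₊ J 1 := by
  apply ofReal_injective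
  rw [← integral_complex_ofReal]
  simp_rw [hC.normSq_res2 ψ hT]
  rw [hP.mean_diag _ _ _ _ (fun z hz => ?_) (fun z hz => ?_) hT0, Tn, Finset.sum_product]
  · simp only [one_mul]
  all_goals
    obtain ⟨h1, h2, h3, h4, h5, h6⟩ := hC.mem_S2 hT (Finset.mem_product.1 hz).1
      (Finset.mem_product.1 hz).2
  · exact Nat.pos_of_ne_zero (mul_ne_zero h1 h4)
  · exact ⟨Nat.pos_of_ne_zero (mul_ne_zero h2 h3), h6⟩

theorem mean_twist2 {P : Measure ℝ} (hP : Win P) (ψ : ℕ → ℝ) (g : ℝ → ℝ) {T T0 : ℝ} (hT : 1 < T)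
    (hT0 : 2 * π * (T ^ (2 * (h * J)) + 1) ≤ T0) (X : ℝ) :
    ∫ v, ((‖res2 J ψ φ h T (X + T0 * v)‖ ^ 2 : ℝ) : ℂ) * Psum (fun u => g u) T (X + T0 * v) ∂P =
      ((∑ n ∈ Finset.Icc 1 ⌊T⌋₊, vonMangoldt n / (√n * Real.log T) * g (Real.log n / Real.log T) *
        Tn (jj h T) (al φ h T) ψ ⌊T⌋₊ J n : ℝ) : ℂ) := by
  have h1 := hP.mean_diag (Finset.Icc 1 ⌊T⌋₊ ×ˢ (S2 (jj h T) ⌊T⌋₊ J ×ˢ S2 (jj h T) ⌊T⌋₊ J))
    (fun y => vonMangoldt y.1 / (√y.1 * Real.log T) * g (Real.log y.1 / Real.log T) *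
      (bb (jj h T) (al φ h T) ψ y.2.1.1 * bb (jj h T) (al φ h T) ψ y.2.1.2 *
        (bb (jj h T) (al φ h T) ψ y.2.2.1 * bb (jj h T) (al φ h T) ψ y.2.2.2)))
    (fun y => y.1 * y.2.1.1 * y.2.2.2) (fun y => y.2.1.2 * y.2.2.1) (fun y hy => ?_)
    (fun y hy => ?_) hT0 X
  · refine Eq.trans (integral_congr_ae (ae_of_all _ fun v => ?_)) (h1.trans ?_)
    · simp only
      rw [hC.normSq_res2 ψ hT, Psum, mul_comm, Finset.sum_mul_sum, Finset.sum_product]
      refine Finset.sum_congr rfl fun n hn => Finset.sum_congr rfl fun z hz => ?_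
      obtain ⟨h1, h2, h3, h4, -⟩ := hC.mem_S2 hT (Finset.mem_product.1 hz).1
        (Finset.mem_product.1 hz).2
      rw [mul_assoc n, ch_mul (by have := Finset.mem_Icc.1 hn; omega) (mul_ne_zero h1 h4)]
      push_cast; ring
    · congr 1
      rw [Finset.sum_product]
      refine Finset.sum_congr rfl fun n _ => ?_
      rw [Tn, Finset.sum_product]
      simp only [Finset.mul_sum, mul_ite, mul_zero]
  all_goals
    obtain ⟨hn, hz⟩ := Finset.mem_product.1 hy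
    obtain ⟨h1, h2, h3, h4, h5, h6⟩ := hC.mem_S2 hT (Finset.mem_product.1 hz).1
      (Finset.mem_product.1 hz).2
  · exact Nat.pos_of_ne_zero (mul_ne_zero (mul_ne_zero
      (by have := Finset.mem_Icc.1 hn; omega) h1) h4)
  · exact ⟨Nat.pos_of_ne_zero (mul_ne_zero h2 h3), h6⟩

omit hC in
theorem tendsto_NT {r : ℕ → ℝ}
    (hr : Lim J φ h r) (ψ : ℕ → ℝ) :
    Tendsto (fun T : ℝ => ∑ l ∈ SS (jj h T) ⌊T⌋₊ J, bb (jj h T) (al φ h T) ψ l ^ 2) atTop
      (𝓝 (NN J ψ r)) :=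
  (tendsto_mean_sq hr ψ).congr fun T => by
    rw [← sum_filter_le_eq (c := fun s => ψ s ^ 2)]
    exact Finset.sum_congr rfl fun n _ => by rw [bb, mul_pow]

omit hC in
theorem tendsto_ZZ {r : ℕ → ℝ}
    (hr : Lim J φ h r) :
    Tendsto (fun T : ℝ => ZZ (jj h T) (al φ h T) ⌊T⌋₊ J) atTop (𝓝 (NN J 1 r)) := by
  simpa [bb, ZZ] using tendsto_NT hr 1

theorem tendsto_sq2 {r : ℕ → ℝ}
    (hr : Lim J φ h r) (ψ : ℕ → ℝ) :
    Tendsto (fun T : ℝ => Tn (jj h T) (al φ h T) ψ ⌊T⌋₊ J 1) atTop (𝓝 (NN J ψ r ^ 2)) := by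
  have h1 := (((tendsto_ZZ hr).pow 2).const_mul ((∑ s ∈ Finset.range (J + 1), |ψ s|) ^ 4)).mul
    ((hC.tendsto_eps.pow 2).const_mul (J : ℝ))
  simp only [ne_eq, OfNat.ofNat_ne_zero, not_false_eq_true, zero_pow, mul_zero] at h1
  refine ((tendsto_NT hr ψ).pow 2).congr_dist
    (squeeze_zero' (Eventually.of_forall fun _ => dist_nonneg) ?_ h1)
  filter_upwards [eventually_gt_atTop 1] with T hT
  rw [dist_comm]
  exact (hC.ar ψ hT).abs_sq_sub

theorem tendsto_err {g : ℝ → ℝ} {B' : ℝ} (hB' : ∀ u, |g u| ≤ B') :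
    Tendsto (fun T : ℝ => ∑ n ∈ Finset.Icc 1 ⌊T⌋₊,
      |vonMangoldt n / (√n * Real.log T) * g (Real.log n / Real.log T)| * (|cm (al φ h T) n| *
        (2 * (J * (B * T ^ (-(δ / 2))) ^ 2) + if n.Prime then 0 else n.divisors.card))) atTop
      (𝓝 0) := by
  have hB0 : 0 ≤ B' := (abs_nonneg _).trans (hB' 0)
  have hB := hC.B_nonneg
  have h3 : Tendsto (fun T : ℝ => (2 * J * B * B' + 16 * (2 * J + 1) * B') *
      (B * T ^ (-(δ / 2))) ^ 2 * 2) atTop (𝓝 0) := by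
    simpa using ((hC.tendsto_eps.pow 2).const_mul
      (2 * J * B * B' + 16 * (2 * J + 1) * B')).mul_const 2
  refine squeeze_zero' (Eventually.of_forall fun T => Finset.sum_nonneg fun n _ => ?_) ?_ h3
  · split_ifs <;> positivity
  filter_upwards [eventually_gt_atTop 1, Real.tendsto_log_atTop.eventually_ge_atTop 6,
    hC.tendsto_eps.eventually_le_const (show (0 : ℝ) < 1 / 4 by norm_num)] with T hT hL he
  have hal := hC.abs_al_le hT
  have hL0 := Real.log_pos hT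
  have he0 : 0 ≤ B * T ^ (-(δ / 2)) := by positivity
  generalize B * T ^ (-(δ / 2)) = e at *
  have h1 := sum_nonprime_le (F := fun k => |cm (fun p => 2 * al φ h T p) k| / √k)
    (w := fun p => (2 * J + 1) * B' * (Real.log p / Real.log T))
    (fun p _ => by positivity) (fun p hp => by
      rw [cm_prime _ hp, abs_mul, abs_two]
      have h1 : 1 ≤ √(p : ℝ) := Real.one_le_sqrt.2 (by exact_mod_cast hp.one_lt.le)
      exact (div_le_self (by positivity) h1).trans (by linarith only [he, hal p hp]))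
    (fun p a hp => by
      rw [cm_prime_pow _ hp, cm_prime _ hp, abs_pow, div_pow, Nat.cast_pow,
        Real.sqrt_eq_rpow, Real.sqrt_eq_rpow, ← Real.rpow_natCast_mul (Nat.cast_nonneg _),
        ← Real.rpow_mul_natCast (Nat.cast_nonneg _), mul_comm (a : ℝ)])
    (fun p _ => by have := Real.log_natCast_nonneg p; positivity) ⌊T⌋₊
  calc _ ≤ (∑ p ∈ Finset.Icc 1 ⌊T⌋₊ with p.Prime,
          2 * J * B * B' * e ^ 2 * (Real.log p / (p * Real.log T))) +
        ∑ k ∈ Finset.Icc 1 ⌊T⌋₊ with IsPrimePow k ∧ ¬ k.Prime, (2 * J + 1) * B' *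
          (Real.log k.minFac / Real.log T) * (|cm (fun p => 2 * al φ h T p) k| / √k) := by
        rw [Finset.sum_filter, Finset.sum_filter, ← Finset.sum_add_distrib]
        refine Finset.sum_le_sum fun n hn => ?_
        have hn1 := Finset.mem_Icc.1 hn
        have hn' : (1 : ℝ) ≤ n := by exact_mod_cast hn1.1
        have hl := Real.log_natCast_nonneg n.minFac
        rw [vonMangoldt_apply]
        by_cases hp : n.Prime
        · simp only [hp, hp.isPrimePow, if_true, not_true, and_false, if_false, Nat.cast_zero,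
            add_zero, hp.minFac_eq, cm_prime _ hp] at hl ⊢
          have h4 : Real.log n / Real.log T ≤ 1 := by
            rw [div_le_one hL0]
            exact Real.log_le_log (by linarith only [hn']) ((Nat.le_floor_iff (by linarith only [hT])).1 hn1.2)
          rw [al, abs_mul, abs_mul, abs_of_nonneg (by positivity : 0 ≤ Real.log n / (√n * Real.log T))]
          calc _ ≤ Real.log n / (√n * Real.log T) * B' *
                (B * (Real.log n / (√n * Real.log T)) * (2 * (J * e ^ 2))) := by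
                gcongr
                · exact hB' _
                · exact hC.bdd _ _
            _ = 2 * J * B * B' * e ^ 2 * (Real.log n / (√n * √n * Real.log T)) *
                (Real.log n / Real.log T) := by ring
            _ ≤ _ := by
                rw [Real.mul_self_sqrt (by linarith only [hn'])]
                exact mul_le_of_le_one_right (by positivity) h4
        by_cases hq : IsPrimePow n
        · simp only [hp, hq, if_true, if_false, not_false_eq_true, and_self, zero_add]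
          have h4 := card_divisors_mul_le (al φ h T) hq
          have h5 : (1 : ℝ) ≤ n.divisors.card := by
            exact_mod_cast Finset.card_pos.2 ⟨1, Nat.one_mem_divisors.2 (by omega)⟩
          have h6 : 2 * (J * e ^ 2) + n.divisors.card ≤ (2 * J + 1) * n.divisors.card := by
            have : e ^ 2 ≤ n.divisors.card := by nlinarith only [he, h5, he0]
            nlinarith only [this, (Nat.cast_nonneg J : (0 : ℝ) ≤ J)]
          rw [abs_mul, abs_of_nonneg (by positivity : 0 ≤ Real.log n.minFac / (√n * Real.log T))]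
          calc _ ≤ Real.log n.minFac / (√n * Real.log T) * B' *
                (|cm (al φ h T) n| * ((2 * J + 1) * n.divisors.card)) := by
                gcongr; exact hB' _
            _ = (2 * J + 1) * B' * (Real.log n.minFac / Real.log T) *
                (n.divisors.card * |cm (al φ h T) n| / √n) := by ring
            _ ≤ _ := by gcongr
        · simp [hp, hq]
    _ ≤ ∑ p ∈ Finset.Icc 1 ⌊T⌋₊ with p.Prime, (2 * J * B * B' + 16 * (2 * J + 1) * B') * e ^ 2 *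
          (Real.log p / (p * Real.log T)) := by
        refine (add_le_add le_rfl h1).trans ?_
        rw [← Finset.sum_add_distrib]
        refine Finset.sum_le_sum fun p hp => ?_
        have hp' := (Finset.mem_filter.1 hp).2
        have hl := Real.log_natCast_nonneg p
        have h4 : al φ h T p ^ 2 ≤ e ^ 2 := sq_le_sq' (abs_le.1 (hal p hp')).1 (abs_le.1 (hal p hp')).2
        rw [cm_prime _ hp', div_pow, sq_abs, Real.sq_sqrt (Nat.cast_nonneg _),
          add_mul (2 * J * B * B'), add_mul (2 * J * B * B' * e ^ 2)]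
        refine add_le_add le_rfl ?_
        calc _ = 16 * (2 * J + 1) * B' * al φ h T p ^ 2 * (Real.log p / (p * Real.log T)) := by ring
          _ ≤ _ := by gcongr
    _ ≤ _ := by
        rw [← Finset.mul_sum]
        gcongr
        exact sum_log_div_le hT hL

theorem tendsto_twist2 {r : ℕ → ℝ}
    (hr : Lim J φ h r) (ψ : ℕ → ℝ)
    {g : ℝ → ℝ} (hg : ContDiff ℝ 1 g) {B' : ℝ} (hB' : ∀ u, |g u| ≤ B') :
    Tendsto (fun T : ℝ => ∑ n ∈ Finset.Icc 1 ⌊T⌋₊, vonMangoldt n / (√n * Real.log T) *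
      g (Real.log n / Real.log T) * Tn (jj h T) (al φ h T) ψ ⌊T⌋₊ J n) atTop
      (𝓝 (2 * (MM J ψ r (fun i => ∫ u in (0 : ℝ)..1, φ i u * u * g u) * NN J ψ r))) := by
  have h1 := (((tendsto_ZZ hr).pow 2).const_mul ((∑ s ∈ Finset.range (J + 1), |ψ s|) ^ 4)).mul
    (hC.tendsto_err hB')
  rw [mul_zero] at h1
  refine (((hC.tendsto_mean_twist hr ψ hg hB').mul (tendsto_NT hr ψ)).const_mul 2).congr_dist
    (squeeze_zero' (Eventually.of_forall fun _ => dist_nonneg) ?_ h1)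
  filter_upwards [eventually_gt_atTop 1] with T hT
  have hA := hC.ar ψ hT
  rw [← sum_sum_eq_sum_Es (jj h T) ⌊T⌋₊ _ _ (fun i s => ψ s * ψ (i + s)) J, dist_comm, Real.dist_eq,
    Finset.sum_mul, Finset.mul_sum, ← Finset.sum_sub_distrib, Finset.mul_sum]
  refine (Finset.abs_sum_le_sum_abs _ _).trans (Finset.sum_le_sum fun n hn => ?_)
  have hn1 := (Finset.mem_Icc.1 hn).1
  have e : ∑ m ∈ Finset.Icc 1 ⌊T⌋₊, (if sz (jj h T) n + sz (jj h T) m ≤ J then
      ψ (sz (jj h T) m) * ψ (sz (jj h T) n + sz (jj h T) m) *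
        (vonMangoldt n / (√n * Real.log T) * g (Real.log n / Real.log T) * cm (al φ h T) n *
          cm (al φ h T) m ^ 2) else 0) =
      vonMangoldt n / (√n * Real.log T) * g (Real.log n / Real.log T) *
        ∑ k ∈ SS (jj h T) ⌊T⌋₊ J, if n * k ∈ SS (jj h T) ⌊T⌋₊ J then
          bb (jj h T) (al φ h T) ψ k * bb (jj h T) (al φ h T) ψ (n * k) else 0 := by
    rw [Finset.mul_sum]
    conv_rhs => rw [SS, Finset.sum_filter, ← SS]
    refine Finset.sum_congr rfl fun m hm => ?_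
    have hm0 : m ≠ 0 := by have := Finset.mem_Icc.1 hm; omega
    have hn0 : n ≠ 0 := by omega
    simp only [hA.mem_SS, bb, sz_mul _ hn0 hm0, cm_mul _ hn0 hm0, ne_eq, mul_eq_zero, hn0, hm0,
      or_self, not_false_eq_true, true_and]
    split_ifs
    · ring
    · omega
    · simp
    · rfl
  rw [e]
  rcases hn1.eq_or_lt with rfl | hn2
  · simp
  generalize vonMangoldt n / (√n * Real.log T) * g (Real.log n / Real.log T) = w
  rw [mul_assoc w, mul_left_comm 2 w, ← mul_sub, abs_mul]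
  exact (mul_le_mul_of_nonneg_left (hA.abs_Tn_sub hn2) (abs_nonneg w)).trans_eq (by ring)

theorem norm_res2_le (ψ : ℕ → ℝ) {T t Y : ℝ} (hT : 1 < T) (hY : 1 ≤ Y)
    (hq : ∀ i ≤ J, ‖qs (jj h T) ⌊T⌋₊ (fun n => (cm (al φ h T) n : ℂ) * ch n t) i‖ ≤ Y) :
    ‖res2 J ψ φ h T t‖ ≤ ZZ (jj h T) (al φ h T) ⌊T⌋₊ J *
      ((J + 1) * (∑ s ∈ Finset.range (J + 1), |ψ s|) * Y ^ J) ^ 2 := by
  have hA := hC.ar ψ hT
  have hΨ := hA.Ψ_nonneg
  have key : ∀ d ∈ SS (jj h T) ⌊T⌋₊ J, ‖∑ k ∈ SS (jj h T) ⌊T⌋₊ J with d ∣ k,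
      (bb (jj h T) (al φ h T) ψ k : ℂ) * ch k t‖ ≤
      |cm (al φ h T) d| * ((J + 1) * (∑ s ∈ Finset.range (J + 1), |ψ s|) * Y ^ J) := by
    intro d hd
    have hd0 := (hA.mem_SS.1 hd).1
    have h1 := hC.norm_res_le
      (fun s => if sz (jj h T) d + s ≤ J then ψ (sz (jj h T) d + s) else 0) hT hY hq
    have e : ∑ k ∈ SS (jj h T) ⌊T⌋₊ J with d ∣ k, (bb (jj h T) (al φ h T) ψ k : ℂ) * ch k t =
        (cm (al φ h T) d : ℂ) * ch d t * res J
          (fun s => if sz (jj h T) d + s ≤ J then ψ (sz (jj h T) d + s) else 0) φ h T t := by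
      rw [hA.sum_dvd hd0, Finset.sum_filter, res, Finset.mul_sum]
      refine Finset.sum_congr rfl fun k hk => ?_
      have hk0 := (hA.mem_SS.1 hk).1
      simp only [hA.mem_SS, bb, sz_mul _ hd0 hk0, cm_mul _ hd0 hk0, ne_eq, mul_eq_zero, hd0, hk0,
        or_self, not_false_eq_true, true_and, ch_mul hd0 hk0]
      split_ifs
      · push_cast; ring
      · simp
    rw [e, norm_mul, norm_mul, norm_ch, mul_one, norm_real, Real.norm_eq_abs]
    gcongr
    refine h1.trans ?_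
    gcongr
    refine (Finset.sum_le_card_nsmul _ _ (∑ s ∈ Finset.range (J + 1), |ψ s|)
      fun s _ => ?_).trans (by simp)
    split_ifs with hs
    · exact hA.hψ _ hs
    · rwa [abs_zero]
  have e : res2 J ψ φ h T t = ∑ p ∈ S2 (jj h T) ⌊T⌋₊ J,
      ((bb (jj h T) (al φ h T) ψ p.1 : ℂ) * ch p.1 t) *
        (starRingEnd ℂ) ((bb (jj h T) (al φ h T) ψ p.2 : ℂ) * ch p.2 t) :=
    Finset.sum_congr rfl fun p _ => by rw [map_mul, conj_ch, conj_ofReal]; push_cast; ring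
  rw [e, hA.sum_S2_eq (fun k => (bb (jj h T) (al φ h T) ψ k : ℂ) * ch k t)
    (fun k => (starRingEnd ℂ) ((bb (jj h T) (al φ h T) ψ k : ℂ) * ch k t)), ZZ, Finset.sum_mul]
  refine (norm_sum_le _ _).trans (Finset.sum_le_sum fun d hd => ?_)
  rw [← map_sum, norm_mul, norm_mul, norm_conj, ← sq, ← sq_abs (cm _ d), ← mul_pow]
  have h1 : ‖((moebius d : ℤ) : ℂ)‖ ≤ 1 := by
    rw [norm_intCast]; exact_mod_cast abs_moebius_le_one
  refine (mul_le_of_le_one_left (by positivity) h1).trans ?_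
  gcongr
  exact key d hd

theorem norm_res2_crude (ψ : ℕ → ℝ) : ∀ᶠ T in atTop, ∀ t,
    ‖res2 J ψ φ h T t‖ ≤ ((∑ s ∈ Finset.range (J + 1), |ψ s|) * T) ^ 2 := by
  filter_upwards [eventually_gt_atTop 1,
    hC.tendsto_eps.eventually_le_const (show (0 : ℝ) < 1 by norm_num)] with T hT he t
  have hA := hC.ar ψ hT
  have hΨ := hA.Ψ_nonneg
  have h1 : ∀ n ∈ SS (jj h T) ⌊T⌋₊ J, |bb (jj h T) (al φ h T) ψ n| ≤
      ∑ s ∈ Finset.range (J + 1), |ψ s| := fun n hn => (hA.abs_bb_le hn).trans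
    (mul_le_of_le_one_right hΨ (abs_cm_le_one (fun p hp => (hA.hx p hp).trans he) n))
  refine (norm_sum_le _ _).trans ((Finset.sum_le_card_nsmul _ _
    ((∑ s ∈ Finset.range (J + 1), |ψ s|) ^ 2) fun p hp => ?_).trans ?_)
  · have hp' := Finset.mem_product.1 (Finset.mem_filter.1 hp).1
    simp only [norm_mul, norm_ch, mul_one, norm_real, Real.norm_eq_abs, sq]
    exact mul_le_mul (h1 _ hp'.1) (h1 _ hp'.2) (abs_nonneg _) hΨ
  · rw [nsmul_eq_mul, mul_comm, mul_pow]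
    gcongr
    have h2 : (SS (jj h T) ⌊T⌋₊ J).card ≤ ⌊T⌋₊ := (Finset.card_filter_le _ _).trans (by simp)
    have h3 : (S2 (jj h T) ⌊T⌋₊ J).card ≤ ⌊T⌋₊ ^ 2 := (Finset.card_filter_le _ _).trans (by
      rw [Finset.card_product, sq]; gcongr)
    refine (Nat.cast_le.2 h3).trans ?_
    push_cast
    gcongr
    exact Nat.floor_le (by linarith only [hT])

end Cells

end Pool.Agent.P.MP_7eacff_nt
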