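import Pool.Agent.P.MP_7eacff_nt.Stat
import Pool.Agent.P.MP_7eacff_nt.Reso3

/-!
The mean number of points in a short window, weighted by the resonator.
-/

open Complex Filter Topology MeasureTheory Set ArithmeticFunction
open scoped Real

namespace Pool.Agent.P.MP_7eacff_nt

theorem exists_bound_res (J : ℕ) (ψ : ℕ → ℝ) (φ : ℕ → ℝ → ℝ) (h T : ℝ) :
    ∃ C, ∀ t, ‖((‖res2 J ψ φ h T t‖ ^ 2 : ℝ) : ℂ)‖ ≤ C := by
  refine ⟨(∑ p ∈ S2 (jj h T) ⌊T⌋₊ J,
    ‖((bb (jj h T) (al φ h T) ψ p.1 * bb (jj h T) (al φ h T) ψ p.2 : ℝ) : ℂ)‖) ^ 2, fun t => ?_⟩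
  rw [norm_real, Real.norm_of_nonneg (by positivity)]
  gcongr
  exact (norm_sum_le _ _).trans (Finset.sum_le_sum fun n _ => by
    rw [norm_mul, norm_mul (ch _ _), norm_ch, norm_ch, mul_one, mul_one])

namespace Cells

variable {J : ℕ} {h δ B : ℝ} {φ : ℕ → ℝ → ℝ} (hC : Cells J h δ B φ)
include hC

theorem band_res {μ P : Measure ℝ} [SFinite μ] (hμ : ZData μ) (hP : Win P) (ψ : ℕ → ℝ)
    {D : ℝ → ℂ} (hm : Measurable D) {K θ : ℝ} (hK : ∀ y, ‖D y‖ ≤ K / (1 + y ^ 2))
    (hD : ∀ u, |u| ≤ θ → iF D u = 0) {T T0 : ℝ} (hT : 1 < T) (hL : 2 * π ≤ Real.log T)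
    (hT0 : 0 < T0) (hθ : 2 * (h * J) + 1 / T0 ≤ θ) (X : ℝ) :
    ∫ v, ((‖res2 J ψ φ h T (X + T0 * v)‖ ^ 2 : ℝ) : ℂ) * stat μ D T (X + T0 * v) ∂P = 0 := by
  have := hP.prob
  obtain ⟨C, hCb⟩ := exists_bound_res J ψ φ h T
  have hDi : Integrable D :=
    integrable_of_decay (t := 0) hm.aestronglyMeasurable (by simpa using hK)
  have hK0 : 0 ≤ K := by simpa using (norm_nonneg _).trans (hK 0)
  have hL0 := Real.log_pos hT
  have hlam := one_le_lam hL
  set l := Real.log T / (2 * π) with hl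
  have hi := hμ.integrable_prod hP hm hK hL X T0
    (F := fun v => ((‖res2 J ψ φ h T (X + T0 * v)‖ ^ 2 : ℝ) : ℂ)) (by fun_prop) fun v => hCb _
  simp_rw [stat, ← integral_const_mul]
  rw [integral_integral_swap hi]
  refine integral_eq_zero_of_ae (ae_of_all _ fun y => ?_)
  have key : ∀ (a : ℂ) (m n : ℕ) (v : ℝ),
      a * (ch m (X + T0 * v) * ch n (-(X + T0 * v))) * D (l * (y - (X + T0 * v))) =
      (a * ee ((Real.log n - Real.log m) / (2 * π) * X)) *
        (ee ((Real.log n - Real.log m) / Real.log T * (l * T0 * v)) *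
          D (l * (y - X) - l * T0 * v)) := by
    intro a m n v
    have e1 : ch m (X + T0 * v) * ch n (-(X + T0 * v)) =
        ee ((Real.log n - Real.log m) / (2 * π) * X) *
          ee ((Real.log n - Real.log m) / Real.log T * (l * T0 * v)) := by
      rw [ch, ch, ← ee_add, ← ee_add, hl]
      congr 1
      field_simp
      ring
    rw [e1, show l * (y - (X + T0 * v)) = l * (y - X) - l * T0 * v by ring]
    ring
  have hint : ∀ (a : ℂ) (m n : ℕ), Integrable (fun v => a *
        (ee ((Real.log n - Real.log m) / Real.log T * (l * T0 * v)) *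
          D (l * (y - X) - l * T0 * v))) P := by
    intro a m n
    refine Integrable.const_mul ((integrable_const K).mono'
      (Measurable.aestronglyMeasurable ?_) (ae_of_all _ fun v => ?_)) _
    · exact (continuous_ee.measurable.comp (by fun_prop)).mul (hm.comp (by fun_prop))
    · rw [norm_mul, norm_ee, one_mul]
      exact (hK _).trans (div_le_self hK0 (by nlinarith only [sq_nonneg (l * (y - X) - l * T0 * v)]))
  show ∫ v, ((‖res2 J ψ φ h T (X + T0 * v)‖ ^ 2 : ℝ) : ℂ) * D (l * (y - (X + T0 * v))) ∂P = 0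
  simp_rw [hC.normSq_res2 ψ hT, Finset.sum_mul, key]
  rw [integral_finsetSum _ fun z _ => hint _ _ _]
  refine Finset.sum_eq_zero fun z hz => ?_
  rw [integral_const_mul, hP.band D θ (l * T0) _ _ hDi hD (by positivity), mul_zero]
  obtain ⟨h1, h2, h3, h4, h5, h6⟩ := hC.mem_S2 hT (Finset.mem_product.1 hz).1
    (Finset.mem_product.1 hz).2
  have hb : ∀ k : ℕ, k ≠ 0 → (k : ℝ) ≤ T ^ (2 * (h * J)) →
      0 ≤ Real.log k ∧ Real.log k ≤ 2 * (h * J) * Real.log T := fun k hk hk' => by
    refine ⟨Real.log_natCast_nonneg k, ?_⟩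
    rw [← Real.log_rpow (by linarith)]
    exact Real.log_le_log (by positivity) hk'
  have h7 := hb _ (mul_ne_zero h1 h4) h5
  have h8 := hb _ (mul_ne_zero h2 h3) h6
  have h1 : |(Real.log (z.1.2 * z.2.1 : ℕ) - Real.log (z.1.1 * z.2.2 : ℕ)) / Real.log T| ≤
      2 * (h * J) := by
    rw [abs_div, abs_of_pos hL0, div_le_iff₀ hL0, abs_le]
    constructor <;> linarith only [h7, h8, h7.1, h7.2, h8.1, h8.2]
  have h2 : 1 / (l * T0) ≤ 1 / T0 :=
    one_div_le_one_div_of_le hT0 (le_mul_of_one_le_left hT0.le hlam)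
  linarith only [hθ, h1, h2]

theorem mean_cnt {μ P : Measure ℝ} [SFinite μ] (hμ : ZData μ) (hP : Win P) (ψ : ℕ → ℝ) {r : ℕ → ℝ}
    (hr : Lim J φ h r) {c θ : ℝ}
    (hc : 0 < c) (hθ : 2 * (h * J) < θ) (hθ1 : θ < 1) {ε : ℝ} (hε : 0 < ε) :
    ∀ᶠ T in atTop, ∀ X ∈ Icc T (2 * T),
      |∫ v, ‖res2 J ψ φ h T (X + T ^ θ * v)‖ ^ 2 * cnt μ c T (X + T ^ θ * v) ∂P -
        (c * NN J ψ r ^ 2 - 2 * (2 * (MM J ψ r
          (fun i => ∫ u in (0 : ℝ)..1, φ i u * (Real.sin (π * c * u) / π)) * NN J ψ r)))| ≤ ε := by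
  have := hP.prob
  have hJ0 : 0 ≤ 2 * (h * J) := by have := hC.hpos; positivity
  have hθ0 : 0 < θ := hJ0.trans_lt hθ
  let χ : ContDiffBump (0 : ℝ) := ⟨θ, (1 + θ) / 2, hθ0, by linarith only [hθ1]⟩
  set g : ℝ → ℝ := fun u => χ u * gc c u with hg
  have hgd : ContDiff ℝ 2 g := χ.contDiff.mul (contDiff_gc hc.le)
  have hg1 : ∀ u, |u| ≤ θ → g u = gc c u := fun u hu => by
    rw [hg]; simp only
    rw [χ.one_of_mem_closedBall (by simpa using hu), one_mul]
  have hg0 : g 0 = c := by rw [hg1 0 (by simpa using hθ0.le)]; simp [gc]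
  have hgneg : ∀ u, g (-u) = g u := fun u => by simp only [hg, χ.neg, gc_neg]
  obtain ⟨B', hB'0, hB'⟩ := exists_bump (φ := fun u => (g u : ℂ)) (R := (1 + θ) / 2)
    (ofRealCLM.contDiff.comp hgd) (fun u hu => by
      simp only [hg]
      rw [χ.zero_of_le_dist (by simpa using hu.le)]; simp)
  have hgb : ∀ u, |g u| ≤ B' := fun u => by simpa using hB'.b0 u
  have hgi : Integrable fun u => (g u : ℂ) :=
    hB'.cd.continuous.integrable_of_hasCompactSupport (hasCompactSupport_of_zero hB'.zero)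
  set H := iF fun u => (g u : ℂ) with hH
  have hHc : Continuous H := continuous_iF hgi
  set KH := 6 * (1 + (1 + θ) / 2) * B' with hKH
  have hHb : ∀ y, ‖H y‖ ≤ KH / (1 + y ^ 2) := fun y => by
    simpa [pw_self] using norm_iF_pw_le hB' hB' (by linarith only [hθ, hθ1, hJ0]) rfl y
  have hKH0 : 0 ≤ KH := by positivity
  have hHi : Integrable H :=
    integrable_of_decay (t := 0) hHc.aestronglyMeasurable (by simpa using hHb)
  have hDm : Measurable fun y => ind c y - H y := (measurable_ind c).sub hHc.measurable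
  have hDb : ∀ y, ‖ind c y - H y‖ ≤ (1 + c ^ 2 + KH) / (1 + y ^ 2) := fun y => by
    rw [add_div]; exact (norm_sub_le _ _).trans (add_le_add (norm_ind_le c y) (hHb y))
  have hD0 : ∀ u, |u| ≤ θ → iF (fun y => ind c y - H y) u = 0 := fun u hu => by
    have e : iF (fun y => ind c y - H y) u = iF (ind c) u - iF H u := by
      simp only [iF, sub_mul]
      exact integral_sub (integrable_mul_ee (integrable_ind c) u) (integrable_mul_ee hHi u)
    have e2 := iF_iF hB'.cd.continuous hgi hHi (-u)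
    rw [neg_neg] at e2
    rw [e, iF_ind hc.le, hH, e2, hgneg, hg1 u hu, sub_self]
  have hw : (fun i => ∫ u in (0 : ℝ)..1, φ i u * u * g u) =
      fun i => ∫ u in (0 : ℝ)..1, φ i u * (Real.sin (π * c * u) / π) := by
    funext i
    congr 1
    funext u
    by_cases h0 : φ i u = 0
    · simp [h0]
    · obtain ⟨_, h2, h3, h4⟩ := hC.supp _ _ h0
      have h5 : (i : ℝ) ≤ J := by exact_mod_cast h4
      rw [hg1 u (by rw [abs_of_pos (by linarith only [h3, hC.δpos])]; nlinarith [hC.hpos]), mul_assoc,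
        mul_gc]
  have hN := hC.tendsto_sq2 hr ψ
  have hM := hC.tendsto_twist2 hr ψ (hgd.of_le (by norm_num)) hgb
  rw [hw] at hM
  obtain ⟨CG, hCG, hG⟩ := hμ.G_le_lin
  set Ψ := ∑ s ∈ Finset.range (J + 1), |ψ s| with hΨ
  set N := NN J ψ r ^ 2
  have hN0 : 0 ≤ N := sq_nonneg _
  filter_upwards [eventually_gt_atTop 1, Real.tendsto_log_atTop.eventually_ge_atTop (2 * π),
    eventually_window hJ0 hθ,
    (tendsto_rpow_atTop hθ0).eventually_ge_atTop (1 / (θ - 2 * (h * J))),
    hμ.local_ef hB' hB' rfl (by linarith only [hθ, hθ1, hJ0]) (by linarith only [hθ1]) (show 0 < ε / 4 / (N + 1) by positivity),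
    hC.norm_res2_crude ψ,
    (hP.tendsto_far hθ1 5 (Ψ ^ 4 * (KH * CG + c + 2 * B'))).eventually_le_const
      (show 0 < ε / 4 by positivity),
    hN.eventually_le_const (lt_add_one N),
    Metric.tendsto_nhds.1 ((hN.const_mul c).sub (hM.const_mul 2)) _ (half_pos hε)]
    with T hT hL hW hW2 hef hcr hfar hNT hclose X hX
  rw [pw_self] at hef
  have hT0 : 0 < T ^ θ := by positivity
  obtain ⟨C, hCb⟩ := exists_bound_res J ψ φ h T
  set F : ℝ → ℂ := fun v => ((‖res2 J ψ φ h T (X + T ^ θ * v)‖ ^ 2 : ℝ) : ℂ) with hF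
  have hFc : Continuous F := by simp only [hF]; fun_prop
  have hFb : ∀ v, ‖F v‖ ≤ C := fun v => hCb _
  have hPs : ∀ t, ‖Psum (fun u => (g u : ℂ)) T t‖ ≤ B' * T := norm_Psum_le hB'.b0 hT
  have iF1 : Integrable F P := integrable_of_bdd hFc C hFb
  have iH := hμ.integrable_mul_stat hP hHc.measurable hHb hL X (T ^ θ) hFc hFb
  have iD := hμ.integrable_mul_stat hP hDm hDb hL X (T ^ θ) hFc hFb
  have iP : Integrable (fun v => F v * Psum (fun u => (g u : ℂ)) T (X + T ^ θ * v)) P :=
    iF1.mul_bdd (by fun_prop) (ae_of_all _ fun v => hPs _)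
  have iP' : Integrable (fun v => F v * Psum (fun u => (g u : ℂ)) T (-(X + T ^ θ * v))) P :=
    iF1.mul_bdd (by fun_prop) (ae_of_all _ fun v => hPs _)
  have hband := hC.band_res hμ hP ψ hDm hDb hD0 hT hL hT0 (by
    rw [div_le_iff₀ (by linarith only [hθ])] at hW2
    have : 1 / T ^ θ ≤ θ - 2 * (h * J) := by rw [div_le_iff₀ hT0]; linarith only [hW2]
    linarith only [this]) X
  have hsq := hC.mean_sq2 hP ψ hT hW X
  have htw := hC.mean_twist2 hP ψ g hT hW X
  have htw' : ∫ v, F v * Psum (fun u => (g u : ℂ)) T (-(X + T ^ θ * v)) ∂P =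
      ∫ v, F v * Psum (fun u => (g u : ℂ)) T (X + T ^ θ * v) ∂P := by
    have e : ∀ v, F v * Psum (fun u => (g u : ℂ)) T (-(X + T ^ θ * v)) =
        (starRingEnd ℂ) (F v * Psum (fun u => (g u : ℂ)) T (X + T ^ θ * v)) := by
      intro v
      have := conj_Psum (fun u => (g u : ℂ)) T (X + T ^ θ * v)
      simp only [conj_ofReal] at this
      rw [map_mul, ← this, Complex.conj_conj, hF, conj_ofReal]
    simp_rw [e]
    rw [integral_conj, htw, conj_ofReal]
  set err : ℝ → ℂ := fun t => stat μ H T t - c + Psum (fun u => (g u : ℂ)) T t +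
    Psum (fun u => (g u : ℂ)) T (-t) with herr
  have iE : Integrable (fun v => F v * err (X + T ^ θ * v)) P := by
    refine (((iH.sub (iF1.mul_const c)).add iP).add iP').congr (ae_of_all _ fun v => ?_)
    simp only [herr, Pi.add_apply, Pi.sub_apply]; ring
  have hdecomp : ∀ v, ((‖res2 J ψ φ h T (X + T ^ θ * v)‖ ^ 2 * cnt μ c T (X + T ^ θ * v) : ℝ) : ℂ) =
      F v * stat μ (fun y => ind c y - H y) T (X + T ^ θ * v) + F v * err (X + T ^ θ * v) +
        F v * c - F v * Psum (fun u => (g u : ℂ)) T (X + T ^ θ * v) -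
        F v * Psum (fun u => (g u : ℂ)) T (-(X + T ^ θ * v)) := by
    intro v
    have e : stat μ (fun y => ind c y - H y) T (X + T ^ θ * v) =
        stat μ (ind c) T (X + T ^ θ * v) - stat μ H T (X + T ^ θ * v) :=
      integral_sub (hμ.integrable_stat (measurable_ind c) (norm_ind_le c) hL _)
        (hμ.integrable_stat hHc.measurable hHb hL _)
    rw [e, stat_ind, ofReal_mul]
    simp only [herr, hF]; ring
  have hint : ((∫ v, ‖res2 J ψ φ h T (X + T ^ θ * v)‖ ^ 2 * cnt μ c T (X + T ^ θ * v) ∂P : ℝ) : ℂ) =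
      (∫ v, F v * err (X + T ^ θ * v) ∂P) + (∫ v, F v ∂P) * c -
        2 * ∫ v, F v * Psum (fun u => (g u : ℂ)) T (X + T ^ θ * v) ∂P := by
    rw [← integral_complex_ofReal]
    simp_rw [hdecomp]
    have j1 := iD.add iE
    have j2 := j1.add (iF1.mul_const (c : ℂ))
    have j3 := j2.sub iP
    have k1 := integral_sub j3 iP'
    have k2 := integral_sub j2 iP
    have k3 := integral_add j1 (iF1.mul_const (c : ℂ))
    have k4 := integral_add iD iE
    simp only [Pi.add_apply, Pi.sub_apply] at k1 k2 k3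
    rw [k1, k2, k3, k4, hband, htw', integral_mul_const]
    ring
  have herrb : ‖∫ v, F v * err (X + T ^ θ * v) ∂P‖ ≤ ε / 2 := by
    have hb : ∀ v, ‖F v * err (X + T ^ θ * v)‖ ≤
        ε / 4 / (N + 1) * ‖res2 J ψ φ h T (X + T ^ θ * v)‖ ^ 2 +
          Ψ ^ 4 * (KH * CG + c + 2 * B') * T ^ 5 * far θ T v := by
      intro v
      have hf := far_nonneg θ T v
      rw [norm_mul, hF]
      simp only
      rw [norm_real, Real.norm_of_nonneg (by positivity)]
      by_cases hv : |v| ≤ T ^ (1 - θ) / 2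
      · have h1 := hef _ (near_mem (by linarith only [hθ, hθ1, hJ0, hT]) hX hv)
        simp only [hg0, hgneg] at h1
        refine le_add_of_le_of_nonneg ?_ (by positivity)
        rw [mul_comm]
        gcongr
      · refine le_add_of_nonneg_of_le (by positivity) ?_
        rw [far, if_neg hv]
        have h1 : ‖err (X + T ^ θ * v)‖ ≤ (KH * CG + c + 2 * B') * T * (1 + |v|) := by
          have h2 := (hμ.norm_stat_le hHb hL (X + T ^ θ * v)).trans
            (mul_le_mul_of_nonneg_left ((hμ.Sd_le_G hL _).trans (hG T X (T ^ θ) v hT.le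
              (by rw [abs_of_pos (by linarith only [hθ, hθ1, hJ0, hT, hX.1])]; exact hX.2) (by
                rw [abs_of_pos hT0]
                simpa using Real.rpow_le_rpow_of_exponent_le hT.le hθ1.le))) hKH0)
          have h3 : ‖err (X + T ^ θ * v)‖ ≤ ‖stat μ H T (X + T ^ θ * v)‖ + c + B' * T + B' * T := by
            refine norm_add₃_le.trans (add_le_add (add_le_add ((norm_sub_le _ _).trans ?_)
              (hPs _)) (hPs _))
            rw [norm_real, Real.norm_of_nonneg hc.le]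
          have h4 : 1 ≤ T * (1 + |v|) := by nlinarith only [hθ, hT, hθ1, hJ0, abs_nonneg v]
          have h5 : T ≤ T * (1 + |v|) := by nlinarith only [hT, abs_nonneg v]
          nlinarith only [h2, h3, h4, hc, h5, hB'0, mul_le_mul_of_nonneg_left h4 hc.le, mul_le_mul_of_nonneg_left h5 hB'0]
        calc _ ≤ ((Ψ * T) ^ 2) ^ 2 * ((KH * CG + c + 2 * B') * T * (1 + |v|)) := by
              gcongr; exact hcr _
          _ = _ := by ring
    have i1 : Integrable (fun v => ‖res2 J ψ φ h T (X + T ^ θ * v)‖ ^ 2) P :=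
      integrable_of_bdd (by fun_prop) C fun v => by simpa [hF] using hFb v
    refine (norm_integral_le_of_norm_le ((i1.const_mul _).add
      ((hP.integrable_far θ T).const_mul _)) (ae_of_all _ hb)).trans ?_
    simp only [Pi.add_apply]
    rw [integral_add (i1.const_mul _) ((hP.integrable_far θ T).const_mul _), integral_const_mul,
      integral_const_mul, hsq]
    have : ε / 4 / (N + 1) * (N + 1) = ε / 4 := by field_simp
    nlinarith only [hfar, this, hNT, hε, mul_le_mul_of_nonneg_left hNT (show 0 ≤ ε / 4 / (N + 1) by positivity)]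
  rw [htw, hF, integral_complex_ofReal, hsq] at hint
  have hre := congrArg re hint
  simp only [ofReal_re, sub_re, add_re, mul_re, ofReal_im, mul_zero, sub_zero, re_ofNat,
    im_ofNat] at hre
  have h1 := abs_le.1 ((abs_re_le_norm _).trans herrb)
  rw [Real.dist_eq] at hclose
  have h2 := abs_lt.1 hclose
  rw [hre, abs_le]
  constructor <;> linarith only [h1, h2, h1.1, h1.2, h2.1, h2.2]

end Cells

end Pool.Agent.P.MP_7eacff_nt
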