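import Pool.Agent.P.MP_7eacff_nt.Fourier

/-!
A band-limited probability density with all moments, and a band-limited majorant.
-/

open Complex Filter Topology MeasureTheory Set
open scoped Real FourierTransform

namespace Pool.Agent.P.MP_7eacff_nt

theorem exists_W : ∃ (W : ℝ → ℝ) (β : ℝ → ℂ), (∀ v, 0 ≤ W v) ∧ Continuous W ∧ ∫ v, W v = 1 ∧
    (∀ M : ℕ, Integrable fun v => W v * (1 + |v|) ^ M) ∧ ContDiff ℝ 2 β ∧
    (∀ u, 1 ≤ |u| → β u = 0) ∧ (∀ v, iF β v = W v) ∧ ∀ u, β u = iF (fun v => W v) (-u) := by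
  let φ : ContDiffBump (0 : ℝ) := ⟨1 / 4, 1 / 2, by norm_num, by norm_num⟩
  let f : ℝ → ℂ := fun t => (φ t : ℂ)
  have hfc : Continuous f := continuous_ofReal.comp φ.continuous
  have hfs : HasCompactSupport f :=
    φ.hasCompactSupport.comp_left (g := fun x : ℝ => (x : ℂ)) (by simp)
  have hfi : Integrable f := hfc.integrable_of_hasCompactSupport hfs
  let F : SchwartzMap ℝ ℂ := hfs.toSchwartzMap (ofRealCLM.contDiff.comp φ.contDiff)
  have hreal : ∀ u, (starRingEnd ℂ) (𝓕 f u) = 𝓕 f u := by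
    intro u
    rw [Real.fourier_real_eq_integral_exp_smul, ← integral_conj, ← integral_neg_eq_self]
    congr 1
    funext t
    simp only [f, smul_eq_mul, map_mul, conj_ofReal, φ.neg, ← exp_conj, conj_I]
    congr 2
    push_cast
    ring
  have hc1 : Continuous (𝓕 f) := (𝓕 F).continuous
  have hcont : Continuous fun u => ‖𝓕 f (-u)‖ ^ 2 := by fun_prop
  have hbd : ∀ u, ‖𝓕 f u‖ ≤ SchwartzMap.seminorm ℝ 0 0 (𝓕 F) := fun u =>
    SchwartzMap.norm_le_seminorm ℝ (𝓕 F) u
  have hmom : ∀ M : ℕ, Integrable fun v => ‖𝓕 f (-v)‖ ^ 2 * (1 + |v|) ^ M := by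
    intro M
    have h0 : Integrable fun x => ‖x‖ ^ 0 * ‖𝓕 f x‖ := (𝓕 F).integrable_pow_mul volume 0
    have hM : Integrable fun x => ‖x‖ ^ M * ‖𝓕 f x‖ := (𝓕 F).integrable_pow_mul volume M
    refine (((h0.add hM).const_mul
      (SchwartzMap.seminorm ℝ 0 0 (𝓕 F) * 2 ^ (M - 1))).comp_neg).mono'
      (Continuous.aestronglyMeasurable (by fun_prop)) (ae_of_all _ fun v => ?_)
    rw [Real.norm_of_nonneg (by positivity)]
    have h1 : (1 + |v|) ^ M ≤ 2 ^ (M - 1) * (1 ^ M + |v| ^ M) :=
      add_pow_le zero_le_one (abs_nonneg v) M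
    simp only [Pi.add_apply, pow_zero, one_mul, Real.norm_eq_abs, abs_neg, one_pow] at h1 ⊢
    calc ‖𝓕 f (-v)‖ ^ 2 * (1 + |v|) ^ M = ‖𝓕 f (-v)‖ * ‖𝓕 f (-v)‖ * (1 + |v|) ^ M := by ring
      _ ≤ SchwartzMap.seminorm ℝ 0 0 (𝓕 F) * ‖𝓕 f (-v)‖ * (2 ^ (M - 1) * (1 + |v| ^ M)) := by
          gcongr; exact hbd _
      _ = _ := by ring
  have hint : Integrable fun v => ‖𝓕 f (-v)‖ ^ 2 := by simpa using hmom 0
  have hpos : 0 < ∫ v, ‖𝓕 f (-v)‖ ^ 2 := by
    refine integral_pos_of_integrable_nonneg_nonzero (x := 0) hcont hint (fun u => by positivity) ?_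
    have : 𝓕 f 0 = ((∫ t, φ t : ℝ) : ℂ) := by
      rw [Real.fourier_real_eq_integral_exp_smul, ← integral_complex_ofReal]
      simp [f]
    have h2 := φ.integral_pos (μ := volume)
    simp only [neg_zero, this, norm_real, ne_eq, pow_eq_zero_iff, OfNat.ofNat_ne_zero,
      not_false_eq_true, norm_eq_zero]
    exact h2.ne'
  set c := ∫ v, ‖𝓕 f (-v)‖ ^ 2 with hc
  set k := MeasureTheory.convolution f f (ContinuousLinearMap.mul ℂ ℂ) volume with hk
  have hkc : Continuous k := hfs.continuous_convolution_right _ hfi.locallyIntegrable hfc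
  have hks : HasCompactSupport k := hfs.convolution _ hfs
  have hki := hkc.integrable_of_hasCompactSupport hks (μ := volume)
  have hiF : ∀ v, iF (fun u => k u / c) v = ((‖𝓕 f (-v)‖ ^ 2 / c : ℝ) : ℂ) := by
    intro v
    have h1 : iF k v = ((‖𝓕 f (-v)‖ ^ 2 : ℝ) : ℂ) := by
      rw [← neg_neg v, ← fourier_eq_iF, hk, Real.fourier_mul_convolution_eq hfi hfi, neg_neg]
      nth_rewrite 2 [← hreal]
      rw [Complex.mul_conj']
      push_cast; rfl
    rw [ofReal_div, ← h1, iF, iF, ← integral_div]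
    congr 1; funext u; ring
  have hWm : ∀ M : ℕ, Integrable fun v => ‖𝓕 f (-v)‖ ^ 2 / c * (1 + |v|) ^ M := fun M =>
    ((hmom M).div_const c).congr (ae_of_all _ fun v => by simp only; ring)
  have hinv : ∀ u, k u / c = iF (fun v => ((‖𝓕 f (-v)‖ ^ 2 / c : ℝ) : ℂ)) (-u) := by
    intro u
    have e : (fun v => ((‖𝓕 f (-v)‖ ^ 2 / c : ℝ) : ℂ)) = iF (fun u => k u / c) :=
      (funext hiF).symm
    rw [e, iF_iF (hkc.div_const _) (hki.div_const _)]
    rw [← e]
    exact (hint.div_const c).ofReal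
  refine ⟨fun v => ‖𝓕 f (-v)‖ ^ 2 / c, fun u => k u / c, fun v => by positivity,
    hcont.div_const c, by rw [integral_div, div_self hpos.ne'], hWm, ?_, fun u hu => ?_, hiF, hinv⟩
  · have e : (fun u => k u / c) = 𝓕 (fun v => ((‖𝓕 f (-v)‖ ^ 2 / c : ℝ) : ℂ)) := by
      funext u; rw [hinv, fourier_eq_iF]
    rw [e]
    refine Real.contDiff_fourier (N := 2) fun n _ => ?_
    refine (hWm n).mono' (Continuous.aestronglyMeasurable (by fun_prop)) (ae_of_all _ fun v => ?_)
    have hp : 0 ≤ ‖𝓕 f (-v)‖ ^ 2 / c := by positivity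
    rw [Real.norm_of_nonneg (by positivity), norm_real, Real.norm_of_nonneg hp,
      mul_comm, Real.norm_eq_abs]
    gcongr
    linarith only []
  · have : k u = 0 := by
      rw [hk, convolution_def]
      refine integral_eq_zero_of_ae (ae_of_all _ fun t => ?_)
      simp only [ContinuousLinearMap.mul_apply', Pi.zero_apply, f, mul_eq_zero, ofReal_eq_zero]
      by_cases ht : 1 / 2 ≤ |t|
      · left; exact φ.zero_of_le_dist (by simpa [φ] using ht)
      · right
        refine φ.zero_of_le_dist ?_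
        have := abs_sub_abs_le_abs_sub u t
        simp only [φ, dist_zero_right, Real.norm_eq_abs]
        linarith only [hu, ht, this, not_le.1 ht]
    simp [this]

/-- The properties of the averaging window. -/
structure Win (P : Measure ℝ) : Prop where
  prob : IsProbabilityMeasure P
  orth : ∀ ξ : ℝ, 1 ≤ |ξ| → ∫ v, ee (ξ * v) ∂P = 0
  mom : ∀ M : ℕ, Integrable (fun v => (1 + |v|) ^ M) P
  band : ∀ (D : ℝ → ℂ) (θ s ζ a : ℝ), Integrable D → (∀ u, |u| ≤ θ → iF D u = 0) → 0 < s →
    |ζ| + 1 / s ≤ θ → ∫ v, ee (ζ * (s * v)) * D (a - s * v) ∂P = 0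

theorem exists_win : ∃ P, Win P := by
  obtain ⟨W, β, h0, hc, h1, hm, hβ, hz, hiF, hinv⟩ := exists_W
  have hWi : Integrable W := by simpa using hm 0
  have hmeas : Measurable fun v => ENNReal.ofReal (W v) := hc.measurable.ennreal_ofReal
  have hint : ∀ g : ℝ → ℂ, ∫ v, g v ∂(volume.withDensity fun v => ENNReal.ofReal (W v)) =
      ∫ v, W v * g v := by
    intro g
    rw [integral_withDensity_eq_integral_toReal_smul hmeas (by simp)]
    simp [ENNReal.toReal_ofReal (h0 _)]
  have hβi : Integrable β := hβ.continuous.integrable_of_hasCompactSupport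
    (hasCompactSupport_of_zero (R := 1) fun u hu => hz u hu.le)
  refine ⟨volume.withDensity fun v => ENNReal.ofReal (W v), ⟨?_⟩, fun ξ hξ => ?_, fun M => ?_,
    fun D θ s ζ a hD hD0 hs hζ => ?_⟩
  · rw [withDensity_apply _ MeasurableSet.univ, Measure.restrict_univ,
      ← ofReal_integral_eq_lintegral_ofReal hWi (ae_of_all _ h0), h1, ENNReal.ofReal_one]
  · rw [hint, ← hz (-ξ) (by rwa [abs_neg]), hinv, neg_neg, iF]
    simp [mul_comm]
  · rw [integrable_withDensity_iff hmeas (by simp)]
    simpa [ENNReal.toReal_ofReal (h0 _), mul_comm] using hm M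
  · rw [hint]
    have hDs : Integrable fun v => D (a - s * v) :=
      (hD.comp_sub_left a).comp_mul_left' hs.ne'
    have e : ∀ v, (W v : ℂ) * (ee (ζ * (s * v)) * D (a - s * v)) =
        ∫ η, D (a - s * v) * β η * ee ((η / s + ζ) * (s * v)) := by
      intro v
      rw [← hiF, iF, ← integral_mul_const]
      congr 1
      funext η
      rw [show (η / s + ζ) * (s * v) = η * v + ζ * (s * v) by field_simp, ee_add]
      ring
    simp_rw [e]
    rw [integral_integral_swap]
    · refine integral_eq_zero_of_ae (ae_of_all _ fun η => ?_)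
      by_cases hη : 1 ≤ |η|
      · simp [hz η hη]
      · have h2 : |-(η / s + ζ)| ≤ θ := by
          rw [abs_neg]
          refine (abs_add_le _ _).trans ?_
          rw [abs_div, abs_of_pos hs]
          have : |η| / s ≤ 1 / s := by gcongr; exact (not_le.1 hη).le
          linarith only [hζ, this]
        have h3 := hD0 _ h2
        have h4 := Measure.integral_comp_mul_left
          (fun w => D (a - w) * β η * ee ((η / s + ζ) * w)) s
        have h5 := integral_sub_left_eq_self
          (fun y => D y * β η * ee ((η / s + ζ) * (a - y))) volume a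
        simp only [sub_sub_cancel] at h5
        simp only [Pi.zero_apply]
        rw [h4, h5]
        have h6 : ∀ y, D y * β η * ee ((η / s + ζ) * (a - y)) =
            (β η * ee ((η / s + ζ) * a)) * (D y * ee (y * -(η / s + ζ))) := by
          intro y
          rw [show (η / s + ζ) * (a - y) = (η / s + ζ) * a + y * -(η / s + ζ) by ring, ee_add]
          ring
        simp_rw [h6]
        rw [integral_const_mul, ← iF, h3]
        simp
    · exact (hDs.mul_prod hβi).mul_bdd (c := 1)
        (g := fun p : ℝ × ℝ => ee ((p.2 / s + ζ) * (s * p.1))) (by fun_prop)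
        (ae_of_all _ fun p => by simp)

theorem exists_majorant {η : ℝ} (hη : 0 < η) : ∃ (fp fm : ℝ → ℂ) (B c : ℝ), 0 < c ∧
    Bump fp η B ∧ Bump fm η B ∧ fp 0 = 1 ∧ fm 0 = 1 ∧
    ∀ y, c / (1 + y ^ 2) ≤ (iF (pw fp fm) y).re := by
  obtain ⟨W, β, h0, hc, h1, hm, hβ, hz, hiF, hinv⟩ := exists_W
  have hWi : Integrable W := by simpa using hm 0
  have hβ0 : β 0 = 1 := by
    rw [hinv, iF]
    simp [integral_complex_ofReal, h1]
  have hz' : ∀ u, η < |u| → β (u / η) = 0 := fun u hu =>
    hz _ (by rw [abs_div, abs_of_pos hη, le_div_iff₀ hη]; linarith)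
  have hcd : ContDiff ℝ 2 fun u => β (u / η) := hβ.comp (contDiff_id.div_const η)
  have hE : ∀ b : ℝ, ContDiff ℝ 2 fun u : ℝ => (Real.exp (b * u) : ℂ) := fun b =>
    ofRealCLM.contDiff.comp (contDiff_const.mul contDiff_id).exp
  obtain ⟨B1, _, hB1⟩ := exists_bump (R := η) (hcd.mul (hE (-(2 * π))))
    (fun u hu => by rw [hz' u hu, zero_mul])
  obtain ⟨B2, _, hB2⟩ := exists_bump (R := η) (hcd.mul (hE (2 * π)))
    (fun u hu => by rw [hz' u hu, zero_mul])
  have hpw : pw (fun u => β (u / η) * (Real.exp (-(2 * π) * u) : ℂ))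
      (fun u => β (u / η) * (Real.exp (2 * π * u) : ℂ)) =
      fun u => β (u / η) * (Real.exp (-(2 * π * |u|)) : ℂ) := by
    funext u
    by_cases hu : 0 ≤ u
    · simp only [pw, hu, if_true, abs_of_nonneg hu, neg_mul]
    · simp only [pw, hu, if_false, abs_of_neg (not_le.1 hu), mul_neg, neg_neg]
  have hsc : ∀ x, iF (fun u => β (u / η)) x = ((η * W (η * x) : ℝ) : ℂ) := by
    intro x
    have := Measure.integral_comp_div (fun u => β u * ee (u * (η * x))) η
    rw [abs_of_pos hη, real_smul, ← iF, hiF] at this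
    rw [ofReal_mul, ← this, iF]
    congr 1; funext u; congr 2; field_simp
  have hWη : Integrable fun x => η * W (η * x) := (hWi.comp_mul_left' hη.ne').const_mul η
  have hdec := deconv hcd.continuous (hcd.continuous.integrable_of_hasCompactSupport
    (hasCompactSupport_of_zero hz')) (by rw [funext hsc]; exact hWη.ofReal)
  have hcw : ∀ y : ℝ, Continuous fun x : ℝ => 1 / (π * (1 + (x - y) ^ 2)) := fun y =>
    Continuous.div continuous_const (by fun_prop) fun x => by positivity
  have hcw2 : Continuous fun x : ℝ => 1 / (2 * π * (1 + x ^ 2)) :=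
    Continuous.div continuous_const (by fun_prop) fun x => by positivity
  have hle1 : ∀ z : ℝ, 1 / (π * (1 + z ^ 2)) ≤ 1 := fun z => by
    rw [div_le_one (by positivity)]; nlinarith only [Real.pi_gt_three, sq_nonneg z]
  have hI2 : Integrable fun x => η * W (η * x) * (1 / (2 * π * (1 + x ^ 2))) :=
    hWη.mul_bdd (c := 1) hcw2.aestronglyMeasurable (ae_of_all _ fun x => by
      rw [Real.norm_of_nonneg (by positivity), div_le_one (by positivity)]
      nlinarith only [Real.pi_gt_three, sq_nonneg x])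
  obtain ⟨x0, hx0⟩ : ∃ x, W x ≠ 0 := by
    by_contra h
    push Not at h
    simp [h] at h1
  refine ⟨_, _, max B1 B2, ∫ x, η * W (η * x) * (1 / (2 * π * (1 + x ^ 2))), ?_,
    hB1.mono le_rfl (le_max_left _ _), hB2.mono le_rfl (le_max_right _ _), by simp [hβ0],
    by simp [hβ0], fun y => ?_⟩
  · refine integral_pos_of_integrable_nonneg_nonzero (x := x0 / η) (by fun_prop) hI2
      (fun x => by have := h0 (η * x); positivity) ?_
    rw [mul_div_cancel₀ _ hη.ne']
    have : 0 < W x0 := (h0 x0).lt_of_ne' hx0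
    positivity
  · rw [hpw, ← hdec y]
    simp_rw [hsc, ← ofReal_mul]
    rw [integral_complex_ofReal, ofReal_re, ← integral_div]
    refine integral_mono (hI2.div_const _) (hWη.mul_bdd (c := 1) (hcw y).aestronglyMeasurable
      (ae_of_all _ fun x => by rw [Real.norm_of_nonneg (by positivity)]; exact hle1 _)) fun x => ?_
    simp only
    rw [mul_div_assoc]
    have := h0 (η * x)
    refine mul_le_mul_of_nonneg_left ?_ (by positivity)
    rw [div_div, div_le_div_iff₀ (by positivity) (by positivity)]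
    have h7 : 1 + (x - y) ^ 2 ≤ 2 * (1 + x ^ 2) * (1 + y ^ 2) := by
      nlinarith only [sq_nonneg (x + y), sq_nonneg (x * y)]
    nlinarith only [h7, Real.pi_pos]

end Pool.Agent.P.MP_7eacff_nt
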