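import Pool.Agent.P.MP_7eacff_nt.Ch
import Pool.Agent.P.MP_7eacff_nt.Window
import Pool.Agent.Lib.Mertens.First

/-!
Exact mean values of Dirichlet polynomials against a band-limited window, and moments.
-/

open Complex Filter Topology MeasureTheory Set ArithmeticFunction
open scoped Real

namespace Pool.Agent.P.MP_7eacff_nt

theorem inv_le_abs_log_sub {m n : ℕ} (hm : 1 ≤ m) (hn : 1 ≤ n) (hmn : m ≠ n) {Y : ℝ}
    (hY : n ≤ Y) : 1 / (Y + 1) ≤ |Real.log n - Real.log m| := by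
  have hm' : (1 : ℝ) ≤ m := by exact_mod_cast hm
  have hn' : (1 : ℝ) ≤ n := by exact_mod_cast hn
  have key : ∀ a b : ℝ, 1 ≤ a → a + 1 ≤ b → 1 / (a + 1) ≤ Real.log b - Real.log a := by
    intro a b ha hab
    have h1 := Real.one_sub_inv_le_log_of_pos (x := (a + 1) / a) (by positivity)
    rw [Real.log_div (by positivity) (by positivity)] at h1
    have h2 : Real.log (a + 1) ≤ Real.log b := Real.log_le_log (by positivity) hab
    have h3 : 1 - ((a + 1) / a)⁻¹ = 1 / (a + 1) := by field_simp; ring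
    linarith
  rcases lt_or_gt_of_ne hmn with h | h
  · have h' : (m : ℝ) + 1 ≤ n := by exact_mod_cast h
    refine le_trans ?_ ((key m n hm' h').trans (le_abs_self _))
    exact one_div_le_one_div_of_le (by positivity) (by linarith)
  · have h' : (n : ℝ) + 1 ≤ m := by exact_mod_cast h
    rw [abs_sub_comm]
    refine le_trans ?_ ((key n m hn' h').trans (le_abs_self _))
    exact one_div_le_one_div_of_le (by positivity) (by linarith)

theorem Win.orth_ch {P : Measure ℝ} (hP : Win P) {m n : ℕ} (hm : 1 ≤ m) (hn : 1 ≤ n) {Y T0 : ℝ}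
    (hY : n ≤ Y) (hT : 2 * π * (Y + 1) ≤ T0) (X : ℝ) :
    ∫ v, ch m (X + T0 * v) * (starRingEnd ℂ) (ch n (X + T0 * v)) ∂P = if m = n then 1 else 0 := by
  have := hP.prob
  have e : ∀ v, ch m (X + T0 * v) * (starRingEnd ℂ) (ch n (X + T0 * v)) =
      ee ((Real.log n - Real.log m) / (2 * π) * X) *
        ee ((Real.log n - Real.log m) / (2 * π) * T0 * v) := by
    intro v
    rw [conj_ch, ch, ch, ← ee_add, ← ee_add]
    congr 1; ring
  simp_rw [e]
  split_ifs with h
  · simp [h]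
  · have hY0 : 0 < Y + 1 := by
      have : (0 : ℝ) ≤ n := Nat.cast_nonneg n
      linarith
    have hpi := Real.pi_pos
    have hT0 : 0 < T0 := lt_of_lt_of_le (by positivity) hT
    rw [integral_const_mul, hP.orth, mul_zero]
    rw [abs_mul, abs_div, abs_of_pos hT0, abs_of_pos (by positivity : 0 < 2 * π)]
    have := inv_le_abs_log_sub hm hn h hY
    calc (1 : ℝ) = 1 / (Y + 1) / (2 * π) * (2 * π * (Y + 1)) := by field_simp
      _ ≤ _ := by gcongr

theorem integrable_of_bdd {P : Measure ℝ} [IsFiniteMeasure P] {E : Type*} [NormedAddCommGroup E]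
    {f : ℝ → E} (hf : Continuous f) (C : ℝ) (h : ∀ v, ‖f v‖ ≤ C) : Integrable f P :=
  (integrable_const C).mono' hf.aestronglyMeasurable (ae_of_all _ h)

theorem Win.mean_value {P : Measure ℝ} (hP : Win P) {ι κ : Type*} (s : Finset ι) (s' : Finset κ)
    (a : ι → ℂ) (b : κ → ℂ) (N : ι → ℕ) (M : κ → ℕ) {Y T0 : ℝ} (hN : ∀ i ∈ s, 1 ≤ N i)
    (hM : ∀ j ∈ s', 1 ≤ M j ∧ (M j : ℝ) ≤ Y) (hT : 2 * π * (Y + 1) ≤ T0) (X : ℝ) :
    ∫ v, (∑ i ∈ s, a i * ch (N i) (X + T0 * v)) *
        (starRingEnd ℂ) (∑ j ∈ s', b j * ch (M j) (X + T0 * v)) ∂P =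
      ∑ i ∈ s, ∑ j ∈ s', if N i = M j then a i * (starRingEnd ℂ) (b j) else 0 := by
  have := hP.prob
  have hi : ∀ i j, Integrable (fun v => a i * (starRingEnd ℂ) (b j) *
      (ch (N i) (X + T0 * v) * (starRingEnd ℂ) (ch (M j) (X + T0 * v)))) P := fun i j =>
    (integrable_of_bdd (by fun_prop) 1 fun v => by simp).const_mul _
  have e : ∀ v, (∑ i ∈ s, a i * ch (N i) (X + T0 * v)) *
        (starRingEnd ℂ) (∑ j ∈ s', b j * ch (M j) (X + T0 * v)) =
      ∑ i ∈ s, ∑ j ∈ s', a i * (starRingEnd ℂ) (b j) *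
        (ch (N i) (X + T0 * v) * (starRingEnd ℂ) (ch (M j) (X + T0 * v))) := by
    intro v
    rw [map_sum, Finset.sum_mul_sum]
    refine Finset.sum_congr rfl fun i _ => Finset.sum_congr rfl fun j _ => ?_
    rw [map_mul]; ring
  simp_rw [e]
  rw [integral_finsetSum _ fun i _ => integrable_finsetSum _ fun j _ => hi i j]
  refine Finset.sum_congr rfl fun i hi' => ?_
  rw [integral_finsetSum _ fun j _ => hi i j]
  refine Finset.sum_congr rfl fun j hj => ?_
  rw [integral_const_mul, hP.orth_ch (hN i hi') (hM j hj).1 (hM j hj).2 hT]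
  split_ifs <;> simp

theorem ch_prod {ι : Type*} (s : Finset ι) (f : ι → ℕ) (hf : ∀ i ∈ s, f i ≠ 0) (t : ℝ) :
    ch (∏ i ∈ s, f i) t = ∏ i ∈ s, ch (f i) t := by
  classical
  induction s using Finset.induction_on with
  | empty => simp
  | insert a s ha ih =>
    rw [Finset.prod_insert ha, Finset.prod_insert ha, ch_mul (hf a (Finset.mem_insert_self a s))
      (Finset.prod_ne_zero_iff.2 fun i hi => hf i (Finset.mem_insert_of_mem hi)),
      ih fun i hi => hf i (Finset.mem_insert_of_mem hi)]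

theorem conj_Psum (φ : ℝ → ℂ) (T t : ℝ) :
    (starRingEnd ℂ) (Psum φ T (-t)) = Psum (fun u => (starRingEnd ℂ) (φ u)) T t := by
  simp only [Psum, map_sum, map_mul, conj_ofReal, conj_ch, neg_neg]

@[fun_prop] theorem continuous_Psum (φ : ℝ → ℂ) (T : ℝ) : Continuous (Psum φ T) := by
  unfold Psum; fun_prop

theorem vM_div_le {n : ℕ} (hn : 1 ≤ n) {T : ℝ} (hT : 1 < T) (hnT : (n : ℝ) ≤ T) :
    vonMangoldt n / (√n * Real.log T) ≤ 1 := by
  have hn' : (1 : ℝ) ≤ n := by exact_mod_cast hn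
  have hL := Real.log_pos hT
  have h1 : 1 ≤ √(n : ℝ) := Real.one_le_sqrt.2 hn'
  rw [div_le_one (by positivity)]
  calc vonMangoldt n ≤ Real.log n := vonMangoldt_le_log
    _ ≤ Real.log T := Real.log_le_log (by linarith) hnT
    _ ≤ _ := le_mul_of_one_le_left hL.le h1

theorem norm_Psum_le {φ : ℝ → ℂ} {B T : ℝ} (hB : ∀ u, ‖φ u‖ ≤ B) (hT : 1 < T) (t : ℝ) :
    ‖Psum φ T t‖ ≤ B * T := by
  have hB0 : 0 ≤ B := (norm_nonneg _).trans (hB 0)
  have hL := Real.log_pos hT
  refine (norm_sum_le _ _).trans ?_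
  refine (Finset.sum_le_card_nsmul _ _ B fun n hn => ?_).trans ?_
  · rw [Finset.mem_Icc] at hn
    rw [norm_mul, norm_mul, norm_ch, mul_one, norm_real,
      Real.norm_of_nonneg (div_nonneg vonMangoldt_nonneg (by positivity))]
    calc _ ≤ 1 * B := mul_le_mul (vM_div_le hn.1 hT ((Nat.le_floor_iff (by linarith)).1 hn.2))
          (hB _) (norm_nonneg _) zero_le_one
      _ = B := one_mul B
  · rw [Nat.card_Icc, nsmul_eq_mul, mul_comm]
    gcongr
    simpa using Nat.floor_le (by linarith : 0 ≤ T)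

theorem Win.moment_Psum {P : Measure ℝ} (hP : Win P) {φ : ℝ → ℂ} {B η T T0 : ℝ}
    (hB : ∀ u, ‖φ u‖ ≤ B) (hη : 0 ≤ η) (hη1 : η ≤ 1) (hz : ∀ u, η < u → φ u = 0) (D : ℕ)
    (hT : 1 < T) (hT0 : 2 * π * (T ^ (η * D) + 1) ≤ T0) (X : ℝ) :
    ∫ v, ‖Psum φ T (X + T0 * v)‖ ^ (2 * D) ∂P ≤
      (B ^ 2 * (η * D) * (η + 6 / Real.log T)) ^ D := by
  classical
  have hB0 : 0 ≤ B := (norm_nonneg _).trans (hB 0)
  set L := Real.log T with hLdef
  have hL : 0 < L := Real.log_pos hT
  have hT0' : 0 < T := by linarith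
  have hTη : 1 ≤ T ^ η := Real.one_le_rpow hT.le hη
  set S := Finset.Ioc 0 ⌊T ^ η⌋₊ with hS
  set a : ℕ → ℂ := fun n => ((vonMangoldt n / (√n * L) : ℝ) : ℂ) * φ (Real.log n / L) with ha
  have hSm : ∀ n ∈ S, 1 ≤ n ∧ (n : ℝ) ≤ T ^ η := fun n hn => by
    rw [hS, Finset.mem_Ioc] at hn
    exact ⟨hn.1, (Nat.le_floor_iff (by positivity)).1 hn.2⟩
  have hP1 : ∀ t, Psum φ T t = ∑ n ∈ S, a n * ch n t := by
    intro t
    rw [Psum]
    refine (Finset.sum_subset (fun n hn => ?_) fun n hn hn' => ?_).symm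
    · rw [Finset.mem_Icc]
      refine ⟨(hSm n hn).1, Nat.le_floor ((hSm n hn).2.trans ?_)⟩
      simpa using Real.rpow_le_rpow_of_exponent_le hT.le hη1
    · rw [Finset.mem_Icc] at hn
      rw [hS, Finset.mem_Ioc, not_and_or] at hn'
      have h1 : ⌊T ^ η⌋₊ < n := by omega
      have h2 : T ^ η < n := (Nat.floor_lt (by positivity)).1 h1
      have h3 := Real.log_lt_log (by positivity) h2
      rw [Real.log_rpow hT0'] at h3
      rw [hz _ (by rwa [lt_div_iff₀ hL])]
      simp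
  set F := Fintype.piFinset fun _ : Fin D => S with hF
  have hFm : ∀ f ∈ F, ∀ i, f i ∈ S := fun f hf i => Fintype.mem_piFinset.1 hf i
  have hP2 : ∀ t, Psum φ T t ^ D = ∑ f ∈ F, (∏ i, a (f i)) * ch (∏ i, f i) t := by
    intro t
    rw [hP1, Finset.sum_pow']
    refine Finset.sum_congr rfl fun f hf => ?_
    rw [Finset.prod_mul_distrib, ch_prod _ _ fun i _ => by have := (hSm _ (hFm f hf i)).1; omega]
  have hFp : ∀ f ∈ F, 1 ≤ ∏ i, f i ∧ ((∏ i, f i : ℕ) : ℝ) ≤ T ^ (η * D) := by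
    intro f hf
    refine ⟨Finset.one_le_prod' fun i _ => (hSm _ (hFm f hf i)).1, ?_⟩
    rw [Nat.cast_prod, Real.rpow_mul hT0'.le, Real.rpow_natCast]
    calc _ ≤ ∏ _i : Fin D, T ^ η :=
          Finset.prod_le_prod (fun i _ => by positivity) fun i _ => (hSm _ (hFm f hf i)).2
      _ = _ := by simp
  have hmv := hP.mean_value F F (fun f => ∏ i, a (f i)) (fun f => ∏ i, a (f i))
    (fun f => ∏ i, f i) (fun f => ∏ i, f i) (fun f hf => (hFp f hf).1) hFp hT0 X
  simp_rw [← hP2, Complex.mul_conj', ← ofReal_pow, norm_pow, ← pow_mul] at hmv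
  rw [integral_complex_ofReal] at hmv
  rw [mul_comm 2 D]
  refine (le_abs_self _).trans ?_
  rw [← Real.norm_eq_abs, ← norm_real, hmv]
  have han : ∀ n, ‖a n‖ ≤ B / L * (vonMangoldt n / √n) := fun n => by
    rw [ha]
    simp only
    rw [norm_mul, norm_real, Real.norm_of_nonneg (div_nonneg vonMangoldt_nonneg (by positivity))]
    calc _ ≤ vonMangoldt n / (√n * L) * B :=
          mul_le_mul_of_nonneg_left (hB _) (div_nonneg vonMangoldt_nonneg (by positivity))
      _ = _ := by ring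
  have haf : ∀ f : Fin D → ℕ, ‖∏ i, a (f i)‖ ≤
      (B / L) ^ D * ((∏ i, vonMangoldt (f i)) / √((∏ i, f i : ℕ) : ℝ)) := fun f => by
    rw [norm_prod]
    refine (Finset.prod_le_prod (fun i _ => norm_nonneg _) fun i _ => han (f i)).trans_eq ?_
    rw [Finset.prod_mul_distrib, Finset.prod_div_distrib, Nat.cast_prod,
      Real.sqrt_prod _ fun i _ => Nat.cast_nonneg _]
    simp [div_pow]
  have hvM : ∀ f : Fin D → ℕ, 0 ≤ ∏ i, vonMangoldt (f i) := fun f =>
    Finset.prod_nonneg fun i _ => vonMangoldt_nonneg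
  have hinner : ∀ f ∈ F, ∑ g ∈ F, (if ∏ i, f i = ∏ i, g i then ∏ i, vonMangoldt (g i) else 0) ≤
      (η * D * L) ^ D := by
    intro f hf
    rw [← Finset.sum_filter]
    calc _ ≤ ∑ g ∈ Fintype.piFinset fun _ : Fin D => (∏ i, f i).divisors,
          ∏ i, vonMangoldt (g i) := by
          refine Finset.sum_le_sum_of_subset_of_nonneg (fun g hg => ?_) fun g _ _ => hvM g
          rw [Finset.mem_filter] at hg
          refine Fintype.mem_piFinset.2 fun i => Nat.mem_divisors.2 ⟨?_, ?_⟩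
          · rw [hg.2]; exact Finset.dvd_prod_of_mem _ (Finset.mem_univ i)
          · have := (hFp f hf).1; omega
      _ = (Real.log (∏ i, f i : ℕ)) ^ D := by rw [← Finset.sum_pow', vonMangoldt_sum]
      _ ≤ _ := by
          have h1 : (1 : ℝ) ≤ (∏ i, f i : ℕ) := by exact_mod_cast (hFp f hf).1
          refine pow_le_pow_left₀ (Real.log_nonneg h1) ?_ D
          have := Real.log_le_log (by linarith) (hFp f hf).2
          rwa [Real.log_rpow hT0'] at this
  have hM := (abs_le.1 (Pool.Agent.Lib.Mertens.abs_sum_vonMangoldt_div_sub_log_le hTη)).2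
  rw [Real.log_rpow hT0', ← hLdef, ← hS] at hM
  have hl4 : Real.log 4 ≤ 2 := by
    rw [show (4 : ℝ) = 2 ^ 2 by norm_num, Real.log_pow]; push_cast; linarith [Real.log_two_lt_d9]
  calc _ ≤ ∑ f ∈ F, ∑ g ∈ F, ((B / L) ^ D) ^ 2 * (∏ i, vonMangoldt (f i) / f i) *
        (if ∏ i, f i = ∏ i, g i then ∏ i, vonMangoldt (g i) else 0) := by
        refine (norm_sum_le _ _).trans (Finset.sum_le_sum fun f hf => ?_)
        refine (norm_sum_le _ _).trans (Finset.sum_le_sum fun g _ => ?_)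
        split_ifs with h
        · rw [norm_mul, RCLike.norm_conj]
          refine (mul_le_mul (haf f) (haf g) (norm_nonneg _) ?_).trans_eq ?_
          · have := hvM f; positivity
          · have h1 : (0 : ℝ) < (∏ i, f i : ℕ) := by exact_mod_cast (hFp f hf).1
            rw [← h, Finset.prod_div_distrib, ← Nat.cast_prod]
            have h2 := Real.mul_self_sqrt h1.le
            have h3 := Real.sqrt_pos.2 h1
            generalize √((∏ i, f i : ℕ) : ℝ) = q at *
            rw [← h2]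
            field_simp
        · simp
    _ ≤ ∑ f ∈ F, ((B / L) ^ D) ^ 2 * (∏ i, vonMangoldt (f i) / f i) * (η * D * L) ^ D := by
        refine Finset.sum_le_sum fun f hf => ?_
        rw [← Finset.mul_sum]
        refine mul_le_mul_of_nonneg_left (hinner f hf) (mul_nonneg (by positivity) ?_)
        exact Finset.prod_nonneg fun i _ => div_nonneg vonMangoldt_nonneg (Nat.cast_nonneg _)
    _ = ((B / L) ^ D) ^ 2 * (∑ n ∈ S, vonMangoldt n / n) ^ D * (η * D * L) ^ D := by
        rw [← Finset.sum_mul, ← Finset.mul_sum, Finset.sum_pow']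
    _ ≤ ((B / L) ^ D) ^ 2 * (η * L + 6) ^ D * (η * D * L) ^ D := by
        gcongr
        linarith
    _ = _ := by
        rw [← pow_mul, mul_comm D 2, pow_mul, ← mul_pow, ← mul_pow]
        congr 1
        field_simp

end Pool.Agent.P.MP_7eacff_nt
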