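import Pool.Agent.P.MP_7eacff_nt.Final

/-!
The numerical inequalities, checked in rational arithmetic.
-/

open Filter Topology MeasureTheory Set
open scoped Real

namespace Pool.Agent.P.MP_7eacff_nt

/-- Rational version of `bet`. -/
def betQ (r : ℚ) (k : ℕ) : ℚ := ∏ j ∈ Finset.range k, ((j : ℚ) + 1) / (r + 1 + j)

/-- Rational version of `nInf`. -/
def nQ (R : ℚ) (cf : ℕ → ℚ) (d : ℕ) : ℚ :=
  ∑ a ∈ Finset.range d, ∑ b ∈ Finset.range d, cf a * cf b * betQ R (a + b)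

/-- Rational version of `sInf`. -/
def sQ (R : ℚ) (cf : ℕ → ℚ) (d : ℕ) (x : ℚ) (m : ℕ) : ℚ :=
  ∑ a ∈ Finset.range d, ∑ b ∈ Finset.range d, ∑ k ∈ Finset.range m,
    cf a * cf b * ((-1) ^ k * x ^ (2 * k + 1) / (2 * k + 1).factorial) *
      (b.factorial * (2 * k).factorial / (b + 2 * k + 1).factorial * betQ R (a + (b + 2 * k + 1)))

theorem nInf_cast (r : ℚ) (cf : ℕ → ℚ) (d : ℕ) :
    nInf ((r : ℝ) ^ 2) (fun a => cf a) d = nQ (r ^ 2) cf d := by
  simp [nInf, nQ, bet, betQ]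

theorem sInf_cast (r : ℚ) (cf : ℕ → ℚ) (d : ℕ) (x : ℚ) (m : ℕ) :
    sInf ((r : ℝ) ^ 2) (fun a => cf a) d x m = sQ (r ^ 2) cf d x m := by
  simp [sInf, sQ, bet, betQ]

theorem num_of_rat {σ c r x κ : ℚ} {cf : ℕ → ℚ} {d m : ℕ} (hr : 0 < r) (hκ : κ < 1 / 2)
    (hn : 0 < nQ (r ^ 2) cf d) (hS : 0 ≤ sQ (r ^ 2) cf d x m)
    (h : 0 < σ * (c - 1) * nQ (r ^ 2) cf d +
      4 * ((1 - 2 * κ) * r / (3141593 / 1000000) * sQ (r ^ 2) cf d x m)) :
    0 < nInf ((r : ℝ) ^ 2) (fun a => cf a) d ∧ 0 ≤ sInf ((r : ℝ) ^ 2) (fun a => cf a) d x m ∧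
    0 < (σ : ℝ) * (c - 1) * nInf ((r : ℝ) ^ 2) (fun a => cf a) d +
      4 * ((1 - 2 * κ) * r / π * sInf ((r : ℝ) ^ 2) (fun a => cf a) d x m) := by
  rw [nInf_cast, sInf_cast]
  have h1 : (0 : ℝ) ≤ sQ (r ^ 2) cf d x m := by exact_mod_cast hS
  have h2 : (0 : ℝ) < σ * (c - 1) * nQ (r ^ 2) cf d +
      4 * ((1 - 2 * κ) * r / (3141593 / 1000000) * sQ (r ^ 2) cf d x m) := by
    simpa using (Rat.cast_lt (K := ℝ)).2 h
  have h3 : (0 : ℝ) < r := by exact_mod_cast hr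
  have h4 : (κ : ℝ) < 1 / 2 := by simpa using (Rat.cast_lt (K := ℝ)).2 hκ
  have h5 : (0 : ℝ) ≤ (1 - 2 * κ) * r := mul_nonneg (by linarith only [h4]) h3.le
  refine ⟨by exact_mod_cast hn, h1, h2.trans_le ?_⟩
  gcongr
  linarith only [Real.pi_lt_d6]

/-- Smoothing polynomial for small gaps. -/
def cfS (a : ℕ) : ℚ := [1, 23 / 100, -104 / 1000].getD a 0

/-- Smoothing polynomial for large gaps. -/
def cfL (a : ℕ) : ℚ := [1, 615 / 100, 171 / 10, -1575 / 100].getD a 0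

theorem small_gaps {μ : Measure ℝ} [SFinite μ] (hμ : ZData μ) {γ : ℕ → ℝ} (hγ : Enum μ γ) :
    ∃ η : ℝ, 0 < η ∧ ∀ᶠ N : ℕ in atTop, η * N ≤ ((Finset.range N).filter fun n =>
      (γ (n + 1) - γ n) / (2 * π) * Real.log (γ n / (2 * π)) ≤ 0.5042).card := by
  obtain ⟨h0, h1, h2⟩ := num_of_rat (σ := 1) (c := 5042 / 10000) (r := 106 / 100)
    (x := 791995 / 1000000) (κ := 1 / 10000000) (cf := cfS) (d := 3) (m := 2 * 2 + 2)
    (by norm_num) (by norm_num) (by decide +kernel) (by decide +kernel) (by decide +kernel)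
  refine small_of_num hμ hγ (κ := ((1 / 10000000 : ℚ) : ℝ)) (by norm_num) (by norm_num) (by norm_num) ?_ (by norm_num)
    (by norm_num) (fun y hy => ?_) h0 h1 (by convert h2 <;> norm_num)
  · push_cast; linarith only [Real.pi_gt_d6]
  · simp only [Finset.sum_range_succ, Finset.sum_range_zero, cfS, List.getD_cons_zero,
      List.getD_cons_succ]
    push_cast
    nlinarith only [hy.1, hy.2]

theorem large_gaps {μ : Measure ℝ} [SFinite μ] (hμ : ZData μ) {γ : ℕ → ℝ} (hγ : Enum μ γ) :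
    ∃ η : ℝ, 0 < η ∧ ∀ᶠ N : ℕ in atTop, η * N ≤ ((Finset.range N).filter fun n =>
      3.586 ≤ (γ (n + 1) - γ n) / (2 * π) * Real.log (γ n / (2 * π))).card := by
  obtain ⟨h0, h1, h2⟩ := num_of_rat (σ := -1) (c := 35865 / 10000) (r := 235 / 100)
    (x := 5633659 / 1000000) (κ := 1 / 10000000) (cf := cfL) (d := 4) (m := 2 * 4 + 2)
    (by norm_num) (by norm_num) (by decide +kernel) (by decide +kernel) (by decide +kernel)
  refine large_of_num hμ hγ (κ := ((1 / 10000000 : ℚ) : ℝ)) (c := ((35865 / 10000 : ℚ) : ℝ)) (by norm_num) (by norm_num)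
    (by norm_num) (by norm_num) ?_ (by norm_num)
    (by norm_num) (fun y hy => ?_) h0 h1 (by convert h2; norm_num)
  · push_cast; linarith only [Real.pi_gt_d6]
  · simp only [Finset.sum_range_succ, Finset.sum_range_zero, cfL, List.getD_cons_zero,
      List.getD_cons_succ]
    push_cast
    have h4 := hy.1
    have h3 : y ^ 3 ≤ y ^ 2 := pow_le_pow_of_le_one hy.1 hy.2 (by norm_num)
    have h6 : 0 ≤ y ^ 3 := by positivity
    linarith only [h4, h3, h6]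

end Pool.Agent.P.MP_7eacff_nt
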