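import Pool.Agent.P.MP_7eacff_nt.RSeq
import Pool.Agent.P.MP_7eacff_nt.CellsEx

/-!
A resonator for the number of points in a long window.
-/

open Filter Topology Finset
open scoped Real

namespace Pool.Agent.P.MP_7eacff_nt

theorem Cells.smul {J : ℕ} {h δ B : ℝ} {φ : ℕ → ℝ → ℝ} (hC : Cells J h δ B φ) {a : ℕ → ℝ} {A : ℝ}
    (ha : ∀ i, |a i| ≤ A) : Cells J h δ (A * B) fun i u => a i * φ i u :=
  ⟨hC.hpos, hC.lt_one, hC.δpos, fun i => contDiff_const.mul (hC.cd i),
    fun i u hu => hC.supp i u (right_ne_zero_of_mul hu), fun i u => by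
      rw [abs_mul]
      exact mul_le_mul (ha i) (hC.bdd i u) (abs_nonneg _) ((abs_nonneg _).trans (ha i))⟩

theorem sum_ite_le {m J : ℕ} (h : m ≤ J) (f : ℕ → ℝ) :
    (∑ i ∈ range (J + 1), if i ≤ m then f i else 0) = ∑ i ∈ range (m + 1), f i := by
  rw [← sum_filter]
  congr 1
  ext i; simp only [mem_filter, mem_range]; omega

theorem rnum {τ ρ l S V c : ℝ} (hτ : 0 < τ) (hτ1 : τ ≤ 1 / 10) (hρ : 1 - τ ≤ ρ) (hc : 0 ≤ c)
    (hl : 0 ≤ l) (hS : 0 ≤ S) (h1 : (1 - τ) ^ 3 * π ^ 2 * c / 4 ≤ (l * S) ^ 2)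
    (hV : V ≤ l / π * (τ * S)) : (2 - 10 * τ) * √c ≤ 4 * ((1 - τ) * (ρ * l / π * S) - V) := by
  have hpi := Real.pi_pos
  have hs := Real.sqrt_nonneg c
  have h2 : (1 - τ) ^ 2 * π * √c / 2 ≤ l * S := by
    refine abs_le_of_sq_le_sq' (le_trans ?_ h1) (by positivity) |>.2
    rw [div_pow, mul_pow, mul_pow, Real.sq_sqrt hc]
    have h3 : ((1 - τ) ^ 2) ^ 2 ≤ (1 - τ) ^ 3 := by
      rw [← pow_mul]; exact pow_le_pow_of_le_one (by linarith only [hτ, hτ1]) (by linarith only [hτ]) (by norm_num)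
    have := mul_le_mul_of_nonneg_right h3 (show 0 ≤ π ^ 2 * c by positivity)
    linarith only [this]
  have h3 : (1 - τ) ^ 2 * √c / 2 ≤ l * S / π := by rw [le_div_iff₀ hpi]; linarith only [h2]
  have h4 : 0 ≤ l * S / π := by positivity
  have h5 : (1 - 3 * τ) * (l * S / π) ≤ (1 - τ) * (ρ * l / π * S) - V := by
    have h6 : 1 - 2 * τ ≤ (1 - τ) * ρ := by nlinarith only [hρ, hτ, hτ1]
    have h7 := mul_le_mul_of_nonneg_right h6 h4
    have e1 : (1 - τ) * (ρ * l / π * S) = (1 - τ) * ρ * (l * S / π) := by ring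
    have e2 : l / π * (τ * S) = τ * (l * S / π) := by ring
    linarith only [hV, h7, e1, e2]
  have h6 := mul_le_mul_of_nonneg_left h3 (show 0 ≤ 1 - 3 * τ by linarith only [hτ, hτ1])
  have h7 : 1 - 5 * τ ≤ (1 - 3 * τ) * (1 - τ) ^ 2 := by nlinarith only [hτ, hτ1, mul_pos hτ hτ]
  nlinarith only [h5, h6, h7, hs, mul_le_mul_of_nonneg_right h7 hs]

theorem exists_rgood {τ : ℝ} (hτ : 0 < τ) (hτ1 : τ ≤ 1 / 10) : ∀ᶠ c : ℝ in atTop, ∀ σ : ℝ,
    |σ| = 1 → ∃ (J : ℕ) (h δ B θ : ℝ) (φ : ℕ → ℝ → ℝ) (e : ℕ → ℝ), Cells J h δ B φ ∧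
      Lim J φ h e ∧ 2 * (h * J) < θ ∧ θ < 1 ∧ 0 < NN J 1 e ∧ (2 - 10 * τ) * √c * NN J 1 e ≤
        -σ * (4 * MM J 1 e fun i => ∫ u in (0 : ℝ)..1, φ i u * (Real.sin (π * c * u) / π)) := by
  obtain ⟨ρ, er, hρ, -, he, hcell⟩ := exists_cells one_pos (half_pos hτ) (by linarith only [hτ, hτ1])
  have hpi := Real.pi_pos
  have hpi3 := Real.pi_gt_three
  have h1 : Tendsto (fun i => |er i|) atTop (𝓝 0) := by simpa using he.abs
  have h2 : Tendsto (fun J : ℕ => (∑ i ∈ range (J + 1), |er i|) / J) atTop (𝓝 0) := by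
    have := h1.cesaro.add (h1.div_atTop tendsto_natCast_atTop_atTop)
    rw [add_zero] at this
    exact this.congr fun J => by rw [sum_range_succ]; ring
  obtain ⟨m, hm1, hm2, hm3⟩ := ((h2.eventually_le_const (show 0 < τ ^ 2 by positivity)).and
    ((tendsto_natCast_atTop_atTop.eventually_ge_atTop (1 / τ ^ 2)).and
      (eventually_ne_atTop 0))).exists
  have hm0 : (0 : ℝ) < m := by positivity
  obtain ⟨x, hx⟩ : ∃ x, x = 1 / (τ * m) := ⟨_, rfl⟩
  have hx0 : 0 < x := by rw [hx]; positivity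
  have hxm : 1 / m = τ * x := by rw [hx]; field_simp
  have hxτ : x ≤ τ := by
    rw [div_le_iff₀ (by positivity)] at hm2
    rw [hx, div_le_iff₀ (by positivity)]; linarith only [hm2]
  obtain ⟨S, hSd⟩ : ∃ S, S = ∑ n ∈ range (m + 1), Real.sin (x * n) ^ 2 / (n : ℝ) ^ 2 := ⟨_, rfl⟩
  have hS : (1 - τ) * π * x / 2 ≤ S := by
    have := sum_sin_sq_ge hx0.le (by linarith only [hτ, hτ1, hpi3, hxτ]) hm3
    rw [← hSd, hxm] at this
    nlinarith only [this, hxτ, hx0, hpi3, hτ, hτ1, mul_le_mul_of_nonneg_left hxτ hx0.le, mul_pos hτ hx0]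
  have hSx : x ≤ S := by
    have h3 : 2 ≤ (1 - τ) * π := by nlinarith only [hτ1, hpi3, hτ, hpi]
    linarith only [hS, h3, hx0, mul_le_mul_of_nonneg_right h3 hx0.le]
  have hS0 : 0 < S := by linarith only [hx0, hSx]
  have hE : x * x * ∑ i ∈ range (m + 1), |er i| ≤ τ * S := by
    rw [div_eq_mul_one_div, hxm] at hm1
    have h3 : x * ∑ i ∈ range (m + 1), |er i| ≤ τ := by
      refine le_of_mul_le_mul_left ?_ hτ
      linarith only [hm1]
    nlinarith only [h3, hx0, hτ, hSx, mul_le_mul_of_nonneg_left h3 hx0.le]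
  obtain ⟨β, hβ⟩ : ∃ β, β = (1 - τ) / (1 - τ / 2) := ⟨_, rfl⟩
  have hβ0 : 0 ≤ β := by rw [hβ]; apply div_nonneg <;> linarith only [hτ, hτ1]
  have hβ1 : β < 1 := by rw [hβ, div_lt_one (by linarith only [hτ, hτ1])]; linarith only [hτ]
  obtain ⟨K, hK⟩ := ((tendsto_pow_atTop_nhds_zero_of_lt_one hβ0 hβ1).eventually_le_const
    (show 0 < τ / m by positivity)).exists
  have t1 : Tendsto (fun c : ℝ => x / (π * c)) atTop (𝓝 0) :=
    tendsto_const_nhds.div_atTop (tendsto_id.const_mul_atTop hpi)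
  have t2 : Tendsto (fun c : ℝ => τ / 2 * ((1 - τ) * π / (2 * x)) * c) atTop atTop :=
    tendsto_id.const_mul_atTop (by have : 0 < 1 - τ := by linarith only [hτ, hτ1]
                                   positivity)
  filter_upwards [eventually_gt_atTop 0, t1.eventually_le_const (show 0 < τ / 4 by positivity),
    t2.eventually_ge_atTop ((K + 1) * m)] with c hc hh1 hc2 σ hσ
  obtain ⟨h, hh⟩ : ∃ h, h = x / (π * c) := ⟨_, rfl⟩
  rw [← hh] at hh1
  have hh0 : 0 < h := by rw [hh]; positivity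
  obtain ⟨J, hJ⟩ : ∃ J, J = ⌈(1 - τ) / (2 * h)⌉₊ := ⟨_, rfl⟩
  have hJ1 : (1 - τ) / (2 * h) ≤ J := hJ ▸ Nat.le_ceil _
  have hJ2 : (J : ℝ) < (1 - τ) / (2 * h) + 1 :=
    hJ ▸ Nat.ceil_lt_add_one (div_nonneg (by linarith only [hτ1, hh1, hh0]) (by positivity))
  have hJ3 : 2 * (h * J) ≤ 1 - τ / 2 := by
    rw [← sub_lt_iff_lt_add, lt_div_iff₀ (by positivity)] at hJ2
    linarith only [hh1, hJ2]
  have hJ4 : (1 - τ) * π / (2 * x) * c ≤ J := by
    refine le_trans (le_of_eq ?_) hJ1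
    rw [hh]; field_simp
  have hJ5 : (K + 1) * m ≤ τ / 2 * J :=
    hc2.trans (by rw [mul_assoc]; gcongr)
  have hK0 : (0 : ℝ) ≤ K * m := by positivity
  have hJ0 : (0 : ℝ) < J := by
    by_contra h0
    nlinarith only [hm0, hJ5, hK0, h0, hτ1]
  have hmJ : m ≤ J := by
    have : (m : ℝ) ≤ J := by nlinarith only [hJ5, hK0, hJ0, hτ1]
    exact_mod_cast this
  obtain ⟨l, hl⟩ : ∃ l, l = √((1 - τ) * J / S) := ⟨_, rfl⟩
  have hl0 : 0 ≤ l := hl ▸ Real.sqrt_nonneg _
  have hl2 : l ^ 2 * S = (1 - τ) * J := by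
    rw [hl, Real.sq_sqrt (div_nonneg (mul_nonneg (by linarith only [hτ1, hh1, hh0]) hJ0.le) hS0.le)]; field_simp
  obtain ⟨φ, δ, B, hC, hφ, hφ0, hw⟩ := hcell J h (-σ) hh0 (by linarith only [hτ1, hh1, hh0, hJ3]) (by rw [abs_neg, hσ])
  obtain ⟨a, ha⟩ : ∃ a : ℕ → ℝ, a = fun i => if i ≤ m then l * (Real.sin (x * i) / i) else 0 :=
    ⟨_, rfl⟩
  have hax : ∀ i, |a i| ≤ if i ≤ m then l * x else 0 := fun i => by
    simp only [ha]
    split_ifs
    · rw [abs_mul, abs_of_nonneg hl0, abs_div, Nat.abs_cast]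
      gcongr
      refine div_le_of_le_mul₀ (by positivity) hx0.le ?_
      exact (Real.abs_sin_le_abs).trans_eq (abs_of_nonneg (by positivity))
    · simp
  have hC' := hC.smul (a := a) (A := l * x) fun i => (hax i).trans (by
    split_ifs
    · rfl
    · positivity)
  have hq0 : ∀ i, 0 ≤ a i ^ 2 := fun i => sq_nonneg _
  have he0 := ex_nonneg hq0
  have hN1 : ∀ s ≤ J, ex (fun i => a i ^ 2) s ≤ NN J 1 (ex fun i => a i ^ 2) := fun s hs => by
    rw [NN_one]; exact single_le_sum (fun s _ => he0 s) (mem_range.2 (by omega))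
  have hN0 : 0 < NN J 1 (ex fun i => a i ^ 2) := by
    have := hN1 0 (Nat.zero_le _)
    rw [ex_zero] at this; linarith only [hτ1, hh1, hh0, this]
  refine ⟨J, h, δ, _, 1 - τ / 4, _, ex fun i => a i ^ 2, hC', hC'.lim_ex fun i hi hi' => ?_,
    by linarith only [hh1, hh0, hJ3], by linarith only [hh1, hh0], hN0, ?_⟩
  · have := hφ i hi hi'
    simp_rw [mul_pow, mul_assoc]
    rw [intervalIntegral.integral_const_mul, mul_left_comm, this]; ring
  have hdec := ex_decay hq0 (m := m) (J := J) (fun i hi => by simp [ha, hi.not_ge]) hβ0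
    (L := (1 - τ / 2) * J) (mul_pos (by linarith only [hτ1, hh1, hh0]) hJ0) (fun n => by
      have e1 : β * ((1 - τ / 2) * J) = ∑ i ∈ range (max n m + 1), a i ^ 2 := by
        have e2 : ∀ i, a i ^ 2 =
            if i ≤ m then l ^ 2 * (Real.sin (x * i) ^ 2 / (i : ℝ) ^ 2) else 0 := fun i => by
          simp only [ha]; split_ifs <;> ring
        simp_rw [e2]
        rw [sum_ite_le (le_max_right _ _), ← mul_sum, ← hSd, hl2, hβ]
        rw [← mul_assoc, div_mul_cancel₀ _ (by linarith only [hτ1, hh1, hh0])]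
      rw [e1]
      exact sum_le_sum_of_subset_of_nonneg (range_mono (by omega)) fun i _ _ => hq0 i) hN1 K
  have htail := fun i (hi : i ≤ m) => NN_tail (J := J) (τ := τ / m) (by positivity) he0
    (fun s hs hs' => (hdec s hs (by
      have : (J : ℝ) < s + m := by exact_mod_cast hs'
      linarith only [hJ5, this])).trans (mul_le_mul_of_nonneg_right hK hN0.le)) hi
  rw [mul_div_cancel₀ _ hm0.ne'] at htail
  have hρ0 : 0 ≤ ρ := by linarith only [hτ1, hρ, hh1, hh0]
  have key := MM_lower (J := J) (m := m) (ε := -σ)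
    (w := fun i => ∫ u in (0 : ℝ)..1, a i * φ i u * (Real.sin (π * c * u) / π))
    (u := fun i => if i ≤ m then ρ * l / π * (Real.sin (x * i) ^ 2 / (i : ℝ) ^ 2) else 0)
    (v := fun i => if i ≤ m then l / π * (x * x * |er i|) else 0) he0
    (fun i => by split_ifs <;> positivity) (fun i => by split_ifs <;> positivity)
    (fun i hi => ?_) (fun i hi => by simp [hi.not_ge]) htail
  · rw [sum_ite_le hmJ, sum_ite_le hmJ, ← mul_sum, ← mul_sum, ← mul_sum, ← hSd] at key
    have h3 := rnum hτ hτ1 (ρ := ρ) (by linarith only [hρ]) hc.le hl0 hS0.le (by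
      have h4 := mul_le_mul hJ4 hS (by have : 0 < 1 - τ := by linarith only [hτ1, hh1, hh0]
                                       positivity) hJ0.le
      have h5 := mul_le_mul_of_nonneg_left h4 (show 0 ≤ 1 - τ by linarith only [hτ1, hh1, hh0])
      calc _ = (1 - τ) * ((1 - τ) * π / (2 * x) * c * ((1 - τ) * π * x / 2)) := by
            field_simp; ring
        _ ≤ _ := h5
        _ = l ^ 2 * S * S := by rw [hl2]; ring
        _ = _ := by ring) (mul_le_mul_of_nonneg_left hE (by positivity))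
    linarith only [key, h3, hN0, mul_le_mul_of_nonneg_right h3 hN0.le]
  rcases Nat.eq_zero_or_pos i with rfl | hi0
  · simp only [hφ0, Nat.zero_le, if_true, Nat.cast_zero, mul_zero, Real.sin_zero, Pi.zero_apply,
      zero_mul, intervalIntegral.integral_zero, ne_eq, OfNat.ofNat_ne_zero, not_false_eq_true,
      zero_pow, zero_div, zero_sub, neg_nonpos]
    positivity
  have hi' : (0 : ℝ) < i := by exact_mod_cast hi0
  have h7' := hw (fun u => ((Real.sin (π * c * u) / π : ℝ) : ℂ)) c (by fun_prop) (by simp)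
    (fun x y => by
      rw [← Complex.ofReal_sub, Complex.norm_real, ← sub_div, Real.norm_eq_abs, abs_div,
        abs_of_pos hpi, div_le_iff₀ hpi]
      refine (Real.abs_sin_sub_sin_le _ _).trans_eq ?_
      rw [← mul_sub, abs_mul, abs_of_pos (by positivity)]; ring) i hi0 hi
  simp only [← Complex.ofReal_mul, intervalIntegral.integral_ofReal] at h7'
  rw [← Complex.ofReal_natCast, ← Complex.ofReal_div, ← Complex.ofReal_mul, ← Complex.ofReal_sub,
    Complex.norm_real, ← mul_assoc (π * c), show π * c * h = x by rw [hh]; field_simp,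
    show c * h = x / π by rw [hh]; field_simp, Real.norm_eq_abs] at h7'
  simp_rw [mul_assoc (a i)]
  rw [intervalIntegral.integral_const_mul]
  generalize (∫ u in (0 : ℝ)..1, φ i u * (Real.sin (π * c * u) / π)) = w at h7' ⊢
  have h8 := hax i
  have h9 := mul_le_mul h8 (h7'.trans (mul_le_mul_of_nonneg_left (le_abs_self _) (by positivity)))
    (abs_nonneg _) ((abs_nonneg _).trans h8)
  rw [← abs_mul] at h9
  have h10 := (abs_le.1 h9).1
  simp only [ha] at h10 ⊢
  split_ifs at h10 ⊢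
  · refine le_trans (le_of_eq ?_) ((sub_le_iff_le_add'.2 (by linarith only [h10])) :
      l * (Real.sin (x * i) / i) * (ρ * 1 * (Real.sin (x * i) / π / i)) -
        l * x * (x / π * |er i|) ≤ _)
    ring
  · simp

end Pool.Agent.P.MP_7eacff_nt
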