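import Pool.Agent.P.MP_7eacff_nt.Count
import Pool.Agent.P.MP_7eacff_nt.RCells
import Pool.Agent.P.MP_7eacff_nt.Prob
import Pool.Agent.P.MP_7eacff_nt.Long

/-!
Small and large distances between `γ n` and `γ (n + r)`.
-/

open Complex Filter Topology MeasureTheory Set
open scoped Real ENNReal

namespace Pool.Agent.P.MP_7eacff_nt

theorem exists_far {W : Set ℕ} {r : ℕ} (h : (r : ℝ) < ((W.encard : ℝ≥0∞)).toReal) :
    ∃ m ∈ W, ∃ n ∈ W, m + r ≤ n := by
  have hW : W.Nonempty := by
    by_contra h0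
    rw [not_nonempty_iff_eq_empty.1 h0] at h
    simp at h
    linarith [(Nat.cast_nonneg r : (0 : ℝ) ≤ r)]
  by_contra h0
  push Not at h0
  have h1 : W ⊆ (Finset.Ico (sInf W) (sInf W + r) : Finset ℕ) := fun n hn => by
    simpa using ⟨Nat.sInf_le hn, h0 _ (Nat.sInf_mem hW) n hn⟩
  have h2 := encard_le_encard h1
  rw [encard_coe_eq_coe_finsetCard, Nat.card_Ico, Nat.add_sub_cancel_left] at h2
  have h3 := ENNReal.toReal_mono (by simp) (ENat.toENNReal_le.2 h2)
  simp only [ENat.toENNReal_coe, ENNReal.toReal_natCast] at h3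
  linarith only [h, h3]

namespace Enum

variable {μ : Measure ℝ} {γ : ℕ → ℝ} (hγ : Enum μ γ) (hμ : ZData μ)
include hγ hμ

theorem rsmall {η c : ℝ} {r : ℕ} (hη : 0 < η) (hc : 0 < c)
    (h : ∀ᶠ T in atTop, ENNReal.ofReal (η * T) ≤
      volume {t | t ∈ Icc (T / 2) (3 * T) ∧ r < cnt μ c T t}) :
    ∃ η' : ℝ, 0 < η' ∧ ∀ᶠ N : ℕ in atTop, η' * N ≤ ((Finset.range N).filter fun n =>
      (γ (n + r) - γ n) / (2 * π) * Real.log (γ n / (2 * π)) ≤ c).card := by
  refine hγ.density hμ hη (show 0 < 2 * π * c by positivity) _ ?_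
  filter_upwards [h, Real.tendsto_log_atTop.eventually_ge_atTop (2 * π), eventually_gt_atTop c]
    with T h1 hL hT N hN
  have hl := one_le_lam hL
  have hL0 : 0 < Real.log T := by linarith only [hL, Real.pi_pos]
  set S := (Finset.range N).filter fun n =>
    (γ (n + r) - γ n) / (2 * π) * Real.log (γ n / (2 * π)) ≤ c with hS
  have h2 : {t | t ∈ Icc (T / 2) (3 * T) ∧ r < cnt μ c T t} ⊆
      ⋃ m ∈ S, {t | |Real.log T / (2 * π) * (γ m - t)| ≤ c / 2} := by
    rintro t ⟨ht, h2⟩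
    rw [cnt, Measure.real, hγ.cnt_eq hL (by linarith only [hT, ht.1])] at h2
    obtain ⟨m, hm, n, hn, hmn⟩ := exists_far h2
    have h4 : γ (m + r) ≤ γ n := hγ.mono hmn
    have h5 : γ m ≤ γ (m + r) := hγ.mono (Nat.le_add_right m r)
    have hm' := abs_le.1 (mem_ofPred_eq ▸ hm :)
    have hn' := abs_le.1 (mem_ofPred_eq ▸ hn :)
    have h6 : γ m < 4 * T := by
      by_contra h6
      nlinarith only [hc, hT, hm', h6, hl, ht.2, hm'.2]
    simp only [mem_iUnion, hS, Finset.mem_filter, Finset.mem_range]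
    refine ⟨m, ⟨hγ.mono.reflect_lt (by rwa [hN]), ?_⟩, hm⟩
    have h7 : Real.log (γ m / (2 * π)) ≤ Real.log T := by
      refine Real.log_le_log (by have := hγ.pos m; positivity) ?_
      rw [div_le_iff₀ (by positivity)]
      nlinarith only [hc, hT, h6, Real.pi_gt_three]
    calc _ ≤ (γ (m + r) - γ m) / (2 * π) * Real.log T :=
          mul_le_mul_of_nonneg_left h7 (div_nonneg (by linarith only [h5]) (by positivity))
      _ = Real.log T / (2 * π) * (γ (m + r) - γ m) := by ring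
      _ ≤ _ := by nlinarith only [h4, hm', hn', hl, hm'.1, hn'.2]
  have h3 := h1.trans ((measure_mono h2).trans (measure_biUnion_finset_le _ _))
  simp only [volume_window hL, Finset.sum_const, nsmul_eq_mul] at h3
  rw [← ENNReal.ofReal_natCast, ← ENNReal.ofReal_mul (Nat.cast_nonneg _),
    ENNReal.ofReal_le_ofReal_iff (by positivity)] at h3
  refine h3.trans ?_
  gcongr; linarith only []

theorem rlarge {η c c' R : ℝ} {r : ℕ} (hr : 1 ≤ r) (hη : 0 < η) (hc' : 0 < c') (hc : c' < c)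
    (hR : 0 < R) (h : ∀ᶠ T in atTop, ENNReal.ofReal (η * T) ≤
      volume {t | t ∈ Icc (T / 2) (3 * T) ∧ cnt μ c T t < r ∧ cnt μ R T t ≠ 0}) :
    ∃ η' : ℝ, 0 < η' ∧ ∀ᶠ N : ℕ in atTop, η' * N ≤ ((Finset.range N).filter fun n =>
      c' ≤ (γ (n + r) - γ n) / (2 * π) * Real.log (γ n / (2 * π))).card := by
  have hr1 : (1 : ℝ) ≤ r := by exact_mod_cast hr
  refine hγ.density hμ hη (show 0 < r * ((r + 1) * (2 * π * R)) by positivity) _ ?_
  filter_upwards [h, Real.tendsto_log_atTop.eventually_ge_atTop (2 * π), eventually_gt_atTop c,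
    eventually_gt_atTop R, eventually_gt_atTop (2 * γ 0 + c),
    Real.tendsto_log_atTop.eventually_ge_atTop (c * Real.log (4 * π) / (c - c'))]
    with T h1 hL hT hTR hT0 hL2 N hN
  have hl := one_le_lam hL
  have hL0 : 0 < Real.log T := by linarith only [hL, Real.pi_pos]
  set l := Real.log T / (2 * π) with hl'
  set S := (Finset.range N).filter fun n =>
    c' ≤ (γ (n + r) - γ n) / (2 * π) * Real.log (γ n / (2 * π)) with hS
  set S' := (Finset.range N).filter fun n => c ≤ l * (γ (n + r) - γ n) ∧ T / 2 ≤ γ (n + r) with hS'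
  have h2 : {t | t ∈ Icc (T / 2) (3 * T) ∧ cnt μ c T t < r ∧ cnt μ R T t ≠ 0} ⊆
      ⋃ m ∈ S', ⋃ j ∈ Finset.range (r + 1), {t | |l * (γ (m + j) - t)| ≤ R / 2} := by
    rintro t ⟨ht, h2, h3⟩
    obtain ⟨k, hk⟩ : {n | |l * (γ n - t)| ≤ R / 2}.Nonempty := by
      by_contra h5
      rw [cnt, Measure.real, hγ.cnt_eq hL (by linarith only [hTR, ht.1]), not_nonempty_iff_eq_empty.1 h5] at h3
      simp at h3
    have hex : ∃ n, -(c / 2) ≤ l * (γ (n + 1) - t) := by
      obtain ⟨n, hn⟩ := ((hγ.tendsto hμ).eventually_gt_atTop t).exists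
      have := hγ.mono (Nat.le_succ n)
      exact ⟨n, by nlinarith only [hc', hc, hn, this, hl]⟩
    have hm1 := Nat.find_spec hex
    have hm0 : l * (γ (Nat.find hex) - t) < -(c / 2) := by
      rcases hn : Nat.find hex with _ | n
      · nlinarith only [hT0, hc', hl, hc, ht.1]
      · exact not_le.1 (Nat.find_min hex (by omega))
    generalize Nat.find hex = m at hm1 hm0
    have h6 : c / 2 < l * (γ (m + r) - t) := by
      by_contra h4
      have h5 := hμ.window_ne_top c hL t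
      rw [cnt, Measure.real] at h2
      rw [hγ.cnt_eq hL (by linarith only [hT, ht.1])] at h2 h5
      have h7 : ((Finset.Ioc m (m + r) : Finset ℕ) : Set ℕ) ⊆ {n | |l * (γ n - t)| ≤ c / 2} := by
        intro n hn
        rw [Finset.mem_coe, Finset.mem_Ioc] at hn
        have h8 : γ (m + 1) ≤ γ n := hγ.mono hn.1
        have h9 : γ n ≤ γ (m + r) := hγ.mono hn.2
        rw [mem_ofPred_eq, abs_le]
        constructor <;> nlinarith only [hm1, h8, hl, h4, h9, not_lt.1 h4]
      have h8 := encard_le_encard h7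
      rw [encard_coe_eq_coe_finsetCard, Nat.card_Ioc, Nat.add_sub_cancel_left] at h8
      have := ENNReal.toReal_mono h5 (ENat.toENNReal_le.2 h8)
      simp only [ENat.toENNReal_coe, ENNReal.toReal_natCast] at this
      linarith only [h2, this]
    have h7 : γ m < t := by
      by_contra h7
      nlinarith only [hc', hc, hm0, h7, hl, not_lt.1 h7]
    have h8 : t < γ (m + r) := by
      by_contra h8
      nlinarith only [hc', hc, h6, h8, hl, not_lt.1 h8]
    simp only [mem_iUnion, hS', Finset.mem_filter, Finset.mem_range]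
    refine ⟨m, ⟨hγ.mono.reflect_lt (by linarith only [hc', hc, hT, hN, h7, ht.2]), by linarith only [hm0, h6], by linarith only [h8, ht.1]⟩, ?_⟩
    have hk' := abs_le.1 (mem_ofPred_eq ▸ hk :)
    rcases le_or_gt k m with h9 | h9
    · have := hγ.mono h9
      refine ⟨0, by omega, ?_⟩
      rw [mem_ofPred_eq, add_zero, abs_of_nonpos (by nlinarith only [hc', hc, hm0])]
      nlinarith only [hk', this, hl, hk'.1]
    rcases le_or_gt (m + r) k with h10 | h10
    · have := hγ.mono h10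
      refine ⟨r, by omega, ?_⟩
      rw [mem_ofPred_eq, abs_of_nonneg (by nlinarith only [hc', hc, h6])]
      nlinarith only [hk', this, hl, hk'.2]
    · exact ⟨k - m, by omega, by rw [show m + (k - m) = k by omega]; exact hk⟩
  have h3 := h1.trans ((measure_mono h2).trans ((measure_biUnion_finset_le _ _).trans
    (Finset.sum_le_sum fun m _ => measure_biUnion_finset_le _ _)))
  simp only [hl', volume_window hL, Finset.sum_const, nsmul_eq_mul, Finset.card_range] at h3
  rw [← ENNReal.ofReal_natCast, ← ENNReal.ofReal_natCast, ← ENNReal.ofReal_mul (Nat.cast_nonneg _),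
    ← ENNReal.ofReal_mul (Nat.cast_nonneg _), ENNReal.ofReal_le_ofReal_iff (by positivity)] at h3
  have h4 : S'.card ≤ S.card + r := by
    have h5 : S' ⊆ S ∪ (Finset.range N).filter fun n => γ n < T / 2 ∧ T / 2 ≤ γ (n + r) := by
      intro m hm
      simp only [hS, hS', Finset.mem_filter, Finset.mem_union] at hm ⊢
      by_cases h6 : γ m < T / 2
      · exact Or.inr ⟨hm.1, h6, hm.2.2⟩
      refine Or.inl ⟨hm.1, ?_⟩
      have h7 : Real.log T - Real.log (4 * π) ≤ Real.log (γ m / (2 * π)) := by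
        rw [← Real.log_div (by linarith only [hc', hc, hT]) (by positivity)]
        refine Real.log_le_log (by apply div_pos <;> linarith only [hc', hc, hT, Real.pi_pos]) ?_
        rw [div_le_div_iff₀ (by positivity) (by positivity)]
        nlinarith only [h6, Real.pi_pos, not_lt.1 h6]
      have h8 : c / Real.log T ≤ (γ (m + r) - γ m) / (2 * π) := by
        have := hm.2.1
        rw [div_le_iff₀ hL0]
        rw [hl'] at this
        linarith only [hm, show Real.log T / (2 * π) * (γ (m + r) - γ m) =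
          (γ (m + r) - γ m) / (2 * π) * Real.log T by ring]
      rw [div_le_iff₀ (by linarith only [hc])] at hL2
      have h9 : c' * Real.log T ≤ c * (Real.log T - Real.log (4 * π)) := by linarith only [hL2]
      have h10 : 0 ≤ Real.log T - Real.log (4 * π) := by
        by_contra h10
        nlinarith only [hL2, hc', hL0, h10, hc, mul_pos hc' hL0]
      calc c' ≤ c / Real.log T * (Real.log T - Real.log (4 * π)) := by
            rw [div_mul_eq_mul_div, le_div_iff₀ hL0]; exact h9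
        _ ≤ _ := mul_le_mul h8 h7 h10 ((div_nonneg (by linarith only [hc', hc]) hL0.le).trans h8)
    refine (Finset.card_le_card h5).trans ((Finset.card_union_le _ _).trans ?_)
    gcongr
    by_contra h6
    obtain ⟨a, ha, b, hb, hab⟩ := exists_far (r := r) (W := ((Finset.range N).filter
      fun n => γ n < T / 2 ∧ T / 2 ≤ γ (n + r) : Finset ℕ)) (by
        rw [encard_coe_eq_coe_finsetCard]
        simp only [ENat.toENNReal_coe, ENNReal.toReal_natCast]
        exact_mod_cast not_le.1 h6)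
    rw [Finset.mem_coe, Finset.mem_filter] at ha hb
    linarith only [ha, hb, hab, hγ.mono hab, ha.2.2, hb.2.1]
  have h5 : (S'.card : ℝ) ≤ (S.card + 1) * r := by
    have h6 : (S'.card : ℝ) ≤ S.card + r := by exact_mod_cast h4
    nlinarith only [h6, hr1, (Nat.cast_nonneg S.card : (0 : ℝ) ≤ _)]
  refine h3.trans ?_
  push_cast
  calc _ ≤ (S.card + 1) * r * ((r + 1) * (2 * π * R / Real.log T)) := by gcongr
    _ = _ := by ring

end Enum

theorem prob_dev {μ P : Measure ℝ} [SFinite μ] (hμ : ZData μ) (hP : Win P) {ε : ℝ} (hε : 0 < ε) :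
    ∀ᶠ c : ℝ in atTop, ∀ σ k : ℝ, |σ| = 1 → 1 ≤ k → 0 < σ * (c - k) + (2 - ε) * √c →
      ∃ θ η : ℝ, 0 < θ ∧ θ < 1 ∧ 0 < η ∧ ∀ᶠ T in atTop, ∀ X ∈ Icc T (2 * T),
        η ≤ P.real {v | X + T ^ θ * v ∈ Icc (T / 2) (3 * T) ∧
          0 < σ * (cnt μ c T (X + T ^ θ * v) - k)} := by
  filter_upwards [exists_rgood (τ := min ε 1 / 10) (by positivity)
    (by linarith only [min_le_right ε 1]), eventually_gt_atTop 0] with c h hc σ k hσ hk hnum
  obtain ⟨J, h, δ, B, θ, φ, e, hC, hl, hθ, hθ1, hN, hM⟩ := h σ hσ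
  obtain ⟨η, hη, h1⟩ := hC.prob_pos hμ hP 1 hl hk hc hθ hθ1 hσ (by
    have h2 : (2 - ε) * √c ≤ (2 - 10 * (min ε 1 / 10)) * √c :=
      mul_le_mul_of_nonneg_right (by linarith only [min_le_left ε 1]) (Real.sqrt_nonneg c)
    have h3 := mul_pos hnum hN
    have h4 := mul_le_mul_of_nonneg_right h2 hN.le
    refine (mul_pos hN (show 0 < σ * (c - k) * NN J 1 e + -σ * (4 * MM J 1 e fun i =>
      ∫ u in (0 : ℝ)..1, φ i u * (Real.sin (π * c * u) / π)) by linarith only [hM, h3, h4])).trans_eq (by ring))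
  exact ⟨θ, η, lt_of_le_of_lt (by have := hC.hpos; positivity) hθ, hθ1, hη, h1⟩

theorem small_rgaps {μ : Measure ℝ} [SFinite μ] (hμ : ZData μ) {γ : ℕ → ℝ} (hγ : Enum μ γ) {ε : ℝ}
    (hε : 0 < ε) : ∀ᶠ r : ℕ in atTop, ∃ η : ℝ, 0 < η ∧ ∀ᶠ N : ℕ in atTop,
      η * N ≤ ((Finset.range N).filter fun n => (γ (n + r) - γ n) / (2 * π) *
        Real.log (γ n / (2 * π)) ≤ r - (2 - ε) * √r).card := by
  obtain ⟨P, hP⟩ := exists_win
  have := hP.prob
  obtain ⟨c0, hc0⟩ := eventually_atTop.1 (prob_dev hμ hP (half_pos hε))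
  have hs : Tendsto (fun r : ℕ => √(r : ℝ)) atTop atTop :=
    Real.tendsto_sqrt_atTop.comp tendsto_natCast_atTop_atTop
  filter_upwards [eventually_ge_atTop 1, hs.eventually_ge_atTop (max 4 (|c0| + 1)),
    hs.eventually_gt_atTop (8 / ε), hs.eventually_ge_atTop ε] with r hr h4 h8 h10
  have hr0 : (0 : ℝ) ≤ r := Nat.cast_nonneg r
  have hsq := Real.mul_self_sqrt hr0
  obtain ⟨h4, h5⟩ := max_le_iff.1 h4
  rw [div_lt_iff₀ hε] at h8
  generalize √(r : ℝ) = s at *
  obtain ⟨c, hc⟩ : ∃ c, c = r - (2 - ε) * s := ⟨_, rfl⟩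
  have h6 : (s - 2) ^ 2 ≤ c := by nlinarith only [h8, hsq, h4, hc]
  have h7 : s - 2 ≤ √c := Real.le_sqrt_of_sq_le h6
  have hcs : s ≤ c := by nlinarith only [h8, hsq, h4, hc]
  obtain ⟨θ, η, -, -, hη, h1⟩ := hc0 c (by linarith only [h5, hcs, le_abs_self c0]) 1 r abs_one
    (by exact_mod_cast hr) (by
      rcases le_total ε 4 with h | h
      · nlinarith only [hε, h8, hc, h7, h, mul_le_mul_of_nonneg_left h7 (show 0 ≤ 2 - ε / 2 by linarith only [h])]
      · have h9 : √c ≤ 2 * s := Real.sqrt_le_iff.2 ⟨by linarith, by nlinarith only [h10, hsq, h4, hc, hε, h8]⟩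
        nlinarith only [h4, hc, h9, h, mul_le_mul_of_nonneg_left h9 (show 0 ≤ ε / 2 - 2 by linarith)])
  rw [← hc]
  refine hγ.rsmall hμ hη (by linarith only [h4, hcs]) ?_
  filter_upwards [h1, eventually_ge_atTop 0] with T h2 hT
  refine le_volume_of_prob (P := P) (T0 := T ^ θ) (measurableSet_Icc.inter
    (measurableSet_lt measurable_const (measurable_cnt μ c T))) hT fun X hX => ?_
  simpa using h2 X hX

theorem large_rgaps {μ : Measure ℝ} [SFinite μ] (hμ : ZData μ) {γ : ℕ → ℝ} (hγ : Enum μ γ) {ε : ℝ}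
    (hε : 0 < ε) : ∀ᶠ r : ℕ in atTop, ∃ η : ℝ, 0 < η ∧ ∀ᶠ N : ℕ in atTop,
      η * N ≤ ((Finset.range N).filter fun n => r + (2 - ε) * √r ≤ (γ (n + r) - γ n) / (2 * π) *
        Real.log (γ n / (2 * π))).card := by
  obtain ⟨P, hP⟩ := exists_win
  have := hP.prob
  have hε1 : 0 < min ε 1 := lt_min hε one_pos
  have hε2 := min_le_left ε 1
  have hε3 := min_le_right ε 1
  generalize min ε 1 = ε' at *
  obtain ⟨c0, hc0⟩ := eventually_atTop.1 (prob_dev hμ hP (show 0 < ε' / 4 by positivity))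
  have hs : Tendsto (fun r : ℕ => √(r : ℝ)) atTop atTop :=
    Real.tendsto_sqrt_atTop.comp tendsto_natCast_atTop_atTop
  filter_upwards [eventually_ge_atTop 1, hs.eventually_ge_atTop (|c0| + 1),
    hs.eventually_ge_atTop ε] with r hr h5 h10
  have hr0 : (0 : ℝ) ≤ r := Nat.cast_nonneg r
  have hsq := Real.mul_self_sqrt hr0
  have h4 := abs_nonneg c0
  generalize √(r : ℝ) = s at *
  obtain ⟨c, hc⟩ : ∃ c, c = r + (2 - ε' / 2) * s := ⟨_, rfl⟩
  have h7 : s ≤ √c := Real.le_sqrt_of_sq_le (by nlinarith only [hε3, h4, h5, hsq, hc])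
  obtain ⟨θ, η, hθ, hθ1, hη, h1⟩ := hc0 c (by nlinarith only [hε3, h4, h5, hc, le_abs_self c0]) (-1) r (by simp)
    (by exact_mod_cast hr) (by
      nlinarith only [hε1, hc, h7, hε3, h4, h5, mul_le_mul_of_nonneg_left h7 (show 0 ≤ 2 - ε' / 4 by linarith only [hε3])])
  obtain ⟨R, hR, h2⟩ := hμ.prob_long hP hθ hθ1 (half_pos hη)
  refine hγ.rlarge hμ (c := c) hr (half_pos hη) (by nlinarith only [h4, h5, h10, hsq]) (by nlinarith only [hε2, hc, hε, h4, h5, hθ, hθ1]) hR ?_
  filter_upwards [h1, h2, eventually_ge_atTop 0] with T h3 h4 hT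
  refine le_volume_of_prob (P := P) (T0 := T ^ θ) (measurableSet_Icc.inter
    ((measurableSet_lt (measurable_cnt μ c T) measurable_const).inter
      (measurableSet_eq_fun (measurable_cnt μ R T) measurable_const).compl)) hT fun X hX => ?_
  have h5 := (h3 X hX).trans ((measureReal_mono (s₂ := {v | X + T ^ θ * v ∈
      {t | t ∈ Icc (T / 2) (3 * T) ∧ cnt μ c T t < r ∧ cnt μ R T t ≠ 0}} ∪
      {v | X + T ^ θ * v ∈ Icc (T / 2) (3 * T) ∧ cnt μ R T (X + T ^ θ * v) = 0})
    (fun v hv => ?_)).trans (measureReal_union_le _ _))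
  · change _ ≤ P.real {v | X + T ^ θ * v ∈
      {t | t ∈ Icc (T / 2) (3 * T) ∧ cnt μ c T t < r ∧ cnt μ R T t ≠ 0}}
    linarith only [h5, h4 X]
  · by_cases h6 : cnt μ R T (X + T ^ θ * v) = 0
    · exact Or.inr ⟨hv.1, h6⟩
    · exact Or.inl ⟨hv.1, by linarith only [hv.2], h6⟩

end Pool.Agent.P.MP_7eacff_nt
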