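import Pool.Agent.P.MP_7eacff_nt.Reso2

/-!
The diagonal sums for cell weights of varying size.
-/

open Filter Topology Finset
open scoped Real

namespace Pool.Agent.P.MP_7eacff_nt

/-- The coefficients of `exp (∑ q i * z ^ i / i)`. -/
noncomputable def ex (q : ℕ → ℝ) : ℕ → ℝ
  | 0 => 1
  | s + 1 => (∑ i ∈ range (s + 1), q (i + 1) * ex q (s - i)) / (s + 1)
decreasing_by omega

theorem ex_zero (q : ℕ → ℝ) : ex q 0 = 1 := by rw [ex]

theorem ex_succ (q : ℕ → ℝ) (s : ℕ) :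
    ex q (s + 1) = (∑ i ∈ range (s + 1), q (i + 1) * ex q (s - i)) / (s + 1) := by rw [ex]

theorem tendsto_ex {ι : Type*} {l : Filter ι} {E q : ι → ℕ → ℝ} {J : ℕ} {r : ℕ → ℝ}
    (h0 : ∀ᶠ T in l, E T 0 = 1 ∧ q T 0 = 0 ∧
      ∀ s ≤ J, s * E T s = ∑ i ∈ range (s + 1), q T i * E T (s - i))
    (hq : ∀ i, 1 ≤ i → i ≤ J → Tendsto (fun T => q T i) l (𝓝 (r i))) :
    ∀ s ≤ J, Tendsto (fun T => E T s) l (𝓝 (ex r s)) := by
  intro s
  induction s using Nat.strong_induction_on with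
  | _ s ih =>
    intro hs
    rcases s with _ | s
    · rw [ex_zero]; exact tendsto_const_nhds.congr' (h0.mono fun T hT => hT.1.symm)
    have hs' : (s : ℝ) + 1 ≠ 0 := by positivity
    have h1 : Tendsto (fun T => (∑ i ∈ range (s + 1), q T (i + 1) * E T (s - i)) / (s + 1)) l
        (𝓝 (ex r (s + 1))) := by
      rw [ex_succ]
      refine (tendsto_finsetSum _ fun i hi => ?_).div_const _
      rw [mem_range] at hi
      exact (hq _ (by omega) (by omega)).mul (ih _ (by omega) (by omega))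
    refine h1.congr' (h0.mono fun T hT => ?_)
    have := hT.2.2 (s + 1) hs
    rw [sum_range_succ', hT.2.1, zero_mul, add_zero] at this
    simp only [Nat.add_sub_add_right] at this
    push_cast at this
    simp only
    rw [← this, mul_div_cancel_left₀ _ hs']

theorem Cells.lim_ex {J : ℕ} {h δ B : ℝ} {φ : ℕ → ℝ → ℝ} (hC : Cells J h δ B φ) {r : ℕ → ℝ}
    (hr : ∀ i : ℕ, 1 ≤ i → i ≤ J → i * ∫ u in (0 : ℝ)..1, φ i u ^ 2 * u = r i) :
    Lim J φ h (ex r) := by
  refine tendsto_ex (q := fun T => qs (jj h T) ⌊T⌋₊ (fun n => cm (al φ h T) n ^ 2)) ?_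
    (fun i h1 h2 => hr i h1 h2 ▸ hC.tendsto_qs h2)
  filter_upwards [eventually_gt_atTop 1] with T hT
  have hN : 1 ≤ ⌊T⌋₊ := Nat.le_floor (by simpa using hT.le)
  refine ⟨by rw [Es_zero (hC.one_le_jj hT) hN]; simp, qs_zero (hC.one_le_jj hT) hN _,
    fun s hs => Es_rec (hC.le_floor_of_sz hT) (fun m n hm hn => ?_) hs⟩
  rw [cm_mul _ hm hn, mul_pow]

theorem ex_nonneg {q : ℕ → ℝ} (hq : ∀ i, 0 ≤ q i) (s : ℕ) : 0 ≤ ex q s := by
  induction s using Nat.strong_induction_on with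
  | _ s ih =>
    rcases s with _ | s
    · rw [ex_zero]; exact zero_le_one
    · rw [ex_succ]
      exact div_nonneg (sum_nonneg fun i _ => mul_nonneg (hq _) (ih _ (by omega))) (by positivity)

theorem ex_decay {q : ℕ → ℝ} (hq : ∀ i, 0 ≤ q i) {m J : ℕ} (hm : ∀ i, m < i → q i = 0)
    {β L A : ℝ} (hβ : 0 ≤ β) (hL : 0 < L) (hQ : ∀ n, ∑ i ∈ range n, q i ≤ β * L)
    (hA : ∀ s ≤ J, ex q s ≤ A) (k : ℕ) : ∀ s ≤ J, L + k * m ≤ s → ex q s ≤ β ^ k * A := by
  have hA0 : 0 ≤ A := (ex_nonneg hq 0).trans (hA 0 (Nat.zero_le _))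
  induction k with
  | zero => simpa using fun s hs _ => hA s hs
  | succ k ih =>
    intro s hs hk
    have hk0 : (0 : ℝ) ≤ k * m := by positivity
    have hm0 : (0 : ℝ) ≤ m := by positivity
    rcases s with _ | s
    · push_cast at hk; nlinarith only [hL, hk0, hk]
    push_cast at hk
    rw [ex_succ, div_le_iff₀ (by positivity)]
    calc _ ≤ ∑ i ∈ range (s + 1), q (i + 1) * (β ^ k * A) := by
          refine sum_le_sum fun i hi => ?_
          rw [mem_range] at hi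
          by_cases h : m < i + 1
          · simp [hm _ h]
          · refine mul_le_mul_of_nonneg_left (ih _ (by omega) ?_) (hq _)
            have h1 : (i : ℝ) + 1 ≤ m := by exact_mod_cast not_lt.1 h
            rw [Nat.cast_sub (by omega)]
            linarith only [hk, h1]
      _ ≤ β * L * (β ^ k * A) := by
          rw [← sum_mul]
          have h1 := hQ (s + 1 + 1)
          rw [sum_range_succ'] at h1
          gcongr
          linarith [hq 0]
      _ ≤ β * (s + 1) * (β ^ k * A) := by gcongr; nlinarith only [hk0, hk]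
      _ = _ := by ring

theorem NN_one (J : ℕ) (e : ℕ → ℝ) : NN J 1 e = ∑ s ∈ range (J + 1), e s := by simp [NN]

theorem NN_tail {J m : ℕ} {e : ℕ → ℝ} {τ : ℝ} (hτ : 0 ≤ τ) (he : ∀ s, 0 ≤ e s)
    (h : ∀ s ≤ J, J < s + m → e s ≤ τ * NN J 1 e) {i : ℕ} (hi : i ≤ m) :
    (1 - m * τ) * NN J 1 e ≤ ∑ s ∈ range (J + 1), if i + s ≤ J then e s else 0 := by
  have h0 : 0 ≤ NN J 1 e := by rw [NN_one]; exact sum_nonneg fun s _ => he s
  have h1 : NN J 1 e = (∑ s ∈ range (J + 1), if i + s ≤ J then e s else 0) +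
      ∑ s ∈ range (J + 1) with ¬ i + s ≤ J, e s := by
    rw [← sum_filter, sum_filter_add_sum_filter_not, NN_one]
  have h2 : ∑ s ∈ range (J + 1) with ¬ i + s ≤ J, e s ≤ m * (τ * NN J 1 e) := by
    refine (sum_le_card_nsmul _ _ (τ * NN J 1 e) fun s hs => ?_).trans ?_
    · simp only [mem_filter, mem_range] at hs
      exact h s (by omega) (by omega)
    · rw [nsmul_eq_mul]
      gcongr
      refine (card_le_card (t := Ioc (J - m) J ∪ (if J < m then {0} else ∅)) fun s hs => ?_).trans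
        ((card_union_le _ _).trans ?_)
      · simp only [mem_filter, mem_range] at hs
        split_ifs <;> simp <;> omega
      · split_ifs <;> simp <;> omega
  linarith only [h1, h2]

theorem MM_lower {J m : ℕ} {e w u v : ℕ → ℝ} {ε τ : ℝ} (he : ∀ s, 0 ≤ e s) (hu : ∀ i, 0 ≤ u i)
    (hv : ∀ i, 0 ≤ v i) (hw : ∀ i ≤ J, u i - v i ≤ ε * w i) (hum : ∀ i, m < i → u i = 0)
    (hτ : ∀ i ≤ m, (1 - τ) * NN J 1 e ≤ ∑ s ∈ range (J + 1), if i + s ≤ J then e s else 0) :
    ((1 - τ) * ∑ i ∈ range (J + 1), u i - ∑ i ∈ range (J + 1), v i) * NN J 1 e ≤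
      ε * MM J 1 e w := by
  rw [MM, mul_sum, ← sum_sub_distrib, sum_mul, mul_sum]
  refine sum_le_sum fun i hi => ?_
  have e1 : (∑ s ∈ range (J + 1), if i + s ≤ J then (1 : ℕ → ℝ) s * (1 : ℕ → ℝ) (i + s) *
      (w i * e s) else 0) = w i * ∑ s ∈ range (J + 1), if i + s ≤ J then e s else 0 := by
    rw [mul_sum]; exact sum_congr rfl fun s _ => by split_ifs <;> simp
  have h1 : (∑ s ∈ range (J + 1), if i + s ≤ J then e s else 0) ≤ NN J 1 e := by
    rw [NN_one]; exact sum_le_sum fun s _ => by split_ifs; exacts [le_rfl, he s]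
  have h2 : 0 ≤ ∑ s ∈ range (J + 1), if i + s ≤ J then e s else 0 :=
    sum_nonneg fun s _ => by split_ifs; exacts [he s, le_rfl]
  have h3 : u i * ((1 - τ) * NN J 1 e) ≤
      u i * ∑ s ∈ range (J + 1), if i + s ≤ J then e s else 0 := by
    by_cases h : m < i
    · simp [hum i h]
    · exact mul_le_mul_of_nonneg_left (hτ i (not_lt.1 h)) (hu i)
  rw [e1, ← mul_assoc]
  linarith only [h3, h2, h1, mul_le_mul_of_nonneg_right (hw i (Nat.le_of_lt_succ (mem_range.1 hi))) h2,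
    mul_le_mul_of_nonneg_left h1 (hv i)]

theorem hasSum_sin_sq {x : ℝ} (h0 : 0 ≤ x) (h1 : x ≤ π) :
    HasSum (fun n : ℕ => Real.sin (x * n) ^ 2 / (n : ℝ) ^ 2) (x * (π - x) / 2) := by
  have hpi := Real.pi_pos
  have h2 := hasSum_one_div_nat_pow_mul_cos one_ne_zero (x := x / π)
    ⟨by positivity, (div_le_one hpi).2 h1⟩
  have h3 := bernoulliFun_two (x / π)
  rw [bernoulliFun] at h3
  rw [mul_one, h3] at h2
  convert! (hasSum_zeta_two.sub h2).div_const 2 using 1
  · funext n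
    rw [show 2 * π * n * (x / π) = 2 * (x * n) by field_simp, Real.cos_two_mul, Real.cos_sq']
    ring
  · simp only [Nat.factorial]
    push_cast
    field_simp
    ring

theorem sum_sin_sq_ge {x : ℝ} (h0 : 0 ≤ x) (h1 : x ≤ π) {m : ℕ} (hm : m ≠ 0) :
    x * (π - x) / 2 - 1 / m ≤ ∑ n ∈ range (m + 1), Real.sin (x * n) ^ 2 / (n : ℝ) ^ 2 := by
  rw [sub_le_iff_le_add]
  refine le_of_tendsto (hasSum_sin_sq h0 h1).tendsto_sum_nat ?_
  filter_upwards [eventually_ge_atTop (m + 1)] with n hn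
  rw [← sum_range_add_sum_Ico _ hn]
  gcongr
  obtain ⟨n, rfl⟩ : ∃ k, n = k + 1 := ⟨n - 1, by omega⟩
  have h2 := sum_Ioc_inv_sq_le_sub (α := ℝ) hm (show m ≤ n by omega)
  have h3 : (0 : ℝ) ≤ (n : ℝ)⁻¹ := by positivity
  rw [Ico_add_one_add_one_eq_Ioc, one_div]
  refine le_trans (sum_le_sum fun i _ => ?_) (h2.trans (by linarith only [h3]))
  rw [div_eq_mul_inv]
  exact mul_le_of_le_one_left (by positivity) (Real.sin_sq_le_one _)

end Pool.Agent.P.MP_7eacff_nt
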