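import Pool.Agent.P.MP_7eacff_nt.Stat

/-!
Functions with one-sided spectrum.
-/

open Complex Filter Topology MeasureTheory Set
open scoped Real

namespace Pool.Agent.P.MP_7eacff_nt

/-- `F` has polynomial growth and only contains frequencies `exp (- 2 π i x v)` with `x ≥ l`. -/
structure Ann (P : Measure ℝ) (F : ℝ → ℂ) (l : ℝ) : Prop where
  meas : Measurable F
  grow : ∃ (C : ℝ) (k : ℕ), ∀ v, ‖F v‖ ≤ C * (1 + |v|) ^ k
  ann : ∀ ξ, ξ ≤ l - 1 → ∫ v, F v * ee (ξ * v) ∂P = 0

theorem iF_add {f g : ℝ → ℂ} (hf : Integrable f) (hg : Integrable g) (y : ℝ) :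
    iF (fun u => f u + g u) y = iF f y + iF g y := by
  simp only [iF, add_mul]
  exact integral_add (integrable_mul_ee hf y) (integrable_mul_ee hg y)

theorem Win.ann_one {P : Measure ℝ} (hP : Win P) : Ann P (fun _ => 1) 0 :=
  ⟨measurable_const, ⟨1, 0, by simp⟩, fun ξ hξ => by
    simpa using hP.orth ξ (by rw [abs_of_neg (by linarith)]; linarith)⟩

namespace Ann

variable {P : Measure ℝ} {F F' : ℝ → ℂ} {l l' : ℝ}

theorem integrable (h : Ann P F l) (hP : Win P) : Integrable F P := by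
  obtain ⟨C, k, hC⟩ := h.grow
  exact ((hP.mom k).const_mul C).mono' h.meas.aestronglyMeasurable (ae_of_all _ hC)

theorem integrable_ee (h : Ann P F l) (hP : Win P) (ξ : ℝ) :
    Integrable (fun v => F v * ee (ξ * v)) P := by
  simpa [mul_comm ξ] using integrable_mul_ee (h.integrable hP) ξ

theorem mono (h : Ann P F l) (hl : l' ≤ l) : Ann P F l' :=
  ⟨h.meas, h.grow, fun ξ hξ => h.ann ξ (by linarith)⟩

theorem add (hP : Win P) (h : Ann P F l) (h' : Ann P F' l) : Ann P (fun v => F v + F' v) l := by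
  refine ⟨h.meas.add h'.meas, ?_, fun ξ hξ => ?_⟩
  · obtain ⟨C, k, hC⟩ := h.grow
    obtain ⟨C', k', hC'⟩ := h'.grow
    refine ⟨|C| + |C'|, k + k', fun v => (norm_add_le _ _).trans ?_⟩
    have h1 : 1 ≤ 1 + |v| := by linarith [abs_nonneg v]
    rw [add_mul]
    refine add_le_add ((hC v).trans ?_) ((hC' v).trans ?_)
    · gcongr; exacts [le_abs_self _, by omega]
    · gcongr; exacts [le_abs_self _, by omega]
  · simp only [add_mul]
    rw [integral_add (h.integrable_ee hP ξ) (h'.integrable_ee hP ξ), h.ann ξ hξ, h'.ann ξ hξ,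
      add_zero]

theorem integral_ch (h : Ann P F l) {n m : ℕ} {X T0 : ℝ} (hT0 : 0 ≤ T0)
    (hm : Real.log m / (2 * π) * T0 ≤ l - 1) :
    ∫ v, F v * (ch n (X + T0 * v) * ch m (-(X + T0 * v))) ∂P = 0 := by
  have e : ∀ v, F v * (ch n (X + T0 * v) * ch m (-(X + T0 * v))) =
      ee ((Real.log m - Real.log n) / (2 * π) * X) *
        (F v * ee ((Real.log m - Real.log n) / (2 * π) * T0 * v)) := by
    intro v
    rw [ch, ch, ← ee_add, mul_left_comm, ← ee_add]
    congr 2; ring
  simp_rw [e]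
  rw [integral_const_mul, h.ann, mul_zero]
  have : 0 ≤ Real.log n / (2 * π) * T0 := by have := Real.log_natCast_nonneg n; positivity
  rw [sub_div, sub_mul]; linarith

theorem mul_stat {μ : Measure ℝ} [SFinite μ] (hμ : ZData μ) (hP : Win P) (h : Ann P F l)
    {φ : ℝ → ℂ} (hi : Integrable φ) {κ K : ℝ} (hz : ∀ u, u < κ → φ u = 0)
    (hK : ∀ y, ‖iF φ y‖ ≤ K / (1 + y ^ 2)) {T : ℝ} (hL : 2 * π ≤ Real.log T) (X : ℝ) {T0 : ℝ}
    (hT0 : 0 ≤ T0) : Ann P (fun v => F v * stat μ (iF φ) T (X + T0 * v))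
      (l + κ * (Real.log T / (2 * π) * T0)) := by
  have := hP.prob
  have hc := continuous_iF hi
  have hK0 : 0 ≤ K := by simpa using (norm_nonneg _).trans (hK 0)
  have hl := one_le_lam hL
  obtain ⟨C', hC', hG⟩ := hμ.G_le_lin
  obtain ⟨C, k, hC⟩ := h.grow
  have hS : ∀ v, Sd μ T (X + T0 * v) ≤ C' * (1 + |X| + |T0|) * (1 + |v|) := fun v =>
    (hμ.Sd_le_G hL _).trans (hG _ _ _ _ (by linarith [abs_nonneg X, abs_nonneg T0])
      (by linarith [abs_nonneg X, abs_nonneg T0]) (by linarith [abs_nonneg X]))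
  have hb : ∀ v (x : ℝ), 0 ≤ x → x ≤ K * Sd μ T (X + T0 * v) →
      ‖F v‖ * x ≤ C * (K * (C' * (1 + |X| + |T0|))) * (1 + |v|) ^ (k + 1) := fun v x hx h1 =>
    (mul_le_mul (hC v) (h1.trans (mul_le_mul_of_nonneg_left (hS v) hK0)) hx
      ((norm_nonneg _).trans (hC v))).trans_eq (by ring)
  refine ⟨h.meas.mul ((measurable_stat μ hc.measurable T).comp (by fun_prop)),
    ⟨_, _, fun v => by rw [norm_mul]; exact hb v _ (norm_nonneg _) (hμ.norm_stat_le hK hL _)⟩,
    fun ξ hξ => ?_⟩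
  set s := Real.log T / (2 * π) with hs
  have hmm : Measurable (Function.uncurry fun v y =>
      F v * ee (ξ * v) * iF φ (s * (y - (X + T0 * v)))) :=
    ((h.meas.comp measurable_fst).mul (by fun_prop)).mul (hc.measurable.comp (by fun_prop))
  have hint : Integrable (Function.uncurry fun v y =>
      F v * ee (ξ * v) * iF φ (s * (y - (X + T0 * v)))) (P.prod μ) := by
    rw [integrable_prod_iff hmm.aestronglyMeasurable]
    refine ⟨ae_of_all _ fun v => (hμ.integrable_stat hc.measurable hK hL (X + T0 * v)).const_mul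
      (F v * ee (ξ * v)),
      ((hP.mom (k + 1)).const_mul (C * (K * (C' * (1 + |X| + |T0|))))).mono'
        hmm.norm.stronglyMeasurable.integral_prod_right'.aestronglyMeasurable
        (ae_of_all _ fun v => ?_)⟩
    simp only [Function.uncurry, norm_mul, integral_const_mul, norm_ee, mul_one]
    rw [Real.norm_of_nonneg (norm_nonneg _),
      Real.norm_of_nonneg (integral_nonneg fun _ => norm_nonneg _)]
    refine hb v _ (integral_nonneg fun _ => norm_nonneg _) ?_
    have h1 := hμ.norm_stat_le (h := fun y => (‖iF φ y‖ : ℂ)) (K := K)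
      (fun y => by simpa using hK y) hL (X + T0 * v)
    rw [stat, integral_complex_ofReal, norm_real] at h1
    exact (le_abs_self _).trans h1
  have e : ∀ v, F v * stat μ (iF φ) T (X + T0 * v) * ee (ξ * v) =
      ∫ y, F v * ee (ξ * v) * iF φ (s * (y - (X + T0 * v))) ∂μ := fun v => by
    rw [integral_const_mul, stat]; ring
  simp_rw [e]
  rw [integral_integral_swap hint]
  refine integral_eq_zero_of_ae (ae_of_all _ fun y => ?_)
  have e2 : ∀ v, F v * ee (ξ * v) * iF φ (s * (y - (X + T0 * v))) =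
      ∫ u, F v * φ u * (ee (u * (s * (y - X))) * ee ((ξ - u * (s * T0)) * v)) := fun v => by
    rw [iF, ← integral_const_mul]
    congr 1; funext u
    rw [← ee_add, show u * (s * (y - X)) + (ξ - u * (s * T0)) * v =
      ξ * v + u * (s * (y - (X + T0 * v))) by ring, ee_add]
    ring
  show ∫ v, F v * ee (ξ * v) * iF φ (s * (y - (X + T0 * v))) ∂P = 0
  simp_rw [e2]
  rw [integral_integral_swap (((h.integrable hP).mul_prod hi).mul_bdd (c := 1)
    (g := fun p : ℝ × ℝ => ee (p.2 * (s * (y - X))) * ee ((ξ - p.2 * (s * T0)) * p.1))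
    (by fun_prop) (ae_of_all _ fun p => by simp))]
  refine integral_eq_zero_of_ae (ae_of_all _ fun u => ?_)
  by_cases hu : u < κ
  · simp [hz u hu]
  · have h1 := h.ann (ξ - u * (s * T0)) (by
      have : κ * (s * T0) ≤ u * (s * T0) := by gcongr; exact not_lt.1 hu
      linarith)
    show ∫ v, F v * φ u * (ee (u * (s * (y - X))) * ee ((ξ - u * (s * T0)) * v)) ∂P = 0
    simp_rw [show ∀ v, F v * φ u * (ee (u * (s * (y - X))) * ee ((ξ - u * (s * T0)) * v)) =
      φ u * ee (u * (s * (y - X))) * (F v * ee ((ξ - u * (s * T0)) * v)) from fun v => by ring]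
    rw [integral_const_mul, h1, mul_zero]

end Ann

theorem ZData.ann_pow {μ P : Measure ℝ} [SFinite μ] (hμ : ZData μ) (hP : Win P)
    {φ : ℝ → ℂ} (hi : Integrable φ) {K : ℝ} (hz : ∀ u, u < 0 → φ u = 0)
    (hK : ∀ y, ‖iF φ y‖ ≤ K / (1 + y ^ 2)) {T : ℝ} (hL : 2 * π ≤ Real.log T) (X : ℝ) {T0 : ℝ}
    (hT0 : 0 ≤ T0) (j : ℕ) : Ann P (fun v => stat μ (iF φ) T (X + T0 * v) ^ j) 0 := by
  induction j with
  | zero => simpa using hP.ann_one
  | succ j ih => simpa [pow_succ] using ih.mul_stat hμ hP hi hz hK hL X hT0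

theorem ZData.ann_pow_sub {μ P : Measure ℝ} [SFinite μ] (hμ : ZData μ) (hP : Win P)
    {f g : ℝ → ℂ} (hf : Integrable f) (hg : Integrable g) {K κ : ℝ} (hκ : 0 ≤ κ)
    (hzf : ∀ u, u < 0 → f u = 0) (hzg : ∀ u, u < κ → g u = 0)
    (hKf : ∀ y, ‖iF f y‖ ≤ K / (1 + y ^ 2)) (hKg : ∀ y, ‖iF g y‖ ≤ K / (1 + y ^ 2)) {T : ℝ}
    (hL : 2 * π ≤ Real.log T) (X : ℝ) {T0 : ℝ} (hT0 : 0 ≤ T0) (j : ℕ) :
    Ann P (fun v => stat μ (iF fun u => f u + g u) T (X + T0 * v) ^ j -
      stat μ (iF f) T (X + T0 * v) ^ j) (κ * (Real.log T / (2 * π) * T0)) := by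
  have e : ∀ t, stat μ (iF fun u => f u + g u) T t = stat μ (iF f) T t + stat μ (iF g) T t := by
    intro t
    simp only [stat, iF_add hf hg]
    exact integral_add (hμ.integrable_stat (continuous_iF hf).measurable hKf hL t)
      (hμ.integrable_stat (continuous_iF hg).measurable hKg hL t)
  induction j with
  | zero => exact ⟨by simp, ⟨0, 0, by simp⟩, by simp⟩
  | succ j ih =>
    have h1 := ih.mul_stat hμ hP (hf.add hg) (κ := 0) (K := K + K)
      (fun u hu => by simp [hzf u hu, hzg u (by linarith)]) (fun y => by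
        rw [add_div]
        exact (congrArg norm (iF_add hf hg y)).trans_le
          ((norm_add_le _ _).trans (add_le_add (hKf y) (hKg y)))) hL X hT0
    have h2 := (hμ.ann_pow hP hf hzf hKf hL X hT0 j).mul_stat hμ hP hg hzg hKg hL X hT0
    rw [zero_mul, add_zero] at h1
    rw [zero_add] at h2
    have h3 := h1.add hP h2
    convert h3 using 2 with v
    change _ = _ * stat μ (iF fun u => f u + g u) T _ + _
    rw [pow_succ, pow_succ, e]; ring

end Pool.Agent.P.MP_7eacff_nt
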