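import Pool.Agent.P.MP_7eacff_nt.LocalEF
import Pool.Agent.P.MP_7eacff_nt.Window

/-!
Linear statistics of the points: integrability, tails of the window, the counting function.
-/

open Complex Filter Topology MeasureTheory Set ArithmeticFunction
open scoped Real FourierTransform

namespace Pool.Agent.P.MP_7eacff_nt

/-- Local density of points near `t`. -/
noncomputable def Sd (μ : Measure ℝ) (T t : ℝ) : ℝ :=
  ∫ y, 1 / (1 + (Real.log T / (2 * π) * (y - t)) ^ 2) ∂μ

/-- Number of points in the window of `c` mean spacings centred at `t`. -/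
noncomputable def cnt (μ : Measure ℝ) (c T t : ℝ) : ℝ :=
  μ.real {y | |Real.log T / (2 * π) * (y - t)| ≤ c / 2}

/-- Indicator function of `[-c/2, c/2]`. -/
noncomputable def ind (c : ℝ) : ℝ → ℂ := (Icc (-(c / 2)) (c / 2)).indicator fun _ => 1

/-- Its Fourier transform. -/
noncomputable def gc (c u : ℝ) : ℝ := if u = 0 then c else Real.sin (π * c * u) / (π * u)

/-- The tail weight. -/
noncomputable def far (θ T v : ℝ) : ℝ := if |v| ≤ T ^ (1 - θ) / 2 then 0 else 1 + |v|

theorem one_le_lam {T : ℝ} (hL : 2 * π ≤ Real.log T) : 1 ≤ Real.log T / (2 * π) := by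
  rw [le_div_iff₀ (by positivity)]; linarith

theorem inv_scale_le {l : ℝ} (hl : 1 ≤ l) (y t : ℝ) :
    1 / (1 + (l * (y - t)) ^ 2) ≤ 1 / (1 + (t - y) ^ 2) := by
  refine one_div_le_one_div_of_le (by positivity) ?_
  have : 1 ≤ l ^ 2 := one_le_pow₀ hl
  nlinarith only [this, sq_nonneg (y - t)]

theorem ZData.integrable_Sd {μ : Measure ℝ} (hμ : ZData μ) {T : ℝ} (hL : 2 * π ≤ Real.log T)
    (t : ℝ) : Integrable (fun y => 1 / (1 + (Real.log T / (2 * π) * (y - t)) ^ 2)) μ := by
  refine (hμ.int t).mono' (Continuous.aestronglyMeasurable ?_) (ae_of_all _ fun y => ?_)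
  · exact Continuous.div continuous_const (by fun_prop) fun y => by positivity
  · rw [Real.norm_of_nonneg (by positivity)]
    exact inv_scale_le (one_le_lam hL) y t

theorem Sd_nonneg (μ : Measure ℝ) (T t : ℝ) : 0 ≤ Sd μ T t :=
  integral_nonneg fun _ => by positivity

theorem ZData.Sd_le_G {μ : Measure ℝ} (hμ : ZData μ) {T : ℝ} (hL : 2 * π ≤ Real.log T) (t : ℝ) :
    Sd μ T t ≤ G μ t :=
  integral_mono (hμ.integrable_Sd hL t) (hμ.int t) fun y => inv_scale_le (one_le_lam hL) y t

theorem ZData.integrable_stat {μ : Measure ℝ} (hμ : ZData μ) {h : ℝ → ℂ} (hm : Measurable h)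
    {K : ℝ} (hK : ∀ y, ‖h y‖ ≤ K / (1 + y ^ 2)) {T : ℝ} (hL : 2 * π ≤ Real.log T) (t : ℝ) :
    Integrable (fun y => h (Real.log T / (2 * π) * (y - t))) μ :=
  ((hμ.integrable_Sd hL t).const_mul K).mono' (Measurable.aestronglyMeasurable (by fun_prop))
    (ae_of_all _ fun y => by simpa [div_eq_mul_inv] using hK _)

theorem ZData.norm_stat_le {μ : Measure ℝ} (hμ : ZData μ) {h : ℝ → ℂ}
    {K : ℝ} (hK : ∀ y, ‖h y‖ ≤ K / (1 + y ^ 2)) {T : ℝ} (hL : 2 * π ≤ Real.log T) (t : ℝ) :
    ‖stat μ h T t‖ ≤ K * Sd μ T t := by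
  rw [Sd, ← integral_const_mul]
  exact norm_integral_le_of_norm_le ((hμ.integrable_Sd hL t).const_mul K)
    (ae_of_all _ fun y => by simpa [div_eq_mul_inv] using hK _)

theorem ZData.G_le_lin {μ : Measure ℝ} (hμ : ZData μ) : ∃ C, 0 < C ∧ ∀ T X T0 v : ℝ, 1 ≤ T →
    |X| ≤ 2 * T → |T0| ≤ T → G μ (X + T0 * v) ≤ C * T * (1 + |v|) := by
  obtain ⟨C, hC, h⟩ := hμ.G_le
  refine ⟨3 * C, by positivity, fun T X T0 v hT hX hT0 => (h _).trans ?_⟩
  have h1 := Real.log_le_sub_one_of_pos (show 0 < 2 + |X + T0 * v| by positivity)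
  have h2 : |X + T0 * v| ≤ 2 * T + T * |v| := by
    refine (abs_add_le _ _).trans (add_le_add hX ?_)
    rw [abs_mul]; gcongr
  have h3 : 0 ≤ T * |v| := by positivity
  calc _ ≤ C * (3 * T * (1 + |v|)) := by gcongr; nlinarith only [hT, h1, h2, h3]
    _ = _ := by ring

theorem measurable_stat (μ : Measure ℝ) [SFinite μ] {h : ℝ → ℂ} (hm : Measurable h) (T : ℝ) :
    Measurable (stat μ h T) := by
  have : Measurable (Function.uncurry fun t y : ℝ => h (Real.log T / (2 * π) * (y - t))) :=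
    hm.comp (by fun_prop)
  exact this.stronglyMeasurable.integral_prod_right.measurable

theorem Win.integrable_lin {P : Measure ℝ} (hP : Win P) : Integrable (fun v => 1 + |v|) P := by
  simpa using hP.mom 1

theorem ZData.integrable_prod {μ P : Measure ℝ} [SFinite μ] (hμ : ZData μ) (hP : Win P)
    {h : ℝ → ℂ} (hm : Measurable h) {K : ℝ} (hK : ∀ y, ‖h y‖ ≤ K / (1 + y ^ 2)) {T : ℝ}
    (hL : 2 * π ≤ Real.log T) (X T0 : ℝ) {F : ℝ → ℂ} (hF : Continuous F) {C : ℝ}
    (hFC : ∀ v, ‖F v‖ ≤ C) :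
    Integrable (Function.uncurry fun v y =>
      F v * h (Real.log T / (2 * π) * (y - (X + T0 * v)))) (P.prod μ) := by
  have := hP.prob
  obtain ⟨C', hC', hG⟩ := hμ.G_le_lin
  have hK0 : 0 ≤ K := by simpa using (norm_nonneg _).trans (hK 0)
  have hC0 : 0 ≤ C := (norm_nonneg _).trans (hFC 0)
  have hmm : Measurable (Function.uncurry fun v y =>
      F v * h (Real.log T / (2 * π) * (y - (X + T0 * v)))) :=
    (hF.measurable.comp measurable_fst).mul (hm.comp (by fun_prop))
  rw [integrable_prod_iff hmm.aestronglyMeasurable]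
  refine ⟨ae_of_all _ fun v => (hμ.integrable_stat hm hK hL (X + T0 * v)).const_mul (F v), ?_⟩
  refine (hP.integrable_lin.const_mul (C * (K * (C' * (1 + |X| + |T0|))))).mono'
    hmm.norm.stronglyMeasurable.integral_prod_right'.aestronglyMeasurable (ae_of_all _ fun v => ?_)
  simp only [Function.uncurry, norm_mul, integral_const_mul]
  rw [Real.norm_of_nonneg (norm_nonneg _),
    Real.norm_of_nonneg (integral_nonneg fun _ => norm_nonneg _), mul_assoc, mul_assoc]
  refine mul_le_mul (hFC v) ?_ (integral_nonneg fun _ => norm_nonneg _) hC0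
  have h1 := hμ.norm_stat_le (h := fun y => (‖h y‖ : ℂ)) (K := K) (fun y => by simpa using hK y) hL
    (X + T0 * v)
  rw [stat, integral_complex_ofReal, norm_real] at h1
  refine ((le_abs_self _).trans h1).trans ?_
  gcongr
  exact (hμ.Sd_le_G hL _).trans (hG _ _ _ _ (by linarith only [abs_nonneg X, abs_nonneg T0])
    (by linarith only [abs_nonneg X, abs_nonneg T0]) (by linarith only [abs_nonneg X]))

theorem ZData.integrable_mul_stat {μ P : Measure ℝ} [SFinite μ] (hμ : ZData μ) (hP : Win P)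
    {h : ℝ → ℂ} (hm : Measurable h) {K : ℝ} (hK : ∀ y, ‖h y‖ ≤ K / (1 + y ^ 2)) {T : ℝ}
    (hL : 2 * π ≤ Real.log T) (X T0 : ℝ) {F : ℝ → ℂ} (hF : Continuous F) {C : ℝ}
    (hFC : ∀ v, ‖F v‖ ≤ C) : Integrable (fun v => F v * stat μ h T (X + T0 * v)) P := by
  have := hP.prob
  simpa [stat, integral_const_mul] using
    (hμ.integrable_prod hP hm hK hL X T0 hF hFC).integral_prod_left

theorem measurable_ind (c : ℝ) : Measurable (ind c) :=
  measurable_const.indicator measurableSet_Icc

theorem norm_ind_le (c y : ℝ) : ‖ind c y‖ ≤ (1 + c ^ 2) / (1 + y ^ 2) := by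
  unfold ind
  by_cases hy : y ∈ Icc (-(c / 2)) (c / 2)
  · rw [indicator_of_mem hy, norm_one, one_le_div (by positivity)]
    nlinarith only [hy.1, hy.2, sq_nonneg c]
  · rw [indicator_of_notMem hy, norm_zero]; positivity

theorem integrable_ind (c : ℝ) : Integrable (ind c) :=
  integrable_of_decay (t := 0) (K := 1 + c ^ 2) (measurable_ind c).aestronglyMeasurable
    (by simpa using norm_ind_le c)

theorem stat_ind (μ : Measure ℝ) (c T t : ℝ) : stat μ (ind c) T t = cnt μ c T t := by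
  have e : (fun y => ind c (Real.log T / (2 * π) * (y - t))) =
      {y | |Real.log T / (2 * π) * (y - t)| ≤ c / 2}.indicator fun _ => (1 : ℂ) := by
    funext y
    simp only [ind, indicator, mem_Icc, mem_ofPred_eq, abs_le]
  rw [stat, e, integral_indicator_const _ (measurableSet_le (by fun_prop) (by fun_prop)), cnt]
  simp

theorem iF_ind {c : ℝ} (hc : 0 ≤ c) (u : ℝ) : iF (ind c) u = gc c u := by
  have e : iF (ind c) u = ∫ y in (-(c / 2))..(c / 2), ee (y * u) := by
    rw [iF, intervalIntegral.integral_of_le (by linarith only [hc]), ← integral_Icc_eq_integral_Ioc,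
      ← integral_indicator measurableSet_Icc]
    congr 1
    funext y
    simp only [ind, indicator]
    split_ifs <;> simp
  rw [e, gc]
  split_ifs with hu
  · simp [hu]
  · have hpi : (π : ℂ) ≠ 0 := by exact_mod_cast Real.pi_ne_zero
    have hu' : (u : ℂ) ≠ 0 := by exact_mod_cast hu
    rw [intervalIntegral.integral_eq_sub_of_hasDerivAt
      (f := fun y => ee (y * u) / (2 * π * I * u))
      (fun y _ => ((hasDerivAt_ee u y).div_const _).congr_deriv (by field_simp))
      (Continuous.intervalIntegrable (by fun_prop) _ _)]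
    simp only [ee]
    push_cast
    rw [Complex.sin]
    field_simp
    ring_nf
    simp
    ring

theorem contDiff_gc {c : ℝ} (hc : 0 ≤ c) : ContDiff ℝ 2 (gc c) := by
  have h1 : ContDiff ℝ 2 (𝓕 (ind c)) := by
    refine Real.contDiff_fourier (N := 2) fun n _ => ?_
    have : (fun v : ℝ => ‖v‖ ^ n * ‖ind c v‖) =
        (Icc (-(c / 2)) (c / 2)).indicator fun v => ‖v‖ ^ n := by
      funext v
      simp only [ind, indicator]
      split_ifs <;> simp
    rw [this, integrable_indicator_iff measurableSet_Icc]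
    exact Continuous.integrableOn_Icc (by fun_prop)
  have e : gc c = fun u => (𝓕 (ind c) (-u)).re := by
    funext u; rw [fourier_eq_iF, neg_neg, iF_ind hc, ofReal_re]
  rw [e]
  exact reCLM.contDiff.comp (h1.comp contDiff_neg)

theorem gc_neg (c u : ℝ) : gc c (-u) = gc c u := by
  simp [gc, neg_div_neg_eq]

theorem mul_gc (c u : ℝ) : u * gc c u = Real.sin (π * c * u) / π := by
  unfold gc
  split_ifs with hu
  · simp [hu]
  · field_simp

theorem far_nonneg (θ T v : ℝ) : 0 ≤ far θ T v := by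
  unfold far; split_ifs <;> positivity

theorem Win.integrable_far {P : Measure ℝ} (hP : Win P) (θ T : ℝ) : Integrable (far θ T) P := by
  refine hP.integrable_lin.mono' (Measurable.aestronglyMeasurable ?_) (ae_of_all _ fun v => ?_)
  · exact Measurable.ite (measurableSet_le (by fun_prop) (by fun_prop)) (by fun_prop) (by fun_prop)
  · rw [Real.norm_of_nonneg (far_nonneg _ _ _), far]
    split_ifs
    · positivity
    · rfl

theorem Win.tendsto_far {P : Measure ℝ} (hP : Win P) {θ : ℝ} (hθ : θ < 1) (k : ℕ) (C : ℝ) :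
    Tendsto (fun T => C * T ^ k * ∫ v, far θ T v ∂P) atTop (𝓝 0) := by
  obtain ⟨M, hM⟩ := exists_nat_gt (k / (1 - θ))
  rw [div_lt_iff₀ (by linarith only [hθ])] at hM
  have h1 : Tendsto (fun T : ℝ => (|C| * (2 ^ M * ∫ v, (1 + |v|) ^ (M + 1) ∂P)) *
      T ^ (-(M * (1 - θ) - k))) atTop (𝓝 0) := by
    simpa using (tendsto_rpow_neg_atTop (sub_pos.2 hM)).const_mul
      (|C| * (2 ^ M * ∫ v, (1 + |v|) ^ (M + 1) ∂P))
  refine squeeze_zero_norm' ?_ h1
  filter_upwards [eventually_gt_atTop 0] with T hT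
  have h2 : ∫ v, far θ T v ∂P ≤ (2 ^ M / T ^ (M * (1 - θ))) * ∫ v, (1 + |v|) ^ (M + 1) ∂P := by
    rw [← integral_const_mul]
    refine integral_mono (hP.integrable_far θ T) ((hP.mom _).const_mul _) fun v => ?_
    simp only [far]
    split_ifs with hv
    · positivity
    · rw [pow_succ, ← mul_assoc]
      refine le_mul_of_one_le_left (by positivity) ?_
      rw [div_mul_eq_mul_div, one_le_div (by positivity), ← mul_pow, mul_comm (M : ℝ),
        Real.rpow_mul_natCast hT.le]
      gcongr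
      linarith only [hv, not_le.1 hv]
  rw [Real.norm_eq_abs, abs_mul, abs_mul, abs_of_pos (by positivity : 0 < T ^ k),
    abs_of_nonneg (integral_nonneg (far_nonneg θ T)), neg_sub, Real.rpow_sub hT, Real.rpow_natCast]
  calc _ ≤ |C| * T ^ k * ((2 ^ M / T ^ (M * (1 - θ))) * ∫ v, (1 + |v|) ^ (M + 1) ∂P) := by gcongr
    _ = _ := by ring

theorem near_mem {θ T X v : ℝ} (hT : 0 < T) (hX : X ∈ Icc T (2 * T)) (hv : |v| ≤ T ^ (1 - θ) / 2) :
    X + T ^ θ * v ∈ Icc (T / 2) (3 * T) := by
  have h1 : |T ^ θ * v| ≤ T / 2 := by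
    rw [abs_mul, abs_of_pos (by positivity)]
    calc _ ≤ T ^ θ * (T ^ (1 - θ) / 2) := by gcongr
      _ = _ := by rw [← mul_div_assoc, ← Real.rpow_add hT]; simp
  have := abs_le.1 h1
  constructor <;> linarith only [this, hT, hX.1, hX.2]

theorem eventually_window {a θ : ℝ} (ha : 0 ≤ a) (h : a < θ) :
    ∀ᶠ T : ℝ in atTop, 2 * π * (T ^ a + 1) ≤ T ^ θ := by
  filter_upwards [(tendsto_rpow_atTop (sub_pos.2 h)).eventually_ge_atTop (4 * π),
    eventually_ge_atTop 1] with T h1 hT
  have h2 : 1 ≤ T ^ a := Real.one_le_rpow hT ha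
  have h3 : T ^ θ = T ^ (θ - a) * T ^ a := by rw [← Real.rpow_add (by linarith)]; simp
  rw [h3]
  nlinarith only [h1, h2, Real.pi_pos]

end Pool.Agent.P.MP_7eacff_nt
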