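import Pool.Agent.P.MP_7eacff_nt.Landau
import Pool.Agent.P.MP_7eacff_nt.Digamma

/-!
The entire function `xi s = s (s - 1) Λ(s)`: functional equation, growth, zeros, log derivative.
-/

open Complex Filter Topology Metric MeasureTheory Set

namespace Pool.Agent.P.MP_7eacff_nt

noncomputable def xi (s : ℂ) : ℂ := 1 - s * (1 - s) * completedRiemannZeta₀ s

theorem differentiable_xi : Differentiable ℂ xi := by
  have := differentiable_completedZeta₀
  unfold xi
  fun_prop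

theorem xi_one_sub (s : ℂ) : xi (1 - s) = xi s := by
  simp only [xi, completedRiemannZeta₀_one_sub]; ring

theorem xi_eq {s : ℂ} (hs : 0 < s.re) (hs1 : s ≠ 1) :
    xi s = s * (s - 1) * Gammaℝ s * riemannZeta s := by
  have hs0 : s ≠ 0 := by rintro rfl; simp at hs
  have hG := Gammaℝ_ne_zero_of_re_pos hs
  have h1 : (1 - s) ≠ 0 := sub_ne_zero.2 hs1.symm
  rw [riemannZeta_def_of_ne_zero hs0, completedRiemannZeta_eq, xi]
  field_simp
  ring

theorem xi_ne_zero {s : ℂ} (hs : 1 < s.re) : xi s ≠ 0 := by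
  have hs1 : s ≠ 1 := by rintro rfl; simp at hs
  have hs0 : s ≠ 0 := by rintro rfl; simp at hs; linarith only [hs]
  rw [xi_eq (by linarith) hs1]
  exact mul_ne_zero (mul_ne_zero (mul_ne_zero hs0 (sub_ne_zero.2 hs1))
    (Gammaℝ_ne_zero_of_re_pos (by linarith))) (riemannZeta_ne_zero_of_one_le_re hs.le)

theorem zeta_eq_zero_of_xi {s : ℂ} (hs : 0 < s.re) (h : xi s = 0) :
    s ≠ 1 ∧ riemannZeta s = 0 := by
  have hs1 : s ≠ 1 := by rintro rfl; simp [xi] at h
  have hs0 : s ≠ 0 := by rintro rfl; simp at hs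
  rw [xi_eq hs hs1] at h
  exact ⟨hs1, (mul_eq_zero.1 h).resolve_left (mul_ne_zero (mul_ne_zero hs0 (sub_ne_zero.2 hs1))
    (Gammaℝ_ne_zero_of_re_pos hs))⟩

theorem re_eq_of_xi (hRH : RiemannHypothesis) {s : ℂ} (h : xi s = 0) : s.re = 1 / 2 := by
  have key : ∀ s : ℂ, 0 < s.re → xi s = 0 → s.re = 1 / 2 := by
    intro s hs h
    obtain ⟨h1, h2⟩ := zeta_eq_zero_of_xi hs h
    refine hRH s h2 ?_ h1
    rintro ⟨n, rfl⟩
    simp at hs
    have : (0 : ℝ) ≤ n := Nat.cast_nonneg n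
    linarith only [hs]
  by_cases hs : 0 < s.re
  · exact key s hs h
  · have := key (1 - s) (by simp; linarith) (by rw [xi_one_sub, h])
    simp at this
    linarith only [hs, this]

theorem analyticAt_Gammaℝ {s : ℂ} (hs : 0 < s.re) : AnalyticAt ℂ Gammaℝ s := by
  have h : AnalyticAt ℂ (fun s => ((Gammaℝ s)⁻¹)⁻¹) s :=
    (differentiable_Gammaℝ_inv.analyticAt s).inv (inv_ne_zero (Gammaℝ_ne_zero_of_re_pos hs))
  simpa using h

theorem xi_eventuallyEq {s : ℂ} (hs : 0 < s.re) (hs1 : s ≠ 1) :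
    xi =ᶠ[𝓝 s] fun w => w * (w - 1) * Gammaℝ w * riemannZeta w := by
  filter_upwards [(isOpen_lt continuous_const continuous_re).mem_nhds hs,
    isOpen_ne.mem_nhds hs1] with w hw hw1
  exact xi_eq hw hw1

theorem analyticAt_zeta {s : ℂ} (hs1 : s ≠ 1) : AnalyticAt ℂ riemannZeta s :=
  analyticOn_riemannZeta s hs1

theorem order_xi {s : ℂ} (hs : 0 < s.re) (hs1 : s ≠ 1) :
    analyticOrderAt xi s = analyticOrderAt riemannZeta s := by
  have hs0 : s ≠ 0 := by rintro rfl; simp at hs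
  rw [analyticOrderAt_congr (xi_eventuallyEq hs hs1)]
  have ha : AnalyticAt ℂ (fun w => w * (w - 1) * Gammaℝ w) s :=
    (analyticAt_id.mul (analyticAt_id.sub analyticAt_const)).mul (analyticAt_Gammaℝ hs)
  have := analyticOrderAt_mul ha (analyticAt_zeta hs1)
  rw [ha.analyticOrderAt_eq_zero.2 (mul_ne_zero (mul_ne_zero hs0 (sub_ne_zero.2 hs1))
    (Gammaℝ_ne_zero_of_re_pos hs)), zero_add] at this
  exact this

theorem exists_bound_strip : ∃ B : ℝ, 0 ≤ B ∧ ∀ s : ℂ, 1 / 2 ≤ s.re → s.re ≤ 4 →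
    ‖completedRiemannZeta₀ s‖ ≤ B := by
  set P := HurwitzZeta.hurwitzEvenFEPair 0
  have hc : ∀ s : ℂ, MellinConvergent P.f_modif s := fun s =>
    (P.isStrongFEPair_toStrongFEPair.hasMellin s).1
  have h0 := (hc 0).norm
  have h2 := (hc 2).norm
  refine ⟨∫ t in Ioi (0 : ℝ), (‖(t : ℂ) ^ ((0 : ℂ) - 1) • P.f_modif t‖ +
    ‖(t : ℂ) ^ ((2 : ℂ) - 1) • P.f_modif t‖), integral_nonneg fun t => by positivity,
    fun s hs hs' => ?_⟩
  have e : completedRiemannZeta₀ s = mellin P.f_modif (s / 2) / 2 := rfl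
  rw [e, norm_div]
  have h3 : ‖mellin P.f_modif (s / 2)‖ ≤ ∫ t in Ioi (0 : ℝ),
      (‖(t : ℂ) ^ ((0 : ℂ) - 1) • P.f_modif t‖ + ‖(t : ℂ) ^ ((2 : ℂ) - 1) • P.f_modif t‖) := by
    refine norm_integral_le_of_norm_le (h0.add h2) ?_
    rw [ae_restrict_iff' measurableSet_Ioi]
    filter_upwards with t ht
    have ht0 : (0 : ℝ) < t := ht
    simp only [norm_smul, norm_cpow_eq_rpow_re_of_pos ht0]
    rw [← add_mul]
    gcongr
    have hre : (s / 2 - 1).re = s.re / 2 - 1 := by simp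
    rw [hre]
    rcases le_total t 1 with h | h
    · have : t ^ (s.re / 2 - 1) ≤ t ^ (((0 : ℂ) - 1).re) :=
        Real.rpow_le_rpow_of_exponent_ge ht0 h (by simp; linarith only [hs])
      have h' : 0 ≤ t ^ (((2 : ℂ) - 1).re) := by positivity
      exact this.trans (le_add_of_nonneg_right h')
    · have : t ^ (s.re / 2 - 1) ≤ t ^ (((2 : ℂ) - 1).re) :=
        Real.rpow_le_rpow_of_exponent_le h (by simp; linarith only [hs'])
      have h' : 0 ≤ t ^ (((0 : ℂ) - 1).re) := by positivity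
      exact this.trans (le_add_of_nonneg_left h')
  have : ‖(2 : ℂ)‖ = 2 := by simp
  rw [this]
  linarith only [h3, norm_nonneg (mellin P.f_modif (s / 2))]

theorem norm_zeta_le {s : ℂ} (hs : 2 ≤ s.re) : ‖riemannZeta s‖ ≤ Real.pi ^ 2 / 6 := by
  rw [zeta_eq_tsum_one_div_nat_cpow (by linarith)]
  refine tsum_of_norm_bounded hasSum_zeta_two fun n => ?_
  rcases Nat.eq_zero_or_pos n with rfl | hn
  · have : s ≠ 0 := by rintro rfl; simp at hs; linarith only [hs]
    simp [this]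
  · have hn' : (1 : ℝ) ≤ n := by exact_mod_cast hn
    rw [norm_div, norm_one, norm_natCast_cpow_of_pos hn]
    refine one_div_le_one_div_of_le (by positivity) ?_
    rw [← Real.rpow_natCast]
    exact Real.rpow_le_rpow_of_exponent_le hn' (by simpa using hs)

theorem exists_bound_xi : ∃ C : ℝ, 1 ≤ C ∧ ∀ N : ℕ, 4 ≤ N → ∀ s : ℂ, ‖s‖ + 1 ≤ N →
    ‖xi s‖ ≤ C * ((N : ℝ) + 1) ^ (N + 2) := by
  obtain ⟨B, hB0, hB⟩ := exists_bound_strip
  refine ⟨B + 2, by linarith, fun N hN => ?_⟩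
  have hN' : (4 : ℝ) ≤ N := by exact_mod_cast hN
  have hp : ((N : ℝ) + 1) ^ (N + 2) = ((N : ℝ) + 1) ^ N * ((N : ℝ) + 1) ^ 2 := pow_add _ _ _
  have hp1 : (1 : ℝ) ≤ ((N : ℝ) + 1) ^ N := one_le_pow₀ (by linarith only [hN'])
  have key : ∀ s : ℂ, 1 / 2 ≤ s.re → ‖s‖ ≤ N → ‖xi s‖ ≤ (B + 2) * ((N : ℝ) + 1) ^ (N + 2) := by
    intro s hs hsN
    have h1 : ‖s - 1‖ ≤ N + 1 := (norm_sub_le _ _).trans (by simpa using hsN)
    have hq : ‖s‖ * ‖s - 1‖ ≤ ((N : ℝ) + 1) ^ 2 := by
      rw [sq]; gcongr; linarith only [hsN]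
    rcases le_total s.re 4 with h4 | h4
    · have h2 : ‖xi s‖ ≤ 1 + ‖s‖ * ‖s - 1‖ * B := by
        unfold xi
        refine (norm_sub_le _ _).trans ?_
        rw [norm_one, norm_mul, norm_mul, norm_sub_rev 1 s]
        gcongr
        exact hB s hs h4
      have h3 : ‖s‖ * ‖s - 1‖ * B ≤ ((N : ℝ) + 1) ^ 2 * B := by gcongr
      have h5 : (1 : ℝ) ≤ ((N : ℝ) + 1) ^ 2 := one_le_pow₀ (by linarith only [hN'])
      rw [hp]
      nlinarith only [h2, h3, h5, hB0, hp1, hN, mul_nonneg (mul_nonneg (by linarith only [hB0] : 0 ≤ B + 2) (by linarith only [hp1] :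
        0 ≤ ((N : ℝ) + 1) ^ N - 1)) (by positivity : 0 ≤ ((N : ℝ) + 1) ^ 2)]
    · have hs1 : s ≠ 1 := by rintro rfl; simp at h4
      rw [xi_eq (by linarith) hs1, norm_mul, norm_mul, norm_mul]
      have hz : ‖riemannZeta s‖ ≤ 2 := (norm_zeta_le (by linarith only [h4])).trans (by
        nlinarith only [Real.pi_lt_d2, Real.pi_pos])
      have hG : ‖Gammaℝ s‖ ≤ ((N : ℝ) + 1) ^ N := by
        rw [Gammaℝ_def, norm_mul, norm_cpow_eq_rpow_re_of_pos Real.pi_pos]
        have ha : Real.pi ^ (-s / 2).re ≤ 1 :=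
          Real.rpow_le_one_of_one_le_of_nonpos (by linarith [Real.pi_gt_three]) (by simp; linarith)
        have hre : (s / 2).re = s.re / 2 := by simp
        have hb : ‖Gamma (s / 2)‖ ≤ ((N : ℝ) + 1) ^ N := by
          refine (norm_Gamma_le (by rw [hre]; linarith only [h4])).trans ?_
          have hle : s.re ≤ N := ((le_abs_self _).trans (abs_re_le_norm s)).trans hsN
          calc Real.Gamma (s / 2).re ≤ Real.Gamma (N + 1) :=
                Real.Gamma_strictMonoOn_Ici.monotoneOn (by rw [hre]; simp; linarith only [h4])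
                  (by simp; linarith only [hN']) (by rw [hre]; linarith only [hN', hle])
            _ = N.factorial := Real.Gamma_nat_eq_factorial N
            _ ≤ (N : ℝ) ^ N := by exact_mod_cast Nat.factorial_le_pow N
            _ ≤ _ := by gcongr; linarith only []
        calc _ ≤ 1 * ((N : ℝ) + 1) ^ N := by gcongr
          _ = _ := one_mul _
      calc _ ≤ ((N : ℝ) + 1) ^ 2 * ((N : ℝ) + 1) ^ N * 2 := by gcongr
        _ ≤ _ := by
          rw [hp]
          nlinarith only [hB0, hN, mul_nonneg hB0 (by positivity : 0 ≤ ((N : ℝ) + 1) ^ N * ((N : ℝ) + 1) ^ 2)]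
  intro s hs
  rcases le_total (1 / 2) s.re with h | h
  · exact key s h (by linarith)
  · rw [← xi_one_sub]
    refine key _ (by simp; linarith only [h]) ((norm_sub_le _ _).trans ?_)
    rw [norm_one]; linarith

theorem logDeriv_xi_one_sub (s : ℂ) : logDeriv xi (1 - s) = -logDeriv xi s := by
  have h : HasDerivAt (fun w => xi (1 - w)) (deriv xi (1 - s) * (-1)) s :=
    (differentiable_xi (1 - s)).hasDerivAt.comp s ((hasDerivAt_id s).const_sub 1)
  have e : (fun w => xi (1 - w)) = xi := funext xi_one_sub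
  rw [e] at h
  rw [logDeriv_apply, logDeriv_apply, h.deriv, xi_one_sub]
  ring

theorem logDeriv_Gammaℝ {s : ℂ} (hs : 0 < s.re) :
    logDeriv Gammaℝ s = -(Real.log Real.pi : ℂ) / 2 + digamma (s / 2) / 2 := by
  have hpi : (Real.pi : ℂ) ≠ 0 := by exact_mod_cast Real.pi_ne_zero
  have hs2 : 0 < (s / 2).re := by simp; linarith
  have h1 : HasDerivAt (fun w : ℂ => (Real.pi : ℂ) ^ (-w / 2))
      ((Real.pi : ℂ) ^ (-s / 2) * log Real.pi * (-1 / 2)) s :=
    ((hasDerivAt_id s).neg.div_const 2).const_cpow (Or.inl hpi)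
  have hG : DifferentiableAt ℂ Gamma (s / 2) := by
    refine differentiableAt_Gamma _ fun m h => ?_
    rw [h] at hs2
    simp at hs2
    linarith only [hs2, (Nat.cast_nonneg m : (0 : ℝ) ≤ m)]
  have h2 : HasDerivAt (fun w : ℂ => Gamma (w / 2)) (deriv Gamma (s / 2) * (1 / 2)) s :=
    hG.hasDerivAt.comp s ((hasDerivAt_id s).div_const 2)
  have hp : (Real.pi : ℂ) ^ (-s / 2) ≠ 0 := by simp [hpi]
  have hG0 := Gamma_ne_zero_of_re_pos hs2
  have h3 : HasDerivAt Gammaℝ _ s := h1.mul h2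
  rw [logDeriv_apply, h3.deriv, Gammaℝ_def, digamma_def, logDeriv_apply,
    ofReal_log Real.pi_pos.le]
  field_simp

theorem logDeriv_xi {s : ℂ} (hs : 1 < s.re) :
    logDeriv xi s = 1 / s + 1 / (s - 1) - (Real.log Real.pi : ℂ) / 2 + digamma (s / 2) / 2 -
      LSeries (fun n => (ArithmeticFunction.vonMangoldt n : ℂ)) s := by
  have hs1 : s ≠ 1 := by rintro rfl; simp at hs
  have hs0 : s ≠ 0 := by rintro rfl; simp at hs; linarith
  have hp : 0 < s.re := by linarith
  have hG := Gammaℝ_ne_zero_of_re_pos hp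
  have hz := riemannZeta_ne_zero_of_one_le_re hs.le
  have hs1' := sub_ne_zero.2 hs1
  have he := xi_eventuallyEq hp hs1
  have e : logDeriv xi s = logDeriv (fun w => w * (w - 1) * Gammaℝ w * riemannZeta w) s := by
    rw [logDeriv_apply, logDeriv_apply, he.deriv_eq, he.eq_of_nhds]
  have hGd := (analyticAt_Gammaℝ hp).differentiableAt
  rw [e, logDeriv_mul (f := fun w => w * (w - 1) * Gammaℝ w) s
    (mul_ne_zero (mul_ne_zero hs0 hs1') hG) hz (by fun_prop) (differentiableAt_riemannZeta hs1),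
    logDeriv_mul (f := fun w => w * (w - 1)) s (mul_ne_zero hs0 hs1') hG (by fun_prop) hGd,
    logDeriv_mul (f := fun w => w) (g := fun w => w - 1) s hs0 hs1' (by fun_prop) (by fun_prop),
    logDeriv_Gammaℝ hp, ArithmeticFunction.LSeries_vonMangoldt_eq_deriv_riemannZeta_div hs]
  simp only [logDeriv_apply, deriv_id'', deriv_sub_const]
  ring

end Pool.Agent.P.MP_7eacff_nt
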