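import Pool.Agent.P.MP_7eacff_nt.Xi

/-!
On the Riemann hypothesis, the Poisson-kernel sum over the zeros at `Re s = 3 / 2`.
-/

open Complex Filter Topology Metric MeasureTheory Set ArithmeticFunction
open scoped ENNReal

namespace Pool.Agent.P.MP_7eacff_nt

/-- Ordinates of the zeros on the critical line. -/
abbrev Ord : Type := {y : ℝ // riemannZeta (1 / 2 + y * I) = 0}

/-- Multiplicity of the zero at height `y`. -/
noncomputable def mult (y : ℝ) : ℕ := analyticOrderNatAt riemannZeta (1 / 2 + y * I)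

/-- The counting measure of the zeros on the critical line, with multiplicity. -/
noncomputable def zmeas : Measure ℝ :=
  Measure.sum fun y : Ord => (mult y : ℝ≥0∞) • Measure.dirac (y : ℝ)

/-- The real part of `-ζ'/ζ (3 / 2 + i x)`. -/
noncomputable def Dser (x : ℝ) : ℝ :=
  ∑' n : ℕ, vonMangoldt n * (n : ℝ) ^ (-(3 / 2) : ℝ) * Real.cos (x * Real.log n)

/-- What the analytic argument uses about the zeros. -/
structure ZData (μ : Measure ℝ) : Prop where
  int : ∀ x : ℝ, Integrable (fun y => 1 / (1 + (x - y) ^ 2)) μ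
  est : ∃ c C : ℝ, ∀ x : ℝ,
    |∫ y, 1 / (1 + (x - y) ^ 2) ∂μ + Dser x - Real.log (9 / 4 + x ^ 2) / 4 - c| ≤ C / (1 + |x|)

theorem crit_injective : Function.Injective fun y : ℝ => (1 / 2 + y * I : ℂ) := by
  intro a b h
  simpa using congrArg im h

theorem finite_ord (R : ℝ) : {y : Ord | ‖(1 / 2 + (y : ℝ) * I : ℂ) - 2‖ ≤ R}.Finite := by
  have h := (isCompact_closedBall (2 : ℂ) R).inter_riemannZetaZeros_finite
  refine (h.preimage (f := fun y : Ord => (1 / 2 + (y : ℝ) * I : ℂ))
    (crit_injective.comp Subtype.val_injective).injOn).subset fun y hy => ?_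
  exact ⟨by simpa [mem_closedBall, dist_eq_norm] using hy, y.2⟩

instance : Countable Ord := by
  have : (univ : Set Ord) = ⋃ k : ℕ, {y : Ord | ‖(1 / 2 + (y : ℝ) * I : ℂ) - 2‖ ≤ k} := by
    ext y
    simp only [mem_univ, mem_iUnion, mem_ofPred_eq, true_iff]
    exact exists_nat_ge _
  rw [← countable_univ_iff, this]
  exact countable_iUnion fun k => (finite_ord k).countable

instance : SFinite zmeas := by
  unfold zmeas
  have : ∀ y : Ord, IsFiniteMeasure ((mult y : ℝ≥0∞) • Measure.dirac (y : ℝ)) := fun y =>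
    Measure.smul_finite _ (by simp)
  infer_instance

theorem re_LSeries (x : ℝ) :
    (LSeries (fun n => (vonMangoldt n : ℂ)) (3 / 2 + x * I)).re = Dser x := by
  have hs : 1 < (3 / 2 + x * I : ℂ).re := by simp; norm_num
  rw [LSeries, re_tsum (LSeriesSummable_vonMangoldt hs), Dser]
  congr 1
  funext n
  rcases Nat.eq_zero_or_pos n with rfl | hn
  · simp
  · have hn' : (0 : ℝ) < n := by exact_mod_cast hn
    rw [LSeries.term_def₀ (by simp), re_ofReal_mul, mul_assoc]
    congr 1
    rw [cpow_def_of_ne_zero (by exact_mod_cast hn.ne'), ← natCast_log, exp_re,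
      Real.rpow_def_of_pos hn']
    generalize Real.log n = l
    simp [mul_comm]

theorem Dser_neg (x : ℝ) : Dser (-x) = Dser x := by simp [Dser]

theorem tendsto_M : Tendsto (fun k : ℕ => (((2 * k + 3 : ℕ) : ℝ) + 2) *
    Real.log (((2 * k + 3 : ℕ) : ℝ) + 1) / (k : ℝ) ^ 2) atTop (𝓝 0) := by
  have h1 : Tendsto (fun k : ℕ => 2 * (k : ℝ) + 4) atTop atTop :=
    tendsto_atTop_add_const_right _ _ (tendsto_natCast_atTop_atTop.const_mul_atTop two_pos)
  have h2 := (Real.isLittleO_log_id_atTop.tendsto_div_nhds_zero).comp h1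
  have h3 : Tendsto (fun k : ℕ => (2 + 5 / (k : ℝ)) * (2 + 4 / (k : ℝ))) atTop
      (𝓝 ((2 + 0) * (2 + 0))) :=
    ((tendsto_const_div_atTop_nhds_zero_nat 5).const_add 2).mul
      ((tendsto_const_div_atTop_nhds_zero_nat 4).const_add 2)
  have h4 := h2.mul h3
  rw [zero_mul] at h4
  refine h4.congr' ?_
  filter_upwards [eventually_gt_atTop 0] with k hk
  have hk' : (0 : ℝ) < k := by exact_mod_cast hk
  simp only [Function.comp, id]
  push_cast
  have : 2 * (k : ℝ) + 3 + 1 = 2 * k + 4 := by ring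
  rw [this]
  field_simp
  ring

theorem hasSum_poisson (hRH : RiemannHypothesis) (x : ℝ) :
    HasSum (fun y : Ord => (mult y : ℝ) * (1 / (1 + (x - y) ^ 2)))
      ((logDeriv xi (3 / 2 + x * I) + logDeriv xi (3 / 2 + (-x : ℝ) * I)).re / 2) := by
  classical
  set F : ℕ → Finset Ord := fun k => (finite_ord k).toFinset with hF
  have hFt : Tendsto F atTop atTop := by
    refine Monotone.tendsto_atTop_finset (fun a b hab y hy => ?_) fun y => ?_
    · simp only [hF, Set.Finite.mem_toFinset, mem_ofPred_eq] at hy ⊢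
      exact hy.trans (by exact_mod_cast hab)
    · simpa [hF] using exists_nat_ge ‖(2⁻¹ + (y : ℝ) * I : ℂ) - 2‖
  obtain ⟨C, hC1, hC⟩ := exists_bound_xi
  have h2 : xi 2 ≠ 0 := xi_ne_zero (by simp)
  have h2' : 0 < ‖xi 2‖ := norm_pos_iff.2 h2
  set s : ℂ := 3 / 2 + x * I with hs
  set s' : ℂ := 1 - (3 / 2 + (-x : ℝ) * I) with hs'
  set M : ℕ → ℝ := fun k => Real.log (C / ‖xi 2‖ + 1) + (((2 * k + 3 : ℕ) : ℝ) + 2) *
    Real.log (((2 * k + 3 : ℕ) : ℝ) + 1) with hM
  have hMt : Tendsto (fun k : ℕ => 64 * M k / (k : ℝ) ^ 2 * ‖s - s'‖) atTop (𝓝 0) := by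
    have h0 : Tendsto (fun k : ℕ => Real.log (C / ‖xi 2‖ + 1) / (k : ℝ) ^ 2) atTop (𝓝 0) :=
      tendsto_const_nhds.div_atTop
        ((tendsto_pow_atTop two_ne_zero).comp tendsto_natCast_atTop_atTop)
    have := ((h0.add tendsto_M).const_mul 64).mul_const ‖s - s'‖
    simp only [add_zero, mul_zero, zero_mul] at this
    refine this.congr fun k => ?_
    simp only [hM]; ring
  have hfs : xi s ≠ 0 := xi_ne_zero (by simp [hs]; norm_num)
  have hfs' : xi s' ≠ 0 := by rw [hs', xi_one_sub]; exact xi_ne_zero (by simp; norm_num)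
  have hlim : Tendsto (fun k => ∑ y ∈ F k, (((mult y : ℝ) * (1 / (1 + (x - y) ^ 2)) * 2 : ℝ) : ℂ))
      atTop (𝓝 (logDeriv xi s - logDeriv xi s')) := by
    rw [tendsto_iff_norm_sub_tendsto_zero]
    refine squeeze_zero' (Eventually.of_forall fun _ => norm_nonneg _) ?_ hMt
    obtain ⟨k0, hk0⟩ := exists_nat_ge (4 * (‖s - 2‖ + ‖s' - 2‖))
    filter_upwards [eventually_ge_atTop k0, eventually_ge_atTop 1] with k hk hk1
    have hk' : (k0 : ℝ) ≤ k := by exact_mod_cast hk
    have hk1' : (1 : ℝ) ≤ k := by exact_mod_cast hk1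
    have hlog : 0 ≤ Real.log (C / ‖xi 2‖ + 1) :=
      Real.log_nonneg (by have : 0 ≤ C / ‖xi 2‖ := by positivity
                          linarith only [this])
    have hMpos : 0 < M k := by
      have : 0 < Real.log (((2 * k + 3 : ℕ) : ℝ) + 1) := Real.log_pos (by push_cast; linarith only [hk1'])
      simp only [hM]; positivity
    have hL := landau xi differentiable_xi 2 h2 (R := k) (M := M k) (by linarith only [hk1']) hMpos
      (fun z hz => by
        have h3 : ‖z‖ + 1 ≤ ((2 * k + 3 : ℕ) : ℝ) := by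
          have : ‖z‖ ≤ ‖z - 2‖ + ‖(2 : ℂ)‖ := norm_le_norm_sub_add _ _
          have h22 : ‖(2 : ℂ)‖ = 2 := by simp
          push_cast; linarith only [hz, this, h22]
        refine (hC _ (by omega) z h3).trans ?_
        simp only [hM]
        rw [Real.exp_add, Real.exp_log (by positivity), mul_comm (((2 * k + 3 : ℕ) : ℝ) + 2),
          ← Real.rpow_def_of_pos (by positivity), ← mul_assoc]
        have e : ((((2 * k + 3 : ℕ) : ℝ) + 2)) = ((2 * k + 3 + 2 : ℕ) : ℝ) := by push_cast; ring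
        rw [e, Real.rpow_natCast]
        gcongr
        rw [mul_add, mul_div_cancel₀ _ h2'.ne']
        linarith only [h2'])
      ((F k).image fun y : Ord => (1 / 2 + (y : ℝ) * I : ℂ))
      (fun z hz h0 => by
        have hre := re_eq_of_xi hRH h0
        have hz' : z = 1 / 2 + (z.im : ℝ) * I := by
          apply Complex.ext <;> simp [hre]
        refine Finset.mem_image.2 ⟨⟨z.im, ?_⟩, ?_, hz'.symm⟩
        · rw [← hz']; exact (zeta_eq_zero_of_xi (by rw [hre]; norm_num) h0).2
        · simp only [hF, Set.Finite.mem_toFinset, mem_ofPred_eq]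
          rw [← hz']; exact hz.le)
      (fun z hz => by
        obtain ⟨y, hy, rfl⟩ := Finset.mem_image.1 hz
        simpa [hF] using hy)
      (s := s) (s' := s') (by linarith only [hk0, hk', norm_nonneg (s' - 2)]) (by linarith only [hk0, hk', norm_nonneg (s - 2)])
      hfs hfs'
    rw [Finset.sum_image (fun a _ b _ h => Subtype.ext (crit_injective h))] at hL
    rw [norm_sub_rev]
    refine le_trans (le_of_eq ?_) hL
    congr 2
    refine Finset.sum_congr rfl fun y _ => ?_
    have ho : analyticOrderNatAt xi (1 / 2 + (y : ℝ) * I) = mult y := by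
      rw [mult, analyticOrderNatAt, analyticOrderNatAt, order_xi (by simp)]
      intro h
      have := congrArg re h
      norm_num at this
    rw [ho]
    have e1 : s - (1 / 2 + (y : ℝ) * I) = 1 + ((x - y : ℝ) : ℂ) * I := by
      rw [hs]; push_cast; ring
    have e2 : s' - (1 / 2 + (y : ℝ) * I) = -1 + ((x - y : ℝ) : ℂ) * I := by
      rw [hs']; push_cast; ring
    rw [e1, e2]
    generalize (x - (y : ℝ)) = u
    have n1 : (1 + (u : ℂ) * I) ≠ 0 := fun h => by simpa using congrArg re h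
    have n2 : (-1 + (u : ℂ) * I) ≠ 0 := fun h => by simpa using congrArg re h
    have n3 : (1 + (u : ℂ) ^ 2) ≠ 0 := by
      have : (1 + u ^ 2 : ℝ) ≠ 0 := by positivity
      exact_mod_cast this
    push_cast
    field_simp
    ring_nf
    simp
    ring
  rw [hs', logDeriv_xi_one_sub, sub_neg_eq_add] at hlim
  have hlim2 := ((continuous_re.tendsto _).comp hlim).div_const 2
  simp only [Function.comp, re_sum, ofReal_re, ← Finset.sum_mul, ne_eq, OfNat.ofNat_ne_zero,
    not_false_eq_true, mul_div_cancel_right₀] at hlim2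
  have hnn : ∀ y : Ord, 0 ≤ (mult y : ℝ) * (1 / (1 + (x - y) ^ 2)) := fun y => by positivity
  have hsum : Summable fun y : Ord => (mult y : ℝ) * (1 / (1 + (x - y) ^ 2)) := by
    refine summable_of_sum_le hnn fun u => ge_of_tendsto hlim2 ?_
    filter_upwards [hFt.eventually (eventually_ge_atTop u)] with k hk
    exact Finset.sum_le_sum_of_subset_of_nonneg hk fun y _ _ => hnn y
  have := tendsto_nhds_unique (hsum.hasSum.comp hFt) hlim2
  rw [← this]
  exact hsum.hasSum

theorem zdata (hRH : RiemannHypothesis) : ZData zmeas := by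
  have hsum : ∀ x : ℝ, Summable fun y : Ord =>
      ((mult y : ℝ≥0∞)).toReal * ‖1 / (1 + (x - y) ^ 2)‖ := by
    intro x
    refine (hasSum_poisson hRH x).summable.congr fun y => ?_
    rw [Real.norm_of_nonneg (by positivity)]; simp
  refine ⟨fun x => integrable_sum_dirac (by simp) (hsum x),
    -Real.log Real.pi / 2 - Real.log 4 / 4, 16, fun x => ?_⟩
  have h1 : ∫ y, 1 / (1 + (x - y) ^ 2) ∂zmeas =
      (logDeriv xi (3 / 2 + x * I) + logDeriv xi (3 / 2 + (-x : ℝ) * I)).re / 2 := by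
    rw [zmeas, integral_sum_dirac (by simp), ← (hasSum_poisson hRH x).tsum_eq]
    simp
  have h2 : ∀ x : ℝ, (logDeriv xi (3 / 2 + x * I)).re = (3 / 2) / (9 / 4 + x ^ 2) +
      (1 / 2) / (1 / 4 + x ^ 2) - Real.log Real.pi / 2 +
      (digamma ((3 / 4 : ℝ) + (x / 2 : ℝ) * I)).re / 2 - Dser x := by
    intro x
    rw [logDeriv_xi (by simp; norm_num)]
    have e : (3 / 2 + x * I : ℂ) / 2 = (3 / 4 : ℝ) + (x / 2 : ℝ) * I := by push_cast; ring
    simp only [sub_re, add_re, re_LSeries, e, div_ofNat_re, ofReal_re]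
    congr 3
    congr 1
    · rw [one_div, inv_re, normSq_apply]; simp; ring
    · rw [one_div, inv_re, normSq_apply]; simp; ring
  have h3 := abs_le.1 (abs_re_digamma_sub_le (a := 3 / 4) (y := x / 2) (by norm_num) (by norm_num))
  have h4 := abs_le.1
    (abs_re_digamma_sub_le (a := 3 / 4) (y := -x / 2) (by norm_num) (by norm_num))
  have hl : Real.log ((3 / 4) ^ 2 + (x / 2) ^ 2) = Real.log (9 / 4 + x ^ 2) - Real.log 4 := by
    rw [← Real.log_div (by positivity) (by norm_num)]; congr 1; ring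
  have hl' : Real.log ((3 / 4) ^ 2 + (-x / 2) ^ 2) = Real.log (9 / 4 + x ^ 2) - Real.log 4 := by
    rw [← hl]; congr 1; ring
  have ha : |x / 2| = |x| / 2 := by rw [abs_div]; simp
  have ha' : |-x / 2| = |x| / 2 := by rw [abs_div, abs_neg]; simp
  rw [hl, ha] at h3
  rw [hl', ha'] at h4
  have hx := abs_nonneg x
  have hx2 : x ^ 2 = |x| ^ 2 := (sq_abs x).symm
  have b1 : 4 / ((3 / 4) ^ 2 * (1 + |x| / 2)) ≤ 15 / (1 + |x|) := by
    rw [div_le_div_iff₀ (by positivity) (by positivity)]; nlinarith only [hx]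
  have b2 : (3 / 2) / (9 / 4 + x ^ 2) ≤ 2 / (1 + |x|) := by
    rw [div_le_div_iff₀ (by positivity) (by positivity), hx2]; nlinarith only [sq_nonneg (|x| - 1)]
  have b3 : (1 / 2) / (1 / 4 + x ^ 2) ≤ 4 / (1 + |x|) := by
    rw [div_le_div_iff₀ (by positivity) (by positivity), hx2]; nlinarith only [sq_nonneg (|x| - 1 / 4)]
  have b4 : 0 ≤ (3 / 2) / (9 / 4 + x ^ 2) := by positivity
  have b5 : 0 ≤ (1 / 2) / (1 / 4 + x ^ 2) := by positivity
  have e16 : 16 / (1 + |x|) = 16 * (1 / (1 + |x|)) := by ring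
  have e15 : 15 / (1 + |x|) = 15 * (1 / (1 + |x|)) := by ring
  have e2 : 2 / (1 + |x|) = 2 * (1 / (1 + |x|)) := by ring
  have e4 : 4 / (1 + |x|) = 4 * (1 / (1 + |x|)) := by ring
  have b6 : 0 ≤ 1 / (1 + |x|) := by positivity
  rw [h1, add_re, h2 x, h2 (-x), Dser_neg, neg_sq, abs_le]
  constructor <;> linarith only [h3, h4, b1, b4, b5, e16, e15, b2, b3, e2, e4, h3.1, h3.2, h4.1, h4.2]

end Pool.Agent.P.MP_7eacff_nt
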